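import Mathlib

/-! Definitions: functional equations of Bernstein-Sato type, cones attached to the exponents,
lattice indices, and the topological zeta function through the formula of Denef and Loeser. -/

namespace Pool.Agent.H22

open Finset MvPolynomial

/-- `P = Σ_β p_β(x,s) ∂^β`, an element of `A_n(ℂ)[s]` written in normal form. -/
abbrev WeylS (n : ℕ) := (Fin n →₀ ℕ) →₀ MvPolynomial (Fin n) (Polynomial ℂ)

/-- `∂^β = ∂_1^{β_1} ⋯ ∂_n^{β_n}` acting on polynomials. -/
noncomputable def diffPow {n : ℕ} (β : Fin n →₀ ℕ) :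
    MvPolynomial (Fin n) ℂ →ₗ[ℂ] MvPolynomial (Fin n) ℂ :=
  ((List.finRange n).map fun j =>
    ((pderiv j : Derivation ℂ (MvPolynomial (Fin n) ℂ) (MvPolynomial (Fin n) ℂ)).toLinearMap)
      ^ (β j)).prod

/-- `P(c) g`: specialise `s = c` in `P` and apply the operator to `g`. -/
noncomputable def WeylS.act {n : ℕ} (P : WeylS n) (c : ℂ) (g : MvPolynomial (Fin n) ℂ) :
    MvPolynomial (Fin n) ℂ :=
  P.sum fun β p => MvPolynomial.map (Polynomial.evalRingHom c) p * diffPow β g

/-- The functional equation `P(s) f^{s+1} = b(s) f^s`, at all `s = k ∈ ℕ`. -/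
def FunctionalEquation {n : ℕ} (f : MvPolynomial (Fin n) ℂ) (b : Polynomial ℂ) (P : WeylS n) :
    Prop :=
  ∀ k : ℕ, P.act (k : ℂ) (f ^ (k + 1)) = C (b.eval (k : ℂ)) * f ^ k

variable {n r : ℕ}

/-- The cone `D_σ` of all real weight vectors `k ≥ 0` at which every `a_i`, `i ∈ σ`, attains
the minimum of `a_l · k` over all exponents `a_l`. -/
def minCone (a : Fin r → (Fin n →₀ ℕ)) (σ : Finset (Fin r)) : Set (Fin n → ℝ) :=
  {k | (∀ j, 0 ≤ k j) ∧ ∀ i ∈ σ, ∀ l, ∑ j, (a i j : ℝ) * k j ≤ ∑ j, (a l j : ℝ) * k j}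

/-- The closed cone spanned by finitely many vectors. -/
def closedCone {d : ℕ} (v : Fin d → Fin n → ℝ) : Set (Fin n → ℝ) :=
  {k | ∃ x : Fin d → ℝ, (∀ c, 0 ≤ x c) ∧ k = ∑ c, x c • v c}

/-- The set of all combinations with strictly positive coefficients (for linearly independent
vectors: the relative interior of the closed cone). -/
def openCone {d : ℕ} (v : Fin d → Fin n → ℝ) : Set (Fin n → ℝ) :=
  {k | ∃ x : Fin d → ℝ, (∀ c, 0 < x c) ∧ k = ∑ c, x c • v c}

/-- A vector with natural entries as a real vector. -/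
def toReal (w : Fin n → ℕ) : Fin n → ℝ := fun j => (w j : ℝ)

/-- `|w| = w_1 + ⋯ + w_n`. -/
def wsum (w : Fin n → ℕ) : ℕ := ∑ j, w j

/-- `N(w) = min_i a_i · w`. -/
noncomputable def wmin (a : Fin r → (Fin n →₀ ℕ)) (w : Fin n → ℕ) : ℕ := ⨅ i, ∑ j, a i j * w j

/-- The number of torsion elements of `ℤ^κ / ⟨v⟩`, which is the index of the lattice spanned by
the `v_i` in the group of all integral points of the real vector space spanned by them. -/
noncomputable def latIndex {κ ι : Type*} (v : ι → κ → ℤ) : ℕ :=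
  Nat.card (Submodule.torsion ℤ ((κ → ℤ) ⧸ Submodule.span ℤ (Set.range v)))

/-- The vector `(1, a_i)`. -/
def homRow (a : Fin r → (Fin n →₀ ℕ)) (i : Fin r) : Unit ⊕ Fin n → ℤ :=
  Sum.elim (fun _ => 1) (fun j => (a i j : ℤ))

/-- The normalised volume `(dim σ)! Vol(σ)` of the simplex with vertices `a_i`, `i ∈ σ`, which is
the number of torsion elements of `ℤ^{n+1} / ⟨(1, a_i) : i ∈ σ⟩`. -/
noncomputable def faceVol (a : Fin r → (Fin n →₀ ℕ)) (σ : Finset (Fin r)) : ℕ :=
  latIndex (fun i : σ => homRow a i)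

/-- The multiplicity of a simplicial cone with generators `w_c`: the index of the lattice
spanned by the generators in the group of integral points of its linear span. -/
noncomputable def coneMult {d : ℕ} (w : Fin d → Fin n → ℕ) : ℕ :=
  latIndex (fun c j => (w c j : ℤ))

/-- A decomposition of the cone `D_σ` into simplicial cones of dimension `d = n + 1 - |σ|` with
generators in `ℕ^n`: finitely many cones contained in `D_σ`, with pairwise disjoint relative
interiors, which cover `D_σ` as soon as `D_σ` contains `d` linearly independent vectors. (If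
`D_σ` does not contain `d` linearly independent vectors, the family is automatically empty.) -/
structure ConeDecomp (a : Fin r → (Fin n →₀ ℕ)) (σ : Finset (Fin r)) where
  /-- the number of cones -/
  m : ℕ
  /-- the generators of the cones -/
  w : Fin m → Fin (n + 1 - σ.card) → Fin n → ℕ
  mem : ∀ C c, toReal (w C c) ∈ minCone a σ
  indep : ∀ C, LinearIndependent ℝ (fun c => toReal (w C c))
  disj : ∀ C C', C ≠ C' →
    Disjoint (openCone fun c => toReal (w C c)) (openCone fun c => toReal (w C' c))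
  cover : (∃ v : Fin (n + 1 - σ.card) → Fin n → ℝ,
      LinearIndependent ℝ v ∧ ∀ c, v c ∈ minCone a σ) →
    ∀ k ∈ minCone a σ, ∃ C, k ∈ closedCone fun c => toReal (w C c)

/-- `J_σ(s) = Σ_C mult(C) ∏_c 1 / (|w_c| + N(w_c) s)`, the sum over the cones `C` of the
decomposition of `D_σ`, the product over the generators `w_c` of `C`. -/
noncomputable def Jfun (a : Fin r → (Fin n →₀ ℕ)) (σ : Finset (Fin r)) (𝒟 : ConeDecomp a σ) :
    RatFunc ℂ :=
  ∑ C, (coneMult (𝒟.w C) : RatFunc ℂ) *
    ∏ c, ((wsum (𝒟.w C c) : RatFunc ℂ) + (wmin a (𝒟.w C c) : RatFunc ℂ) * RatFunc.X)⁻¹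

/-- The global topological zeta function of a polynomial whose exponents `a_1, …, a_r` are
affinely independent, by the formula of Denef and Loeser:
`Z(s) = Σ_{|σ| = 1} J_σ(s) + (s / (s+1)) Σ_{|σ| ≥ 2} (-1)^{dim σ} (dim σ)! Vol(σ) J_σ(s)`. -/
noncomputable def topZeta (a : Fin r → (Fin n →₀ ℕ)) (𝒟 : ∀ σ, ConeDecomp a σ) : RatFunc ℂ :=
  ∑ i, Jfun a {i} (𝒟 {i}) +
    RatFunc.X / (RatFunc.X + 1) * ∑ σ ∈ univ.filter (fun σ : Finset (Fin r) => 2 ≤ σ.card),
      (-1) ^ (σ.card - 1) * (faceVol a σ : RatFunc ℂ) * Jfun a σ (𝒟 σ)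

end Pool.Agent.H22
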