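import Pool.Agent.H22.Lim1
import Pool.Agent.H22.Defs

/-! The limit of the functional along shrinking bumps. -/

namespace Pool.Agent.H22

open MvPolynomial Finset MeasureTheory Filter Topology

variable {n r : ℕ}

/-- scaling of the second block of variables -/
noncomputable def scx {δ ι : Type*} (lam : ℝ) (x : δ ⊕ ι → ℝ) : δ ⊕ ι → ℝ :=
  Sum.elim (fun c => x (Sum.inl c)) (fun i => lam * x (Sum.inr i))

lemma scale_change {κ δ ι : Type*} [Fintype κ] [DecidableEq κ] [Fintype δ] [DecidableEq δ]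
    [Fintype ι] [DecidableEq ι]
    (A : Matrix κ (δ ⊕ ι) ℝ) (e : κ ≃ δ ⊕ ι) (hdet : (A.submatrix id e).det ≠ 0) {lam : ℝ}
    (hlam : 0 < lam) (G : (κ → ℝ) → ℂ) :
    ∫ z, G z = ((|(A.submatrix id e).det| : ℝ) : ℂ) * (lam : ℂ) ^ (Fintype.card ι) *
      ∫ x : δ ⊕ ι → ℝ, G (A.mulVec (scx lam x)) := by
  set D : δ ⊕ ι → ℝ := Sum.elim (fun _ => 1) (fun _ => lam) with hD
  set B := A * Matrix.diagonal D with hB
  have h1 : (B.submatrix id e).det = (A.submatrix id e).det * lam ^ (Fintype.card ι) := by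
    have : B.submatrix id e = A.submatrix id e * Matrix.diagonal (fun k => D (e k)) := by
      ext i j
      simp [hB, Matrix.mul_diagonal]
    rw [this, Matrix.det_mul, Matrix.det_diagonal]
    congr 1
    rw [e.prod_comp (fun k => D k), Fintype.prod_sum_type]
    simp [hD]
  have h2 : ∀ x, B.mulVec x = A.mulVec (scx lam x) := by
    intro x
    rw [hB, ← Matrix.mulVec_mulVec]
    congr 1
    funext k
    rw [Matrix.mulVec_diagonal]
    rcases k with k | k <;> simp [hD, scx]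
  have h3 : (B.submatrix id e).det ≠ 0 := by
    rw [h1]; exact mul_ne_zero hdet (pow_ne_zero _ hlam.ne')
  rw [change_var B e h3, h1, abs_mul, abs_of_pos (pow_pos hlam _)]
  simp only [h2]
  push_cast
  ring

lemma inv_bound {κ τ : Type*} [Fintype κ] [DecidableEq κ] [Fintype τ] (A : Matrix κ τ ℝ)
    (e : κ ≃ τ) (hdet : (A.submatrix id e).det ≠ 0) :
    ∃ M : ℝ, 0 < M ∧ ∀ (y : τ → ℝ) (k : τ), |y k| ≤ M * ∑ j, |(A.mulVec y) j| := by
  set Q := A.submatrix id e with hQ
  have hu : IsUnit Q.det := isUnit_iff_ne_zero.mpr hdet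
  refine ⟨1 + ∑ k, ∑ j, |Q⁻¹ k j|, by positivity, fun y k => ?_⟩
  have h1 : A.mulVec y = Q.mulVec (fun k => y (e k)) := by
    funext j
    simp only [Matrix.mulVec, dotProduct, hQ, Matrix.submatrix_apply, id]
    exact (e.sum_comp (fun k => A j k * y k)).symm
  have h2 : (fun k => y (e k)) = Q⁻¹.mulVec (A.mulVec y) := by
    rw [h1, Matrix.mulVec_mulVec, Matrix.nonsing_inv_mul Q hu, Matrix.one_mulVec]
  have h3 : y k = ∑ j, Q⁻¹ (e.symm k) j * (A.mulVec y) j := by
    have := congrFun h2 (e.symm k)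
    simpa [Matrix.mulVec, dotProduct] using this
  rw [h3]
  refine (Finset.abs_sum_le_sum_abs _ _).trans ?_
  rw [Finset.mul_sum]
  refine Finset.sum_le_sum fun j _ => ?_
  rw [abs_mul]
  refine mul_le_mul_of_nonneg_right ?_ (abs_nonneg _)
  have h4 : |Q⁻¹ (e.symm k) j| ≤ ∑ j, |Q⁻¹ (e.symm k) j| :=
    Finset.single_le_sum (f := fun j => |Q⁻¹ (e.symm k) j|) (fun _ _ => abs_nonneg _)
      (Finset.mem_univ j)
  have h5 : ∑ j, |Q⁻¹ (e.symm k) j| ≤ ∑ k, ∑ j, |Q⁻¹ k j| :=
    Finset.single_le_sum (f := fun k => ∑ j, |Q⁻¹ k j|)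
      (fun _ _ => Finset.sum_nonneg fun _ _ => abs_nonneg _) (Finset.mem_univ (e.symm k))
  linarith

lemma ae_form_ne {τ : Type*} [Fintype τ] (B : τ → ℝ) (hB : B ≠ 0) :
    ∀ᵐ x : τ → ℝ, ∑ k, B k * x k ≠ 0 := by
  classical
  let L : (τ → ℝ) →ₗ[ℝ] ℝ :=
    { toFun := fun x => ∑ k, B k * x k
      map_add' := fun x y => by
        rw [← Finset.sum_add_distrib]
        exact Finset.sum_congr rfl fun k _ => by simp; ring
      map_smul' := fun c x => by
        simp only [RingHom.id_apply, smul_eq_mul]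
        rw [Finset.mul_sum]
        exact Finset.sum_congr rfl fun k _ => by simp; ring }
  have hker : LinearMap.ker L ≠ ⊤ := by
    intro h
    apply hB
    funext k
    have h1 : L (Pi.single k 1) = 0 := by
      have : (Pi.single k 1 : τ → ℝ) ∈ LinearMap.ker L := by rw [h]; trivial
      exact this
    have h2 : L (Pi.single k 1) = B k := by
      change ∑ l, B l * (Pi.single k 1 : τ → ℝ) l = B k
      rw [Finset.sum_eq_single k]
      · simp
      · intro l _ hl; simp [hl]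
      · intro h; exact absurd (Finset.mem_univ _) h
    rw [← h2, h1]; rfl
  have := Measure.addHaar_submodule volume (LinearMap.ker L) hker
  rw [measure_eq_zero_iff_ae_notMem] at this
  filter_upwards [this] with x hx h
  exact hx h

lemma gz_exp_bound {η : ℝ → ℝ} {C0 : ℝ} (hC : ∀ x, |η x| ≤ C0) (h0 : ∀ x < 1, η x = 0)
    {s : ℝ} (_hs : 0 < s) (z : Kap n → ℝ) :
    |gz η s z| ≤ C0 * Real.exp (-(min s 1) * ∑ k, |z k|) := by
  have hC0 : 0 ≤ C0 := (abs_nonneg _).trans (hC 0)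
  refine (gz_bound hC h0 s z).trans ?_
  refine mul_le_mul_of_nonneg_left ?_ hC0
  rw [Finset.mul_sum, Real.exp_sum]
  refine Finset.prod_le_prod (fun k _ => ?_) (fun k _ => ?_)
  · rcases k with k | k
    · simp only [Sum.elim_inl]; split_ifs <;> positivity
    · exact expo0_nonneg _
  · rcases k with k | k
    · simp only [Sum.elim_inl]
      split_ifs with h
      · rw [abs_of_nonpos (by linarith)]
        apply Real.exp_le_exp.mpr
        have := min_le_left s 1
        nlinarith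
      · positivity
    · simp only [Sum.elim_inr]
      unfold expo0
      split_ifs with h
      · rw [abs_of_nonneg h]
        apply Real.exp_le_exp.mpr
        have := min_le_right s 1
        nlinarith
      · positivity

/-- the matrix `A` gives coordinates in which the forms of `σ` are the last coordinates -/
def Adm (a : Fin r → (Fin n →₀ ℕ)) (σ : Finset (Fin r)) {d : ℕ}
    (A : Matrix (Kap n) (Fin d ⊕ σ) ℝ) : Prop :=
  ∀ (x : Fin d ⊕ σ → ℝ) (i : σ), ell a i (A.mulVec x) = x (Sum.inr i)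

/-- majorant -/
noncomputable def bndF {d : ℕ} (σ : Finset (Fin r)) (ε R : ℝ) (x : Fin d ⊕ σ → ℝ) : ℝ :=
  ∏ k, (Sum.elim (fun _ => fun u : ℝ => Real.exp (-ε * |u|))
    (fun _ => fun u : ℝ => if |u| ≤ R then 1 else 0) k : ℝ → ℝ) (x k)

lemma bndF_integrable {d : ℕ} (σ : Finset (Fin r)) {ε : ℝ} (hε : 0 < ε) (R : ℝ) :
    Integrable (bndF (d := d) σ ε R) := by
  unfold bndF
  apply Integrable.fintype_prod
  intro k
  rcases k with k | k
  · simp only [Sum.elim_inl]
    have h1 : Integrable (fun u : ℝ => (if 0 ≤ u then Real.exp (-ε * u) else 0) +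
        (if 0 ≤ -u then Real.exp (-ε * (-u)) else 0)) :=
      (integrable_exp_Ici hε).add (integrable_exp_Ici hε).comp_neg
    refine Integrable.mono' h1 (by fun_prop) (Filter.Eventually.of_forall fun u => ?_)
    rw [Real.norm_eq_abs, abs_of_pos (Real.exp_pos _)]
    rcases le_total 0 u with h | h
    · rw [if_pos h, abs_of_nonneg h]
      have : (0 : ℝ) ≤ (if 0 ≤ -u then Real.exp (-ε * (-u)) else 0) := by
        split_ifs <;> positivity
      linarith
    · rw [if_pos (show 0 ≤ -u by linarith), abs_of_nonpos h]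
      have : (0 : ℝ) ≤ (if 0 ≤ u then Real.exp (-ε * u) else 0) := by
        split_ifs <;> positivity
      linarith
  · simp only [Sum.elim_inr]
    have : (fun u : ℝ => if |u| ≤ R then (1 : ℝ) else 0) =
        (Set.Icc (-R) R).indicator (fun _ => (1 : ℝ)) := by
      funext u
      by_cases h : |u| ≤ R
      · rw [if_pos h, Set.indicator_of_mem (by rwa [Set.mem_Icc, ← abs_le])]
      · rw [if_neg h, Set.indicator_of_notMem (by rwa [Set.mem_Icc, ← abs_le])]
    rw [this, integrable_indicator_iff measurableSet_Icc]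
    simp

lemma gz_adm_bound {η : ℝ → ℝ} {C0 : ℝ} (hC : ∀ x, |η x| ≤ C0) (h0 : ∀ x < 1, η x = 0)
    {s : ℝ} (hs : 0 < s) {d : ℕ} {σ : Finset (Fin r)} (A : Matrix (Kap n) (Fin d ⊕ σ) ℝ)
    (e : Kap n ≃ Fin d ⊕ σ) (hdet : (A.submatrix id e).det ≠ 0) :
    ∃ ε : ℝ, 0 < ε ∧ ∀ (lam : ℝ) (x : Fin d ⊕ σ → ℝ),
      |gz η s (A.mulVec (scx lam x))| ≤ C0 * ∏ c : Fin d, Real.exp (-ε * |x (Sum.inl c)|) := by
  obtain ⟨M, hM, hb⟩ := inv_bound A e hdet
  have hC0 : 0 ≤ C0 := (abs_nonneg _).trans (hC 0)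
  have hm : 0 < min s 1 := lt_min hs one_pos
  refine ⟨min s 1 / (d * M + 1), by positivity, fun lam x => ?_⟩
  refine (gz_exp_bound hC h0 hs _).trans ?_
  refine mul_le_mul_of_nonneg_left ?_ hC0
  rw [← Real.exp_sum]
  apply Real.exp_le_exp.mpr
  rw [← Finset.mul_sum, neg_mul, neg_mul, neg_le_neg_iff]
  set S := ∑ k, |(A.mulVec (scx lam x)) k| with hS
  have hS0 : 0 ≤ S := Finset.sum_nonneg fun _ _ => abs_nonneg _
  have h1 : ∑ c : Fin d, |x (Sum.inl c)| ≤ d * M * S := by
    calc ∑ c : Fin d, |x (Sum.inl c)| ≤ ∑ _c : Fin d, M * S := by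
          refine Finset.sum_le_sum fun c _ => ?_
          exact hb (scx lam x) (Sum.inl c)
      _ = d * M * S := by simp; ring
  calc min s 1 / (d * M + 1) * ∑ c : Fin d, |x (Sum.inl c)|
      ≤ min s 1 / (d * M + 1) * (d * M * S) := by
        apply mul_le_mul_of_nonneg_left h1 (by positivity)
    _ = min s 1 * S * (d * M / (d * M + 1)) := by field_simp
    _ ≤ min s 1 * S * 1 := by
        apply mul_le_mul_of_nonneg_left _ (by positivity)
        rw [div_le_one (by positivity)]; linarith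
    _ = min s 1 * S := by ring

lemma Gz_adm_bound (a : Fin r → (Fin n →₀ ℕ)) {σ : Finset (Fin r)} {ρ : Fin r → ℝ → ℂ}
    {R : ℝ} (hρ : IsBump ρ (-R) R) {η : ℝ → ℝ} {C0 : ℝ} (hC : ∀ x, |η x| ≤ C0)
    (h0 : ∀ x < 1, η x = 0) {s : ℝ} (hs : 0 < s) {d : ℕ} (A : Matrix (Kap n) (Fin d ⊕ σ) ℝ)
    (e : Kap n ≃ Fin d ⊕ σ) (hdet : (A.submatrix id e).det ≠ 0) (hA : Adm a σ A) :
    ∃ ε C1 : ℝ, 0 < ε ∧ 0 ≤ C1 ∧ ∀ (lam : ℝ), 0 < lam → ∀ (x : Fin d ⊕ σ → ℝ),
      ‖Gz a σ ρ η s lam (A.mulVec (scx lam x))‖ ≤ C1 * bndF σ ε R x := by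
  obtain ⟨ε, hε, hb⟩ := gz_adm_bound hC h0 hs A e hdet
  obtain ⟨C1, hC1, hq⟩ := qf_bound σ hρ
  have hC0 : 0 ≤ C0 := (abs_nonneg _).trans (hC 0)
  refine ⟨ε, C0 * C1 ^ r, hε, by positivity, fun lam hlam x => ?_⟩
  unfold Gz bndF
  rw [norm_mul, Complex.norm_real, Real.norm_eq_abs, Fintype.prod_sum_type]
  simp only [Sum.elim_inl, Sum.elim_inr]
  by_cases hx : ∀ i : σ, |x (Sum.inr i)| ≤ R
  · have h1 : ∏ i : σ, (if |x (Sum.inr i)| ≤ R then (1 : ℝ) else 0) = 1 :=
      Finset.prod_eq_one fun i _ => if_pos (hx i)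
    rw [h1, mul_one]
    calc _ ≤ (C0 * ∏ c : Fin d, Real.exp (-ε * |x (Sum.inl c)|)) * C1 ^ r := by
          apply mul_le_mul (hb lam x) _ (norm_nonneg _) (by positivity)
          rw [norm_prod]
          calc _ ≤ ∏ _i : Fin r, C1 :=
                Finset.prod_le_prod (fun i _ => norm_nonneg _) (fun i _ => hq i _)
            _ = C1 ^ r := by simp
      _ = _ := by ring
  · push Not at hx
    obtain ⟨i, hi⟩ := hx
    have h1 : ∏ i, qf σ ρ i (-(lam⁻¹ * ell a i (A.mulVec (scx lam x)))) = 0 := by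
      apply Finset.prod_eq_zero (Finset.mem_univ (i : Fin r))
      unfold qf
      rw [if_pos i.2, hA]
      simp only [scx, Sum.elim_inr]
      rw [← mul_assoc, inv_mul_cancel₀ hlam.ne', one_mul]
      apply hρ.supp
      rw [Set.mem_Icc]
      rintro ⟨h2, h3⟩
      rw [lt_abs] at hi
      rcases hi with hi | hi <;> linarith
    rw [h1, norm_zero, mul_zero]
    apply mul_nonneg (by positivity)
    apply mul_nonneg
    · positivity
    · exact Finset.prod_nonneg fun i _ => by split_ifs <;> norm_num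

lemma mulVec_scx {d : ℕ} {σ : Finset (Fin r)} (A : Matrix (Kap n) (Fin d ⊕ σ) ℝ) (lam : ℝ)
    (x : Fin d ⊕ σ → ℝ) (k : Kap n) :
    (A.mulVec (scx lam x)) k = (A.mulVec (Sum.elim (fun c => x (Sum.inl c)) 0)) k +
      lam * ∑ i, A k (Sum.inr i) * x (Sum.inr i) := by
  simp only [Matrix.mulVec, dotProduct, scx, Fintype.sum_sum_type, Sum.elim_inl, Sum.elim_inr,
    Pi.zero_apply, mul_zero, Finset.sum_const_zero, add_zero]
  congr 1
  rw [Finset.mul_sum]
  exact Finset.sum_congr rfl fun i _ => by ring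

lemma mulVec_scx_tendsto {d : ℕ} {σ : Finset (Fin r)} (A : Matrix (Kap n) (Fin d ⊕ σ) ℝ)
    (x : Fin d ⊕ σ → ℝ) (k : Kap n) :
    Tendsto (fun lam : ℝ => (A.mulVec (scx lam x)) k) (𝓝[>] 0)
      (𝓝 ((A.mulVec (Sum.elim (fun c => x (Sum.inl c)) 0)) k)) := by
  simp only [mulVec_scx A _ x k]
  have h : Continuous (fun lam : ℝ => (A.mulVec (Sum.elim (fun c => x (Sum.inl c)) 0)) k +
      lam * ∑ i, A k (Sum.inr i) * x (Sum.inr i)) := by fun_prop
  have := (h.tendsto 0).mono_left (nhdsWithin_le_nhds (s := Set.Ioi 0))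
  simpa using this

lemma expo0_tendsto {f : ℝ → ℝ} {L : Filter ℝ} {u : ℝ} (hf : Tendsto f L (𝓝 u))
    (h : u ≠ 0 ∨ ∀ᶠ t in L, 0 ≤ f t) : Tendsto (fun t => expo0 (f t)) L (𝓝 (expo0 u)) := by
  have hexp : Tendsto (fun t => Real.exp (-(f t))) L (𝓝 (Real.exp (-u))) :=
    (Real.continuous_exp.tendsto _).comp hf.neg
  rcases lt_trichotomy u 0 with hu | hu | hu
  · have h1 : expo0 u = 0 := by unfold expo0; rw [if_neg (by linarith)]
    rw [h1]
    refine tendsto_const_nhds.congr' ?_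
    filter_upwards [hf.eventually (gt_mem_nhds hu)] with t ht
    unfold expo0; rw [if_neg (by linarith)]
  · have h2 : ∀ᶠ t in L, 0 ≤ f t := by
      rcases h with h | h
      · exact absurd hu h
      · exact h
    have h1 : expo0 u = Real.exp (-u) := by unfold expo0; rw [if_pos hu.ge]
    rw [h1]
    refine hexp.congr' ?_
    filter_upwards [h2] with t ht
    unfold expo0; rw [if_pos ht]
  · have h1 : expo0 u = Real.exp (-u) := by unfold expo0; rw [if_pos hu.le]
    rw [h1]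
    refine hexp.congr' ?_
    filter_upwards [hf.eventually (lt_mem_nhds hu)] with t ht
    unfold expo0; rw [if_pos ht.le]

/-- the limiting integrand -/
noncomputable def Tk (a : Fin r → (Fin n →₀ ℕ)) (σ : Finset (Fin r)) {d : ℕ}
    (A : Matrix (Kap n) (Fin d ⊕ σ) ℝ) (η : ℝ → ℝ) (s : ℝ) (p : Fin d → ℝ) : ℝ :=
  gz η s (A.mulVec (Sum.elim p 0)) *
    ∏ l ∈ σᶜ, (if 0 ≤ ell a l (A.mulVec (Sum.elim p 0)) then 1 else 0)

/-- the limiting integrand in all variables -/
noncomputable def G0 (a : Fin r → (Fin n →₀ ℕ)) (σ : Finset (Fin r)) {d : ℕ}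
    (A : Matrix (Kap n) (Fin d ⊕ σ) ℝ) (ρ : Fin r → ℝ → ℂ) (η : ℝ → ℝ) (s : ℝ)
    (x : Fin d ⊕ σ → ℝ) : ℂ :=
  (Tk a σ A η s (fun c => x (Sum.inl c)) : ℂ) * (∏ l ∈ σᶜ, ∫ u, ρ l u) *
    ∏ i : σ, ρ i (-(x (Sum.inr i)))

lemma Gz_scx (a : Fin r → (Fin n →₀ ℕ)) {σ : Finset (Fin r)} {d : ℕ}
    {A : Matrix (Kap n) (Fin d ⊕ σ) ℝ} (hA : Adm a σ A) (ρ : Fin r → ℝ → ℂ) (η : ℝ → ℝ) (s : ℝ)
    {lam : ℝ} (hlam : 0 < lam) (x : Fin d ⊕ σ → ℝ) :
    Gz a σ ρ η s lam (A.mulVec (scx lam x)) =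
      (gz η s (A.mulVec (scx lam x)) : ℂ) *
        (∏ l ∈ σᶜ, Hh (ρ l) (-(lam⁻¹ * ell a l (A.mulVec (scx lam x))))) *
        ∏ i : σ, ρ i (-(x (Sum.inr i))) := by
  unfold Gz
  rw [← Finset.prod_mul_prod_compl σ, mul_assoc]
  congr 1
  rw [mul_comm]
  congr 1
  · refine Finset.prod_congr rfl fun l hl => ?_
    unfold qf
    rw [if_neg (Finset.mem_compl.mp hl)]
  · rw [← Finset.prod_coe_sort]
    refine Finset.prod_congr rfl fun i _ => ?_
    unfold qf
    rw [if_pos i.2, hA]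
    simp only [scx, Sum.elim_inr]
    rw [← mul_assoc, inv_mul_cancel₀ hlam.ne', one_mul]

lemma Gz_tendsto (a : Fin r → (Fin n →₀ ℕ)) {σ : Finset (Fin r)} {d : ℕ}
    {A : Matrix (Kap n) (Fin d ⊕ σ) ℝ} (hA : Adm a σ A) {ρ : Fin r → ℝ → ℂ} {R : ℝ}
    (hρ : IsBump ρ (-R) R) {η : ℝ → ℝ} (hη : Continuous η) (s : ℝ)
    (hpos : ∀ j : Fin n, (∀ c, A (Sum.inr j) (Sum.inl c) = 0) → ∀ x : Fin d ⊕ σ → ℝ,
      (∀ i : σ, ρ i (-(x (Sum.inr i))) ≠ 0) → 0 ≤ ∑ i : σ, A (Sum.inr j) (Sum.inr i) * x (Sum.inr i))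
    (x : Fin d ⊕ σ → ℝ)
    (hx1 : ∀ j : Fin n, (∀ c, A (Sum.inr j) (Sum.inl c) = 0) ∨
      (A.mulVec (Sum.elim (fun c => x (Sum.inl c)) 0)) (Sum.inr j) ≠ 0)
    (hx2 : ∀ l ∉ σ, ell a l (A.mulVec (Sum.elim (fun c => x (Sum.inl c)) 0)) ≠ 0) :
    Tendsto (fun lam => Gz a σ ρ η s lam (A.mulVec (scx lam x))) (𝓝[>] 0)
      (𝓝 (G0 a σ A ρ η s x)) := by
  have hself : ∀ᶠ lam : ℝ in 𝓝[>] 0, 0 < lam := self_mem_nhdsWithin
  by_cases hz : ∃ i : σ, ρ i (-(x (Sum.inr i))) = 0
  · obtain ⟨i, hi⟩ := hz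
    have h0 : ∏ i : σ, ρ i (-(x (Sum.inr i))) = 0 := Finset.prod_eq_zero (Finset.mem_univ i) hi
    have h1 : G0 a σ A ρ η s x = 0 := by unfold G0; rw [h0, mul_zero]
    rw [h1]
    refine tendsto_const_nhds.congr' ?_
    filter_upwards [hself] with lam hlam
    rw [Gz_scx a hA ρ η s hlam, h0, mul_zero]
  · push Not at hz
    have hev : (fun lam => (gz η s (A.mulVec (scx lam x)) : ℂ) *
        (∏ l ∈ σᶜ, Hh (ρ l) (-(lam⁻¹ * ell a l (A.mulVec (scx lam x))))) *
        ∏ i : σ, ρ i (-(x (Sum.inr i)))) =ᶠ[𝓝[>] 0]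
        (fun lam => Gz a σ ρ η s lam (A.mulVec (scx lam x))) := by
      filter_upwards [hself] with lam hlam
      rw [Gz_scx a hA ρ η s hlam]
    refine Tendsto.congr' hev ?_
    unfold G0
    refine Tendsto.mul ?_ tendsto_const_nhds
    have hT : ((Tk a σ A η s (fun c => x (Sum.inl c)) : ℝ) : ℂ) * (∏ l ∈ σᶜ, ∫ u, ρ l u) =
        ((gz η s (A.mulVec (Sum.elim (fun c => x (Sum.inl c)) 0)) : ℝ) : ℂ) *
        ∏ l ∈ σᶜ, (if 0 ≤ ell a l (A.mulVec (Sum.elim (fun c => x (Sum.inl c)) 0)) then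
          ∫ u, ρ l u else 0) := by
      unfold Tk
      push_cast
      rw [mul_assoc, ← Finset.prod_mul_distrib]
      congr 1
      refine Finset.prod_congr rfl fun l _ => ?_
      split_ifs <;> simp
    rw [hT]
    refine Tendsto.mul ?_ (tendsto_finsetProd _ fun l hl => ?_)
    · refine (Complex.continuous_ofReal.tendsto _).comp ?_
      unfold gz
      refine Tendsto.mul (Tendsto.mul ?_ ?_) (tendsto_finsetProd _ fun j _ => ?_)
      · exact (hη.tendsto _).comp (mulVec_scx_tendsto A x (Sum.inl ())).neg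
      · exact (Real.continuous_exp.tendsto _).comp
          ((mulVec_scx_tendsto A x (Sum.inl ())).const_mul s)
      · refine expo0_tendsto (mulVec_scx_tendsto A x (Sum.inr j)) ?_
        rcases hx1 j with h | h
        · right
          filter_upwards [hself] with lam hlam
          rw [mulVec_scx]
          have h2 : (A.mulVec (Sum.elim (fun c => x (Sum.inl c)) 0)) (Sum.inr j) = 0 := by
            simp [Matrix.mulVec, dotProduct, h]
          rw [h2, zero_add]
          exact mul_nonneg hlam.le (hpos j h x hz)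
        · left; exact h
    · have hl' := Finset.mem_compl.mp hl
      have hell : Tendsto (fun lam : ℝ => ell a l (A.mulVec (scx lam x))) (𝓝[>] 0)
          (𝓝 (ell a l (A.mulVec (Sum.elim (fun c => x (Sum.inl c)) 0)))) := by
        unfold ell
        exact (tendsto_finsetSum _ fun j _ => (mulVec_scx_tendsto A x _).const_mul _).add
          (mulVec_scx_tendsto A x _)
      have hinv : Tendsto (fun lam : ℝ => lam⁻¹) (𝓝[>] 0) atTop := tendsto_inv_nhdsGT_zero
      rcases lt_or_gt_of_ne (hx2 l hl') with h | h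
      · rw [if_neg (by linarith)]
        have h2 := (hinv.atTop_mul_neg h hell)
        refine tendsto_const_nhds.congr' ?_
        filter_upwards [h2.eventually (eventually_lt_atBot (-R))] with lam hlam
        rw [Hh_of_gt (hρ.supp l) (by linarith)]
      · rw [if_pos h.le]
        have h2 := (hinv.atTop_mul_pos h hell)
        refine tendsto_const_nhds.congr' ?_
        filter_upwards [h2.eventually (eventually_ge_atTop R)] with lam hlam
        rw [Hh_of_le (hρ.supp l) (by linarith)]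

lemma ell_mulVec (a : Fin r → (Fin n →₀ ℕ)) (l : Fin r) {τ : Type*} [Fintype τ]
    (A : Matrix (Kap n) τ ℝ) (x : τ → ℝ) :
    ell a l (A.mulVec x) = ∑ k, ell a l (fun z => A z k) * x k := by
  unfold ell
  simp only [Matrix.mulVec, dotProduct, add_mul, Finset.sum_mul, Finset.sum_add_distrib,
    Finset.mul_sum]
  rw [Finset.sum_comm]
  congr 1
  refine Finset.sum_congr rfl fun k _ => Finset.sum_congr rfl fun j _ => ?_
  ring

lemma continuous_mulVec' {κ τ : Type*} [Fintype τ] (A : Matrix κ τ ℝ) :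
    Continuous (fun x : τ → ℝ => A.mulVec x) := by
  refine continuous_pi fun k => ?_
  simp only [Matrix.mulVec, dotProduct]
  fun_prop

lemma continuous_scx {δ ι : Type*} (lam : ℝ) :
    Continuous (fun x : δ ⊕ ι → ℝ => scx lam x) := by
  refine continuous_pi fun k => ?_
  rcases k with k | k
  · simp only [scx, Sum.elim_inl]; fun_prop
  · simp only [scx, Sum.elim_inr]; fun_prop

/-- The limit of the functionals. -/
theorem Lam_tendsto (a : Fin r → (Fin n →₀ ℕ)) {σ : Finset (Fin r)} {d : ℕ}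
    {A : Matrix (Kap n) (Fin d ⊕ σ) ℝ} (e : Kap n ≃ Fin d ⊕ σ)
    (hdet : (A.submatrix id e).det ≠ 0) (hA : Adm a σ A)
    (hL : ∀ l ∉ σ, ∃ c : Fin d, ell a l (fun z => A z (Sum.inl c)) ≠ 0)
    {ρ : Fin r → ℝ → ℂ} {R : ℝ} (hρ : IsBump ρ (-R) R) {s : ℝ} (hs : 0 < s) (j : ℕ)
    (hpos : ∀ j : Fin n, (∀ c, A (Sum.inr j) (Sum.inl c) = 0) → ∀ x : Fin d ⊕ σ → ℝ,
      (∀ i : σ, ρ i (-(x (Sum.inr i))) ≠ 0) →
        0 ≤ ∑ i : σ, A (Sum.inr j) (Sum.inr i) * x (Sum.inr i))
    (hint : ∀ i, ∫ u, ρ i u = 1) :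
    Tendsto (fun lam : ℝ => ((lam : ℂ) ^ r)⁻¹ * Lam a σ (scB ρ lam) s j 0) (𝓝[>] 0)
      (𝓝 ((|(A.submatrix id e).det| * ∫ p : Fin d → ℝ, Tk a σ A (etaF j) s p : ℝ) : ℂ)) := by
  obtain ⟨C0, hC00, hC0⟩ := etaF_bound j
  have hself : ∀ᶠ lam : ℝ in 𝓝[>] 0, 0 < lam := self_mem_nhdsWithin
  obtain ⟨ε, C1, hε, hC1, hb⟩ := Gz_adm_bound a hρ hC0 (etaF_zero_lt j) hs A e hdet hA
  -- almost every point is good
  have hgood : ∀ᵐ x : Fin d ⊕ σ → ℝ,
      (∀ j : Fin n, (∀ c, A (Sum.inr j) (Sum.inl c) = 0) ∨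
        (A.mulVec (Sum.elim (fun c => x (Sum.inl c)) 0)) (Sum.inr j) ≠ 0) ∧
      (∀ l ∉ σ, ell a l (A.mulVec (Sum.elim (fun c => x (Sum.inl c)) 0)) ≠ 0) := by
    rw [Filter.eventually_and]
    constructor
    · rw [ae_all_iff]
      intro j
      by_cases h : ∀ c, A (Sum.inr j) (Sum.inl c) = 0
      · exact Filter.Eventually.of_forall fun x => Or.inl h
      · push Not at h
        obtain ⟨c, hc⟩ := h
        have hB : (Sum.elim (fun c => A (Sum.inr j) (Sum.inl c)) 0 : Fin d ⊕ σ → ℝ) ≠ 0 := by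
          intro h0
          exact hc (congrFun h0 (Sum.inl c))
        filter_upwards [ae_form_ne _ hB] with x hx
        right
        intro h0
        apply hx
        rw [← h0]
        simp [Matrix.mulVec, dotProduct]
    · rw [ae_all_iff]
      intro l
      by_cases hl : l ∈ σ
      · exact Filter.Eventually.of_forall fun x h => absurd hl h
      · obtain ⟨c, hc⟩ := hL l hl
        have hB : (Sum.elim (fun c => ell a l (fun z => A z (Sum.inl c))) 0 :
            Fin d ⊕ σ → ℝ) ≠ 0 := by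
          intro h0
          exact hc (congrFun h0 (Sum.inl c))
        filter_upwards [ae_form_ne _ hB] with x hx _
        rw [ell_mulVec]
        intro h0
        apply hx
        rw [← h0]
        simp
  have hlim : Tendsto (fun lam : ℝ => ∫ x : Fin d ⊕ σ → ℝ,
      Gz a σ ρ (etaF j) s lam (A.mulVec (scx lam x))) (𝓝[>] 0)
      (𝓝 (∫ x : Fin d ⊕ σ → ℝ, G0 a σ A ρ (etaF j) s x)) := by
    refine tendsto_integral_filter_of_dominated_convergence (fun x => C1 * bndF σ ε R x)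
      ?_ ?_ ((bndF_integrable σ hε R).const_mul _) ?_
    · filter_upwards with lam
      exact ((Gz_measurable a σ hρ (etaF_continuous j) s lam).comp
        ((continuous_mulVec' A).comp (continuous_scx lam)).measurable).aestronglyMeasurable
    · filter_upwards [hself] with lam hlam
      exact Filter.Eventually.of_forall fun x => hb lam hlam x
    · filter_upwards [hgood] with x hx
      exact Gz_tendsto a hA hρ (etaF_continuous j) s hpos x hx.1 hx.2
  -- the limit function is integrable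
  have hG0i : Integrable (G0 a σ A ρ (etaF j) s) := by
    refine Integrable.mono' ((bndF_integrable σ hε R).const_mul C1) ?_ ?_
    · apply Measurable.aestronglyMeasurable
      unfold G0 Tk
      have hm1 : Measurable (fun x : Fin d ⊕ σ → ℝ =>
          A.mulVec (Sum.elim (fun c => x (Sum.inl c)) (0 : σ → ℝ))) := by
        apply Continuous.measurable
        refine (continuous_mulVec' A).comp ?_
        refine continuous_pi fun k => ?_
        rcases k with k | k
        · simp only [Sum.elim_inl]; fun_prop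
        · simp only [Sum.elim_inr]; fun_prop
      refine Measurable.mul (Measurable.mul ?_ measurable_const) ?_
      · refine Complex.measurable_ofReal.comp (Measurable.mul ?_ ?_)
        · exact (gz_measurable (etaF_continuous j) s).comp hm1
        · apply Finset.measurable_fun_prod
          intro l _
          exact Measurable.ite (measurableSet_le measurable_const
            ((ell_measurable a l).comp hm1)) measurable_const measurable_const
      · apply Finset.measurable_fun_prod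
        intro i _
        exact (hρ.smooth i).continuous.measurable.comp (measurable_pi_apply _).neg
    · filter_upwards [hgood] with x hx
      refine le_of_tendsto (Gz_tendsto a hA hρ (etaF_continuous j) s hpos x hx.1 hx.2).norm ?_
      filter_upwards [hself] with lam hlam
      exact hb lam hlam x
  have hval : ∫ x : Fin d ⊕ σ → ℝ, G0 a σ A ρ (etaF j) s x =
      ((∫ p : Fin d → ℝ, Tk a σ A (etaF j) s p : ℝ) : ℂ) := by
    rw [integral_sum_pi _ hG0i, ← integral_complex_ofReal]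
    refine integral_congr_ae (Filter.Eventually.of_forall fun p => ?_)
    simp only [G0, Sum.elim_inl, Sum.elim_inr, hint, Finset.prod_const_one, mul_one]
    rw [integral_const_mul, integral_fintype_prod_volume_eq_prod
      (fun (i : σ) (u : ℝ) => ρ i (-u))]
    have : ∏ i : σ, ∫ u : ℝ, ρ i (-u) = 1 := by
      refine Finset.prod_eq_one fun i _ => ?_
      rw [integral_neg_eq_self (fun u => ρ i u), hint]
    rw [this, mul_one]
  rw [hval] at hlim
  have h3 := hlim.const_mul ((|(A.submatrix id e).det| : ℝ) : ℂ)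
  rw [← Complex.ofReal_mul] at h3
  refine h3.congr' ?_
  filter_upwards [hself] with lam hlam
  rw [Lam_eq a σ hρ hs j hlam, scale_change A e hdet hlam]
  have hlamC : (lam : ℂ) ≠ 0 := by exact_mod_cast hlam.ne'
  have hcard : (lam : ℂ) ^ r = (lam : ℂ) ^ (σᶜ).card * (lam : ℂ) ^ (Fintype.card σ) := by
    rw [← pow_add, Fintype.card_coe, Finset.card_compl, Fintype.card_fin]
    congr 1
    have := Finset.card_le_univ σ
    rw [Fintype.card_fin] at this
    omega
  rw [hcard]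
  field_simp

end Pool.Agent.H22

/-! Limits of all face functionals along one family of shrinking bumps. -/

namespace Pool.Agent.H22

open MvPolynomial Finset MeasureTheory Filter Topology

variable {n r : ℕ}

/-- linear coordinates adapted to a face -/
structure FaceDat (a : Fin r → (Fin n →₀ ℕ)) (σ : Finset (Fin r)) where
  d : ℕ
  A : Matrix (Kap n) (Fin d ⊕ σ) ℝ
  e : Kap n ≃ Fin d ⊕ σ
  det_ne : (A.submatrix id e).det ≠ 0
  adm : Adm a σ A

/-- no further form is constant along the face -/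
def FaceDat.Gen {a : Fin r → (Fin n →₀ ℕ)} {σ : Finset (Fin r)} (D : FaceDat a σ) : Prop :=
  ∀ l ∉ σ, ∃ c : Fin D.d, ell a l (fun z => D.A z (Sum.inl c)) ≠ 0

/-- the face integral -/
noncomputable def FaceDat.T {a : Fin r → (Fin n →₀ ℕ)} {σ : Finset (Fin r)} (D : FaceDat a σ)
    (η : ℝ → ℝ) (s : ℝ) : ℝ :=
  |(D.A.submatrix id D.e).det| * ∫ p : Fin D.d → ℝ, Tk a σ D.A η s p

lemma mulVec_surj {κ τ : Type*} [Fintype κ] [DecidableEq κ] [Fintype τ] (A : Matrix κ τ ℝ)
    (e : κ ≃ τ) (hdet : (A.submatrix id e).det ≠ 0) (z : κ → ℝ) : ∃ x, A.mulVec x = z := by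
  set Q := A.submatrix id e with hQ
  have hu : IsUnit Q.det := isUnit_iff_ne_zero.mpr hdet
  refine ⟨fun t => (Q⁻¹.mulVec z) (e.symm t), ?_⟩
  have h1 : A.mulVec (fun t => (Q⁻¹.mulVec z) (e.symm t)) = Q.mulVec (Q⁻¹.mulVec z) := by
    funext j
    simp only [Matrix.mulVec, dotProduct, hQ, Matrix.submatrix_apply, id]
    rw [← e.sum_comp]
    simp
  rw [h1, Matrix.mulVec_mulVec, Matrix.mul_nonsing_inv Q hu, Matrix.one_mulVec]

/-- a coordinate `k_j` constant along the face cone: the weights sum to one -/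
lemma row_sum_eq_one {a : Fin r → (Fin n →₀ ℕ)} {σ : Finset (Fin r)} (D : FaceDat a σ)
    (j : Fin n) (hj : ∀ c, D.A (Sum.inr j) (Sum.inl c) = 0) :
    ∑ i : σ, D.A (Sum.inr j) (Sum.inr i) * (∑ j', (a i j' : ℝ)) = 1 := by
  obtain ⟨x, hx⟩ := mulVec_surj D.A D.e D.det_ne (Sum.elim 0 (fun _ => 1) : Kap n → ℝ)
  have h1 : ∀ i : σ, x (Sum.inr i) = ∑ j', (a i j' : ℝ) := by
    intro i
    rw [← D.adm x i, hx]
    simp [ell]
  have h2 := congrFun hx (Sum.inr j)
  simp only [Matrix.mulVec, dotProduct, Fintype.sum_sum_type, hj, zero_mul,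
    Finset.sum_const_zero, zero_add, Sum.elim_inr] at h2
  rw [← h2]
  exact Finset.sum_congr rfl fun i _ => by rw [h1]

/-- existence of a suitable family of bumps -/
theorem exists_bumps (a : Fin r → (Fin n →₀ ℕ)) (D : ∀ σ : Finset (Fin r), FaceDat a σ) :
    ∃ (ρ : Fin r → ℝ → ℂ) (R : ℝ), 0 ≤ R ∧ IsBump ρ (-R) R ∧ (∀ i, ∫ u, ρ i u = 1) ∧
      ∀ σ, ∀ j : Fin n, (∀ c, (D σ).A (Sum.inr j) (Sum.inl c) = 0) →
        ∀ x : Fin (D σ).d ⊕ σ → ℝ, (∀ i : σ, ρ i (-(x (Sum.inr i))) ≠ 0) →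
        0 ≤ ∑ i : σ, (D σ).A (Sum.inr j) (Sum.inr i) * x (Sum.inr i) := by
  set c : ℝ := ∑ σ : Finset (Fin r), ∑ j : Fin n, ∑ i : σ, |(D σ).A (Sum.inr j) (Sum.inr i)|
    with hc
  have hc0 : 0 ≤ c := Finset.sum_nonneg fun _ _ => Finset.sum_nonneg fun _ _ =>
    Finset.sum_nonneg fun _ _ => abs_nonneg _
  let f : ContDiffBump (0 : ℝ) := ⟨1 / 2, 1, by norm_num, by norm_num⟩
  set w : Fin r → ℝ := fun i => ∑ j', (a i j' : ℝ) with hw
  have hw0 : ∀ i, 0 ≤ w i := fun i => Finset.sum_nonneg fun _ _ => Nat.cast_nonneg _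
  have hsupp : ∀ x : ℝ, f.normed volume x ≠ 0 → |x| < 1 := by
    intro x hx
    have : x ∈ Function.support (f.normed volume) := hx
    rw [f.support_normed_eq, Metric.mem_ball, dist_zero_right, Real.norm_eq_abs] at this
    exact this
  refine ⟨fun i x => ((f.normed volume (x + c * w i) : ℝ) : ℂ), 1 + ∑ i, c * w i, ?_, ?_, ?_, ?_⟩
  · have : 0 ≤ ∑ i, c * w i := Finset.sum_nonneg fun i _ => mul_nonneg hc0 (hw0 i)
    linarith
  · constructor
    · intro i
      exact Complex.ofRealCLM.contDiff.comp (f.contDiff_normed.comp (by fun_prop))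
    · intro i x hx
      by_contra h
      apply hx
      have h1 : |x + c * w i| < 1 := hsupp _ (by simpa using h)
      have h2 : c * w i ≤ ∑ i, c * w i :=
        Finset.single_le_sum (f := fun i => c * w i) (fun i _ => mul_nonneg hc0 (hw0 i))
          (Finset.mem_univ i)
      have h3 : 0 ≤ c * w i := mul_nonneg hc0 (hw0 i)
      rw [abs_lt] at h1
      rw [Set.mem_Icc]
      constructor <;> linarith [h1.1, h1.2]
  · intro i
    rw [integral_complex_ofReal, integral_add_right_eq_self (fun x => f.normed volume x),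
      f.integral_normed]
    simp
  · intro σ j hj x hx
    have h1 := row_sum_eq_one (D σ) j hj
    have h2 : ∀ i : σ, |(-(x (Sum.inr i))) + c * w i| < 1 := by
      intro i
      exact hsupp _ (by simpa using hx i)
    have h3 : ∑ i : σ, (D σ).A (Sum.inr j) (Sum.inr i) * x (Sum.inr i) =
        c - ∑ i : σ, (D σ).A (Sum.inr j) (Sum.inr i) * ((-(x (Sum.inr i))) + c * w i) := by
      have h6 : c * ∑ i : σ, (D σ).A (Sum.inr j) (Sum.inr i) * w i = c := by rw [h1, mul_one]
      have h7 : ∑ i : σ, (D σ).A (Sum.inr j) (Sum.inr i) * x (Sum.inr i) =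
          c * ∑ i : σ, (D σ).A (Sum.inr j) (Sum.inr i) * w i -
          ∑ i : σ, (D σ).A (Sum.inr j) (Sum.inr i) * ((-(x (Sum.inr i))) + c * w i) := by
        rw [Finset.mul_sum, ← Finset.sum_sub_distrib]
        exact Finset.sum_congr rfl fun i _ => by ring
      rw [h7, h6]
    rw [h3]
    have h4 : ∑ i : σ, (D σ).A (Sum.inr j) (Sum.inr i) * ((-(x (Sum.inr i))) + c * w i) ≤
        ∑ i : σ, |(D σ).A (Sum.inr j) (Sum.inr i)| := by
      refine Finset.sum_le_sum fun i _ => ?_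
      refine (le_abs_self _).trans ?_
      rw [abs_mul]
      calc _ ≤ |(D σ).A (Sum.inr j) (Sum.inr i)| * 1 :=
            mul_le_mul_of_nonneg_left (h2 i).le (abs_nonneg _)
        _ = _ := mul_one _
    have h5 : ∑ i : σ, |(D σ).A (Sum.inr j) (Sum.inr i)| ≤ c := by
      rw [hc]
      refine le_trans ?_ (Finset.single_le_sum (f := fun σ : Finset (Fin r) => ∑ j : Fin n,
        ∑ i : σ, |(D σ).A (Sum.inr j) (Sum.inr i)|) (fun _ _ => Finset.sum_nonneg fun _ _ =>
        Finset.sum_nonneg fun _ _ => abs_nonneg _) (Finset.mem_univ σ))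
      exact Finset.single_le_sum (f := fun j => ∑ i : σ,
        |(D σ).A (Sum.inr j) (Sum.inr i)|) (fun _ _ =>
        Finset.sum_nonneg fun _ _ => abs_nonneg _) (Finset.mem_univ j)
    linarith

/-- all limits at once -/
theorem exists_limits (a : Fin r → (Fin n →₀ ℕ)) (D : ∀ σ : Finset (Fin r), FaceDat a σ)
    (hgen : ∀ σ, (D σ).Gen) :
    ∃ (ρ : Fin r → ℝ → ℂ) (R : ℝ), 0 ≤ R ∧ IsBump ρ (-R) R ∧
      ∀ (σ : Finset (Fin r)) (s : ℝ), 0 < s → ∀ j,
        Tendsto (fun lam : ℝ => ((lam : ℂ) ^ r)⁻¹ * Lam a σ (scB ρ lam) s j 0) (𝓝[>] 0)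
          (𝓝 (((D σ).T (etaF j) s : ℝ) : ℂ)) := by
  obtain ⟨ρ, R, hR, hb, hint, hpos⟩ := exists_bumps a D
  refine ⟨ρ, R, hR, hb, fun σ s hs j => ?_⟩
  exact Lam_tendsto a (D σ).e (D σ).det_ne (D σ).adm (hgen σ) hb hs j (hpos σ) hint

/-- relation between the functional of the empty face and those of the vertices -/
lemma Lam_empty_rel (a : Fin r → (Fin n →₀ ℕ)) {ρ : Fin r → ℝ → ℂ}
    {lo hi : ℝ} (hρ : IsBump ρ lo hi) (s : ℝ) (hs : 0 < s) :
    (s : ℂ) * Lam a ∅ ρ s 0 0 = Lam a ∅ ρ s 1 0 - ∑ l : Fin r, Lam a {l} ρ s 0 0 := by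
  have h1 := Lam_rec a ∅ hρ s hs 0 0
  have h2 : Lam a ∅ ρ s 0 (0 + 1) = -∑ l : Fin r, Lam a {l} ρ s 0 0 := by
    unfold Lam
    obtain ⟨C0, _, hC0⟩ := etaF_bound 0
    have hint : ∀ l : Fin r, Integrable (fun N : ℝ =>
        ((etaF 0 N * Real.exp (-s * N) : ℝ) : ℂ) *
          MF (bv a) cv (Fam n {l}) (trB ρ N) ((∑ i, X i) ^ 0)) := fun l =>
      Lam_integrable a {l} hρ s hs (etaF 0) (etaF_continuous 0) (etaF_zero_lt 0) C0 hC0 _
    rw [← integral_finsetSum _ (fun l _ => hint l), ← integral_neg]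
    refine integral_congr_ae (Filter.Eventually.of_forall fun N => ?_)
    simp only
    rw [← Finset.mul_sum, ← mul_neg]
    congr 1
    rw [zero_add, pow_one, pow_zero]
    have hpos : PosF (bv a) cv (Fam n (∅ : Finset (Fin r))) := pos_global a ∅ᶜ
    rw [MF_sum (trB_bump hρ N) hpos, ← Finset.sum_neg_distrib]
    refine Finset.sum_congr rfl fun l _ => ?_
    have hp : Sum.inr (Sum.inl l) ∈ Fam n (∅ : Finset (Fin r)) := by simp [Fam]
    have h3 := MF_remove (trB_bump hρ N) 1 hpos hp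
    have h4 : formP (bv a (Sum.inr (Sum.inl l))) (cv (Sum.inr (Sum.inl l) :
        Fin n ⊕ (Fin r ⊕ Fin r))) = -(X l : MvPolynomial (Fin r) ℂ) := by
      rw [← formP_bv_inr_inl a l]; rfl
    have h5 : (Fam n (∅ : Finset (Fin r))).erase (Sum.inr (Sum.inl l)) = Fam n {l} := by
      ext x
      rcases x with x | x | x <;> simp [Fam]
    rw [h4, h5, mul_one] at h3
    have h6 : (X l : MvPolynomial (Fin r) ℂ) = C (-1) * (-(X l)) := by simp
    rw [h6, MF_C_mul, h3]
    simp
  rw [h2] at h1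
  linear_combination -h1

/-- The limit of the integrated face sum. -/
theorem limit_sum (a : Fin r → (Fin n →₀ ℕ)) (D : ∀ σ : Finset (Fin r), FaceDat a σ)
    (hgen : ∀ σ, (D σ).Gen)
    (b' : Polynomial ℂ) (K : ℕ) (hK : 1 ≤ K) {A : Type*} (T : Finset A) (m : A → Fin r → ℤ)
    (g : A → MvPolynomial (Fin r) ℂ)
    (hm1 : ∀ α ∈ T, ∑ i, m α i = -1)
    (hid : (Polynomial.aeval (∑ i, (X i : MvPolynomial (Fin r) ℂ)) b') * ∏ i, DDp K 0 i =
        ∑ α ∈ T, g α * (∏ j, zf a j (-(∑ i, m α i * (a i j : ℤ)))) *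
          ∏ i, DDp K (m α i) i)
    (θ : Finset (Fin r) → ℂ) (hθ : ApexInv a θ) :
    ∃ (Cp : ℕ → Polynomial ℂ) (Dg : ℕ), Cp 0 = b' ∧
      ∀ (s : ℝ), 0 < s →
        ∑ j ∈ Finset.range (Dg + 1), (Cp j).eval (s : ℂ) *
          ∑ σ : Finset (Fin r), (-1 : ℂ) ^ σ.card * θ σ * (((D σ).T (etaF j) s : ℝ) : ℂ) = 0 := by
  -- choose `δ`
  obtain ⟨δ, hδ0, hδ⟩ : ∃ δ : ℝ, 0 < δ ∧ ∀ α ∈ T, δ * ∑ i, |(m α i : ℝ)| < 1 := by
    refine ⟨1 / (1 + ∑ α ∈ T, ∑ i, |(m α i : ℝ)|), ?_, fun α hα => ?_⟩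
    · have : 0 ≤ ∑ α ∈ T, ∑ i, |(m α i : ℝ)| :=
        Finset.sum_nonneg fun _ _ => Finset.sum_nonneg fun _ _ => abs_nonneg _
      positivity
    · have h1 : ∑ i, |(m α i : ℝ)| ≤ ∑ α ∈ T, ∑ i, |(m α i : ℝ)| :=
        Finset.single_le_sum (f := fun α => ∑ i, |(m α i : ℝ)|)
          (fun _ _ => Finset.sum_nonneg fun _ _ => abs_nonneg _) hα
      have h0 : 0 ≤ ∑ i, |(m α i : ℝ)| := Finset.sum_nonneg fun _ _ => abs_nonneg _
      rw [one_div, inv_mul_lt_iff₀ (by linarith)]
      linarith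
  obtain ⟨Cp, Dg, hC0, hC⟩ := parts_main a b' K hK T m g hm1 hid δ hδ θ hθ
  obtain ⟨ρ, R, hR, hb, hlim⟩ := exists_limits a D hgen
  refine ⟨Cp, Dg, hC0, fun s hs => ?_⟩
  have h1 : Tendsto (fun lam : ℝ => ∑ j ∈ Finset.range (Dg + 1), (Cp j).eval (s : ℂ) *
      ∑ σ : Finset (Fin r), (-1 : ℂ) ^ σ.card * θ σ *
        (((lam : ℂ) ^ r)⁻¹ * Lam a σ (scB ρ lam) s j 0)) (𝓝[>] 0)
      (𝓝 (∑ j ∈ Finset.range (Dg + 1), (Cp j).eval (s : ℂ) *
        ∑ σ : Finset (Fin r), (-1 : ℂ) ^ σ.card * θ σ * (((D σ).T (etaF j) s : ℝ) : ℂ))) := by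
    refine tendsto_finsetSum _ fun j _ => Tendsto.const_mul _ ?_
    refine tendsto_finsetSum _ fun σ _ => Tendsto.const_mul _ ?_
    exact hlim σ s hs j
  have h2 : (fun _ : ℝ => (0 : ℂ)) =ᶠ[𝓝[>] 0]
      (fun lam : ℝ => ∑ j ∈ Finset.range (Dg + 1), (Cp j).eval (s : ℂ) *
      ∑ σ : Finset (Fin r), (-1 : ℂ) ^ σ.card * θ σ *
        (((lam : ℂ) ^ r)⁻¹ * Lam a σ (scB ρ lam) s j 0)) := by
    have hsmall : ∀ᶠ lam : ℝ in 𝓝[>] 0, lam * R ≤ δ := by
      have hc : Continuous (fun lam : ℝ => lam * R) := by fun_prop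
      have h3 : Tendsto (fun lam : ℝ => lam * R) (𝓝[>] 0) (𝓝 0) := by
        have := (hc.tendsto 0).mono_left (nhdsWithin_le_nhds (s := Set.Ioi 0))
        simpa using this
      exact h3.eventually (ge_mem_nhds hδ0)
    filter_upwards [self_mem_nhdsWithin, hsmall] with lam hlam hlamδ
    have h4 := hC s hs ρ R lam hR hb hlam hlamδ
    have h5 : ∑ j ∈ Finset.range (Dg + 1), (Cp j).eval (s : ℂ) *
      ∑ σ : Finset (Fin r), (-1 : ℂ) ^ σ.card * θ σ *
        (((lam : ℂ) ^ r)⁻¹ * Lam a σ (scB ρ lam) s j 0) = ((lam : ℂ) ^ r)⁻¹ *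
        ∑ j ∈ Finset.range (Dg + 1), (Cp j).eval (s : ℂ) *
          ∑ σ : Finset (Fin r), (-1 : ℂ) ^ σ.card * θ σ * Lam a σ (scB ρ lam) s j 0 := by
      simp only [Finset.mul_sum]
      refine Finset.sum_congr rfl fun j _ => Finset.sum_congr rfl fun σ _ => ?_
      ring
    rw [h5, h4, mul_zero]
  exact tendsto_nhds_unique h1 (tendsto_const_nhds.congr' h2)

/-- the relation between the empty face and the vertices, in the limit -/
theorem limit_empty (a : Fin r → (Fin n →₀ ℕ)) (D : ∀ σ : Finset (Fin r), FaceDat a σ)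
    (hgen : ∀ σ, (D σ).Gen)
    {s : ℝ} (hs : 0 < s) :
    s * (D ∅).T (etaF 0) s = (D ∅).T (etaF 1) s - ∑ l : Fin r, (D {l}).T (etaF 0) s := by
  obtain ⟨ρ, R, hR, hb, hlim⟩ := exists_limits a D hgen
  have h1 : Tendsto (fun lam : ℝ => (s : ℂ) * (((lam : ℂ) ^ r)⁻¹ * Lam a ∅ (scB ρ lam) s 0 0))
      (𝓝[>] 0) (𝓝 ((s : ℂ) * (((D ∅).T (etaF 0) s : ℝ) : ℂ))) :=
    (hlim ∅ s hs 0).const_mul _
  have h2 : Tendsto (fun lam : ℝ => ((lam : ℂ) ^ r)⁻¹ * Lam a ∅ (scB ρ lam) s 1 0 -
      ∑ l : Fin r, ((lam : ℂ) ^ r)⁻¹ * Lam a {l} (scB ρ lam) s 0 0)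
      (𝓝[>] 0) (𝓝 ((((D ∅).T (etaF 1) s : ℝ) : ℂ) -
        ∑ l : Fin r, (((D {l}).T (etaF 0) s : ℝ) : ℂ))) :=
    (hlim ∅ s hs 1).sub (tendsto_finsetSum _ fun l _ => hlim {l} s hs 0)
  have h3 : (fun lam : ℝ => (s : ℂ) * (((lam : ℂ) ^ r)⁻¹ * Lam a ∅ (scB ρ lam) s 0 0))
      =ᶠ[𝓝[>] 0] (fun lam : ℝ => ((lam : ℂ) ^ r)⁻¹ * Lam a ∅ (scB ρ lam) s 1 0 -
      ∑ l : Fin r, ((lam : ℂ) ^ r)⁻¹ * Lam a {l} (scB ρ lam) s 0 0) := by
    filter_upwards [self_mem_nhdsWithin] with lam hlam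
    rw [← Finset.mul_sum, ← mul_sub, ← Lam_empty_rel a (scB_bump hlam hb) s hs]
    ring
  have h4 := tendsto_nhds_unique (h1.congr' h3) h2
  exact_mod_cast h4

end Pool.Agent.H22

/-! Analyticity in `s` of the face integrals with compactly supported weights. -/

namespace Pool.Agent.H22

open MvPolynomial Finset MeasureTheory Filter Topology

variable {n r : ℕ}

lemma analytic_exp_integral_nonneg {Ω : Type*} [MeasurableSpace Ω] (μ : Measure Ω)
    (g X : Ω → ℝ) (hgi : Integrable g μ) (hg0 : ∀ ω, 0 ≤ g ω) (hgm : Measurable g)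
    (hX : Measurable X) (B : ℝ) (hB : ∀ ω, g ω ≠ 0 → |X ω| ≤ B) :
    AnalyticOnNhd ℝ (fun s : ℝ => ∫ ω, g ω * Real.exp (s * X ω) ∂μ) Set.univ := by
  set f : Ω → ENNReal := fun ω => ENNReal.ofReal (g ω) with hf
  have hfm : Measurable f := hgm.ennreal_ofReal
  have hlt : ∀ᵐ ω ∂μ, f ω < ⊤ := Filter.Eventually.of_forall fun ω => ENNReal.ofReal_lt_top
  have htr : ∀ ω, (f ω).toReal = g ω := fun ω => ENNReal.toReal_ofReal (hg0 ω)
  have h1 : (fun s : ℝ => ∫ ω, g ω * Real.exp (s * X ω) ∂μ) =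
      ProbabilityTheory.mgf X (μ.withDensity f) := by
    funext s
    unfold ProbabilityTheory.mgf
    rw [integral_withDensity_eq_integral_toReal_smul hfm hlt]
    simp only [htr, smul_eq_mul]
  have h2 : ProbabilityTheory.integrableExpSet X (μ.withDensity f) = Set.univ := by
    rw [Set.eq_univ_iff_forall]
    intro s
    unfold ProbabilityTheory.integrableExpSet
    rw [Set.mem_ofPred_eq, integrable_withDensity_iff hfm hlt]
    simp only [htr]
    refine Integrable.mono' (hgi.mul_const (Real.exp (|s| * B))) ?_ ?_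
    · exact (Measurable.mul (Real.measurable_exp.comp (hX.const_mul s)) hgm).aestronglyMeasurable
    · refine Filter.Eventually.of_forall fun ω => ?_
      rw [norm_mul, Real.norm_eq_abs, Real.norm_eq_abs, abs_of_pos (Real.exp_pos _),
        abs_of_nonneg (hg0 ω), mul_comm]
      by_cases h : g ω = 0
      · rw [h]; simp
      · apply mul_le_mul_of_nonneg_left _ (hg0 ω)
        apply Real.exp_le_exp.mpr
        calc s * X ω ≤ |s * X ω| := le_abs_self _
          _ = |s| * |X ω| := abs_mul _ _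
          _ ≤ |s| * B := mul_le_mul_of_nonneg_left (hB ω h) (abs_nonneg _)
  rw [h1]
  have h3 := ProbabilityTheory.analyticOnNhd_mgf (X := X) (μ := μ.withDensity f)
  rw [h2, interior_univ] at h3
  exact h3

theorem analytic_exp_integral {Ω : Type*} [MeasurableSpace Ω] (μ : Measure Ω)
    (g X : Ω → ℝ) (hgi : Integrable g μ) (hgm : Measurable g)
    (hX : Measurable X) (B : ℝ) (hB : ∀ ω, g ω ≠ 0 → |X ω| ≤ B) :
    AnalyticOnNhd ℝ (fun s : ℝ => ∫ ω, g ω * Real.exp (s * X ω) ∂μ) Set.univ := by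
  have hint : ∀ h : Ω → ℝ, Integrable h μ → Measurable h → (∀ ω, h ω ≠ 0 → |X ω| ≤ B) →
      ∀ s : ℝ, Integrable (fun ω => h ω * Real.exp (s * X ω)) μ := by
    intro h hi hm hb s
    refine Integrable.mono' ((hi.abs).mul_const (Real.exp (|s| * B))) ?_ ?_
    · exact (hm.mul (Real.measurable_exp.comp (hX.const_mul s))).aestronglyMeasurable
    · refine Filter.Eventually.of_forall fun ω => ?_
      rw [norm_mul, Real.norm_eq_abs, Real.norm_eq_abs, abs_of_pos (Real.exp_pos _)]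
      by_cases h0 : h ω = 0
      · rw [h0]; simp
      · apply mul_le_mul_of_nonneg_left _ (abs_nonneg _)
        apply Real.exp_le_exp.mpr
        calc s * X ω ≤ |s * X ω| := le_abs_self _
          _ = |s| * |X ω| := abs_mul _ _
          _ ≤ |s| * B := mul_le_mul_of_nonneg_left (hb ω h0) (abs_nonneg _)
  have hp : ∀ ω, max (g ω) 0 ≠ 0 → |X ω| ≤ B := by
    intro ω h
    apply hB
    intro h0
    rw [h0] at h
    exact h (max_self 0)
  have hn : ∀ ω, max (-(g ω)) 0 ≠ 0 → |X ω| ≤ B := by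
    intro ω h
    apply hB
    intro h0
    rw [h0] at h
    simp at h
  have h1 := analytic_exp_integral_nonneg μ (fun ω => max (g ω) 0) X hgi.pos_part
    (fun ω => le_max_right _ _) (hgm.max measurable_const) hX B hp
  have h2 := analytic_exp_integral_nonneg μ (fun ω => max (-(g ω)) 0) X hgi.neg_part
    (fun ω => le_max_right _ _) (hgm.neg.max measurable_const) hX B hn
  have h3 : (fun s : ℝ => ∫ ω, g ω * Real.exp (s * X ω) ∂μ) =
      (fun s : ℝ => ∫ ω, max (g ω) 0 * Real.exp (s * X ω) ∂μ) -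
      (fun s : ℝ => ∫ ω, max (-(g ω)) 0 * Real.exp (s * X ω) ∂μ) := by
    funext s
    rw [Pi.sub_apply, ← integral_sub (hint _ hgi.pos_part (hgm.max measurable_const) hp s)
      (hint _ hgi.neg_part (hgm.neg.max measurable_const) hn s)]
    refine integral_congr_ae (Filter.Eventually.of_forall fun ω => ?_)
    simp only
    rw [← sub_mul]
    congr 1
    rcases le_total 0 (g ω) with h | h
    · rw [max_eq_left h, max_eq_right (by linarith)]; ring
    · rw [max_eq_right h, max_eq_left (by linarith)]; ring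
  rw [h3]
  exact h1.sub h2

/-- the integrand without the radial weight -/
noncomputable def Ik (a : Fin r → (Fin n →₀ ℕ)) (σ : Finset (Fin r)) {d : ℕ}
    (A : Matrix (Kap n) (Fin d ⊕ σ) ℝ) (p : Fin d → ℝ) : ℝ :=
  (∏ j, expo0 ((A.mulVec (Sum.elim p 0)) (Sum.inr j))) *
    ∏ l ∈ σᶜ, (if 0 ≤ ell a l (A.mulVec (Sum.elim p 0)) then 1 else 0)

/-- the coordinate `ν = -N` -/
noncomputable def nuC {σ : Finset (Fin r)} {d : ℕ}
    (A : Matrix (Kap n) (Fin d ⊕ σ) ℝ) (p : Fin d → ℝ) : ℝ :=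
  (A.mulVec (Sum.elim p 0)) (Sum.inl ())

lemma Tk_eq (a : Fin r → (Fin n →₀ ℕ)) (σ : Finset (Fin r)) {d : ℕ}
    (A : Matrix (Kap n) (Fin d ⊕ σ) ℝ) (η : ℝ → ℝ) (s : ℝ) (p : Fin d → ℝ) :
    Tk a σ A η s p = (η (-(nuC A p)) * Ik a σ A p) * Real.exp (s * nuC A p) := by
  unfold Tk gz Ik nuC
  ring

lemma continuous_elim_zero {d : ℕ} {σ : Finset (Fin r)} :
    Continuous (fun p : Fin d → ℝ => (Sum.elim p 0 : Fin d ⊕ σ → ℝ)) := by
  refine continuous_pi fun k => ?_
  rcases k with k | k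
  · simp only [Sum.elim_inl]; fun_prop
  · simp only [Sum.elim_inr]; exact continuous_const

lemma continuous_zp {σ : Finset (Fin r)} {d : ℕ} (A : Matrix (Kap n) (Fin d ⊕ σ) ℝ) :
    Continuous (fun p : Fin d → ℝ => A.mulVec (Sum.elim p 0)) :=
  (continuous_mulVec' A).comp continuous_elim_zero

lemma nuC_measurable {σ : Finset (Fin r)} {d : ℕ} (A : Matrix (Kap n) (Fin d ⊕ σ) ℝ) :
    Measurable (nuC A) :=
  (measurable_pi_apply _).comp (continuous_zp A).measurable

lemma Ik_measurable (a : Fin r → (Fin n →₀ ℕ)) {σ : Finset (Fin r)} {d : ℕ}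
    (A : Matrix (Kap n) (Fin d ⊕ σ) ℝ) : Measurable (Ik a σ A) := by
  unfold Ik
  refine Measurable.mul ?_ ?_
  · apply Finset.measurable_fun_prod
    intro j _
    exact expo0_measurable.comp ((measurable_pi_apply _).comp (continuous_zp A).measurable)
  · apply Finset.measurable_fun_prod
    intro l _
    exact Measurable.ite (measurableSet_le measurable_const
      ((ell_measurable a l).comp (continuous_zp A).measurable)) measurable_const measurable_const

lemma Ik_nonneg (a : Fin r → (Fin n →₀ ℕ)) {σ : Finset (Fin r)} {d : ℕ}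
    (A : Matrix (Kap n) (Fin d ⊕ σ) ℝ) (p : Fin d → ℝ) : 0 ≤ Ik a σ A p := by
  unfold Ik
  refine mul_nonneg (Finset.prod_nonneg fun _ _ => expo0_nonneg _)
    (Finset.prod_nonneg fun _ _ => ?_)
  split_ifs <;> norm_num

lemma Ik_ind_le_one (a : Fin r → (Fin n →₀ ℕ)) {σ : Finset (Fin r)} {d : ℕ}
    (A : Matrix (Kap n) (Fin d ⊕ σ) ℝ) (p : Fin d → ℝ) :
    |∏ l ∈ σᶜ, (if 0 ≤ ell a l (A.mulVec (Sum.elim p 0)) then (1 : ℝ) else 0)| ≤ 1 := by
  rw [abs_of_nonneg (Finset.prod_nonneg fun _ _ => by split_ifs <;> norm_num)]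
  apply Finset.prod_le_one
  · intro l _; split_ifs <;> norm_num
  · intro l _; split_ifs <;> norm_num

lemma prod_exp_integrable {d : ℕ} {ε : ℝ} (hε : 0 < ε) :
    Integrable (fun p : Fin d → ℝ => ∏ c : Fin d, Real.exp (-ε * |p c|)) := by
  refine Integrable.fintype_prod (f := fun (_ : Fin d) (u : ℝ) => Real.exp (-ε * |u|)) ?_
  intro c
  have h1 : Integrable (fun u : ℝ => (if 0 ≤ u then Real.exp (-ε * u) else 0) +
      (if 0 ≤ -u then Real.exp (-ε * (-u)) else 0)) :=
    (integrable_exp_Ici hε).add (integrable_exp_Ici hε).comp_neg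
  refine Integrable.mono' h1 (by fun_prop) (Filter.Eventually.of_forall fun u => ?_)
  rw [Real.norm_eq_abs, abs_of_pos (Real.exp_pos _)]
  rcases le_total 0 u with h | h
  · rw [if_pos h, abs_of_nonneg h]
    have : (0 : ℝ) ≤ (if 0 ≤ -u then Real.exp (-ε * (-u)) else 0) := by
      split_ifs <;> positivity
    linarith
  · rw [if_pos (show 0 ≤ -u by linarith), abs_of_nonpos h]
    have : (0 : ℝ) ≤ (if 0 ≤ u then Real.exp (-ε * u) else 0) := by
      split_ifs <;> positivity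
    linarith

/-- analyticity for a weight supported in `[1,2]` -/
theorem analytic_T_of_supp {a : Fin r → (Fin n →₀ ℕ)} {σ : Finset (Fin r)} (D : FaceDat a σ)
    {η : ℝ → ℝ} (hη : Continuous η) {C0 : ℝ} (hC : ∀ x, |η x| ≤ C0) (h0 : ∀ x < 1, η x = 0)
    (h2 : ∀ x, 2 < x → η x = 0) : AnalyticOnNhd ℝ (D.T η) Set.univ := by
  unfold FaceDat.T
  apply AnalyticOnNhd.mul analyticOnNhd_const
  have h3 : (fun s : ℝ => ∫ p : Fin D.d → ℝ, Tk a σ D.A η s p) =
      fun s : ℝ => ∫ p : Fin D.d → ℝ, (η (-(nuC D.A p)) * Ik a σ D.A p) *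
        Real.exp (s * nuC D.A p) := by
    funext s
    simp only [Tk_eq]
  rw [h3]
  have hm : Measurable (fun p : Fin D.d → ℝ => η (-(nuC D.A p)) * Ik a σ D.A p) :=
    (hη.measurable.comp (nuC_measurable D.A).neg).mul (Ik_measurable a D.A)
  have hB : ∀ p : Fin D.d → ℝ, η (-(nuC D.A p)) * Ik a σ D.A p ≠ 0 → |nuC D.A p| ≤ 2 := by
    intro p hp
    have h4 : η (-(nuC D.A p)) ≠ 0 := left_ne_zero_of_mul hp
    have h5 : 1 ≤ -(nuC D.A p) := by
      by_contra h; exact h4 (h0 _ (not_le.mp h))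
    have h6 : -(nuC D.A p) ≤ 2 := by
      by_contra h; exact h4 (h2 _ (not_le.mp h))
    rw [abs_le]; constructor <;> linarith
  refine analytic_exp_integral volume _ _ ?_ hm (nuC_measurable D.A) 2 hB
  obtain ⟨ε, hε, hb⟩ := gz_adm_bound hC h0 one_pos D.A D.e D.det_ne
  have hC0 : 0 ≤ C0 := (abs_nonneg _).trans (hC 0)
  refine Integrable.mono' ((prod_exp_integrable (d := D.d) hε).const_mul (C0 * Real.exp 2))
    hm.aestronglyMeasurable (Filter.Eventually.of_forall fun p => ?_)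
  rw [Real.norm_eq_abs]
  by_cases hp : η (-(nuC D.A p)) * Ik a σ D.A p = 0
  · rw [hp, abs_zero]
    have : 0 ≤ ∏ c : Fin D.d, Real.exp (-ε * |p c|) := Finset.prod_nonneg fun _ _ => by positivity
    positivity
  · have h4 := hB p hp
    have h5 := hb 0 (Sum.elim p 0)
    have h6 : scx 0 (Sum.elim p 0 : Fin D.d ⊕ σ → ℝ) = Sum.elim p 0 := by
      funext k
      rcases k with k | k <;> simp [scx]
    rw [h6] at h5
    simp only [Sum.elim_inl] at h5
    have h7 : η (-(nuC D.A p)) * Ik a σ D.A p = gz η 1 (D.A.mulVec (Sum.elim p 0)) *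
        Real.exp (-(nuC D.A p)) *
        ∏ l ∈ σᶜ, (if 0 ≤ ell a l (D.A.mulVec (Sum.elim p 0)) then 1 else 0) := by
      unfold gz Ik
      have h8 : Real.exp (1 * (D.A.mulVec (Sum.elim p 0)) (Sum.inl ())) *
          Real.exp (-(nuC D.A p)) = 1 := by
        rw [← Real.exp_add]
        unfold nuC
        simp
      unfold nuC at h8 ⊢
      linear_combination (-(η (-(D.A.mulVec (Sum.elim p 0)) (Sum.inl ())) *
        (∏ j, expo0 ((D.A.mulVec (Sum.elim p 0)) (Sum.inr j))) *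
        ∏ l ∈ σᶜ, (if 0 ≤ ell a l (D.A.mulVec (Sum.elim p 0)) then (1 : ℝ) else 0))) * h8
    rw [h7, abs_mul, abs_mul, abs_of_pos (Real.exp_pos _)]
    have h9 : Real.exp (-(nuC D.A p)) ≤ Real.exp 2 := by
      apply Real.exp_le_exp.mpr
      rw [abs_le] at h4; linarith [h4.1]
    calc _ ≤ (C0 * ∏ c : Fin D.d, Real.exp (-ε * |p c|)) * Real.exp 2 * 1 := by
          apply mul_le_mul _ (Ik_ind_le_one a D.A p) (abs_nonneg _) (by positivity)
          exact mul_le_mul h5 h9 (Real.exp_pos _).le (by positivity)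
      _ = _ := by ring

/-- for a nonempty face the unweighted integrand is integrable -/
lemma Ik_integrable {a : Fin r → (Fin n →₀ ℕ)} {σ : Finset (Fin r)} (D : FaceDat a σ)
    (hσ : σ.Nonempty) : Integrable (Ik a σ D.A) := by
  obtain ⟨i, hi⟩ := hσ
  obtain ⟨M, hM, hb⟩ := inv_bound D.A D.e D.det_ne
  set W : ℝ := ∑ j, (a i j : ℝ) with hW
  have hW0 : 0 ≤ W := Finset.sum_nonneg fun _ _ => Nat.cast_nonneg _
  set ε : ℝ := 1 / ((1 + W) * (D.d * M + 1)) with hε
  have hεpos : 0 < ε := by positivity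
  refine Integrable.mono' (prod_exp_integrable (d := D.d) hεpos)
    (Ik_measurable a D.A).aestronglyMeasurable (Filter.Eventually.of_forall fun p => ?_)
  rw [Real.norm_eq_abs]
  set z := D.A.mulVec (Sum.elim p 0) with hz
  have hpos : 0 ≤ ∏ c : Fin D.d, Real.exp (-ε * |p c|) := Finset.prod_nonneg fun _ _ => by positivity
  by_cases hk : ∀ j, 0 ≤ z (Sum.inr j)
  · unfold Ik
    rw [abs_mul, ← hz]
    have h1 : |∏ j, expo0 (z (Sum.inr j))| = Real.exp (-∑ j, z (Sum.inr j)) := by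
      rw [abs_of_nonneg (Finset.prod_nonneg fun _ _ => expo0_nonneg _), ← Finset.sum_neg_distrib,
        Real.exp_sum]
      refine Finset.prod_congr rfl fun j _ => ?_
      unfold expo0; rw [if_pos (hk j)]
    rw [h1]
    have h2 := Ik_ind_le_one a D.A p
    rw [← hz] at h2
    have h3 : ell a i z = 0 := by
      have := D.adm (Sum.elim p 0) ⟨i, hi⟩
      simpa [hz] using this
    have h4 : |z (Sum.inl ())| ≤ W * ∑ j, z (Sum.inr j) := by
      have h5 : z (Sum.inl ()) = -∑ j, (a i j : ℝ) * z (Sum.inr j) := by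
        unfold ell at h3; linarith
      rw [h5, abs_neg, abs_of_nonneg (Finset.sum_nonneg fun j _ =>
        mul_nonneg (Nat.cast_nonneg _) (hk j)), hW, Finset.sum_mul]
      refine Finset.sum_le_sum fun j _ => ?_
      apply mul_le_mul_of_nonneg_left _ (Nat.cast_nonneg _)
      exact Finset.single_le_sum (f := fun j => z (Sum.inr j)) (fun j _ => hk j)
        (Finset.mem_univ j)
    have h5 : ∑ k, |z k| ≤ (1 + W) * ∑ j, z (Sum.inr j) := by
      rw [Fintype.sum_sum_type]
      simp only [Finset.univ_unique, Finset.sum_singleton, PUnit.default_eq_unit]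
      have : ∑ j, |z (Sum.inr j)| = ∑ j, z (Sum.inr j) :=
        Finset.sum_congr rfl fun j _ => abs_of_nonneg (hk j)
      rw [this]; linarith
    have h6 : ∑ c : Fin D.d, |p c| ≤ D.d * M * ∑ k, |z k| := by
      calc ∑ c : Fin D.d, |p c| ≤ ∑ _c : Fin D.d, M * ∑ k, |z k| := by
            refine Finset.sum_le_sum fun c _ => ?_
            exact hb (Sum.elim p 0) (Sum.inl c)
        _ = D.d * M * ∑ k, |z k| := by simp; ring
    have hS0 : 0 ≤ ∑ k, |z k| := Finset.sum_nonneg fun _ _ => abs_nonneg _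
    have h7 : ε * ∑ c : Fin D.d, |p c| ≤ ∑ j, z (Sum.inr j) := by
      rw [hε, one_div, inv_mul_le_iff₀ (by positivity)]
      have h8 : (0 : ℝ) ≤ D.d * M := by positivity
      calc ∑ c : Fin D.d, |p c| ≤ D.d * M * ∑ k, |z k| := h6
        _ ≤ (D.d * M + 1) * ((1 + W) * ∑ j, z (Sum.inr j)) := by
            apply mul_le_mul (by linarith) h5 hS0 (by positivity)
        _ = _ := by ring
    calc Real.exp (-∑ j, z (Sum.inr j)) *
          |∏ l ∈ σᶜ, (if 0 ≤ ell a l z then (1 : ℝ) else 0)|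
        ≤ Real.exp (-∑ j, z (Sum.inr j)) * 1 :=
          mul_le_mul_of_nonneg_left h2 (Real.exp_pos _).le
      _ ≤ ∏ c : Fin D.d, Real.exp (-ε * |p c|) := by
          rw [mul_one, ← Real.exp_sum, ← Finset.mul_sum]
          apply Real.exp_le_exp.mpr
          linarith
  · push Not at hk
    obtain ⟨j, hj⟩ := hk
    have h1 : Ik a σ D.A p = 0 := by
      unfold Ik
      rw [← hz]
      have : ∏ j, expo0 (z (Sum.inr j)) = 0 := by
        apply Finset.prod_eq_zero (Finset.mem_univ j)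
        unfold expo0; rw [if_neg (by linarith)]
      rw [this, zero_mul]
    rw [h1, abs_zero]
    exact hpos

/-- on the support of the integrand of a nonempty face, `ν ≤ 0` -/
lemma nuC_nonpos {a : Fin r → (Fin n →₀ ℕ)} {σ : Finset (Fin r)} (D : FaceDat a σ)
    (hσ : σ.Nonempty) (p : Fin D.d → ℝ) (hp : Ik a σ D.A p ≠ 0) : nuC D.A p ≤ 0 := by
  obtain ⟨i, hi⟩ := hσ
  have hk : ∀ j, 0 ≤ (D.A.mulVec (Sum.elim p 0)) (Sum.inr j) := by
    intro j
    by_contra h
    apply hp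
    unfold Ik
    have : ∏ j, expo0 ((D.A.mulVec (Sum.elim p 0)) (Sum.inr j)) = 0 := by
      apply Finset.prod_eq_zero (Finset.mem_univ j)
      unfold expo0; rw [if_neg h]
    rw [this, zero_mul]
  have h3 : ell a i (D.A.mulVec (Sum.elim p 0)) = 0 := by
    have := D.adm (Sum.elim p 0) ⟨i, hi⟩
    simpa using this
  unfold ell at h3
  unfold nuC
  have : 0 ≤ ∑ j, (a i j : ℝ) * (D.A.mulVec (Sum.elim p 0)) (Sum.inr j) :=
    Finset.sum_nonneg fun j _ => mul_nonneg (Nat.cast_nonneg _) (hk j)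
  linarith

/-- splitting off the radial cutoff: the difference is analytic -/
theorem T_split {a : Fin r → (Fin n →₀ ℕ)} {σ : Finset (Fin r)} (D : FaceDat a σ)
    (hσ : σ.Nonempty) : ∃ G : ℝ → ℝ, AnalyticOnNhd ℝ G Set.univ ∧ ∀ s : ℝ, 0 < s →
      D.T (etaF 0) s = |(D.A.submatrix id D.e).det| *
        (∫ p : Fin D.d → ℝ, Ik a σ D.A p * Real.exp (s * nuC D.A p)) - G s := by
  have hη0 : ∀ x, etaF 0 x = thetaF x := fun x => by unfold etaF; rw [iteratedDeriv_zero]
  have hIk := Ik_integrable D hσ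
  have hm : Measurable (fun p : Fin D.d → ℝ => (1 - etaF 0 (-(nuC D.A p))) * Ik a σ D.A p) :=
    (measurable_const.sub ((etaF_continuous 0).measurable.comp (nuC_measurable D.A).neg)).mul
      (Ik_measurable a D.A)
  have hle : ∀ x, |1 - etaF 0 x| ≤ 1 := by
    intro x
    rw [hη0, abs_le]
    constructor
    · linarith [thetaF_le_one x]
    · linarith [thetaF_nonneg x]
  have hgi : Integrable (fun p : Fin D.d → ℝ => (1 - etaF 0 (-(nuC D.A p))) * Ik a σ D.A p) := by
    refine Integrable.mono' hIk hm.aestronglyMeasurable (Filter.Eventually.of_forall fun p => ?_)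
    rw [norm_mul, Real.norm_eq_abs, Real.norm_eq_abs, abs_of_nonneg (Ik_nonneg a D.A p)]
    calc _ ≤ 1 * Ik a σ D.A p := mul_le_mul_of_nonneg_right (hle _) (Ik_nonneg a D.A p)
      _ = _ := one_mul _
  have hB : ∀ p : Fin D.d → ℝ, (1 - etaF 0 (-(nuC D.A p))) * Ik a σ D.A p ≠ 0 →
      |nuC D.A p| ≤ 2 := by
    intro p hp
    have h1 := nuC_nonpos D hσ p (right_ne_zero_of_mul hp)
    have h2 : -(nuC D.A p) < 2 := by
      by_contra h
      apply left_ne_zero_of_mul hp
      rw [hη0, thetaF_one (not_lt.mp h)]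
      ring
    rw [abs_le]; constructor <;> linarith
  have hexp : ∀ s : ℝ, 0 < s → ∀ g : (Fin D.d → ℝ) → ℝ, Integrable g → Measurable g →
      (∀ p, g p ≠ 0 → nuC D.A p ≤ 0) → Integrable (fun p => g p * Real.exp (s * nuC D.A p)) := by
    intro s hs g hg hgm hgz
    refine Integrable.mono' hg.abs ?_ (Filter.Eventually.of_forall fun p => ?_)
    · exact (hgm.mul (Real.measurable_exp.comp
        ((nuC_measurable D.A).const_mul s))).aestronglyMeasurable
    · rw [norm_mul, Real.norm_eq_abs, Real.norm_eq_abs, abs_of_pos (Real.exp_pos _)]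
      by_cases h : g p = 0
      · rw [h]; simp
      · have h1 := hgz p h
        have h2 : Real.exp (s * nuC D.A p) ≤ 1 := by
          rw [Real.exp_le_one_iff]; nlinarith
        nlinarith [abs_nonneg (g p)]
  refine ⟨fun s => |(D.A.submatrix id D.e).det| * ∫ p : Fin D.d → ℝ,
    ((1 - etaF 0 (-(nuC D.A p))) * Ik a σ D.A p) * Real.exp (s * nuC D.A p), ?_, fun s hs => ?_⟩
  · exact analyticOnNhd_const.mul
      (analytic_exp_integral volume _ _ hgi hm (nuC_measurable D.A) 2 hB)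
  · unfold FaceDat.T
    rw [← mul_sub, ← integral_sub (hexp s hs _ hIk (Ik_measurable a D.A)
      (fun p hp => nuC_nonpos D hσ p hp)) (hexp s hs _ hgi hm
      (fun p hp => nuC_nonpos D hσ p (right_ne_zero_of_mul hp)))]
    congr 1
    refine integral_congr_ae (Filter.Eventually.of_forall fun p => ?_)
    simp only
    rw [Tk_eq]
    ring

end Pool.Agent.H22

/-! The face integral as a sum over the cones of a simplicial decomposition. -/

namespace Pool.Agent.H22

open MvPolynomial Finset MeasureTheory Filter Topology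

variable {n r : ℕ}

lemma change_var_real {κ τ : Type*} [Fintype κ] [DecidableEq κ] [Fintype τ]
    (A : Matrix κ τ ℝ) (e : κ ≃ τ) (hdet : (A.submatrix id e).det ≠ 0)
    (G : (κ → ℝ) → ℝ) :
    ∫ z : κ → ℝ, G z = |(A.submatrix id e).det| * ∫ x : τ → ℝ, G (A.mulVec x) := by
  have h := change_var A e hdet (fun z => ((G z : ℝ) : ℂ))
  rw [integral_complex_ofReal, integral_complex_ofReal] at h
  exact_mod_cast h

/-- the weight vector of a parameter -/
noncomputable def kC {σ : Finset (Fin r)} {d : ℕ} (A : Matrix (Kap n) (Fin d ⊕ σ) ℝ)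
    (p : Fin d → ℝ) : Fin n → ℝ := fun j => (A.mulVec (Sum.elim p 0)) (Sum.inr j)

lemma mulVec_elim_zero {σ : Finset (Fin r)} {d : ℕ} (A : Matrix (Kap n) (Fin d ⊕ σ) ℝ)
    (p : Fin d → ℝ) (z : Kap n) :
    (A.mulVec (Sum.elim p 0)) z = ∑ c, A z (Sum.inl c) * p c := by
  simp [Matrix.mulVec, dotProduct]

lemma kC_sum {σ : Finset (Fin r)} {d m : ℕ} (A : Matrix (Kap n) (Fin d ⊕ σ) ℝ)
    (Q : Matrix (Fin d) (Fin m) ℝ) (x : Fin m → ℝ) :
    kC A (Q.mulVec x) = ∑ c, x c • kC A (fun c' => Q c' c) := by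
  funext j
  unfold kC
  simp only [mulVec_elim_zero]
  simp only [Finset.sum_apply, Pi.smul_apply, smul_eq_mul, Matrix.mulVec,
    dotProduct, Finset.mul_sum]
  rw [Finset.sum_comm]
  refine Finset.sum_congr rfl fun c _ => Finset.sum_congr rfl fun c' _ => ?_
  ring

lemma nuC_sum {σ : Finset (Fin r)} {d m : ℕ} (A : Matrix (Kap n) (Fin d ⊕ σ) ℝ)
    (Q : Matrix (Fin d) (Fin m) ℝ) (x : Fin m → ℝ) :
    nuC A (Q.mulVec x) = ∑ c, x c * nuC A (fun c' => Q c' c) := by
  unfold nuC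
  simp only [mulVec_elim_zero]
  simp only [Matrix.mulVec, dotProduct, Finset.mul_sum]
  rw [Finset.sum_comm]
  refine Finset.sum_congr rfl fun c _ => Finset.sum_congr rfl fun c' _ => ?_
  ring

lemma nuC_eq {a : Fin r → (Fin n →₀ ℕ)} {σ : Finset (Fin r)} (D : FaceDat a σ)
    {i : Fin r} (hi : i ∈ σ) (p : Fin D.d → ℝ) :
    nuC D.A p = -∑ j, (a i j : ℝ) * kC D.A p j := by
  have h3 : ell a i (D.A.mulVec (Sum.elim p 0)) = 0 := by
    have := D.adm (Sum.elim p 0) ⟨i, hi⟩
    simpa using this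
  unfold ell at h3
  unfold nuC kC
  linarith

lemma kC_injective {a : Fin r → (Fin n →₀ ℕ)} {σ : Finset (Fin r)} (D : FaceDat a σ)
    (hσ : σ.Nonempty) : Function.Injective (kC D.A) := by
  obtain ⟨i, hi⟩ := hσ
  intro p p' h
  obtain ⟨M, hM, hb⟩ := inv_bound D.A D.e D.det_ne
  have h1 : nuC D.A p = nuC D.A p' := by rw [nuC_eq D hi, nuC_eq D hi, h]
  have h2 : D.A.mulVec (Sum.elim p 0) = D.A.mulVec (Sum.elim p' 0) := by
    funext z
    rcases z with z | z
    · exact h1
    · exact congrFun h z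
  funext c
  have h3 := hb ((Sum.elim p 0 : Fin D.d ⊕ σ → ℝ) - Sum.elim p' 0) (Sum.inl c)
  rw [Matrix.mulVec_sub, h2, sub_self] at h3
  simp only [Pi.zero_apply, abs_zero, Finset.sum_const_zero, mul_zero, Pi.sub_apply,
    Sum.elim_inl] at h3
  have := abs_nonpos_iff.mp h3
  linarith

lemma exists_kC {a : Fin r → (Fin n →₀ ℕ)} {σ : Finset (Fin r)} (D : FaceDat a σ)
    (hσ : σ.Nonempty) (k : Fin n → ℝ)
    (hk : ∀ i ∈ σ, ∀ l ∈ σ, ∑ j, (a i j : ℝ) * k j = ∑ j, (a l j : ℝ) * k j) :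
    ∃ p, kC D.A p = k := by
  obtain ⟨i, hi⟩ := hσ
  obtain ⟨x, hx⟩ := mulVec_surj D.A D.e D.det_ne
    (Sum.elim (fun _ => -∑ j, (a i j : ℝ) * k j) k : Kap n → ℝ)
  have h1 : ∀ l : σ, x (Sum.inr l) = 0 := by
    intro l
    rw [← D.adm x l, hx]
    unfold ell
    simp only [Sum.elim_inr, Sum.elim_inl]
    rw [hk i hi l l.2]; ring
  refine ⟨fun c => x (Sum.inl c), ?_⟩
  have h2 : (Sum.elim (fun c => x (Sum.inl c)) 0 : Fin D.d ⊕ σ → ℝ) = x := by
    funext z
    rcases z with z | z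
    · rfl
    · simp [h1]
  funext j
  unfold kC
  rw [h2, hx]; rfl

lemma mem_minCone_iff {a : Fin r → (Fin n →₀ ℕ)} {σ : Finset (Fin r)} (D : FaceDat a σ)
    (hσ : σ.Nonempty) (p : Fin D.d → ℝ) :
    kC D.A p ∈ minCone a σ ↔ (∀ j, 0 ≤ kC D.A p j) ∧
      ∀ l ∈ σᶜ, 0 ≤ ell a l (D.A.mulVec (Sum.elim p 0)) := by
  have hell : ∀ l, ell a l (D.A.mulVec (Sum.elim p 0)) =
      ∑ j, (a l j : ℝ) * kC D.A p j + nuC D.A p := fun l => rfl
  constructor
  · rintro ⟨h1, h2⟩
    refine ⟨h1, fun l _ => ?_⟩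
    obtain ⟨i, hi⟩ := hσ
    rw [hell, nuC_eq D hi]
    linarith [h2 i hi l]
  · rintro ⟨h1, h2⟩
    refine ⟨h1, fun i hi l => ?_⟩
    by_cases hl : l ∈ σ
    · have e1 := nuC_eq D hi p
      have e2 := nuC_eq D hl p
      linarith
    · have := h2 l (Finset.mem_compl.mpr hl)
      rw [hell, nuC_eq D hi] at this
      linarith

open Classical in
lemma Ik_eq {a : Fin r → (Fin n →₀ ℕ)} {σ : Finset (Fin r)} (D : FaceDat a σ)
    (hσ : σ.Nonempty) (p : Fin D.d → ℝ) :
    Ik a σ D.A p = if kC D.A p ∈ minCone a σ then Real.exp (-∑ j, kC D.A p j) else 0 := by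
  unfold Ik
  by_cases h1 : ∀ j, 0 ≤ kC D.A p j
  · have e1 : ∏ j, expo0 ((D.A.mulVec (Sum.elim p 0)) (Sum.inr j)) =
        Real.exp (-∑ j, kC D.A p j) := by
      rw [← Finset.sum_neg_distrib, Real.exp_sum]
      refine Finset.prod_congr rfl fun j _ => ?_
      have h1j : 0 ≤ (D.A.mulVec (Sum.elim p 0)) (Sum.inr j) := h1 j
      unfold expo0; rw [if_pos h1j]; rfl
    rw [e1]
    by_cases h2 : ∀ l ∈ σᶜ, 0 ≤ ell a l (D.A.mulVec (Sum.elim p 0))
    · rw [if_pos ((mem_minCone_iff D hσ p).mpr ⟨h1, h2⟩), Finset.prod_eq_one, mul_one]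
      intro l hl; rw [if_pos (h2 l hl)]
    · rw [if_neg (fun h => h2 ((mem_minCone_iff D hσ p).mp h).2)]
      push Not at h2
      obtain ⟨l, hl, hl2⟩ := h2
      rw [Finset.prod_eq_zero hl (if_neg (not_le.mpr hl2)), mul_zero]
  · rw [if_neg (fun h => h1 h.1)]
    push Not at h1
    obtain ⟨j, hj⟩ := h1
    have : ∏ j, expo0 ((D.A.mulVec (Sum.elim p 0)) (Sum.inr j)) = 0 := by
      apply Finset.prod_eq_zero (Finset.mem_univ j)
      unfold expo0
      have : ¬ 0 ≤ (D.A.mulVec (Sum.elim p 0)) (Sum.inr j) := not_le.mpr hj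
      rw [if_neg this]
    rw [this, zero_mul]

lemma wmin_eq {a : Fin r → (Fin n →₀ ℕ)} {σ : Finset (Fin r)} {w : Fin n → ℕ}
    (hw : toReal w ∈ minCone a σ) {i : Fin r} (hi : i ∈ σ) :
    wmin a w = ∑ j, a i j * w j := by
  have hmin : ∀ l, ∑ j, a i j * w j ≤ ∑ j, a l j * w j := by
    intro l
    have := hw.2 i hi l
    unfold toReal at this
    exact_mod_cast this
  unfold wmin
  have : Nonempty (Fin r) := ⟨i⟩
  apply le_antisymm
  · exact ciInf_le (OrderBot.bddBelow _) i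
  · exact le_ciInf hmin

lemma integral_exp_pos {β : ℝ} (hβ : 0 < β) :
    ∫ x : ℝ, (if 0 < x then Real.exp (-(x * β)) else 0) = 1 / β := by
  have h1 : (fun x : ℝ => if 0 < x then Real.exp (-(x * β)) else 0) =
      (Set.Ioi (0 : ℝ)).indicator (fun x => Real.exp (-β * x)) := by
    funext u
    by_cases hu : 0 < u
    · rw [if_pos hu, Set.indicator_of_mem (Set.mem_Ioi.mpr hu)]; congr 1; ring
    · rw [if_neg hu, Set.indicator_of_notMem (by simpa using hu)]
  rw [h1, integral_indicator measurableSet_Ioi, integral_exp_mul_Ioi (by linarith)]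
  simp

/-- measure zero of a set of parameters whose weights contain no basis -/
lemma ae_notMem_of_no_basis {a : Fin r → (Fin n →₀ ℕ)} {σ : Finset (Fin r)} (D : FaceDat a σ)
    (hσ : σ.Nonempty)
    (h : ¬ ∃ v : Fin D.d → Fin n → ℝ, LinearIndependent ℝ v ∧ ∀ c, v c ∈ minCone a σ) :
    ∀ᵐ p : Fin D.d → ℝ, kC D.A p ∉ minCone a σ := by
  set S : Set (Fin D.d → ℝ) := {p | kC D.A p ∈ minCone a σ} with hS
  have hspan : Submodule.span ℝ S ≠ ⊤ := by
    intro htop
    obtain ⟨f, hf1, hf2, hf3⟩ := Submodule.exists_fun_fin_finrank_span_eq ℝ S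
    have hfr : Module.finrank ℝ (Submodule.span ℝ S) = D.d := by
      rw [htop]; simp
    apply h
    let L : (Fin D.d → ℝ) →ₗ[ℝ] (Fin n → ℝ) :=
      { toFun := kC D.A
        map_add' := fun p q => by
          funext j
          simp only [kC, mulVec_elim_zero, Pi.add_apply, mul_add, Finset.sum_add_distrib]
        map_smul' := fun c p => by
          funext j
          simp only [kC, mulVec_elim_zero, Pi.smul_apply, smul_eq_mul, RingHom.id_apply,
            Finset.mul_sum]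
          exact Finset.sum_congr rfl fun _ _ => by ring }
    have hL : LinearMap.ker L = ⊥ := LinearMap.ker_eq_bot.mpr (kC_injective D hσ)
    refine ⟨fun c => kC D.A (f (Fin.cast hfr.symm c)), ?_, fun c => hf1 _⟩
    have h1 := hf3.map' L hL
    have h2 := h1.comp (Fin.cast hfr.symm) (Fin.cast_injective _)
    exact h2
  have := Measure.addHaar_submodule volume (Submodule.span ℝ S) hspan
  rw [measure_eq_zero_iff_ae_notMem] at this
  filter_upwards [this] with p hp hp'
  exact hp (Submodule.subset_span hp')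

lemma Ik_exp_integrable {a : Fin r → (Fin n →₀ ℕ)} {σ : Finset (Fin r)} (D : FaceDat a σ)
    (hσ : σ.Nonempty) {s : ℝ} (hs : 0 < s) :
    Integrable (fun p : Fin D.d → ℝ => Ik a σ D.A p * Real.exp (s * nuC D.A p)) := by
  refine Integrable.mono' (Ik_integrable D hσ) ?_ (Filter.Eventually.of_forall fun p => ?_)
  · exact ((Ik_measurable a D.A).mul (Real.measurable_exp.comp
      ((nuC_measurable D.A).const_mul s))).aestronglyMeasurable
  · rw [norm_mul, Real.norm_eq_abs, Real.norm_eq_abs, abs_of_pos (Real.exp_pos _),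
      abs_of_nonneg (Ik_nonneg a D.A p)]
    by_cases h : Ik a σ D.A p = 0
    · rw [h]; simp
    · have h1 := nuC_nonpos D hσ p h
      have h2 : Real.exp (s * nuC D.A p) ≤ 1 := by
        rw [Real.exp_le_one_iff]; nlinarith
      nlinarith [Ik_nonneg a D.A p]

lemma openCone_subset {a : Fin r → (Fin n →₀ ℕ)} {σ : Finset (Fin r)} {d : ℕ}
    (v : Fin d → Fin n → ℝ) (hv : ∀ c, v c ∈ minCone a σ) {x : Fin d → ℝ}
    (hx : ∀ c, 0 ≤ x c) : (∑ c, x c • v c) ∈ minCone a σ := by
  have hsum : ∀ i : Fin r, ∑ j, (a i j : ℝ) * (∑ c, x c • v c) j =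
      ∑ c, x c * ∑ j, (a i j : ℝ) * v c j := by
    intro i
    simp only [Finset.sum_apply, Pi.smul_apply, smul_eq_mul, Finset.mul_sum]
    rw [Finset.sum_comm]
    exact Finset.sum_congr rfl fun c _ => Finset.sum_congr rfl fun j _ => by ring
  refine ⟨fun j => ?_, fun i hi l => ?_⟩
  · simp only [Finset.sum_apply, Pi.smul_apply, smul_eq_mul]
    exact Finset.sum_nonneg fun c _ => mul_nonneg (hx c) ((hv c).1 j)
  · rw [hsum, hsum]
    exact Finset.sum_le_sum fun c _ => mul_le_mul_of_nonneg_left ((hv c).2 i hi l) (hx c)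

theorem cone_integral {a : Fin r → (Fin n →₀ ℕ)} {σ : Finset (Fin r)} (D : FaceDat a σ)
    (hσ : σ.Nonempty) {m : ℕ} (w : Fin m → Fin D.d → Fin n → ℕ)
    (hmem : ∀ C c, toReal (w C c) ∈ minCone a σ)
    (hind : ∀ C, LinearIndependent ℝ (fun c => toReal (w C c)))
    (hdisj : ∀ C C', C ≠ C' → Disjoint (openCone fun c => toReal (w C c))
      (openCone fun c => toReal (w C' c)))
    (hcover : (∃ v : Fin D.d → Fin n → ℝ, LinearIndependent ℝ v ∧ ∀ c, v c ∈ minCone a σ) →
      ∀ k ∈ minCone a σ, ∃ C, k ∈ closedCone fun c => toReal (w C c))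
    (Q : Fin m → Matrix (Fin D.d) (Fin D.d) ℝ)
    (hQ : ∀ C c, kC D.A (fun c' => Q C c' c) = toReal (w C c))
    {s : ℝ} (hs : 0 < s) :
    ∫ p : Fin D.d → ℝ, Ik a σ D.A p * Real.exp (s * nuC D.A p) =
      ∑ C, |(Q C).det| *
        ∏ c, (1 / ((wsum (w C c) : ℝ) + s * (wmin a (w C c) : ℝ))) := by
  classical
  have hkQ : ∀ C x, kC D.A ((Q C).mulVec x) = ∑ c, x c • toReal (w C c) := by
    intro C x
    rw [kC_sum]
    exact Finset.sum_congr rfl fun c _ => by rw [hQ]
  have hdet : ∀ C, (Q C).det ≠ 0 := by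
    intro C h0
    obtain ⟨x, hx0, hx⟩ := Matrix.exists_mulVec_eq_zero_iff.mpr h0
    apply hx0
    have h1 := hkQ C x
    rw [hx] at h1
    have h2 : kC D.A (0 : Fin D.d → ℝ) = 0 := by
      funext j; simp [kC, mulVec_elim_zero]
    rw [h2] at h1
    funext c
    exact (Fintype.linearIndependent_iff.mp (hind C)) x h1.symm c
  set V : Fin m → Set (Fin D.d → ℝ) := fun C => {p | ∀ c, 0 < ((Q C)⁻¹.mulVec p) c} with hV
  have hVmeas : ∀ C, MeasurableSet (V C) := by
    intro C
    have h1 : V C = ⋂ c, {p | 0 < ((Q C)⁻¹.mulVec p) c} := by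
      ext p; simp [hV]
    rw [h1]
    refine MeasurableSet.iInter fun c => ?_
    exact measurableSet_lt measurable_const
      ((measurable_pi_apply c).comp (continuous_mulVec' _).measurable)
  have hinv : ∀ C p, (Q C).mulVec ((Q C)⁻¹.mulVec p) = p := by
    intro C p
    rw [Matrix.mulVec_mulVec, Matrix.mul_nonsing_inv _ (isUnit_iff_ne_zero.mpr (hdet C)),
      Matrix.one_mulVec]
  have hinv' : ∀ C x, (Q C)⁻¹.mulVec ((Q C).mulVec x) = x := by
    intro C p
    rw [Matrix.mulVec_mulVec, Matrix.nonsing_inv_mul _ (isUnit_iff_ne_zero.mpr (hdet C)),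
      Matrix.one_mulVec]
  have hkV : ∀ C p, kC D.A p = ∑ c, ((Q C)⁻¹.mulVec p) c • toReal (w C c) := by
    intro C p
    conv_lhs => rw [← hinv C p]
    rw [hkQ]
  have hVopen : ∀ C, ∀ p ∈ V C, kC D.A p ∈ openCone fun c => toReal (w C c) :=
    fun C p hp => ⟨_, hp, hkV C p⟩
  have hVmin : ∀ C, ∀ p ∈ V C, kC D.A p ∈ minCone a σ := by
    intro C p hp
    rw [hkV C p]
    exact openCone_subset _ (hmem C) (fun c => (hp c).le)
  set F : (Fin D.d → ℝ) → ℝ := fun p => Ik a σ D.A p * Real.exp (s * nuC D.A p) with hF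
  have hFint : Integrable F := Ik_exp_integrable D hσ hs
  -- decomposition almost everywhere
  have hae : ∀ᵐ p : Fin D.d → ℝ, F p = ∑ C, (V C).indicator F p := by
    by_cases hfull : ∃ v : Fin D.d → Fin n → ℝ, LinearIndependent ℝ v ∧
        ∀ c, v c ∈ minCone a σ
    · have hne : ∀ᵐ p : Fin D.d → ℝ, ∀ C c, ((Q C)⁻¹.mulVec p) c ≠ 0 := by
        rw [ae_all_iff]; intro C
        rw [ae_all_iff]; intro c
        have hB : (fun c' => (Q C)⁻¹ c c') ≠ 0 := by
          intro h0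
          have h1 := hinv' C (Pi.single c 1)
          have h2 := congrFun h1 c
          simp only [Matrix.mulVec, dotProduct, Pi.single_eq_same] at h2
          have h3 : ∀ c', (Q C)⁻¹ c c' = 0 := fun c' => congrFun h0 c'
          simp [h3] at h2
        exact ae_form_ne _ hB
      filter_upwards [hne] with p hp
      by_cases hk : kC D.A p ∈ minCone a σ
      · obtain ⟨C, x, hx0, hx⟩ := hcover hfull _ hk
        have h1 : p = (Q C).mulVec x := by
          apply kC_injective D hσ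
          rw [hkQ]; exact hx
        have h2 : (Q C)⁻¹.mulVec p = x := by rw [h1, hinv']
        have hpC : p ∈ V C := by
          intro c
          have h3 := hp C c
          rw [h2] at h3 ⊢
          exact lt_of_le_of_ne (hx0 c) (Ne.symm h3)
        rw [Finset.sum_eq_single C, Set.indicator_of_mem hpC]
        · intro C' _ hC'
          apply Set.indicator_of_notMem
          intro hpC'
          exact (Set.disjoint_left.mp (hdisj C C' (Ne.symm hC'))) (hVopen C p hpC)
            (hVopen C' p hpC')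
        · intro h; exact absurd (Finset.mem_univ _) h
      · have h0 : F p = 0 := by
          simp only [hF]
          rw [Ik_eq D hσ, if_neg hk, zero_mul]
        rw [h0]
        symm
        apply Finset.sum_eq_zero
        intro C _
        apply Set.indicator_of_notMem
        exact fun h => hk (hVmin C p h)
    · filter_upwards [ae_notMem_of_no_basis D hσ hfull] with p hk
      have h0 : F p = 0 := by
        simp only [hF]
        rw [Ik_eq D hσ, if_neg hk, zero_mul]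
      rw [h0]
      symm
      apply Finset.sum_eq_zero
      intro C _
      apply Set.indicator_of_notMem
      exact fun h => hk (hVmin C p h)
  rw [integral_congr_ae hae, integral_finsetSum _ (fun C _ => hFint.indicator (hVmeas C))]
  refine Finset.sum_congr rfl fun C _ => ?_
  have hrefl : ((Q C).submatrix id (Equiv.refl (Fin D.d))).det = (Q C).det := rfl
  rw [change_var_real (Q C) (Equiv.refl _) (by rw [hrefl]; exact hdet C), hrefl]
  congr 1
  -- the positivity of the denominators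
  have hβ : ∀ c, (0 : ℝ) < (wsum (w C c) : ℝ) + s * (wmin a (w C c) : ℝ) := by
    intro c
    have h1 : 0 < wsum (w C c) := by
      rw [Nat.pos_iff_ne_zero]
      intro h0
      unfold wsum at h0
      rw [Finset.sum_eq_zero_iff] at h0
      apply (hind C).ne_zero c
      funext j
      unfold toReal
      rw [h0 j (Finset.mem_univ _)]
      simp
    have h2 : (0 : ℝ) < wsum (w C c) := by exact_mod_cast h1
    have h3 : (0 : ℝ) ≤ wmin a (w C c) := Nat.cast_nonneg _
    nlinarith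
  have hpt : ∀ x : Fin D.d → ℝ, (V C).indicator F ((Q C).mulVec x) =
      ∏ c, (if 0 < x c then Real.exp (-(x c *
        ((wsum (w C c) : ℝ) + s * (wmin a (w C c) : ℝ)))) else 0) := by
    intro x
    by_cases hx : ∀ c, 0 < x c
    · have hmemV : (Q C).mulVec x ∈ V C := by
        intro c; rw [hinv']; exact hx c
      rw [Set.indicator_of_mem hmemV]
      simp only [hF]
      rw [Ik_eq D hσ, if_pos (hVmin C _ hmemV), ← Real.exp_add]
      have e1 : ∑ j, kC D.A ((Q C).mulVec x) j = ∑ c, x c * (wsum (w C c) : ℝ) := by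
        rw [hkQ]
        simp only [Finset.sum_apply, Pi.smul_apply, smul_eq_mul]
        rw [Finset.sum_comm]
        refine Finset.sum_congr rfl fun c _ => ?_
        rw [← Finset.mul_sum]
        unfold wsum toReal
        push_cast
        rfl
      have e2 : nuC D.A ((Q C).mulVec x) = -∑ c, x c * (wmin a (w C c) : ℝ) := by
        obtain ⟨i, hi⟩ := hσ
        rw [nuC_eq D hi, hkQ]
        congr 1
        simp only [Finset.sum_apply, Pi.smul_apply, smul_eq_mul, Finset.mul_sum]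
        rw [Finset.sum_comm]
        refine Finset.sum_congr rfl fun c _ => ?_
        rw [wmin_eq (hmem C c) hi]
        push_cast
        rw [Finset.mul_sum]
        refine Finset.sum_congr rfl fun j _ => ?_
        unfold toReal
        ring
      rw [e1, e2]
      have e3 : ∏ c, (if 0 < x c then Real.exp (-(x c *
          ((wsum (w C c) : ℝ) + s * (wmin a (w C c) : ℝ)))) else 0) =
          Real.exp (∑ c, -(x c * ((wsum (w C c) : ℝ) + s * (wmin a (w C c) : ℝ)))) := by
        rw [Real.exp_sum]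
        exact Finset.prod_congr rfl fun c _ => if_pos (hx c)
      rw [e3]
      congr 1
      rw [mul_neg, Finset.mul_sum, ← Finset.sum_neg_distrib, ← Finset.sum_neg_distrib,
        ← Finset.sum_add_distrib]
      exact Finset.sum_congr rfl fun c _ => by ring
    · have hn : (Q C).mulVec x ∉ V C := by
        intro h
        apply hx
        intro c
        have := h c
        rwa [hinv'] at this
      rw [Set.indicator_of_notMem hn]
      push Not at hx
      obtain ⟨c, hc⟩ := hx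
      exact (Finset.prod_eq_zero (Finset.mem_univ c) (if_neg (not_lt.mpr hc))).symm
  simp only [hpt]
  rw [integral_fintype_prod_volume_eq_prod (fun (c : Fin D.d) (u : ℝ) =>
    if 0 < u then Real.exp (-(u * ((wsum (w C c) : ℝ) + s * (wmin a (w C c) : ℝ)))) else 0)]
  exact Finset.prod_congr rfl fun c _ => integral_exp_pos (hβ c)

end Pool.Agent.H22

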