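import Pool.Agent.H22.Lim1

/-! The functional part for a general class of bumps: product bumps supported in a box on which
finitely many given linear forms are positive. -/

namespace Pool.Agent.H22

open MvPolynomial Finset MeasureTheory

variable {r : ℕ} {ι : Type*} [Fintype ι] [DecidableEq ι]

lemma itDeriv_zero_of_notMem {f : ℝ → ℂ} {lo hi : ℝ}
    (hf : ∀ x, x ∉ Set.Icc lo hi → f x = 0) (m : ℕ) :
    ∀ x, x ∉ Set.Icc lo hi → iteratedDeriv m f x = 0 :=
  iteratedDeriv_eq_zero_of_notMem hf m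

lemma Psi_zero_of_box {ρ : Fin r → ℝ → ℂ} {c d : Fin r → ℝ}
    (hs : ∀ i x, x ∉ Set.Icc (c i) (d i) → ρ i x = 0)
    (h : MvPolynomial (Fin r) ℂ) (x : Fin r → ℝ) (hx : ∃ i, x i ∉ Set.Icc (c i) (d i)) :
    Psi ρ h x = 0 := by
  induction h using MvPolynomial.induction_on' with
  | monomial m c' =>
    obtain ⟨i, hi'⟩ := hx
    rw [Psi_monomial]
    rw [Finset.prod_eq_zero (Finset.mem_univ i)
      (iteratedDeriv_eq_zero_of_notMem (hs i) (m i) (x i) hi')]
    simp
  | add p q hp hq =>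
    rw [Psi_add, hp, hq, add_zero]

lemma MF_vanish_of {b : ι → Fin r → ℝ} {c : ι → ℝ} {F : Finset ι} {ρ : Fin r → ℝ → ℂ}
    (h : MvPolynomial (Fin r) ℂ) (mv : Fin r → ℝ)
    (hk : ∀ k ∈ F, 0 ≤ ∑ i, mv i * b k i)
    (hx : ∀ x : Fin r → ℝ, Psi ρ h x ≠ 0 → 0 < ∑ i, mv i * x i) :
    MF b c F ρ h = 0 := by
  unfold MF
  have : ∀ τ, Mint b c F ρ h τ = 0 := by
    intro τ
    unfold Mint
    by_cases hτ : ∀ k ∈ F, 0 ≤ τ k
    · by_cases hP : Psi ρ h (pt b F τ) = 0
      · rw [hP, mul_zero]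
      · exfalso
        have h1 := hx _ hP
        have h2 : ∑ i, mv i * pt b F τ i = -∑ k ∈ F, τ k * ∑ i, mv i * b k i := by
          unfold pt
          simp only [mul_neg, Finset.sum_neg_distrib, neg_inj, Finset.mul_sum]
          rw [Finset.sum_comm]
          refine Finset.sum_congr rfl fun k _ => Finset.sum_congr rfl fun i _ => ?_
          ring
        rw [h2] at h1
        have h3 : 0 ≤ ∑ k ∈ F, τ k * ∑ i, mv i * b k i :=
          Finset.sum_nonneg fun k hk' => mul_nonneg (hτ k hk') (hk k hk')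
        linarith
    · push Not at hτ
      obtain ⟨k, hkF, hk0⟩ := hτ
      rw [Finset.prod_eq_zero (Finset.mem_univ k)]
      · simp
      · unfold wt
        rw [if_pos hkF, if_neg (by linarith)]
  simp only [this]
  simp

/-- product bumps supported in a box on which all forms of `M` are positive -/
def BoxB (M : Set (Fin r → ℝ)) (ρ : Fin r → ℝ → ℂ) : Prop :=
  ∃ c d : Fin r → ℝ, (∀ i, ContDiff ℝ (⊤ : ℕ∞) (ρ i)) ∧
    (∀ i x, x ∉ Set.Icc (c i) (d i) → ρ i x = 0) ∧
    ∀ mv ∈ M, ∀ x : Fin r → ℝ, (∀ i, x i ∈ Set.Icc (c i) (d i)) → 0 < ∑ i, mv i * x i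

lemma BoxB.bump {M : Set (Fin r → ℝ)} {ρ : Fin r → ℝ → ℂ} (h : BoxB M ρ) :
    ∃ lo hi, IsBump ρ lo hi := by
  obtain ⟨c, d, hs, hz, _⟩ := h
  refine ⟨-∑ i, |c i|, ∑ i, |d i|, hs, fun i x hx => hz i x fun hx' => hx ?_⟩
  have h1 : |c i| ≤ ∑ i, |c i| :=
    Finset.single_le_sum (f := fun i => |c i|) (fun _ _ => abs_nonneg _) (Finset.mem_univ i)
  have h2 : |d i| ≤ ∑ i, |d i| :=
    Finset.single_le_sum (f := fun i => |d i|) (fun _ _ => abs_nonneg _) (Finset.mem_univ i)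
  have h3 := neg_abs_le (c i)
  have h4 := le_abs_self (d i)
  rw [Set.mem_Icc] at *
  constructor <;> linarith [hx'.1, hx'.2]

lemma BoxB.pos {M : Set (Fin r → ℝ)} {ρ : Fin r → ℝ → ℂ} (h : BoxB M ρ) {mv : Fin r → ℝ}
    (hm : mv ∈ M) (p : MvPolynomial (Fin r) ℂ) (x : Fin r → ℝ) (hx : Psi ρ p x ≠ 0) :
    0 < ∑ i, mv i * x i := by
  obtain ⟨c, d, hs, hz, hp⟩ := h
  apply hp mv hm
  by_contra hcon
  push Not at hcon
  exact hx (Psi_zero_of_box hz p x hcon)

lemma BoxB.scale {M : Set (Fin r → ℝ)} {ρ : Fin r → ℝ → ℂ} (h : BoxB M ρ) {μ : ℝ} (hμ : 0 < μ) :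
    BoxB M (fun i x => ρ i (μ * x)) := by
  obtain ⟨c, d, hs, hz, hp⟩ := h
  refine ⟨fun i => c i / μ, fun i => d i / μ, fun i => (hs i).comp (by fun_prop), ?_, ?_⟩
  · intro i x hx
    apply hz
    intro h
    apply hx
    rw [Set.mem_Icc] at h ⊢
    rw [div_le_iff₀ hμ, le_div_iff₀ hμ]
    constructor <;> nlinarith [h.1, h.2]
  · intro mv hm x hx
    have h1 := hp mv hm (fun i => μ * x i) (fun i => by
      have := hx i
      rw [Set.mem_Icc, div_le_iff₀ hμ, le_div_iff₀ hμ] at this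
      rw [Set.mem_Icc]
      constructor <;> nlinarith [this.1, this.2])
    have h2 : ∑ i, mv i * (μ * x i) = μ * ∑ i, mv i * x i := by
      rw [Finset.mul_sum]
      exact Finset.sum_congr rfl fun i _ => by ring
    rw [h2] at h1
    exact pos_of_mul_pos_right h1 hμ.le

lemma BoxB.deriv {M : Set (Fin r → ℝ)} {ρ : Fin r → ℝ → ℂ} (h : BoxB M ρ) (m : Fin r →₀ ℕ) :
    BoxB M (fun i => iteratedDeriv (m i) (ρ i)) := by
  obtain ⟨c, d, hs, hz, hp⟩ := h
  refine ⟨c, d, fun i => ?_, fun i x hx => iteratedDeriv_eq_zero_of_notMem (hz i) (m i) x hx, hp⟩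
  simp only
  rw [iteratedDeriv_eq_iterate]
  exact ContDiff.iterate_deriv _ (hs i)

lemma BoxB.twist {M : Set (Fin r → ℝ)} {ρ : Fin r → ℝ → ℂ} (h : BoxB M ρ) (t0 : Fin r → ℝ) :
    BoxB M (fun i x => (Real.exp (-(t0 i) * x) : ℂ) * ρ i x) := by
  obtain ⟨c, d, hs, hz, hp⟩ := h
  refine ⟨c, d, fun i => ?_, fun i x hx => by simp only; rw [hz i x hx, mul_zero], hp⟩
  apply ContDiff.mul _ (hs i)
  apply Complex.ofRealCLM.contDiff.comp
  apply Real.contDiff_exp.comp
  fun_prop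

/-- The ideal of polynomials `h` such that `h(∂)` kills the homogeneous functional on all
admissible bumps. -/
noncomputable def annB (b : ι → Fin r → ℝ) (F : Finset ι) (hF : PosF b 0 F)
    (M : Set (Fin r → ℝ)) : Ideal (MvPolynomial (Fin r) ℂ) where
  carrier := {h | ∀ ρ, BoxB M ρ → MF b 0 F ρ h = 0}
  add_mem' := by
    intro p q hp hq ρ hρ
    obtain ⟨lo, hi, hb⟩ := hρ.bump
    rw [MF_add hb hF, hp ρ hρ, hq ρ hρ, add_zero]
  zero_mem' := by
    intro ρ _
    exact MF_zero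
  smul_mem' := by
    intro p h hh
    simp only [smul_eq_mul, Set.mem_ofPred_eq]
    induction p using MvPolynomial.induction_on' with
    | monomial m a =>
      intro ρ hρ
      rw [MF_monomial_mul, hh _ (hρ.deriv m), mul_zero]
    | add p q hp hq =>
      intro ρ hρ
      obtain ⟨lo, hi, hb⟩ := hρ.bump
      rw [add_mul, MF_add hb hF, hp ρ hρ, hq ρ hρ, add_zero]

lemma mem_annB {b : ι → Fin r → ℝ} {F : Finset ι} {hF : PosF b 0 F} {M : Set (Fin r → ℝ)}
    {h : MvPolynomial (Fin r) ℂ} :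
    h ∈ annB b F hF M ↔ ∀ ρ, BoxB M ρ → MF b 0 F ρ h = 0 := Iff.rfl

lemma scale_mem_annB {b : ι → Fin r → ℝ} {F : Finset ι} {hF : PosF b 0 F} {M : Set (Fin r → ℝ)}
    {h : MvPolynomial (Fin r) ℂ} (hh : h ∈ annB b F hF M) {μ : ℝ} (hμ : 0 < μ) :
    scaleP r μ h ∈ annB b F hF M := by
  rw [mem_annB] at *
  intro ρ hρ
  obtain ⟨lo, hi, hb⟩ := hρ.bump
  obtain ⟨κ, _, hk⟩ := MF_scale (b := b) (F := F) hμ hb h
  rw [hk, hh _ (hρ.scale hμ), mul_zero]

lemma Theta_coeff_mem_annB {b : ι → Fin r → ℝ} {F : Finset ι} {hF : PosF b 0 F}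
    {M : Set (Fin r → ℝ)}
    {h : MvPolynomial (Fin r) ℂ} (hh : h ∈ annB b F hF M) (e : ℕ) :
    (Theta r h).coeff e ∈ annB b F hF M := by
  rw [mem_annB]
  intro ρ hρ
  obtain ⟨lo, hi, hb⟩ := hρ.bump
  set D := (Theta r h).natDegree + 1 with hD
  set q : Polynomial ℂ := ∑ e ∈ Finset.range D,
    Polynomial.monomial e (MF b 0 F ρ ((Theta r h).coeff e)) with hq
  have hev : ∀ μ : ℝ, 0 < μ → q.eval (μ : ℂ) = 0 := by
    intro μ hμ
    have h1 := (mem_annB.mp (scale_mem_annB hh hμ)) ρ hρ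
    rw [← Theta_eval, Polynomial.eval_eq_sum_range, ← hD, MF_sum hb hF] at h1
    rw [hq, Polynomial.eval_finsetSum, ← h1]
    refine Finset.sum_congr rfl fun e _ => ?_
    rw [Polynomial.eval_monomial, ← map_pow, mul_comm ((Theta r h).coeff e), MF_C_mul, mul_comm]
  have hq0 : q = 0 := by
    apply Polynomial.eq_zero_of_infinite_isRoot
    apply Set.Infinite.mono (s := Set.range (fun k : ℕ => ((k : ℂ) + 1)))
    · rintro _ ⟨k, rfl⟩
      have := hev ((k : ℝ) + 1) (by positivity)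
      simpa [Polynomial.IsRoot] using this
    · apply Set.infinite_range_of_injective
      intro x y hxy
      simp only [add_left_inj, Nat.cast_inj] at hxy
      exact hxy
  by_cases he : e < D
  · have h2 : q.coeff e = MF b 0 F ρ ((Theta r h).coeff e) := by
      rw [hq, Polynomial.finsetSum_coeff, Finset.sum_eq_single e]
      · rw [Polynomial.coeff_monomial, if_pos rfl]
      · intro e' _ hne; rw [Polynomial.coeff_monomial, if_neg hne]
      · intro h'; exact absurd (Finset.mem_range.mpr he) h'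
    rw [← h2, hq0]; simp
  · rw [Polynomial.coeff_eq_zero_of_natDegree_lt (by omega)]
    exact MF_zero

theorem unit_removal_annB {b : ι → Fin r → ℝ} {F : Finset ι} {hF : PosF b 0 F}
    {M : Set (Fin r → ℝ)}
    {u G : MvPolynomial (Fin r) ℂ} (hu : constantCoeff u ≠ 0)
    (hh : u * G ∈ annB b F hF M) : G ∈ annB b F hF M := by
  set I := annB b F hF M with hI
  have h1 : ((Theta r u).map (Ideal.Quotient.mk I)) * ((Theta r G).map (Ideal.Quotient.mk I)) =
      0 := by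
    rw [← Polynomial.map_mul, ← map_mul]
    ext e
    rw [Polynomial.coeff_map, Polynomial.coeff_zero, Ideal.Quotient.eq_zero_iff_mem]
    exact Theta_coeff_mem_annB hh e
  have h2 : IsUnit (((Theta r u).map (Ideal.Quotient.mk I)).coeff 0) := by
    rw [Polynomial.coeff_map]
    have h3 : (Theta r u).coeff 0 = C (constantCoeff u) := by
      rw [← scaleP_zero, ← Theta_eval, map_zero, Polynomial.coeff_zero_eq_eval_zero]
    rw [h3]
    have h4 : IsUnit (C (constantCoeff u) : MvPolynomial (Fin r) ℂ) :=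
      (IsUnit.mk0 _ hu).map (C : ℂ →+* MvPolynomial (Fin r) ℂ)
    exact h4.map (Ideal.Quotient.mk I)
  have h3 := poly_unit_cancel _ _ h2 h1
  have h4 : ∀ e, (Theta r G).coeff e ∈ I := by
    intro e
    have := congrArg (fun z => Polynomial.coeff z e) h3
    simp only [Polynomial.coeff_map, Polynomial.coeff_zero] at this
    exact Ideal.Quotient.eq_zero_iff_mem.mp this
  have h5 : G = (Theta r G).eval (C 1) := by rw [Theta_eval, scaleP_one]
  rw [h5, Polynomial.eval_eq_sum_range]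
  apply Ideal.sum_mem
  intro e _
  exact I.mul_mem_right _ (h4 e)

end Pool.Agent.H22
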