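import Pool.Agent.H22.G9

/-! Assembly: from the polynomial identity to the denominator of the zeta function. -/

namespace Pool.Agent.H22

open Finset MeasureTheory MvPolynomial

variable {n r : ℕ}

open Classical in
/-- the integral attached to a face of the regular triangulation -/
noncomputable def JI (a : Fin r → (Fin n →₀ ℕ)) (h' : Fin r → ℝ)
    (D : ∀ σ : Finset (Fin r), LinearIndependent ℤ (fun i : σ => homRow a i) → LatDat a σ)
    (σ : Finset (Fin r)) (s : ℝ) : ℝ :=
  if h : UpperS a h' σ then (D σ ((rows_indep_iff a σ).mp h.1)).Jint s else 0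

open Classical in
/-- the volume of every face is computed by the regular triangulation -/
def VolUpper (a : Fin r → (Fin n →₀ ℕ)) (h' : Fin r → ℝ) (𝒯 : ∀ τ, FaceTriang a τ) : Prop :=
  ∀ τ, IsFace a τ → τ.Nonempty → nvol (𝒯 τ) =
    ∑ σ ∈ univ.filter (fun σ => σ ⊆ τ ∧ σ.card = faceRank a τ ∧ UpperS a h' σ), faceVol a σ

open Classical in
lemma regroup (a : Fin r → (Fin n →₀ ℕ)) (hr : 0 < r) {h' : Fin r → ℝ}
    (D : ∀ σ : Finset (Fin r), LinearIndependent ℤ (fun i : σ => homRow a i) → LatDat a σ)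
    (𝒟 : ∀ τ, FaceCones a τ) (𝒯 : ∀ τ, FaceTriang a τ) (hvol : VolUpper a h' 𝒯)
    {s : ℝ} (hs : 0 < s) (w : ℕ → ℂ) :
    ∑ σ ∈ univ.filter (fun σ : Finset (Fin r) => σ.Nonempty),
      w σ.card * (faceVol a σ : ℂ) ^ 2 * (JI a h' D σ s : ℂ) =
    ∑ τ ∈ univ.filter (fun τ : Finset (Fin r) => IsFace a τ),
      w (faceRank a τ) * (nvol (𝒯 τ) : ℂ) * (JvalG a τ (𝒟 τ) s : ℂ) := by
  set X : Finset (Fin r) → ℂ := fun σ =>
    w σ.card * (faceVol a σ : ℂ) ^ 2 * (JI a h' D σ s : ℂ) with hX
  have hR : ∀ τ ∈ univ.filter (fun τ : Finset (Fin r) => IsFace a τ),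
      w (faceRank a τ) * (nvol (𝒯 τ) : ℂ) * (JvalG a τ (𝒟 τ) s : ℂ) =
      ∑ σ : Finset (Fin r), if σ.Nonempty ∧ UpperS a h' σ ∧ flatF a σ = τ then X σ else 0 := by
    intro τ hτ
    rw [Finset.mem_filter] at hτ
    have hne := isFace_nonempty hr hτ.2
    rw [hvol τ hτ.2 hne, ← Finset.sum_filter]
    have hF : univ.filter (fun σ => σ ⊆ τ ∧ σ.card = faceRank a τ ∧ UpperS a h' σ) =
        univ.filter (fun σ : Finset (Fin r) => σ.Nonempty ∧ UpperS a h' σ ∧ flatF a σ = τ) := by
      ext σ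
      simp only [Finset.mem_filter, Finset.mem_univ, true_and]
      constructor
      · rintro ⟨h1, h2, h3⟩
        refine ⟨?_, h3, flatF_eq_of_card h3.1 h1 h2 (isFace_flat hne hτ.2)⟩
        rw [← Finset.card_pos, h2]
        exact faceRank_pos hne
      · rintro ⟨h1, h2, h3⟩
        refine ⟨?_, ?_, h2⟩
        · rw [← h3]; exact subset_flatF a σ
        · rw [← h3, faceRank_flatF h2.1]
    rw [hF]
    push_cast
    rw [Finset.mul_sum, Finset.sum_mul]
    refine Finset.sum_congr rfl fun σ hσ => ?_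
    rw [Finset.mem_filter] at hσ
    obtain ⟨_, h1, h2, h3⟩ := hσ
    rw [JvalG_eq (D σ ((rows_indep_iff a σ).mp h2.1)) h1 h2.1 h3 (𝒟 τ) hs]
    have h4 : faceRank a τ = σ.card := by rw [← h3, faceRank_flatF h2.1]
    simp only [hX]
    unfold JI
    rw [dif_pos h2, h4]
    push_cast
    ring
  rw [Finset.sum_congr rfl hR, Finset.sum_comm, Finset.sum_filter]
  refine Finset.sum_congr rfl fun σ _ => ?_
  by_cases hne : σ.Nonempty
  swap
  · rw [if_neg hne]
    symm
    apply Finset.sum_eq_zero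
    intro τ _
    rw [if_neg (fun h => hne h.1)]
  rw [if_pos hne]
  by_cases hU : UpperS a h' σ
  · by_cases hf : IsFace a (flatF a σ)
    · rw [Finset.sum_eq_single (flatF a σ)]
      · rw [if_pos ⟨hne, hU, rfl⟩]
      · intro τ _ hτ
        rw [if_neg (fun h => hτ h.2.2.symm)]
      · intro h
        exact absurd (Finset.mem_filter.mpr ⟨Finset.mem_univ _, hf⟩) h
    · have h0 : X σ = 0 := by
        simp only [hX]
        unfold JI
        rw [dif_pos hU, Jint_zero _ hne hf]
        simp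
      change X σ = _
      rw [h0]
      symm
      apply Finset.sum_eq_zero
      intro τ _
      simp
  · have h0 : X σ = 0 := by
      simp only [hX]
      unfold JI
      rw [dif_neg hU]
      simp
    change X σ = _
    rw [h0]
    symm
    apply Finset.sum_eq_zero
    intro τ _
    simp

lemma exists_splitG (a : Fin r → (Fin n →₀ ℕ)) (h' : Fin r → ℝ)
    (D : ∀ σ : Finset (Fin r), LinearIndependent ℤ (fun i : σ => homRow a i) → LatDat a σ)
    (σ : Finset (Fin r)) :
    ∃ G : ℝ → ℝ, AnalyticOnNhd ℝ G Set.univ ∧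
      (σ.Nonempty → ∀ s : ℝ, 0 < s →
        JI a h' D σ s = TG a h' (fun σ hσ => (D σ hσ).toFace) σ 0 s + G s) := by
  classical
  by_cases hσ : σ.Nonempty
  · by_cases hU : UpperS a h' σ
    · obtain ⟨G, hG, h⟩ := T_split (D σ ((rows_indep_iff a σ).mp hU.1)).toFace hσ
      refine ⟨G, hG, fun _ s hs => ?_⟩
      unfold JI TG
      rw [dif_pos hU, dif_pos hU, h s hs, sub_add_cancel]
      rfl
    · refine ⟨fun _ => 0, analyticOnNhd_const, fun _ s _ => ?_⟩
      unfold JI TG
      rw [dif_neg hU, dif_neg hU, add_zero]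
  · exact ⟨fun _ => 0, analyticOnNhd_const, fun h => absurd h hσ⟩

theorem main_from_identity (a : Fin r → (Fin n →₀ ℕ)) (ha : Function.Injective a) (hr : 0 < r)
    {h' : Fin r → ℝ} (hh : LinearIndependent ℚ h')
    (𝒟 : ∀ τ, FaceCones a τ) (𝒯 : ∀ τ, FaceTriang a τ) (hvol : VolUpper a h' 𝒯)
    (b' : Polynomial ℂ) (K : ℕ) (hK : 1 ≤ K) {A : Type*} (T : Finset A) (m : A → Fin r → ℤ)
    (g : A → MvPolynomial (Fin r) ℂ) (M : Set (Fin r → ℝ)) (hMfin : M.Finite)
    (hM : ∀ α ∈ T, (fun i => (m α i : ℝ)) ∈ M)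
    (hM2 : ∀ x ∈ M, ∑ i, x i ≤ -1 ∨ ∃ v : Fin r → ℤ, (fun i => (v i : ℝ)) = x ∧
      IsRel a v ∧ ∑ i, (v i : ℝ) * h' i < 0)
    (E : MvPolynomial (Fin r) ℂ) (hE : KillAll a M E)
    (hid : (Polynomial.aeval (∑ i, (X i : MvPolynomial (Fin r) ℂ)) b') * ∏ i, DDp K 0 i =
        ∑ α ∈ T, g α * (∏ j, zf a j (-(∑ i, m α i * (a i j : ℤ)))) *
          ∏ i, DDp K (m α i) i + E) :
    (topZetaG a 𝒟 𝒯).denom ∣ (Polynomial.X + 1) * b' := by
  classical
  set D : ∀ σ : Finset (Fin r), LinearIndependent ℤ (fun i : σ => homRow a i) → LatDat a σ :=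
    fun σ hσ => (exists_latDat σ hσ).some with hD
  set FD : FDat a := fun σ hσ => (D σ hσ).toFace with hFD
  obtain ⟨Cp, Dg, hC0, hC⟩ := limit_sumG a hh FD b' K hK T m g M hMfin hM hM2 E hE hid _
    (faceVol_apexInv a)
  choose G hGan hG using exists_splitG a h' D
  set b : Polynomial ℂ := (Polynomial.X + 1) * b' with hbb'
  set H : ℝ → ℂ := fun s => ∑ j ∈ Finset.range Dg, (Cp (j + 1)).eval (s : ℂ) *
    ∑ σ : Finset (Fin r), (-1 : ℂ) ^ σ.card * ((faceVol a σ : ℂ)) ^ 2 *
      ((TG a h' FD σ (j + 1) s : ℝ) : ℂ) with hH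
  set g1 : ℝ → ℂ := fun s => ∑ i, (G {i} s : ℂ) with hg1
  set g2 : ℝ → ℂ := fun s => ∑ σ ∈ univ.filter (fun σ : Finset (Fin r) => 2 ≤ σ.card),
    (-1 : ℂ) ^ (σ.card - 1) * ((faceVol a σ : ℂ)) ^ 2 * (G σ s : ℂ) with hg2
  set Gtot : ℝ → ℂ := fun s => b'.eval (s : ℂ) *
    (((TG a h' FD ∅ 1 s : ℝ) : ℂ) + (s + 1) * g1 s + s * g2 s) + s * H s with hGtot
  -- analyticity
  have hTan : ∀ σ j, AnalyticOnNhd ℝ (TG a h' FD σ (j + 1)) Set.univ := by
    intro σ j
    by_cases hU : UpperS a h' σ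
    · obtain ⟨C0, _, hC0⟩ := etaF_bound (j + 1)
      have h1 : TG a h' FD σ (j + 1) =
          (FD σ ((rows_indep_iff a σ).mp hU.1)).T (etaF (j + 1)) := by
        funext s
        unfold TG
        rw [dif_pos hU]
      rw [h1]
      exact analytic_T_of_supp _ (etaF_continuous _) hC0 (etaF_zero_lt _)
        (etaF_zero_gt _ (by omega))
    · have h1 : TG a h' FD σ (j + 1) = fun _ => 0 := by
        funext s
        unfold TG
        rw [dif_neg hU]
      rw [h1]
      exact analyticOnNhd_const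
  have hs_an : AnalyticOnNhd ℝ (fun s : ℝ => (s : ℂ)) Set.univ :=
    Complex.ofRealCLM.analyticOnNhd _
  have hHan : AnalyticOnNhd ℝ H Set.univ := by
    rw [hH]
    refine Finset.analyticOnNhd_fun_sum _ fun j _ => (eval_analytic _).mul ?_
    refine Finset.analyticOnNhd_fun_sum _ fun σ _ => analyticOnNhd_const.mul ?_
    exact ofReal_analytic (hTan σ j)
  have hg1an : AnalyticOnNhd ℝ g1 Set.univ :=
    Finset.analyticOnNhd_fun_sum _ fun i _ => ofReal_analytic (hGan {i})
  have hg2an : AnalyticOnNhd ℝ g2 Set.univ :=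
    Finset.analyticOnNhd_fun_sum _ fun σ _ => analyticOnNhd_const.mul (ofReal_analytic (hGan σ))
  have hGan' : AnalyticOnNhd ℝ Gtot Set.univ := by
    rw [hGtot]
    refine AnalyticOnNhd.add ((eval_analytic b').mul ?_) (hs_an.mul hHan)
    exact ((ofReal_analytic (hTan ∅ 0)).add
      ((hs_an.add analyticOnNhd_const).mul hg1an)).add (hs_an.mul hg2an)
  -- the value of the zeta function
  have hXX : GoodR (RatFunc.X / (RatFunc.X + 1) : RatFunc ℂ)
      (fun s => (s : ℂ) / ((s : ℂ) + 1)) := by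
    refine ⟨Polynomial.X, Polynomial.X + 1, ?_, ?_, fun s _ => ?_⟩
    · constructor
      · exact Polynomial.X_add_C_ne_zero 1
      · intro z hz
        refine ⟨-1, by norm_num, ?_⟩
        rw [Polynomial.IsRoot] at hz
        simp only [Polynomial.eval_add, Polynomial.eval_X, Polynomial.eval_one] at hz
        push_cast
        linear_combination hz
    · simp [RatFunc.algebraMap_X]
    · simp
  have hZ : GoodR (topZetaG a 𝒟 𝒯) (fun s =>
      ∑ τ ∈ univ.filter (fun τ : Finset (Fin r) => IsFace a τ ∧ faceRank a τ = 1),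
        (JvalG a τ (𝒟 τ) s : ℂ) +
      ((s : ℂ) / ((s : ℂ) + 1)) *
        ∑ τ ∈ univ.filter (fun τ : Finset (Fin r) => IsFace a τ ∧ 2 ≤ faceRank a τ),
        ((-1 : ℂ) ^ (faceRank a τ - 1) * (nvol (𝒯 τ) : ℂ)) * (JvalG a τ (𝒟 τ) s : ℂ)) := by
    unfold topZetaG
    refine (GoodR.sum _ fun τ _ => JfunG_good a τ (𝒟 τ)).add (hXX.mul
      (GoodR.sum _ fun τ _ => GoodR.mul (GoodR.mul ?_ (GoodR.natCast _)) (JfunG_good a τ (𝒟 τ))))
    have := GoodR.poly ((-1 : Polynomial ℂ) ^ (faceRank a τ - 1))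
    simpa using this
  -- the product with `b` is analytic
  have hkey : ∀ s : ℝ, 0 < s → b.eval (s : ℂ) *
      (∑ τ ∈ univ.filter (fun τ : Finset (Fin r) => IsFace a τ ∧ faceRank a τ = 1),
        (JvalG a τ (𝒟 τ) s : ℂ) +
      ((s : ℂ) / ((s : ℂ) + 1)) *
        ∑ τ ∈ univ.filter (fun τ : Finset (Fin r) => IsFace a τ ∧ 2 ≤ faceRank a τ),
        ((-1 : ℂ) ^ (faceRank a τ - 1) * (nvol (𝒯 τ) : ℂ)) * (JvalG a τ (𝒟 τ) s : ℂ)) =
      Gtot s := by
    intro s hs
    have hs1 : (s : ℂ) + 1 ≠ 0 := by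
      have : (s + 1 : ℝ) ≠ 0 := by linarith
      exact_mod_cast this
    set S1 : ℂ := ∑ i, ((TG a h' FD {i} 0 s : ℝ) : ℂ) with hS1
    set S2 : ℂ := ∑ σ ∈ univ.filter (fun σ : Finset (Fin r) => 2 ≤ σ.card),
      (-1 : ℂ) ^ (σ.card - 1) * ((faceVol a σ : ℂ)) ^ 2 * ((TG a h' FD σ 0 s : ℝ) : ℂ) with hS2
    set T0 : ℂ := ((TG a h' FD ∅ 0 s : ℝ) : ℂ) with hT0
    set T1 : ℂ := ((TG a h' FD ∅ 1 s : ℝ) : ℂ) with hT1
    have hJI : ∀ σ : Finset (Fin r), σ.Nonempty → (JI a h' D σ s : ℂ) =
        ((TG a h' FD σ 0 s : ℝ) : ℂ) + (G σ s : ℂ) := by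
      intro σ hσ
      rw [hG σ hσ s hs]
      push_cast
      rfl
    have e1 : ∑ τ ∈ univ.filter (fun τ : Finset (Fin r) => IsFace a τ ∧ faceRank a τ = 1),
        (JvalG a τ (𝒟 τ) s : ℂ) = S1 + g1 s := by
      have h1 := regroup a hr D 𝒟 𝒯 hvol hs (fun ρ => if ρ = 1 then 1 else 0)
      have h2 : ∑ σ ∈ univ.filter (fun σ : Finset (Fin r) => σ.Nonempty),
          (if σ.card = 1 then (1 : ℂ) else 0) * (faceVol a σ : ℂ) ^ 2 * (JI a h' D σ s : ℂ) =
          ∑ i, (JI a h' D {i} s : ℂ) := by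
        have h3 : ∀ σ : Finset (Fin r), (if σ.card = 1 then (1 : ℂ) else 0) *
            (faceVol a σ : ℂ) ^ 2 * (JI a h' D σ s : ℂ) =
            if σ.card = 1 then (JI a h' D σ s : ℂ) else 0 := by
          intro σ
          by_cases hc : σ.card = 1
          · rw [if_pos hc, if_pos hc]
            obtain ⟨i, rfl⟩ := Finset.card_eq_one.mp hc
            rw [faceVol_singleton]
            simp
          · rw [if_neg hc, if_neg hc]; simp
        simp only [h3]
        rw [← Finset.sum_filter, Finset.filter_filter]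
        symm
        refine Finset.sum_bij (fun i _ => {i}) ?_ ?_ ?_ ?_
        · intro i _; simp
        · intro i _ j _ h; exact Finset.singleton_injective h
        · intro σ hσ
          rw [Finset.mem_filter] at hσ
          obtain ⟨i, hi⟩ := Finset.card_eq_one.mp hσ.2.2
          exact ⟨i, Finset.mem_univ _, hi.symm⟩
        · intro i _; rfl
      rw [h2] at h1
      have h4 : ∑ τ ∈ univ.filter (fun τ : Finset (Fin r) => IsFace a τ),
          (if faceRank a τ = 1 then (1 : ℂ) else 0) * (nvol (𝒯 τ) : ℂ) *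
            (JvalG a τ (𝒟 τ) s : ℂ) =
          ∑ τ ∈ univ.filter (fun τ : Finset (Fin r) => IsFace a τ ∧ faceRank a τ = 1),
            (JvalG a τ (𝒟 τ) s : ℂ) := by
        rw [← Finset.filter_filter, Finset.sum_filter (p := fun τ => faceRank a τ = 1)]
        refine Finset.sum_congr rfl fun τ hτ => ?_
        rw [Finset.mem_filter] at hτ
        by_cases hc : faceRank a τ = 1
        · rw [if_pos hc, if_pos hc]
          -- the volume of a vertex
          have hne := isFace_nonempty hr hτ.2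
          have hv : nvol (𝒯 τ) = 1 := by
            rw [hvol τ hτ.2 hne]
            obtain ⟨i, hi⟩ := hne
            have hflat : flatF a {i} = τ := by
              apply flatF_eq_of_card (upperS_singleton ha h' i).1
              · simpa using hi
              · rw [hc]; simp
              · exact isFace_flat ⟨i, hi⟩ hτ.2
            have hτi : τ = {i} := by
              ext l
              rw [← hflat, mem_flatF, Finset.mem_singleton]
              constructor
              · intro hl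
                obtain ⟨β, hβ⟩ := exists_coeff hl
                by_contra hne
                have h6 := (upperS_singleton ha h' i).2 l (by simpa using hne) β hβ
                have h7 := (upperS_singleton ha (fun j => -(h' j)) i).2 l
                  (by simpa using hne) β hβ
                simp only [mul_neg, Finset.sum_neg_distrib] at h7
                linarith
              · rintro rfl
                exact Submodule.subset_span ⟨l, by simp, rfl⟩
            rw [Finset.sum_eq_single {i}]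
            · exact faceVol_singleton a i
            · intro σ hσ hne
              rw [Finset.mem_filter, hc] at hσ
              exfalso
              apply hne
              obtain ⟨j, rfl⟩ := Finset.card_eq_one.mp hσ.2.2.1
              have := hσ.2.1
              rw [hτi, Finset.singleton_subset_iff, Finset.mem_singleton] at this
              rw [this]
            · intro h
              exfalso
              apply h
              rw [Finset.mem_filter, hc]
              exact ⟨Finset.mem_univ _, by simpa using hi, by simp, upperS_singleton ha h' i⟩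
          rw [hv]; simp
        · rw [if_neg hc, if_neg hc]; simp
      rw [h4] at h1
      rw [← h1, hS1, hg1, ← Finset.sum_add_distrib]
      exact Finset.sum_congr rfl fun i _ => hJI {i} (Finset.singleton_nonempty i)
    have e2 : ∑ τ ∈ univ.filter (fun τ : Finset (Fin r) => IsFace a τ ∧ 2 ≤ faceRank a τ),
        ((-1 : ℂ) ^ (faceRank a τ - 1) * (nvol (𝒯 τ) : ℂ)) * (JvalG a τ (𝒟 τ) s : ℂ) =
        S2 + g2 s := by
      have h1 := regroup a hr D 𝒟 𝒯 hvol hs (fun ρ => if 2 ≤ ρ then (-1) ^ (ρ - 1) else 0)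
      have h4 : ∑ τ ∈ univ.filter (fun τ : Finset (Fin r) => IsFace a τ),
          (if 2 ≤ faceRank a τ then (-1 : ℂ) ^ (faceRank a τ - 1) else 0) *
            (nvol (𝒯 τ) : ℂ) * (JvalG a τ (𝒟 τ) s : ℂ) =
          ∑ τ ∈ univ.filter (fun τ : Finset (Fin r) => IsFace a τ ∧ 2 ≤ faceRank a τ),
            ((-1 : ℂ) ^ (faceRank a τ - 1) * (nvol (𝒯 τ) : ℂ)) * (JvalG a τ (𝒟 τ) s : ℂ) := by
        rw [← Finset.filter_filter, Finset.sum_filter (p := fun τ => 2 ≤ faceRank a τ)]
        refine Finset.sum_congr rfl fun τ _ => ?_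
        split_ifs <;> simp
      have h5 : ∑ σ ∈ univ.filter (fun σ : Finset (Fin r) => σ.Nonempty),
          (if 2 ≤ σ.card then (-1 : ℂ) ^ (σ.card - 1) else 0) * (faceVol a σ : ℂ) ^ 2 *
            (JI a h' D σ s : ℂ) =
          ∑ σ ∈ univ.filter (fun σ : Finset (Fin r) => 2 ≤ σ.card),
            (-1 : ℂ) ^ (σ.card - 1) * (faceVol a σ : ℂ) ^ 2 * (JI a h' D σ s : ℂ) := by
        have h6 : univ.filter (fun σ : Finset (Fin r) => 2 ≤ σ.card) =
            (univ.filter (fun σ : Finset (Fin r) => σ.Nonempty)).filter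
              (fun σ => 2 ≤ σ.card) := by
          ext σ
          simp only [Finset.mem_filter, Finset.mem_univ, true_and]
          constructor
          · intro h; exact ⟨Finset.card_pos.mp (by omega), h⟩
          · intro h; exact h.2
        rw [h6, Finset.sum_filter (p := fun σ : Finset (Fin r) => 2 ≤ σ.card)]
        refine Finset.sum_congr rfl fun σ _ => ?_
        split_ifs <;> simp
      rw [h4, h5] at h1
      rw [← h1, hS2, hg2, ← Finset.sum_add_distrib]
      refine Finset.sum_congr rfl fun σ hσ => ?_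
      rw [Finset.mem_filter] at hσ
      rw [hJI σ (Finset.card_pos.mp (by omega))]
      ring
    have e3 : (s : ℂ) * T0 = T1 - S1 := by
      have := limit_emptyG a hh FD hs
      rw [hT0, hT1, hS1]
      exact_mod_cast this
    have e4 : b'.eval (s : ℂ) * (T0 - S1 - S2) + H s = 0 := by
      have h1 := hC s hs
      rw [Finset.sum_range_succ', hC0, sum_faces] at h1
      have h2 : ∑ i : Fin r, (-1 : ℂ) ^ ({i} : Finset (Fin r)).card *
          ((faceVol a {i} : ℂ)) ^ 2 * ((TG a h' FD {i} 0 s : ℝ) : ℂ) = -S1 := by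
        rw [hS1, ← Finset.sum_neg_distrib]
        refine Finset.sum_congr rfl fun i _ => ?_
        rw [faceVol_singleton]
        simp
      have h3 : ∑ σ ∈ univ.filter (fun σ : Finset (Fin r) => 2 ≤ σ.card), (-1 : ℂ) ^ σ.card *
          ((faceVol a σ : ℂ)) ^ 2 * ((TG a h' FD σ 0 s : ℝ) : ℂ) = -S2 := by
        rw [hS2, ← Finset.sum_neg_distrib]
        refine Finset.sum_congr rfl fun σ hσ => ?_
        rw [Finset.mem_filter] at hσ
        obtain ⟨k, hk⟩ : ∃ k, σ.card = k + 1 := ⟨σ.card - 1, by omega⟩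
        rw [hk, Nat.add_sub_cancel, pow_succ]
        ring
      rw [h2, h3] at h1
      have h4 : (-1 : ℂ) ^ (∅ : Finset (Fin r)).card * ((faceVol a ∅ : ℂ)) ^ 2 *
          ((TG a h' FD ∅ 0 s : ℝ) : ℂ) = T0 := by
        rw [faceVol_empty]
        simp [hT0]
      rw [h4] at h1
      rw [hH]
      linear_combination h1
    rw [e1, e2]
    have hb : b.eval (s : ℂ) = ((s : ℂ) + 1) * b'.eval (s : ℂ) := by
      rw [hbb']
      simp [Polynomial.eval_mul, Polynomial.eval_add]
    rw [hb]
    simp only [hGtot]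
    rw [← hT1]
    field_simp
    linear_combination (-(s : ℂ)) * e4 + b'.eval (s : ℂ) * e3
  obtain ⟨p, q, hq, hZpq, hF⟩ := hZ
  have hdvd : q ∣ b * p := by
    refine dvd_of_analytic _ q rfl hq (b * p) Gtot hGan' fun s hs => ?_
    have h1 := hF s hs
    have h2 := hkey s hs
    simp only at h1
    rw [h1] at h2
    have h4 : (b * p).eval (s : ℂ) = b.eval (s : ℂ) * p.eval (s : ℂ) := Polynomial.eval_mul
    rw [← h2, h4]
    have := hq.eval_ne hs
    field_simp
  by_cases hb0 : b = 0
  · rw [hb0]; exact dvd_zero _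
  obtain ⟨h, hh⟩ := hdvd
  rw [RatFunc.denom_dvd hb0]
  refine ⟨h, ?_⟩
  rw [hZpq, div_eq_div_iff (algMap_ne hq.1) (algMap_ne hb0), ← map_mul, ← map_mul]
  congr 1
  linear_combination hh

end Pool.Agent.H22
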