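import Pool.Agent.H22.G1

/-! Farkas' lemma and the annihilation of high powers of `ΣX`. -/

namespace Pool.Agent.H22

open MvPolynomial Finset MeasureTheory

variable {n r : ℕ}

/-- Farkas' lemma for linear functionals. -/
theorem farkas {W ι : Type*} [AddCommGroup W] [Module ℝ W] [DecidableEq ι] (F : Finset ι) :
    ∀ (b : ι → W →ₗ[ℝ] ℝ) (v : W →ₗ[ℝ] ℝ), (∀ w, (∀ k ∈ F, 0 ≤ b k w) → 0 ≤ v w) →
      ∃ c : ι → ℝ, (∀ k ∈ F, 0 ≤ c k) ∧ v = ∑ k ∈ F, c k • b k := by
  induction F using Finset.induction_on with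
  | empty =>
    intro b v h
    refine ⟨fun _ => 0, by simp, ?_⟩
    ext w
    have h1 := h w (by simp)
    have h2 := h (-w) (by simp)
    rw [map_neg] at h2
    simp only [Finset.sum_empty, LinearMap.zero_apply]
    linarith
  | insert p F hp ih =>
    intro b v h
    by_cases h0 : ∀ w, (∀ k ∈ F, 0 ≤ b k w) → 0 ≤ v w
    · obtain ⟨c, hc, hv⟩ := ih b v h0
      refine ⟨fun k => if k = p then 0 else c k, fun k hk => ?_, ?_⟩
      · simp only
        split_ifs with hkp
        · exact le_rfl
        · exact hc k ((Finset.mem_insert.mp hk).resolve_left hkp)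
      · rw [Finset.sum_insert hp]
        simp only [if_true, zero_smul, zero_add]
        rw [hv]
        refine Finset.sum_congr rfl fun k hk => ?_
        rw [if_neg (by rintro rfl; exact hp hk)]
    · push Not at h0
      obtain ⟨w1, hw1, hv1⟩ := h0
      have hbp : b p w1 < 0 := by
        by_contra hcon
        push Not at hcon
        have := h w1 (fun k hk => by
          rcases Finset.mem_insert.mp hk with rfl | hk
          · exact hcon
          · exact hw1 k hk)
        linarith
      -- normalise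
      set w0 : W := (-(b p w1))⁻¹ • w1 with hw0
      have hpos : 0 < (-(b p w1))⁻¹ := inv_pos.mpr (by linarith)
      have hb0 : b p w0 = -1 := by
        rw [hw0, map_smul, smul_eq_mul]
        have : b p w1 ≠ 0 := by linarith
        field_simp
      have hbk0 : ∀ k ∈ F, 0 ≤ b k w0 := by
        intro k hk
        rw [hw0, map_smul, smul_eq_mul]
        exact mul_nonneg hpos.le (hw1 k hk)
      have hv0 : v w0 < 0 := by
        rw [hw0, map_smul, smul_eq_mul]
        exact mul_neg_of_pos_of_neg hpos hv1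
      obtain ⟨c, hc, hv⟩ := ih (fun k => b k + (b k w0) • b p) (v + (v w0) • b p) (by
        intro w hw
        have h1 := h (w + (b p w) • w0) (fun k hk => by
          rcases Finset.mem_insert.mp hk with rfl | hk
          · rw [map_add, map_smul, smul_eq_mul, hb0]; linarith
          · have := hw k hk
            simp only [LinearMap.add_apply, LinearMap.smul_apply, smul_eq_mul] at this
            rw [map_add, map_smul, smul_eq_mul]
            linarith)
        rw [map_add, map_smul, smul_eq_mul] at h1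
        simp only [LinearMap.add_apply, LinearMap.smul_apply, smul_eq_mul]
        linarith)
      refine ⟨fun k => if k = p then ∑ k ∈ F, c k * b k w0 - v w0 else c k, fun k hk => ?_, ?_⟩
      · simp only
        split_ifs with hkp
        · have : 0 ≤ ∑ k ∈ F, c k * b k w0 :=
            Finset.sum_nonneg fun k hk => mul_nonneg (hc k hk) (hbk0 k hk)
          linarith
        · exact hc k ((Finset.mem_insert.mp hk).resolve_left hkp)
      · rw [Finset.sum_insert hp]
        simp only [if_true]
        have h2 : ∑ k ∈ F, (if k = p then ∑ k ∈ F, c k * b k w0 - v w0 else c k) • b k =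
            ∑ k ∈ F, c k • b k := by
          refine Finset.sum_congr rfl fun k hk => ?_
          rw [if_neg (by rintro rfl; exact hp hk)]
        rw [h2]
        ext w
        have h3 := congrArg (fun f : W →ₗ[ℝ] ℝ => f w) hv
        simp only [LinearMap.add_apply, LinearMap.smul_apply, smul_eq_mul,
          LinearMap.coe_sum, Finset.sum_apply] at h3 ⊢
        have h4 : ∑ k ∈ F, c k * (b k w + b k w0 * b p w) =
            ∑ k ∈ F, c k * b k w + (∑ k ∈ F, c k * b k w0) * b p w := by
          rw [Finset.sum_mul, ← Finset.sum_add_distrib]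
          exact Finset.sum_congr rfl fun k _ => by ring
        rw [h4] at h3
        linarith

/-- the linear form `m ↦ Σ m_i x_i` -/
noncomputable def dotL (x : Fin r → ℝ) : (Fin r → ℝ) →ₗ[ℝ] ℝ where
  toFun := fun m => ∑ i, m i * x i
  map_add' := fun p q => by
    simp only [Pi.add_apply, add_mul, Finset.sum_add_distrib]
  map_smul' := fun c p => by
    simp only [Pi.smul_apply, smul_eq_mul, RingHom.id_apply, Finset.mul_sum]
    exact Finset.sum_congr rfl fun _ _ => by ring

lemma farkas_vec {ι : Type*} [DecidableEq ι] (F : Finset ι) (b : ι → Fin r → ℝ)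
    (v : Fin r → ℝ) (h : ¬ ∃ m : Fin r → ℝ, (∀ k ∈ F, 0 ≤ ∑ i, m i * b k i) ∧
      ∑ i, m i * v i < 0) :
    ∃ c : ι → ℝ, (∀ k ∈ F, 0 ≤ c k) ∧ ∀ i, v i = ∑ k ∈ F, c k * b k i := by
  obtain ⟨c, hc, hv⟩ := farkas F (fun k => dotL (b k)) (dotL v) (by
    intro w hw
    by_contra hcon
    push Not at hcon
    exact h ⟨w, hw, hcon⟩)
  refine ⟨c, hc, fun i => ?_⟩
  have h1 := congrArg (fun f : (Fin r → ℝ) →ₗ[ℝ] ℝ => f (Pi.single i 1)) hv
  have h2 : ∀ x : Fin r → ℝ, dotL x (Pi.single i 1) = x i := by
    intro x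
    change ∑ i', (Pi.single i 1 : Fin r → ℝ) i' * x i' = x i
    rw [Finset.sum_eq_single i]
    · simp
    · intro b _ hb; simp [hb]
    · intro h; exact absurd (Finset.mem_univ _) h
  simpa [h2] using h1

/-- `M` contains separators for all families which do not have `1` in their cone -/
def HasSep {ι : Type*} (b : ι → Fin r → ℝ) (M : Set (Fin r → ℝ)) : Prop :=
  ∀ F : Finset ι, (∃ m : Fin r → ℝ, (∀ k ∈ F, 0 ≤ ∑ i, m i * b k i) ∧ ∑ i, m i < 0) →
    ∃ m ∈ M, ∀ k ∈ F, 0 ≤ ∑ i, m i * b k i

/-- high powers of `ΣX` annihilate -/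
lemma pow_mem_annB {ι : Type*} [Fintype ι] [DecidableEq ι] (b : ι → Fin r → ℝ)
    (M : Set (Fin r → ℝ)) (hsep : HasSep b M) (k : ℕ) :
    ∀ (F : Finset ι) (hF : PosF b 0 F) (h : MvPolynomial (Fin r) ℂ), F.card < k →
      (∑ i, (X i : MvPolynomial (Fin r) ℂ)) ^ k * h ∈ annB b F hF M := by
  induction k with
  | zero => intro F hF h hk; omega
  | succ k ih =>
    intro F hF h hk
    rw [mem_annB]
    intro ρ hρ
    by_cases hs : ∃ m : Fin r → ℝ, (∀ k ∈ F, 0 ≤ ∑ i, m i * b k i) ∧ ∑ i, m i < 0
    · obtain ⟨m, hm, hmF⟩ := hsep F hs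
      exact MF_vanish_of _ m hmF (fun x hx => hρ.pos hm _ x hx)
    · obtain ⟨c, hc, hv⟩ := farkas_vec F b (fun _ => 1) (by simpa using hs)
      obtain ⟨lo, hi, hb⟩ := hρ.bump
      have h1 : (∑ i, (X i : MvPolynomial (Fin r) ℂ)) =
          ∑ p ∈ F, C ((c p : ℝ) : ℂ) * formP (b p) 0 := by
        have h2 : ∀ p, C ((c p : ℝ) : ℂ) * formP (b p) 0 =
            ∑ i, C (((c p * b p i : ℝ)) : ℂ) * (X i : MvPolynomial (Fin r) ℂ) := by
          intro p
          unfold formP
          simp only [Complex.ofReal_zero, map_zero, add_zero, Finset.mul_sum]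
          refine Finset.sum_congr rfl fun i _ => ?_
          rw [← mul_assoc, ← map_mul]
          push_cast
          rfl
        simp only [h2]
        rw [Finset.sum_comm]
        refine Finset.sum_congr rfl fun i _ => ?_
        rw [← Finset.sum_mul, ← map_sum]
        have h3 : ∑ p ∈ F, (((c p * b p i : ℝ)) : ℂ) = 1 := by
          rw [← Complex.ofReal_sum, ← hv i]; simp
        rw [h3]; simp
      rw [pow_succ', mul_assoc, h1, Finset.sum_mul, MF_sum hb hF]
      apply Finset.sum_eq_zero
      intro p hp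
      have h5 := MF_remove hb ((∑ i, (X i : MvPolynomial (Fin r) ℂ)) ^ k * h) hF hp
      simp only [Pi.zero_apply] at h5
      rw [mul_assoc, MF_C_mul, ← h1, h5]
      have h4 := mem_annB.mp (ih (F.erase p) (hF.mono (Finset.erase_subset _ _)) h (by
        rw [Finset.card_erase_of_mem hp]
        have : 0 < F.card := Finset.card_pos.mpr ⟨p, hp⟩
        omega)) ρ hρ
      rw [h4, mul_zero]

end Pool.Agent.H22
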