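import Pool.Agent.H22.Ident

/-! `b(-1) = 0` for all nonconstant polynomials, and transfer of linear relations from
algebraically independent numbers to polynomials. -/

namespace Pool.Agent.H22

open MvPolynomial Finset

variable {n r : ℕ}

/-- `f^m g_k = f^{k+1} H(k)` with `H(-1) = 0` -/
def Van (f : MvPolynomial (Fin n) ℂ) (g : ℕ → MvPolynomial (Fin n) ℂ) : Prop :=
  ∃ (m : ℕ) (H : Polynomial (MvPolynomial (Fin n) ℂ)), H.eval (-1) = 0 ∧
    ∀ k : ℕ, f ^ m * g k = f ^ (k + 1) * H.eval (k : MvPolynomial (Fin n) ℂ)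

lemma exists_coeffDeriv (j : Fin n) (H : Polynomial (MvPolynomial (Fin n) ℂ)) :
    ∃ H' : Polynomial (MvPolynomial (Fin n) ℂ), ∀ c : MvPolynomial (Fin n) ℂ,
      pderiv j c = 0 → H'.eval c = pderiv j (H.eval c) := by
  refine ⟨∑ i ∈ Finset.range (H.natDegree + 1),
    Polynomial.C (pderiv j (H.coeff i)) * Polynomial.X ^ i, fun c hc => ?_⟩
  rw [Polynomial.eval_finsetSum, Polynomial.eval_eq_sum_range, map_sum]
  refine Finset.sum_congr rfl fun i _ => ?_
  rw [Polynomial.eval_mul, Polynomial.eval_C, Polynomial.eval_pow, Polynomial.eval_X,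
    Derivation.leibniz, Derivation.leibniz_pow, hc]
  simp only [smul_zero, zero_add, smul_eq_mul]
  ring

lemma Van.deriv {f : MvPolynomial (Fin n) ℂ} {g : ℕ → MvPolynomial (Fin n) ℂ} (hg : Van f g)
    (j : Fin n) : Van f (fun k => pderiv j (g k)) := by
  obtain ⟨m, H, hH, h⟩ := hg
  obtain ⟨H', hH'⟩ := exists_coeffDeriv j H
  have hneg : pderiv j (-1 : MvPolynomial (Fin n) ℂ) = 0 := by
    rw [map_neg]; simp
  refine ⟨m + 1, (Polynomial.X + 1) * Polynomial.C (MvPolynomial.pderiv j f) * H +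
    Polynomial.C f * H' - (m : Polynomial (MvPolynomial (Fin n) ℂ)) *
      Polynomial.C (MvPolynomial.pderiv j f) * H, ?_, fun k => ?_⟩
  · simp only [Polynomial.eval_add, Polynomial.eval_sub, Polynomial.eval_mul, hH,
      mul_zero, hH' (-1) hneg, map_zero]
    simp
  · have hk : MvPolynomial.pderiv j (k : MvPolynomial (Fin n) ℂ) = 0 := by
      have : (k : MvPolynomial (Fin n) ℂ) = C (k : ℂ) := by simp
      rw [this, pderiv_C]
    have h1 := congrArg (MvPolynomial.pderiv j) (h k)
    rw [Derivation.leibniz, Derivation.leibniz, Derivation.leibniz_pow, Derivation.leibniz_pow]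
      at h1
    simp only [smul_eq_mul, nsmul_eq_mul, Nat.add_sub_cancel, Nat.cast_add, Nat.cast_one] at h1
    simp only [Polynomial.eval_add, Polynomial.eval_sub, Polynomial.eval_mul, Polynomial.eval_C,
      Polynomial.eval_X, Polynomial.eval_one, Polynomial.eval_natCast, hH' _ hk]
    have h2 := h k
    rcases Nat.eq_zero_or_pos m with hm | hm
    · subst hm
      simp only [pow_zero, one_mul, Nat.cast_zero, zero_mul, add_zero, mul_zero, sub_zero,
        zero_add, pow_one] at h1 h2 ⊢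
      rw [h1]
      ring
    · obtain ⟨m', rfl⟩ : ∃ m', m = m' + 1 := ⟨m - 1, by omega⟩
      simp only [Nat.add_sub_cancel] at h1
      have h3 : f * (f ^ (m' + 1) * MvPolynomial.pderiv j (g k) + g k * (((m' + 1 : ℕ) : MvPolynomial (Fin n) ℂ) * (f ^ m' * MvPolynomial.pderiv j f))) = f * (f ^ (k + 1) * MvPolynomial.pderiv j (Polynomial.eval (k : MvPolynomial (Fin n) ℂ) H) +
          Polynomial.eval (k : MvPolynomial (Fin n) ℂ) H * (((k : MvPolynomial (Fin n) ℂ) + 1) * (f ^ k * MvPolynomial.pderiv j f))) := by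
        rw [h1]
      push_cast at h3 ⊢
      have h4 : f ^ (m' + 1) * g k = f ^ (k + 1) * Polynomial.eval (k : MvPolynomial (Fin n) ℂ) H := h2
      linear_combination h3 - ((m' : MvPolynomial (Fin n) ℂ) + 1) * (MvPolynomial.pderiv j f) * h4

lemma Van.first (f : MvPolynomial (Fin n) ℂ) (j : Fin n) :
    Van f (fun k => MvPolynomial.pderiv j (f ^ (k + 1))) := by
  refine ⟨1, (Polynomial.X + 1) * Polynomial.C (MvPolynomial.pderiv j f), ?_, fun k => ?_⟩
  · simp
  · simp only [Derivation.leibniz_pow, smul_eq_mul, nsmul_eq_mul, Nat.add_sub_cancel,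
      Polynomial.eval_mul, Polynomial.eval_add, Polynomial.eval_X, Polynomial.eval_one,
      Polynomial.eval_C]
    push_cast
    ring

lemma Van.raise {f : MvPolynomial (Fin n) ℂ} {g : ℕ → MvPolynomial (Fin n) ℂ} {m : ℕ}
    {H : Polynomial (MvPolynomial (Fin n) ℂ)} (hH : H.eval (-1) = 0)
    (h : ∀ k : ℕ, f ^ m * g k = f ^ (k + 1) * H.eval (k : MvPolynomial (Fin n) ℂ)) (m' : ℕ) :
    (Polynomial.C (f ^ m') * H).eval (-1) = 0 ∧ ∀ k : ℕ, f ^ (m + m') * g k =
      f ^ (k + 1) * (Polynomial.C (f ^ m') * H).eval (k : MvPolynomial (Fin n) ℂ) := by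
  constructor
  · rw [Polynomial.eval_mul, hH, mul_zero]
  · intro k
    rw [Polynomial.eval_mul, Polynomial.eval_C, pow_add]
    linear_combination f ^ m' * h k

lemma Van.add {f : MvPolynomial (Fin n) ℂ} {g g' : ℕ → MvPolynomial (Fin n) ℂ}
    (h : Van f g) (h' : Van f g') : Van f (fun k => g k + g' k) := by
  obtain ⟨m, H, hH, h⟩ := h
  obtain ⟨m', H', hH', h'⟩ := h'
  obtain ⟨e1, e2⟩ := Van.raise hH h m'
  obtain ⟨e3, e4⟩ := Van.raise hH' h' m
  refine ⟨m + m', Polynomial.C (f ^ m') * H + Polynomial.C (f ^ m) * H', ?_, fun k => ?_⟩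
  · rw [Polynomial.eval_add, e1, e3, add_zero]
  · rw [Polynomial.eval_add, mul_add, mul_add, e2, ← e4, add_comm m' m]

lemma Van.zero (f : MvPolynomial (Fin n) ℂ) : Van f (fun _ => 0) :=
  ⟨0, 0, by simp, fun k => by simp⟩

lemma Van.sum {f : MvPolynomial (Fin n) ℂ} {ι : Type*} (S : Finset ι)
    (g : ι → ℕ → MvPolynomial (Fin n) ℂ) (h : ∀ i ∈ S, Van f (g i)) :
    Van f (fun k => ∑ i ∈ S, g i k) := by
  classical
  induction S using Finset.induction_on with
  | empty => simpa using Van.zero f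
  | insert i S hi ih =>
    simp only [Finset.sum_insert hi]
    exact (h i (Finset.mem_insert_self _ _)).add
      (ih fun j hj => h j (Finset.mem_insert_of_mem hj))

/-- specialisation at `c` as the evaluation of a polynomial over the polynomial ring -/
lemma exists_swap (p : MvPolynomial (Fin n) (Polynomial ℂ)) :
    ∃ p' : Polynomial (MvPolynomial (Fin n) ℂ), ∀ c : ℂ,
      MvPolynomial.map (Polynomial.evalRingHom c) p = p'.eval (C c) := by
  induction p using MvPolynomial.induction_on with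
  | C q =>
    refine ⟨q.map (C : ℂ →+* MvPolynomial (Fin n) ℂ), fun c => ?_⟩
    rw [map_C, Polynomial.eval_map, Polynomial.eval₂_hom]
    rfl
  | add p q hp hq =>
    obtain ⟨p', hp'⟩ := hp
    obtain ⟨q', hq'⟩ := hq
    exact ⟨p' + q', fun c => by rw [map_add, hp', hq', Polynomial.eval_add]⟩
  | mul_X p i hp =>
    obtain ⟨p', hp'⟩ := hp
    exact ⟨p' * Polynomial.C (X i), fun c => by
      rw [map_mul, hp', Polynomial.eval_mul, Polynomial.eval_C, map_X]⟩

lemma Van.mul {f : MvPolynomial (Fin n) ℂ} {g : ℕ → MvPolynomial (Fin n) ℂ} (h : Van f g)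
    (p : MvPolynomial (Fin n) (Polynomial ℂ)) :
    Van f (fun k => MvPolynomial.map (Polynomial.evalRingHom (k : ℂ)) p * g k) := by
  obtain ⟨p', hp'⟩ := exists_swap p
  obtain ⟨m, H, hH, h⟩ := h
  refine ⟨m, p' * H, ?_, fun k => ?_⟩
  · rw [Polynomial.eval_mul, hH, mul_zero]
  · have hk : (C (k : ℂ) : MvPolynomial (Fin n) ℂ) = (k : MvPolynomial (Fin n) ℂ) := by simp
    simp only [hp', hk, Polynomial.eval_mul]
    linear_combination (p'.eval (k : MvPolynomial (Fin n) ℂ)) * h k

lemma Van.pow {f : MvPolynomial (Fin n) ℂ} {g : ℕ → MvPolynomial (Fin n) ℂ} (hg : Van f g)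
    (j : Fin n) (m : ℕ) : Van f (fun k =>
      (((MvPolynomial.pderiv j : Derivation ℂ (MvPolynomial (Fin n) ℂ)
        (MvPolynomial (Fin n) ℂ)).toLinearMap) ^ m) (g k)) := by
  induction m with
  | zero => simpa using hg
  | succ m ih =>
    have := ih.deriv j
    simpa [pow_succ'] using this

lemma van_diffPow (f : MvPolynomial (Fin n) ℂ) {β : Fin n →₀ ℕ} (hβ : β ≠ 0) :
    Van f (fun k => diffPow β (f ^ (k + 1))) := by
  have key : ∀ l : List (Fin n), ((∀ j ∈ l, β j = 0) ∧ ∀ g : MvPolynomial (Fin n) ℂ,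
      ((l.map fun j => ((MvPolynomial.pderiv j : Derivation ℂ (MvPolynomial (Fin n) ℂ)
          (MvPolynomial (Fin n) ℂ)).toLinearMap) ^ (β j)).prod) g = g) ∨
      Van f (fun k => ((l.map fun j =>
        ((MvPolynomial.pderiv j : Derivation ℂ (MvPolynomial (Fin n) ℂ)
          (MvPolynomial (Fin n) ℂ)).toLinearMap) ^ (β j)).prod) (f ^ (k + 1))) := by
    intro l
    induction l with
    | nil => left; simp
    | cons j l ih =>
      rcases ih with ⟨h1, h2⟩ | h
      · by_cases hj : β j = 0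
        · left
          refine ⟨fun i hi => ?_, fun g => ?_⟩
          · rcases List.mem_cons.mp hi with rfl | hi
            · exact hj
            · exact h1 i hi
          · rw [List.map_cons, List.prod_cons, Module.End.mul_apply, h2, hj]
            simp
        · right
          obtain ⟨m, hm⟩ : ∃ m, β j = m + 1 := ⟨β j - 1, by omega⟩
          have h3 := (Van.first f j).pow j m
          refine cast ?_ h3
          congr 1
          funext k
          rw [List.map_cons, List.prod_cons, Module.End.mul_apply, h2, hm,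
            pow_succ ((MvPolynomial.pderiv j : Derivation ℂ (MvPolynomial (Fin n) ℂ)
              (MvPolynomial (Fin n) ℂ)).toLinearMap) m, Module.End.mul_apply]
          rfl
      · right
        have h3 := h.pow j (β j)
        refine cast ?_ h3
        congr 1
  rcases key (List.finRange n) with ⟨h1, _⟩ | h
  · exfalso
    apply hβ
    ext j
    exact h1 j (List.mem_finRange j)
  · exact h

/-- `-1` is a root of every `b` for a nonconstant polynomial. -/
theorem eval_neg_one_general (f : MvPolynomial (Fin n) ℂ) (hf : ∀ c, f ≠ C c)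
    (b : Polynomial ℂ) (P : WeylS n) (hP : FunctionalEquation f b P) : b.eval (-1) = 0 := by
  classical
  have hf0 : f ≠ 0 := by
    have := hf 0; simpa using this
  -- split off the term of order zero
  set p0 := P 0 with hp0
  have hV : Van f (fun k => ∑ β ∈ P.support.erase 0,
      MvPolynomial.map (Polynomial.evalRingHom (k : ℂ)) (P β) * diffPow β (f ^ (k + 1))) := by
    apply Van.sum
    intro β hβ
    exact (van_diffPow f (Finset.ne_of_mem_erase hβ)).mul (P β)
  have hdiff0 : ∀ g : MvPolynomial (Fin n) ℂ, diffPow 0 g = g := by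
    intro g
    unfold diffPow
    have : ((List.finRange n).map fun j =>
      ((MvPolynomial.pderiv j : Derivation ℂ (MvPolynomial (Fin n) ℂ)
        (MvPolynomial (Fin n) ℂ)).toLinearMap) ^ ((0 : Fin n →₀ ℕ) j)).prod = 1 := by
      apply List.prod_eq_one
      intro x hx
      rw [List.mem_map] at hx
      obtain ⟨j, _, rfl⟩ := hx
      simp
    rw [this]; rfl
  have hact : ∀ k : ℕ, P.act (k : ℂ) (f ^ (k + 1)) =
      MvPolynomial.map (Polynomial.evalRingHom (k : ℂ)) p0 * f ^ (k + 1) +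
      ∑ β ∈ P.support.erase 0,
        MvPolynomial.map (Polynomial.evalRingHom (k : ℂ)) (P β) * diffPow β (f ^ (k + 1)) := by
    intro k
    unfold WeylS.act
    rw [Finsupp.sum]
    by_cases h0 : (0 : Fin n →₀ ℕ) ∈ P.support
    · rw [← Finset.add_sum_erase _ _ h0, hdiff0]
    · rw [Finset.erase_eq_of_notMem h0, hp0, Finsupp.notMem_support_iff.mp h0]
      simp
  obtain ⟨m, H, hH, h⟩ := hV
  obtain ⟨q, hq⟩ := exists_swap p0
  set bP : Polynomial (MvPolynomial (Fin n) ℂ) := b.map (C : ℂ →+* MvPolynomial (Fin n) ℂ)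
    with hbP
  have hbev : ∀ c : ℂ, bP.eval (C c) = C (b.eval c) := by
    intro c
    rw [hbP, Polynomial.eval_map, Polynomial.eval₂_hom]
  have hkC : ∀ k : ℕ, (k : MvPolynomial (Fin n) ℂ) = C (k : ℂ) := by intro k; simp
  have hid : Polynomial.C (f ^ m) * bP = Polynomial.C f * (H + Polynomial.C (f ^ m) * q) := by
    apply Polynomial.eq_of_infinite_eval_eq
    refine Set.Infinite.mono (s := Set.range (fun k : ℕ => (k : MvPolynomial (Fin n) ℂ))) ?_
      (Set.infinite_range_of_injective Nat.cast_injective)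
    rintro _ ⟨k, rfl⟩
    change Polynomial.eval (k : MvPolynomial (Fin n) ℂ) _ =
      Polynomial.eval (k : MvPolynomial (Fin n) ℂ) _
    simp only [Polynomial.eval_mul, Polynomial.eval_add, Polynomial.eval_C]
    have h1 := h k
    have h2 := hP k
    rw [hact k, hq] at h2
    rw [← hkC] at h2
    have h3 := hbev (k : ℂ)
    rw [← hkC] at h3
    rw [h3]
    apply mul_left_cancel₀ (pow_ne_zero k hf0)
    linear_combination (f ^ m) * (-h2) + h1
  have h1 := congrArg (Polynomial.eval (-1)) hid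
  simp only [Polynomial.eval_mul, Polynomial.eval_add, Polynomial.eval_C, hH, zero_add] at h1
  have hneg : (-1 : MvPolynomial (Fin n) ℂ) = C (-1) := by simp
  rw [hneg, hbev] at h1
  have h2 : C (b.eval (-1)) = f * q.eval (C (-1)) := by
    apply mul_left_cancel₀ (pow_ne_zero m hf0)
    linear_combination h1
  by_contra hb
  have hu : IsUnit (f * q.eval (C (-1))) := by
    rw [← h2]
    exact (isUnit_iff_ne_zero.mpr hb).map C
  have hu2 := isUnit_of_mul_isUnit_left hu
  rw [MvPolynomial.isUnit_iff_eq_C_of_isReduced] at hu2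
  obtain ⟨c, _, hc⟩ := hu2
  exact hf c hc

/-- Transfer of linear relations. -/
theorem transfer (κ : Fin r → ℂ) (hκ : AlgebraicIndependent ℚ κ) (S : Finset ℂ) :
    ∃ (c : MvPolynomial (Fin r) ℚ) (Φ : ℂ → MvPolynomial (Fin r) ℚ), c ≠ 0 ∧
      ∀ {ι ι' : Type} (I : Finset ι) (I' : Finset ι') (z : ι → ℂ) (z' : ι' → ℂ)
        (ρ : ι → MvPolynomial (Fin r) ℚ) (ρ' : ι' → MvPolynomial (Fin r) ℚ)
        (ρ0 : MvPolynomial (Fin r) ℚ), (∀ i ∈ I, z i ∈ S) → (∀ i ∈ I', z' i ∈ S) →
        ∑ i ∈ I, z i * aeval κ (ρ i) = aeval κ ρ0 + ∑ i ∈ I', z' i * aeval κ (ρ' i) →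
        ∑ i ∈ I, Φ (z i) * ρ i = c * ρ0 + ∑ i ∈ I', Φ (z' i) * ρ' i := by
  classical
  let K := FractionRing (MvPolynomial (Fin r) ℚ)
  have hinj : Function.Injective (aeval κ : MvPolynomial (Fin r) ℚ →ₐ[ℚ] ℂ).toRingHom := hκ
  let ψ : K →+* ℂ := IsFractionRing.lift hinj
  have hψ : ∀ p : MvPolynomial (Fin r) ℚ, ψ (algebraMap _ K p) = aeval κ p := by
    intro p
    exact IsFractionRing.lift_algebraMap hinj p
  let _ : Algebra K ℂ := ψ.toAlgebra
  have hsmul : ∀ (x : K) (z : ℂ), x • z = ψ x * z := fun x z => rfl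
  have hker : LinearMap.ker (Algebra.linearMap K ℂ) = ⊥ := by
    rw [LinearMap.ker_eq_bot]
    exact ψ.injective
  obtain ⟨φ, hφ⟩ := LinearMap.exists_leftInverse_of_injective (Algebra.linearMap K ℂ) hker
  have hφ1 : ∀ x : K, φ (ψ x) = x := by
    intro x
    exact congrArg (fun F => F x) hφ
  obtain ⟨c, hc⟩ := IsLocalization.exist_integer_multiples_of_finset
    (nonZeroDivisors (MvPolynomial (Fin r) ℚ)) (S.image φ)
  have hint : ∀ z : ℂ, ∃ p : MvPolynomial (Fin r) ℚ, z ∈ S →
      algebraMap _ K p = (algebraMap _ K (c : MvPolynomial (Fin r) ℚ)) * φ z := by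
    intro z
    by_cases hz : z ∈ S
    · obtain ⟨p, hp⟩ := hc (φ z) (Finset.mem_image_of_mem _ hz)
      refine ⟨p, fun _ => ?_⟩
      rw [hp]
      rw [Algebra.smul_def]
    · exact ⟨0, fun h => absurd h hz⟩
  choose Φ hΦ using hint
  refine ⟨c, Φ, nonZeroDivisors.ne_zero c.2, ?_⟩
  intro ι ι' I I' z z' ρ ρ' ρ0 hz hz' h
  apply IsFractionRing.injective (MvPolynomial (Fin r) ℚ) K
  have h1 := congrArg φ h
  rw [map_add, map_sum, map_sum, ← hψ ρ0, hφ1] at h1
  have h2 : ∀ (z : ℂ) (p : MvPolynomial (Fin r) ℚ), φ (z * aeval κ p) =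
      algebraMap _ K p * φ z := by
    intro z p
    rw [← hψ p, mul_comm, ← hsmul, map_smul, smul_eq_mul]
  simp only [h2] at h1
  rw [map_add, map_sum, map_sum, map_mul]
  have h3 : ∑ i ∈ I, algebraMap _ K (Φ (z i) * ρ i) =
      algebraMap _ K (c : MvPolynomial (Fin r) ℚ) * ∑ i ∈ I, algebraMap _ K (ρ i) * φ (z i) := by
    rw [Finset.mul_sum]
    refine Finset.sum_congr rfl fun i hi => ?_
    rw [map_mul, hΦ _ (hz i hi)]; ring
  have h4 : ∑ i ∈ I', algebraMap _ K (Φ (z' i) * ρ' i) =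
      algebraMap _ K (c : MvPolynomial (Fin r) ℚ) *
        ∑ i ∈ I', algebraMap _ K (ρ' i) * φ (z' i) := by
    rw [Finset.mul_sum]
    refine Finset.sum_congr rfl fun i hi => ?_
    rw [map_mul, hΦ _ (hz' i hi)]; ring
  rw [h3, h4, h1]
  ring

end Pool.Agent.H22
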