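import Pool.Agent.H22.G7
import Pool.Agent.H22.G6

/-! The polynomial identity for algebraically independent coefficients, final form. -/

namespace Pool.Agent.H22

open MvPolynomial Finset

variable {n r : ℕ}

lemma eval_aeval_sum (x : Fin r → ℂ) (p : Polynomial ℂ) :
    eval x (Polynomial.aeval (∑ i, (X i : MvPolynomial (Fin r) ℂ)) p) = p.eval (∑ i, x i) := by
  have h1 : eval x (Polynomial.aeval (∑ i, (X i : MvPolynomial (Fin r) ℂ)) p) =
      Polynomial.aeval (eval x (∑ i, (X i : MvPolynomial (Fin r) ℂ))) p := by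
    rw [← MvPolynomial.coe_aeval_eq_eval, RingHom.coe_coe, Polynomial.aeval_algHom_apply]
  rw [h1, Polynomial.coe_aeval_eq_eval]
  congr 1
  rw [map_sum]
  simp

lemma zf_zero (a : Fin r → (Fin n →₀ ℕ)) (j : Fin n) : zf a j 0 = 1 := by
  simp [zf]

/-- The polynomial identity for algebraically independent coefficients. -/
theorem identity_gen (a : Fin r → (Fin n →₀ ℕ)) (κ : Fin r → ℂ)
    (hκ : AlgebraicIndependent ℚ κ) {h' : Fin r → ℝ} (hh : LinearIndependent ℚ h')
    (g q : Polynomial ℚ) (βp : Polynomial ℂ) (P : WeylS n)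
    (hP : ∀ k : ℕ, P.act (k : ℂ) (sparsePoly a κ ^ (k + 1)) =
      C (((k : ℂ) + 1) * ((g.map (algebraMap ℚ ℂ)).eval (k : ℂ) +
        βp.eval (k : ℂ) * (q.map (algebraMap ℚ ℂ)).eval (k : ℂ))) * sparsePoly a κ ^ k) :
    ∃ (c0 : ℂ) (K : ℕ)
      (T : Finset ((Fin r → ℕ) ⊕ ((Fin n →₀ ℕ) × (Fin n →₀ ℕ) × (Fin r → ℕ))))
      (m : (Fin r → ℕ) ⊕ ((Fin n →₀ ℕ) × (Fin n →₀ ℕ) × (Fin r → ℕ)) → Fin r → ℤ)
      (G : (Fin r → ℕ) ⊕ ((Fin n →₀ ℕ) × (Fin n →₀ ℕ) × (Fin r → ℕ)) →
        MvPolynomial (Fin r) ℂ) (E' : MvPolynomial (Fin r) ℂ),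
      c0 ≠ 0 ∧ 1 ≤ K ∧
      (∀ α ∈ T, ∑ i, m α i = -1 ∨ (IsRel a (m α) ∧ ∑ i, (m α i : ℝ) * h' i < 0)) ∧
      (Polynomial.aeval (∑ i, (X i : MvPolynomial (Fin r) ℂ))
        (Polynomial.C c0 * g.map (algebraMap ℚ ℂ))) * ∏ i, DDp K 0 i =
        ∑ α ∈ T, G α * (∏ j, zf a j (-(∑ i, m α i * (a i j : ℤ)))) * ∏ i, DDp K (m α i) i +
        (Polynomial.aeval (∑ i, (X i : MvPolynomial (Fin r) ℂ))
          (q.map (algebraMap ℚ ℂ))) * E' := by
  classical
  set Γ : Finset (Fin n →₀ ℕ) := P.support.biUnion fun β => (P β).support with hΓdef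
  have hΓ : ∀ β, (P β).support ⊆ Γ := by
    intro β
    by_cases hβ : β ∈ P.support
    · exact Finset.subset_biUnion_of_mem (fun β => (P β).support) hβ
    · rw [Finsupp.notMem_support_iff.mp hβ]; simp
  obtain ⟨L, hL, hLβ⟩ : ∃ L : ℕ, (∀ β γ, ((P β).coeff γ).natDegree < L) ∧
      βp.natDegree < L := by
    refine ⟨(∑ β ∈ P.support, ∑ γ ∈ Γ, ((P β).coeff γ).natDegree) + βp.natDegree + 1,
      fun β γ => ?_, by omega⟩
    by_cases hβ : β ∈ P.support
    · by_cases hγ : γ ∈ Γ
      · have h1 : ((P β).coeff γ).natDegree ≤ ∑ γ ∈ Γ, ((P β).coeff γ).natDegree :=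
          Finset.single_le_sum (f := fun γ => ((P β).coeff γ).natDegree)
            (fun _ _ => Nat.zero_le _) hγ
        have h2 : ∑ γ ∈ Γ, ((P β).coeff γ).natDegree ≤
            ∑ β ∈ P.support, ∑ γ ∈ Γ, ((P β).coeff γ).natDegree :=
          Finset.single_le_sum (f := fun β => ∑ γ ∈ Γ, ((P β).coeff γ).natDegree)
            (fun _ _ => Nat.zero_le _) hβ
        omega
      · have h1 : (P β).coeff γ = 0 := notMem_support_iff.mp fun h => hγ (hΓ β h)
        rw [h1, Polynomial.natDegree_zero]; omega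
    · have h1 : P β = 0 := Finsupp.notMem_support_iff.mp hβ
      rw [h1, coeff_zero, Polynomial.natDegree_zero]; omega
  set S : Finset ℂ := ((P.support ×ˢ Γ ×ˢ Finset.range L).image
    (fun x => ((P x.1).coeff x.2.1).coeff x.2.2)) ∪
    (Finset.range L).image (fun l => βp.coeff l) with hS
  obtain ⟨c, Φ, hc0, hΦ⟩ := transfer κ hκ S
  -- the finite set of exponents
  set supp : MvPolynomial (Fin r) ℚ → Finset (Fin r → ℕ) := fun p =>
    p.support.image (fun e : Fin r →₀ ℕ => (⇑e : Fin r → ℕ)) with hsupp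
  have hsuppmem : ∀ p e, cfC p e ≠ 0 → e ∈ supp p := by
    intro p e he
    rw [hsupp, Finset.mem_image]
    refine ⟨tf e, ?_, rfl⟩
    rw [mem_support_iff]
    intro h0
    apply he
    simp [cfC, h0]
  set W : Finset (Fin r → ℕ) := supp c ∪ S.biUnion (fun z => supp (Φ z)) with hW
  have hWc : ∀ e, cfC c e ≠ 0 → e ∈ W := fun e he =>
    Finset.mem_union_left _ (hsuppmem c e he)
  have hWS : ∀ z ∈ S, ∀ e, cfC (Φ z) e ≠ 0 → e ∈ W := fun z hz e he =>
    Finset.mem_union_right _ (Finset.mem_biUnion.mpr ⟨z, hz, hsuppmem _ e he⟩)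
  have hSP : ∀ β ∈ P.support, ∀ γ ∈ Γ, ∀ l ∈ Finset.range L,
      ((P β).coeff γ).coeff l ∈ S := by
    intro β hβ γ hγ l hl
    rw [hS]
    apply Finset.mem_union_left
    rw [Finset.mem_image]
    exact ⟨(β, γ, l), by simp only [Finset.mem_product]; exact ⟨hβ, hγ, hl⟩, rfl⟩
  have hSβ : ∀ l ∈ Finset.range L, βp.coeff l ∈ S := by
    intro l hl
    rw [hS]
    apply Finset.mem_union_right
    exact Finset.mem_image_of_mem _ hl
  -- the top exponent
  obtain ⟨e0, he0, hmax⟩ : ∃ e0 ∈ W.filter (fun e => cfC c e ≠ 0),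
      ∀ e ∈ W.filter (fun e => cfC c e ≠ 0), ∑ i, (e i : ℝ) * h' i ≤ ∑ i, (e0 i : ℝ) * h' i := by
    apply Finset.exists_max_image
    obtain ⟨e, he⟩ : ∃ e, coeff e c ≠ 0 := by
      by_contra hcon
      push Not at hcon
      apply hc0
      ext e
      rw [hcon e, coeff_zero]
    have he2 : cfC c (e : Fin r → ℕ) ≠ 0 := by
      unfold cfC
      have : tf (e : Fin r → ℕ) = e := by ext i; rfl
      rw [this]
      exact_mod_cast he
    exact ⟨_, Finset.mem_filter.mpr ⟨hWc _ he2, he2⟩⟩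
  rw [Finset.mem_filter] at he0
  set K : ℕ := 1 + ∑ i, e0 i with hK
  have hKe : ∀ i, e0 i ≤ K := by
    intro i
    have := Finset.single_le_sum (f := e0) (fun _ _ => Nat.zero_le _) (Finset.mem_univ i)
    omega
  choose gj hgj using fun (x : (Fin n →₀ ℕ) × (Fin n →₀ ℕ)) (j : Fin n) =>
    ff_factor (x.2 j) (x.1 j) (Vp a j)
  set σs : MvPolynomial (Fin r) ℂ := ∑ i, (X i : MvPolynomial (Fin r) ℂ) with hσs
  set m : (Fin r → ℕ) ⊕ ((Fin n →₀ ℕ) × (Fin n →₀ ℕ) × (Fin r → ℕ)) → Fin r → ℤ :=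
    Sum.elim (fun ε i => (ε i : ℤ) - e0 i) (fun x i => (x.2.2 i : ℤ) - e0 i) with hm
  set T : Finset ((Fin r → ℕ) ⊕ ((Fin n →₀ ℕ) × (Fin n →₀ ℕ) × (Fin r → ℕ))) :=
    (W.filter (fun ε => ε ≠ e0 ∧ cfC c ε ≠ 0 ∧ IsRel a (fun i => (ε i : ℤ) - e0 i))).disjSum
    ((P.support ×ˢ Γ ×ˢ W).filter
      (fun x => IsShift a x.2.1 x.1 (fun i => (x.2.2 i : ℤ) - e0 i))) with hT
  set G : (Fin r → ℕ) ⊕ ((Fin n →₀ ℕ) × (Fin n →₀ ℕ) × (Fin r → ℕ)) →
        MvPolynomial (Fin r) ℂ := Sum.elim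
    (fun ε => -(Polynomial.aeval σs (Polynomial.C (cfC c ε) * g.map (algebraMap ℚ ℂ))))
    (fun x => Polynomial.aeval σs (∑ l ∈ Finset.range L,
      Polynomial.C (cfC (Φ (((P x.1).coeff x.2.1).coeff l)) x.2.2) * Polynomial.X ^ l) *
      ∏ j, gj (x.1, x.2.1) j) with hG
  set E' : MvPolynomial (Fin r) ℂ := -∑ ε ∈ W.filter
    (fun ε => IsRel a (fun i => (ε i : ℤ) - e0 i)), Polynomial.aeval σs
      (∑ l ∈ Finset.range L, Polynomial.C (cfC (Φ (βp.coeff l)) ε) * Polynomial.X ^ l) *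
      ∏ i, DDp K ((ε i : ℤ) - e0 i) i with hE'
  refine ⟨cfC c e0, K, T, m, G, E', he0.2, by omega, ?_, ?_⟩
  · intro α hα
    rw [hT, Finset.mem_disjSum] at hα
    rcases hα with ⟨ε, hε, rfl⟩ | ⟨x, hx, rfl⟩
    · right
      rw [Finset.mem_filter] at hε
      obtain ⟨hεW, hne, hcε, hrel⟩ := hε
      refine ⟨hrel, ?_⟩
      have h1 := hmax ε (Finset.mem_filter.mpr ⟨hεW, hcε⟩)
      have h2 : ∑ i, (m (Sum.inl ε) i : ℝ) * h' i =
          ∑ i, (ε i : ℝ) * h' i - ∑ i, (e0 i : ℝ) * h' i := by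
        rw [← Finset.sum_sub_distrib]
        refine Finset.sum_congr rfl fun i _ => ?_
        simp only [hm, Sum.elim_inl]
        push_cast; ring
      have h3 : ∑ i, (m (Sum.inl ε) i : ℝ) * h' i ≠ 0 := by
        apply height_ne hh
        intro h0
        apply hne
        funext i
        have := congrFun h0 i
        simp only [hm, Sum.elim_inl, Pi.zero_apply] at this
        omega
      rcases lt_or_gt_of_ne h3 with h4 | h4
      · exact h4
      · linarith
    · left
      rw [Finset.mem_filter] at hx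
      exact hx.2.1
  · apply MvPolynomial.funext_set (fun _ => Set.range (fun k : ℕ => (k : ℂ)))
      (fun _ => Set.infinite_range_of_injective Nat.cast_injective)
    intro x hx
    choose u hu using fun i => hx i (Set.mem_univ i)
    have hx0 : ∀ i, x i = (u i : ℂ) := fun i => (hu i).symm
    have hxs : ∑ i, x i = ((∑ i, u i : ℕ) : ℂ) := by
      push_cast
      exact Finset.sum_congr rfl fun i _ => hx0 i
    have hid := identity_nat_gen a κ g q βp P hP Γ hΓ L hL hLβ c Φ
      (by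
        intro ι ι' I I' z z' ρ ρ' ρ0 h1 h2 h3
        refine hΦ I I' z z' ρ ρ' ρ0 (fun i hi => ?_) (fun i hi => ?_) h3
        · obtain ⟨β, hβ, γ, hγ, l, hl, he⟩ := h1 i hi
          rw [he]
          exact hSP β hβ γ hγ l hl
        · obtain ⟨l, hl, he⟩ := h2 i hi
          rw [he]
          exact hSβ l hl)
      W hWc (fun β hβ γ hγ l hl e he => hWS _ (hSP β hβ γ hγ l hl) e he)
      (fun l hl e he => hWS _ (hSβ l hl) e he) e0 K hKe u
    set k := ∑ i, u i with hk
    set gk := (g.map (algebraMap ℚ ℂ)).eval (k : ℂ) with hgk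
    set qk := (q.map (algebraMap ℚ ℂ)).eval (k : ℂ) with hqk
    set bs : (Fin r → ℕ) → ℂ := fun ε =>
      ∑ l ∈ Finset.range L, cfC (Φ (βp.coeff l)) ε * (k : ℂ) ^ l with hbs
    set DP : (Fin r → ℕ) → ℂ := fun ε => ∏ i, DD K ((ε i : ℤ) - e0 i) (u i : ℂ) with hDP
    -- split the left hand side of the identity
    have hL1 : ∑ ε ∈ W, (if IsRel a (fun i => (ε i : ℤ) - e0 i) then
        (cfC c ε * gk + bs ε * qk) * DP ε else 0) =
        cfC c e0 * gk * DP e0 + ∑ ε ∈ W.filter (fun ε => ε ≠ e0 ∧ cfC c ε ≠ 0 ∧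
          IsRel a (fun i => (ε i : ℤ) - e0 i)), cfC c ε * gk * DP ε +
        qk * ∑ ε ∈ W.filter (fun ε => IsRel a (fun i => (ε i : ℤ) - e0 i)), bs ε * DP ε := by
      have h1 : ∀ ε, (if IsRel a (fun i => (ε i : ℤ) - e0 i) then
          (cfC c ε * gk + bs ε * qk) * DP ε else 0) =
          (if IsRel a (fun i => (ε i : ℤ) - e0 i) then cfC c ε * gk * DP ε else 0) +
          qk * (if IsRel a (fun i => (ε i : ℤ) - e0 i) then bs ε * DP ε else 0) := by
        intro ε
        split_ifs <;> ring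
      simp only [h1]
      rw [Finset.sum_add_distrib, ← Finset.mul_sum, ← Finset.sum_filter, ← Finset.sum_filter]
      congr 1
      have h2 : e0 ∈ W.filter (fun ε => IsRel a (fun i => (ε i : ℤ) - e0 i)) := by
        rw [Finset.mem_filter]
        refine ⟨he0.1, ?_, fun j => ?_⟩ <;> simp
      rw [← Finset.add_sum_erase _ _ h2]
      congr 1
      symm
      apply Finset.sum_subset
      · intro ε hε
        rw [Finset.mem_filter] at hε
        rw [Finset.mem_erase, Finset.mem_filter]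
        exact ⟨hε.2.1, hε.1, hε.2.2.2⟩
      · intro ε hε hn
        rw [Finset.mem_erase, Finset.mem_filter] at hε
        have h3 : cfC c ε = 0 := by
          by_contra h4
          apply hn
          rw [Finset.mem_filter]
          exact ⟨hε.2.1, hε.1, h4, hε.2.2⟩
        rw [h3]; ring
    rw [hL1] at hid
    have hDP0 : DP e0 = ∏ i, DD K 0 (u i : ℂ) := by
      simp only [hDP, sub_self]
    have hσe : ∀ p : Polynomial ℂ, eval x (Polynomial.aeval σs p) = p.eval (k : ℂ) := by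
      intro p
      rw [hσs, eval_aeval_sum, hxs]
    rw [(eval x).map_mul, (eval x).map_add, map_sum (eval x), (eval x).map_mul _ E',
      hσe, hσe, map_prod (eval x)]
    simp only [eval_DDp, hx0]
    rw [← hDP0, Polynomial.eval_mul, Polynomial.eval_C, ← hgk, ← hqk]
    have hT1 : ∑ α ∈ T, eval x (G α * (∏ j, zf a j (-(∑ i, m α i * (a i j : ℤ)))) *
        ∏ i, DDp K (m α i) i) =
        -(∑ ε ∈ W.filter (fun ε => ε ≠ e0 ∧ cfC c ε ≠ 0 ∧
          IsRel a (fun i => (ε i : ℤ) - e0 i)), cfC c ε * gk * DP ε) +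
        ∑ β ∈ P.support, ∑ γ ∈ Γ, ∑ ε ∈ W,
        (if IsShift a γ β (fun i => (ε i : ℤ) - e0 i) then
        (∑ l ∈ Finset.range L, cfC (Φ (((P β).coeff γ).coeff l)) ε *
          (k : ℂ) ^ l) * (DP ε) *
        ∏ j, ff ((∑ i, (u i : ℂ) * (a i j : ℂ)) - γ j + β j) (β j) else 0) := by
      rw [hT, Finset.sum_disjSum, ← Finset.sum_neg_distrib]
      congr 1
      · refine Finset.sum_congr rfl fun ε hε => ?_
        rw [Finset.mem_filter] at hε
        have hz : ∏ j, zf a j (-(∑ i, m (Sum.inl ε) i * (a i j : ℤ))) = 1 := by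
          apply Finset.prod_eq_one
          intro j _
          have : ∑ i, m (Sum.inl ε) i * (a i j : ℤ) = 0 := hε.2.2.2.2 j
          rw [this, neg_zero, zf_zero]
        rw [hz, mul_one, map_mul, map_prod]
        simp only [hG, hm, Sum.elim_inl, eval_DDp, map_neg, hσe, hx0,
          Polynomial.eval_mul, Polynomial.eval_C, ← hgk, hDP]
        ring
      · rw [Finset.sum_filter, Finset.sum_product]
        simp only [Finset.sum_product]
        refine Finset.sum_congr rfl fun β hβ => Finset.sum_congr rfl fun γ hγ =>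
          Finset.sum_congr rfl fun ε hε => ?_
        by_cases hs : IsShift a γ β (fun i => (ε i : ℤ) - e0 i)
        · rw [if_pos hs, if_pos hs]
          have hprod : (∏ j, ff ((∑ i, (u i : ℂ) * (a i j : ℂ)) - γ j + β j) (β j)) =
              eval x (∏ j, gj (β, γ) j) *
                eval x (∏ j, zf a j (-(∑ i, m (Sum.inr (β, γ, ε)) i * (a i j : ℤ)))) := by
            rw [← map_mul, ← Finset.prod_mul_distrib, map_prod]
            refine Finset.prod_congr rfl fun j _ => ?_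
            have h1 := hgj (β, γ) j
            simp only at h1
            have h2 : ∑ i, m (Sum.inr (β, γ, ε)) i * (a i j : ℤ) = (γ j : ℤ) - β j := hs.2 j
            rw [h2]
            unfold zf zp
            rw [← h1, map_prod]
            unfold ff
            refine Finset.prod_congr rfl fun l _ => ?_
            simp only [map_sub, map_add, eval_C, eval_Vp, hx0]
          rw [hprod, map_mul, map_mul, map_prod (eval x)
            (fun i => DDp K (m (Sum.inr (β, γ, ε)) i) i)]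
          simp only [hG, Sum.elim_inr, eval_DDp, hx0, (eval x).map_mul, hσe]
          rw [Polynomial.eval_finsetSum]
          simp only [Polynomial.eval_mul, Polynomial.eval_C, Polynomial.eval_pow,
            Polynomial.eval_X, hm, Sum.elim_inr, hDP]
          ring
        · rw [if_neg hs, if_neg hs]
    have hE1 : eval x E' = -∑ ε ∈ W.filter (fun ε => IsRel a (fun i => (ε i : ℤ) - e0 i)),
        bs ε * DP ε := by
      rw [hE', map_neg, map_sum]
      congr 1
      refine Finset.sum_congr rfl fun ε _ => ?_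
      rw [(eval x).map_mul, hσe, Polynomial.eval_finsetSum, map_prod]
      simp only [Polynomial.eval_mul, Polynomial.eval_C, Polynomial.eval_pow,
            Polynomial.eval_X, eval_DDp, hx0, hbs, hDP]
    rw [hT1, hE1]
    linear_combination hid

end Pool.Agent.H22
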