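import Pool.Agent.H22.G10
import Pool.Agent.H22.G11
import Pool.Agent.H22.G8

/-! The theorem for algebraically independent coefficients. -/

namespace Pool.Agent.H22

open MvPolynomial Finset MeasureTheory

variable {n r : ℕ}

lemma exists_heights (r : ℕ) : ∃ h' : Fin r → ℝ, LinearIndependent ℚ h' := by
  have h1 : (r : Cardinal) ≤ Module.rank ℚ ℝ := by
    rw [Real.rank_rat_real]
    exact (Cardinal.nat_lt_continuum r).le
  obtain ⟨s, hs, hli⟩ := le_rank_iff_exists_linearIndependent_finset.mp h1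
  let e : Fin r ≃ s := Fintype.equivOfCardEq (by rw [Fintype.card_fin, Fintype.card_coe, hs])
  exact ⟨fun i => (e i : ℝ), hli.comp e e.injective⟩

/-- integral version of the forms -/
def bz (a : Fin r → (Fin n →₀ ℕ)) : Fin n ⊕ (Fin r ⊕ Fin r) → Fin r → ℤ
  | Sum.inl j => fun i => (a i j : ℤ)
  | Sum.inr (Sum.inl l) => fun i => if i = l then -1 else 0
  | Sum.inr (Sum.inr l) => fun i => if i = l then -1 else 0

def cz : Fin n ⊕ (Fin r ⊕ Fin r) → ℤ
  | Sum.inl _ => 1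
  | Sum.inr _ => 0

lemma bv_eq (a : Fin r → (Fin n →₀ ℕ)) (k : Fin n ⊕ (Fin r ⊕ Fin r)) (i : Fin r) :
    bv a k i = (bz a k i : ℝ) := by
  rcases k with j | l | l
  · simp [bv, bz]
  · simp only [bv, bz]; split_ifs <;> simp
  · simp only [bv, bz]; split_ifs <;> simp

lemma cv_eq (k : Fin n ⊕ (Fin r ⊕ Fin r)) : (cv k : ℝ) = ((cz k : ℤ) : ℝ) := by
  rcases k with j | l
  · simp [cv, cz]
  · simp [cv, cz]

/-- rational centres -/
lemma exists_rational_centre (a : Fin r → (Fin n →₀ ℕ))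
    (F : Finset (Fin n ⊕ (Fin r ⊕ Fin r)))
    (h : ∃ t0 : Fin r → ℝ, ∀ k ∈ F, ∑ i, bv a k i * t0 i + cv k = 0) :
    ∃ t : Fin r → ℚ, ∀ k ∈ F, ∑ i, bv a k i * ((t i : ℚ) : ℝ) + cv k = 0 := by
  obtain ⟨t0, ht0⟩ := h
  have hker : LinearMap.ker (Algebra.linearMap ℚ ℝ) = ⊥ := by
    rw [LinearMap.ker_eq_bot]
    exact (algebraMap ℚ ℝ).injective
  obtain ⟨φ, hφ⟩ := LinearMap.exists_leftInverse_of_injective (Algebra.linearMap ℚ ℝ) hker
  have hφ1 : φ 1 = 1 := by
    have := congrArg (fun F => F 1) hφ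
    simpa using this
  refine ⟨fun i => φ (t0 i), fun k hk => ?_⟩
  have h1 := congrArg φ (ht0 k hk)
  have h2 : ∀ i, φ (bv a k i * t0 i) = (bz a k i : ℚ) * φ (t0 i) := by
    intro i
    have : bv a k i * t0 i = (bz a k i : ℚ) • t0 i := by
      rw [bv_eq, Rat.smul_def]; push_cast; rfl
    rw [this, map_smul, smul_eq_mul]
  have h3 : φ (cv k) = (cz k : ℚ) := by
    have : (cv k : ℝ) = (cz k : ℚ) • (1 : ℝ) := by
      rw [cv_eq, Rat.smul_def]; push_cast; ring
    rw [this, map_smul, smul_eq_mul, hφ1, mul_one]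
  rw [map_add, map_sum, map_zero, h3] at h1
  simp only [h2] at h1
  have h4 : (((∑ i, (bz a k i : ℚ) * φ (t0 i) + (cz k : ℚ) : ℚ)) : ℝ) = ((0 : ℚ) : ℝ) := by
    rw [h1]
  push_cast at h4
  rw [cv_eq]
  simp only [bv_eq]
  exact h4

/-- polynomials over `ℚ` for which the greatest common divisor with any complex polynomial is
rational -/
def GoodQ (q : Polynomial ℚ) : Prop :=
  ∀ b' : Polynomial ℂ, ∃ (g0 : Polynomial ℚ) (α β : Polynomial ℂ),
    g0.map (algebraMap ℚ ℂ) ∣ b' ∧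
    g0.map (algebraMap ℚ ℂ) = α * b' + β * q.map (algebraMap ℚ ℂ)

lemma goodQ_one : GoodQ 1 := fun b' => ⟨1, 0, 1, by simp, by simp⟩

lemma GoodQ.mul {q : Polynomial ℚ} (hq : GoodQ q) (s : ℚ) :
    GoodQ ((Polynomial.X - Polynomial.C s) * q) := by
  intro b'
  obtain ⟨g1, α, β, h1, h2⟩ := hq b'
  obtain ⟨b1, hb1⟩ := h1
  have hXs : (Polynomial.X - Polynomial.C s).map (algebraMap ℚ ℂ) =
      Polynomial.X - Polynomial.C (s : ℂ) := by simp
  by_cases h0 : b1.eval (s : ℂ) = 0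
  · obtain ⟨b2, hb2⟩ := Polynomial.dvd_iff_isRoot.mpr (show b1.IsRoot (s : ℂ) from h0)
    refine ⟨(Polynomial.X - Polynomial.C s) * g1, (Polynomial.X - Polynomial.C (s : ℂ)) * α, β,
      ⟨b2, ?_⟩, ?_⟩
    · rw [Polynomial.map_mul, hXs, hb1, hb2]; ring
    · rw [Polynomial.map_mul, Polynomial.map_mul, hXs, h2]; ring
  · obtain ⟨d, hd⟩ := Polynomial.dvd_iff_isRoot.mpr
      (show (b1 - Polynomial.C (b1.eval (s : ℂ))).IsRoot (s : ℂ) by
        simp [Polynomial.IsRoot])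
    set e := b1.eval (s : ℂ) with he
    have h3 : Polynomial.C e⁻¹ * b1 - Polynomial.C e⁻¹ * d *
        (Polynomial.X - Polynomial.C (s : ℂ)) = 1 := by
      have h4 : Polynomial.C e⁻¹ * Polynomial.C e = (1 : Polynomial ℂ) := by
        rw [← map_mul, inv_mul_cancel₀ h0, map_one]
      linear_combination (Polynomial.C e⁻¹) * hd + h4
    refine ⟨g1, Polynomial.C e⁻¹ - Polynomial.C e⁻¹ * d *
      (Polynomial.X - Polynomial.C (s : ℂ)) * α, -(Polynomial.C e⁻¹ * d * β),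
      ⟨b1, hb1⟩, ?_⟩
    rw [Polynomial.map_mul, hXs]
    have h5 : g1.map (algebraMap ℚ ℂ) = Polynomial.C e⁻¹ * b' - Polynomial.C e⁻¹ * d *
        (Polynomial.X - Polynomial.C (s : ℂ)) * g1.map (algebraMap ℚ ℂ) := by
      rw [hb1]
      linear_combination (-(g1.map (algebraMap ℚ ℂ))) * h3
    rw [h2] at h5
    rw [h2]
    linear_combination h5

lemma GoodQ.pow_mul {q : Polynomial ℚ} (hq : GoodQ q) (s : ℚ) (K : ℕ) :
    GoodQ ((Polynomial.X - Polynomial.C s) ^ K * q) := by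
  induction K with
  | zero => simpa using hq
  | succ K ih =>
    rw [pow_succ', mul_assoc]
    exact ih.mul s

lemma goodQ_prod {ι : Type*} (S : Finset ι) (s : ι → ℚ) (K : ℕ) :
    GoodQ (∏ F ∈ S, (Polynomial.X - Polynomial.C (s F)) ^ K) := by
  classical
  induction S using Finset.induction_on with
  | empty => simpa using goodQ_one
  | insert p S hp ih =>
    rw [Finset.prod_insert hp]
    exact ih.pow_mul _ _

/-- multiplication of an operator by a polynomial in `s` -/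
noncomputable def WeylS.smulP (α : Polynomial ℂ) (P : WeylS n) : WeylS n :=
  P.mapRange (fun p => C α * p) (by simp)

lemma WeylS.smulP_act (α : Polynomial ℂ) (P : WeylS n) (c : ℂ) (g : MvPolynomial (Fin n) ℂ) :
    (WeylS.smulP α P).act c g = C (α.eval c) * P.act c g := by
  unfold WeylS.smulP WeylS.act
  rw [Finsupp.sum_mapRange_index (by intro β; simp)]
  unfold Finsupp.sum
  rw [Finset.mul_sum]
  refine Finset.sum_congr rfl fun β _ => ?_
  simp only [map_mul, map_C, mul_assoc]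
  rfl

/-- the annihilation property of the error term -/
lemma killAll_of (a : Fin r → (Fin n →₀ ℕ)) (M : Set (Fin r → ℝ)) (hsep : HasSep (bv a) M)
    (tF : Finset (Fin n ⊕ (Fin r ⊕ Fin r)) → Fin r → ℚ)
    (htF : ∀ F : Finset (Fin n ⊕ (Fin r ⊕ Fin r)),
      (∃ t0 : Fin r → ℝ, ∀ k ∈ F, ∑ i, bv a k i * t0 i + cv k = 0) →
      ∀ k ∈ F, ∑ i, bv a k i * ((tF F i : ℚ) : ℝ) + cv k = 0)
    (K : ℕ) (hK : Fintype.card (Fin n ⊕ (Fin r ⊕ Fin r)) < K) (E' : MvPolynomial (Fin r) ℂ) :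
    KillAll a M ((Polynomial.aeval (∑ i, (X i : MvPolynomial (Fin r) ℂ))
      ((∏ F : Finset (Fin n ⊕ (Fin r ⊕ Fin r)),
        (Polynomial.X - Polynomial.C (∑ i, tF F i)) ^ K).map (algebraMap ℚ ℂ))) * E') := by
  classical
  intro F hF
  refine ⟨fun i => ((tF F i : ℚ) : ℝ), htF F hF, fun F' hF' w => ?_⟩
  set t0 : Fin r → ℝ := fun i => ((tF F i : ℚ) : ℝ) with ht0
  set σs : MvPolynomial (Fin r) ℂ := ∑ i, X i with hσs
  have h1 : shiftP t0 (Polynomial.aeval σs ((∏ F : Finset (Fin n ⊕ (Fin r ⊕ Fin r)),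
        (Polynomial.X - Polynomial.C (∑ i, tF F i)) ^ K).map (algebraMap ℚ ℂ))) =
      ∏ F : Finset (Fin n ⊕ (Fin r ⊕ Fin r)),
        (shiftP t0 σs - C (((∑ i, tF F i : ℚ)) : ℂ)) ^ K := by
    rw [Polynomial.map_prod, map_prod, map_prod]
    refine Finset.prod_congr rfl fun F _ => ?_
    rw [Polynomial.map_pow, map_pow, map_pow, Polynomial.map_sub, map_sub, map_sub,
      Polynomial.map_X, Polynomial.aeval_X, Polynomial.map_C, Polynomial.aeval_C]
    congr 2
    rw [MvPolynomial.algebraMap_eq, shiftP_C]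
    rfl
  have h2 : shiftP t0 σs - C (((∑ i, tF F i : ℚ)) : ℂ) = σs := by
    rw [hσs, map_sum]
    simp only [shiftP_X]
    rw [Finset.sum_add_distrib, ← map_sum]
    have : ∑ i, ((t0 i : ℝ) : ℂ) = (((∑ i, tF F i : ℚ)) : ℂ) := by
      push_cast
      refine Finset.sum_congr rfl fun i _ => ?_
      simp [ht0]
    rw [this]; ring
  rw [map_mul, h1, ← Finset.mul_prod_erase _ _ (Finset.mem_univ F), h2]
  have h3 : σs ^ K * (∏ x ∈ univ.erase F, (shiftP t0 σs - C (((∑ i, tF x i : ℚ)) : ℂ)) ^ K) *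
      shiftP t0 E' * w = σs ^ K * ((∏ x ∈ univ.erase F,
        (shiftP t0 σs - C (((∑ i, tF x i : ℚ)) : ℂ)) ^ K) * shiftP t0 E' * w) := by ring
  rw [h3]
  exact pow_mem_annB (bv a) M hsep K F' hF' _
    (lt_of_le_of_lt (Finset.card_le_univ F') hK)

/-- The main theorem, modulo the additivity of the volume. -/
theorem main_theoremG (a : Fin r → (Fin n →₀ ℕ)) (ha : Function.Injective a)
    (hne : ∃ i, a i ≠ 0) (κ : Fin r → ℂ) (hκ : AlgebraicIndependent ℚ κ)
    (𝒟 : ∀ τ, FaceCones a τ) (𝒯 : ∀ τ, FaceTriang a τ)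
    (hvol : ∀ h' : Fin r → ℝ, LinearIndependent ℚ h' → VolUpper a h' 𝒯)
    (b : Polynomial ℂ) (P : WeylS n) (hP : FunctionalEquation (sparsePoly a κ) b P) :
    (topZetaG a 𝒟 𝒯).denom ∣ b := by
  classical
  obtain ⟨i0, hi0⟩ := hne
  have hr : 0 < r := i0.pos
  have hκ0 : ∀ i, κ i ≠ 0 := fun i => hκ.ne_zero i
  have hcoef : ∀ i, coeff (a i) (sparsePoly a κ) = κ i := by
    intro i
    unfold sparsePoly
    rw [coeff_sum, Finset.sum_eq_single i]
    · rw [coeff_monomial, if_pos rfl]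
    · intro i' _ hne
      rw [coeff_monomial, if_neg (fun h => hne (ha h))]
    · intro h; exact absurd (Finset.mem_univ _) h
  have hnc : ∀ c, sparsePoly a κ ≠ C c := by
    intro c h
    have h1 := hcoef i0
    rw [h, coeff_C, if_neg (fun h => hi0 h.symm)] at h1
    exact hκ0 i0 h1.symm
  have hroot := eval_neg_one_general _ hnc b P hP
  obtain ⟨b', hb'⟩ := Polynomial.dvd_iff_isRoot.mpr (show b.IsRoot (-1 : ℂ) from hroot)
  have hb2 : b = (Polynomial.X + 1) * b' := by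
    rw [hb']; simp
  obtain ⟨h', hh⟩ := exists_heights r
  -- rational centres
  have hcen : ∀ F : Finset (Fin n ⊕ (Fin r ⊕ Fin r)), ∃ t : Fin r → ℚ,
      (∃ t0 : Fin r → ℝ, ∀ k ∈ F, ∑ i, bv a k i * t0 i + cv k = 0) →
      ∀ k ∈ F, ∑ i, bv a k i * ((t i : ℚ) : ℝ) + cv k = 0 := by
    intro F
    by_cases h : ∃ t0 : Fin r → ℝ, ∀ k ∈ F, ∑ i, bv a k i * t0 i + cv k = 0
    · obtain ⟨t, ht⟩ := exists_rational_centre a F h
      exact ⟨t, fun _ => ht⟩
    · exact ⟨0, fun h' => absurd h' h⟩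
  choose tF htF using hcen
  set K0 : ℕ := Fintype.card (Fin n ⊕ (Fin r ⊕ Fin r)) + 1 with hK0
  set q : Polynomial ℚ := ∏ F : Finset (Fin n ⊕ (Fin r ⊕ Fin r)),
        (Polynomial.X - Polynomial.C (∑ i, tF F i)) ^ K0 with hq
  obtain ⟨g0, α, β, hg0, hαβ⟩ := goodQ_prod (univ : Finset (Finset (Fin n ⊕ (Fin r ⊕ Fin r))))
    (fun F => ∑ i, tF F i) K0 b'
  rw [← hq] at hαβ
  -- the identity
  obtain ⟨c0, K, T, m, G, E', hc0, hK, hT, hid⟩ := identity_gen a κ hκ hh g0 q (-β)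
    (WeylS.smulP α P) (by
      intro k
      rw [WeylS.smulP_act, hP k, ← mul_assoc, ← map_mul]
      congr 2
      have h1 := congrArg (Polynomial.eval (k : ℂ)) hαβ
      rw [Polynomial.eval_add, Polynomial.eval_mul, Polynomial.eval_mul] at h1
      rw [h1, hb2]
      simp only [Polynomial.eval_mul, Polynomial.eval_add, Polynomial.eval_X,
        Polynomial.eval_one, Polynomial.eval_neg]
      ring)
  -- separators
  have hsepex : ∀ F : Finset (Fin n ⊕ (Fin r ⊕ Fin r)), ∃ x : Fin r → ℝ, ∑ i, x i ≤ -1 ∧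
      ((∃ m : Fin r → ℝ, (∀ k ∈ F, 0 ≤ ∑ i, m i * bv a k i) ∧ ∑ i, m i < 0) →
        ∀ k ∈ F, 0 ≤ ∑ i, x i * bv a k i) := by
    intro F
    by_cases h : ∃ m : Fin r → ℝ, (∀ k ∈ F, 0 ≤ ∑ i, m i * bv a k i) ∧ ∑ i, m i < 0
    · obtain ⟨m, hm1, hm2⟩ := h
      refine ⟨fun i => (-(∑ i, m i))⁻¹ * m i, ?_, fun _ k hk => ?_⟩
      · rw [← Finset.mul_sum]
        have h5 : ∑ i, m i ≠ 0 := by linarith
        have h2 : (-(∑ i, m i))⁻¹ * ∑ i, m i = -1 := by
          rw [inv_neg, neg_mul, inv_mul_cancel₀ h5]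
        rw [h2]
      · have h3 : ∑ i, (-(∑ i, m i))⁻¹ * m i * bv a k i =
            (-(∑ i, m i))⁻¹ * ∑ i, m i * bv a k i := by
          rw [Finset.mul_sum]
          exact Finset.sum_congr rfl fun i _ => by ring
        rw [h3]
        exact mul_nonneg (inv_nonneg.mpr (by linarith)) (hm1 k hk)
    · refine ⟨fun i => if i = i0 then -1 else 0, by simp, fun h' => absurd h' h⟩
  choose sF hsF1 hsF2 using hsepex
  set M : Set (Fin r → ℝ) := ((fun α i => ((m α i : ℤ) : ℝ)) '' (T : Set _)) ∪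
    Set.range sF with hMdef
  have hMfin : M.Finite := (T.finite_toSet.image _).union (Set.finite_range sF)
  have hsep : HasSep (bv a) M := by
    intro F hF
    exact ⟨sF F, Or.inr ⟨F, rfl⟩, hsF2 F hF⟩
  have hkill : KillAll a M ((Polynomial.aeval (∑ i, (X i : MvPolynomial (Fin r) ℂ))
      (q.map (algebraMap ℚ ℂ))) * E') :=
    killAll_of a M hsep tF htF K0 (by omega) E'
  have hmain := main_from_identity a ha hr hh 𝒟 𝒯 (hvol h' hh)
    (Polynomial.C c0 * g0.map (algebraMap ℚ ℂ)) K hK T m G M hMfin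
    (fun α hα => Or.inl ⟨α, by exact_mod_cast hα, rfl⟩)
    (by
      intro x hx
      rcases hx with ⟨α, hα, rfl⟩ | ⟨F, rfl⟩
      · rcases hT α (by exact_mod_cast hα) with h | h
        · left
          have : ∑ i, ((m α i : ℤ) : ℝ) = -1 := by
            have h2 : ((∑ i, m α i : ℤ) : ℝ) = ((-1 : ℤ) : ℝ) := by rw [h]
            push_cast at h2
            exact h2
          simp only [this]; rfl
        · right
          exact ⟨m α, rfl, h.1, h.2⟩
      · left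
        exact hsF1 F) _ hkill hid
  obtain ⟨b1, hb1⟩ := hg0
  refine hmain.trans ?_
  rw [hb2, hb1]
  refine ⟨Polynomial.C c0⁻¹ * b1, ?_⟩
  have h4 : Polynomial.C c0 * Polynomial.C c0⁻¹ = (1 : Polynomial ℂ) := by
    rw [← map_mul, mul_inv_cancel₀ hc0, map_one]
  linear_combination (-((Polynomial.X + 1) * g0.map (algebraMap ℚ ℂ) * b1)) * h4

end Pool.Agent.H22
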