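import Pool.Agent.H22.G1

/-! Local and global smoothed theorems for box bumps. -/

namespace Pool.Agent.H22

open MvPolynomial Finset MeasureTheory

variable {n r : ℕ}

/-- near the point `t0` all multiples of `E` are annihilated -/
def KillAt (a : Fin r → (Fin n →₀ ℕ)) (M : Set (Fin r → ℝ)) (E : MvPolynomial (Fin r) ℂ)
    (t0 : Fin r → ℝ) : Prop :=
  ∀ (F : Finset (Fin n ⊕ (Fin r ⊕ Fin r))) (hF : PosF (bv a) 0 F) (w : MvPolynomial (Fin r) ℂ),
    shiftP t0 E * w ∈ annB (bv a) F hF M

/-- every central family has a centre at which `E` is annihilated -/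
def KillAll (a : Fin r → (Fin n →₀ ℕ)) (M : Set (Fin r → ℝ)) (E : MvPolynomial (Fin r) ℂ) :
    Prop :=
  ∀ F : Finset (Fin n ⊕ (Fin r ⊕ Fin r)),
    (∃ t0 : Fin r → ℝ, ∀ k ∈ F, ∑ i, bv a k i * t0 i + cv k = 0) →
    ∃ t0 : Fin r → ℝ, (∀ k ∈ F, ∑ i, bv a k i * t0 i + cv k = 0) ∧ KillAt a M E t0

lemma killAll_zero (a : Fin r → (Fin n →₀ ℕ)) (M : Set (Fin r → ℝ)) : KillAll a M 0 := by
  intro F hF
  obtain ⟨t0, ht0⟩ := hF
  refine ⟨t0, ht0, fun F hF w => ?_⟩
  rw [map_zero, zero_mul]
  exact (annB (bv a) F hF M).zero_mem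

/-- The local theorem: near a common zero `t0` of the forms in `F' = J' ⊔ L'`. -/
theorem local_theoremB (a : Fin r → (Fin n →₀ ℕ)) (S : Finset (Fin r)) (hstar : StarC a S)
    (b' : Polynomial ℂ) (K : ℕ) (hK : 1 ≤ K) {A : Type*} (T : Finset A) (m : A → Fin r → ℤ)
    (g : A → MvPolynomial (Fin r) ℂ) (M : Set (Fin r → ℝ))
    (hM : ∀ α ∈ T, (fun i => (m α i : ℝ)) ∈ M) (E : MvPolynomial (Fin r) ℂ)
    (hid : (Polynomial.aeval (∑ i, (X i : MvPolynomial (Fin r) ℂ)) b') * ∏ i, DDp K 0 i =
        ∑ α ∈ T, g α * (∏ j, zf a j (-(∑ i, m α i * (a i j : ℤ)))) *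
          ∏ i, DDp K (m α i) i + E)
    (t0 : Fin r → ℝ) (hE : KillAt a M E t0)
    (J' : Finset (Fin n)) (L' : Finset (Fin r)) (hL : L' ⊆ S)
    (hJ : ∀ j ∈ J', 1 + ∑ i, (a i j : ℝ) * t0 i = 0) (hL0 : ∀ l ∈ L', t0 l = 0)
    (hpos : PosF (bv a) 0 (J'.disjSum (L'.disjSum ∅))) :
    shiftP t0 ((Polynomial.aeval (∑ i, (X i : MvPolynomial (Fin r) ℂ)) b') *
      ∏ i ∈ S, (X i + 1)) ∈ annB (bv a) (J'.disjSum (L'.disjSum ∅)) hpos M := by
  classical
  obtain ⟨u, hu, hden⟩ := den_factor S K hK t0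
  set B := Bset S K t0 with hB
  have hposB := pos_local a S hstar K t0 J' L' hL hJ hL0
  rw [← hB] at hposB
  set F' := J'.disjSum (L'.disjSum (∅ : Finset (Fin r))) with hF'
  set F'' := J'.disjSum (L'.disjSum B) with hF''
  have hu0 : constantCoeff (shiftP t0 u) ≠ 0 := by rw [constantCoeff_shiftP]; exact hu
  apply unit_removal_annB (u := shiftP t0 u) hu0
  rw [mem_annB]
  intro ρ hρ
  obtain ⟨lo, hi, hb⟩ := hρ.bump
  -- disjointness
  have hLB : ∀ l ∈ L', l ∉ B := by
    intro l hl hlB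
    obtain ⟨k, _, _, h3⟩ := mem_Bset.mp hlB
    rw [hL0 l hl] at h3
    have : (0 : ℝ) ≤ k := Nat.cast_nonneg k
    linarith
  -- the functional on F'' applied to the shifted identity
  have hRHS : MF (bv a) 0 F'' ρ (shiftP t0 (∑ α ∈ T, g α *
      (∏ j, zf a j (-(∑ i, m α i * (a i j : ℤ)))) * ∏ i, DDp K (m α i) i + E)) = 0 := by
    rw [map_add, MF_add hb hposB]
    have hEz : MF (bv a) 0 F'' ρ (shiftP t0 E) = 0 := by
      have h1 := (mem_annB.mp (hE F'' hposB 1)) ρ hρ
      rwa [mul_one] at h1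
    rw [hEz, add_zero, map_sum, MF_sum hb hposB]
    apply Finset.sum_eq_zero
    intro α hα
    set G1 := J'.filter fun j => ∑ i, m α i * (a i j : ℤ) < 0 with hG1
    set G2 := L'.filter fun l => 0 < m α l with hG2
    set G3 := B.filter fun i => t0 i < (m α i : ℝ) with hG3
    set G := G1.disjSum (G2.disjSum G3) with hG
    have hdvd : ∏ k ∈ G, formP (bv a k) 0 ∣ shiftP t0 (g α *
        (∏ j, zf a j (-(∑ i, m α i * (a i j : ℤ)))) * ∏ i, DDp K (m α i) i) := by
      rw [map_mul, map_mul, map_prod, map_prod, hG, Finset.prod_disjSum]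
      apply mul_dvd_mul
      · apply Dvd.dvd.mul_left
        refine dvd_trans ?_ (Finset.prod_dvd_prod_of_subset G1 univ _ (Finset.subset_univ _))
        apply Finset.prod_dvd_prod_of_dvd
        intro j hj
        rw [hG1, Finset.mem_filter] at hj
        exact dvd_shift_zf a t0 j (hJ j hj.1) _ (by linarith [hj.2])
      · rw [Finset.prod_disjSum]
        have hdisj : Disjoint G2 G3 := by
          rw [Finset.disjoint_left]
          intro l hl2 hl3
          rw [hG2, Finset.mem_filter] at hl2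
          rw [hG3, Finset.mem_filter] at hl3
          exact hLB l hl2.1 hl3.1
        have e1 : (∏ x ∈ G2, formP (bv a (Sum.inr (Sum.inl x))) 0) *
            (∏ x ∈ G3, formP (bv a (Sum.inr (Sum.inr x))) 0) =
            ∏ x ∈ G2 ∪ G3, (-(X x : MvPolynomial (Fin r) ℂ)) := by
          rw [Finset.prod_union hdisj]
          simp only [formP_bv_inr_inl, formP_bv_inr_inr]
        rw [e1]
        refine dvd_trans ?_ (Finset.prod_dvd_prod_of_subset (G2 ∪ G3) univ _
          (Finset.subset_univ _))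
        apply Finset.prod_dvd_prod_of_dvd
        intro l hl
        rw [neg_dvd]
        rw [Finset.mem_union] at hl
        rcases hl with hl | hl
        · rw [hG2, Finset.mem_filter] at hl
          exact dvd_shift_DDp K t0 l 0 (Nat.zero_le _) (by rw [hL0 l hl.1]; simp) _
            (by simpa using hl.2)
        · rw [hG3, Finset.mem_filter] at hl
          obtain ⟨k, hk1, _, hk3⟩ := mem_Bset.mp hl.1
          refine dvd_shift_DDp K t0 l (k + 1) (by omega) (by rw [hk3]; push_cast; ring) _ ?_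
          have h5 : -((k : ℝ) + 1) < (m α l : ℝ) := by rw [← hk3]; exact hl.2
          have h6 : ((-((k : ℤ) + 1) : ℤ) : ℝ) < (m α l : ℝ) := by push_cast; linarith
          have h7 : (-((k : ℤ) + 1) : ℤ) < m α l := by exact_mod_cast h6
          push_cast; linarith
    obtain ⟨w, hw⟩ := hdvd
    rw [hw]
    have hGF : G ⊆ F'' := by
      rw [hG, hF'']
      apply Finset.disjSum_mono (Finset.filter_subset _ _)
      exact Finset.disjSum_mono (Finset.filter_subset _ _) (Finset.filter_subset _ _)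
    have hrem := MF_remove_many hb hposB w G hGF
    simp only [Pi.zero_apply] at hrem
    rw [hrem]
    apply MF_vanish_of w (fun i => (m α i : ℝ))
    · intro k hk
      rw [Finset.mem_sdiff] at hk
      rcases k with j | l | l
      · have h1 : j ∈ J' := by
          have := hk.1; rw [hF'', Finset.inl_mem_disjSum] at this; exact this
        have h2 : j ∉ G1 := by
          intro h; apply hk.2; rw [hG, Finset.inl_mem_disjSum]; exact h
        have h3 : ¬ (∑ i, m α i * (a i j : ℤ) < 0) := by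
          intro h; apply h2; rw [hG1, Finset.mem_filter]; exact ⟨h1, h⟩
        push Not at h3
        have h4 : ((0 : ℤ) : ℝ) ≤ ((∑ i, m α i * (a i j : ℤ) : ℤ) : ℝ) := by exact_mod_cast h3
        push_cast at h4
        simpa [bv] using h4
      · have h1 : l ∈ L' := by
          have := hk.1
          rw [hF'', Finset.inr_mem_disjSum, Finset.inl_mem_disjSum] at this; exact this
        have h2 : l ∉ G2 := by
          intro h; apply hk.2
          rw [hG, Finset.inr_mem_disjSum, Finset.inl_mem_disjSum]; exact h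
        have h3 : ¬ (0 < m α l) := by
          intro h; apply h2; rw [hG2, Finset.mem_filter]; exact ⟨h1, h⟩
        push Not at h3
        have h4 : (m α l : ℝ) ≤ 0 := by exact_mod_cast h3
        have h5 : ∑ i, (m α i : ℝ) * bv a (Sum.inr (Sum.inl l)) i = -(m α l : ℝ) := by
          simp only [bv]
          rw [Finset.sum_eq_single l]
          · simp
          · intro i _ hi; simp [hi]
          · intro h; exact absurd (Finset.mem_univ _) h
        rw [h5]; linarith
      · have h1 : l ∈ B := by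
          have := hk.1
          rw [hF'', Finset.inr_mem_disjSum, Finset.inr_mem_disjSum] at this; exact this
        have h2 : l ∉ G3 := by
          intro h; apply hk.2
          rw [hG, Finset.inr_mem_disjSum, Finset.inr_mem_disjSum]; exact h
        have h3 : ¬ (t0 l < (m α l : ℝ)) := by
          intro h; apply h2; rw [hG3, Finset.mem_filter]; exact ⟨h1, h⟩
        push Not at h3
        obtain ⟨k, hk1, _, hk3⟩ := mem_Bset.mp h1
        have h4 : (m α l : ℝ) ≤ 0 := by
          have : (0 : ℝ) ≤ k := Nat.cast_nonneg k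
          linarith
        have h5 : ∑ i, (m α i : ℝ) * bv a (Sum.inr (Sum.inr l)) i = -(m α l : ℝ) := by
          simp only [bv]
          rw [Finset.sum_eq_single l]
          · simp
          · intro i _ hi; simp [hi]
          · intro h; exact absurd (Finset.mem_univ _) h
        rw [h5]; linarith
    · intro x hx
      exact hρ.pos (hM α hα) w x hx
  rw [← hid, hden] at hRHS
  have e1 : shiftP t0 ((Polynomial.aeval (∑ i, (X i : MvPolynomial (Fin r) ℂ)) b') *
      ((∏ i ∈ S, (X i + 1)) * u * ∏ i ∈ B, (X i - C (t0 i : ℂ)))) =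
      (∏ k ∈ (∅ : Finset (Fin n)).disjSum ((∅ : Finset (Fin r)).disjSum B),
        formP (bv a k) 0) * (C ((-1 : ℂ) ^ B.card) * (shiftP t0 u *
          shiftP t0 ((Polynomial.aeval (∑ i, (X i : MvPolynomial (Fin r) ℂ)) b') *
            ∏ i ∈ S, (X i + 1)))) := by
    rw [Finset.prod_disjSum, Finset.prod_disjSum]
    simp only [Finset.prod_empty, one_mul, formP_bv_inr_inr]
    rw [Finset.prod_neg, map_mul, map_mul, map_mul, map_mul, map_prod (shiftP t0)
      (fun i => (X i - C (t0 i : ℂ) : MvPolynomial (Fin r) ℂ)) B]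
    have e2 : ∀ i, shiftP t0 (X i - C (t0 i : ℂ)) = X i := by
      intro i; rw [map_sub, shiftP_X, shiftP_C]; ring
    simp only [e2]
    have e3 : ((-1 : MvPolynomial (Fin r) ℂ)) ^ B.card * C ((-1 : ℂ) ^ B.card) = 1 := by
      rw [map_pow, map_neg, map_one, ← mul_pow]; simp
    calc _ = (shiftP t0 u * (shiftP t0 (Polynomial.aeval (∑ i, (X i : MvPolynomial (Fin r) ℂ)) b')
            * shiftP t0 (∏ i ∈ S, (X i + 1)))) * (∏ i ∈ B, X i) := by ring
      _ = (((-1 : MvPolynomial (Fin r) ℂ)) ^ B.card * C ((-1 : ℂ) ^ B.card)) * ((shiftP t0 u *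
          (shiftP t0 (Polynomial.aeval (∑ i, (X i : MvPolynomial (Fin r) ℂ)) b')
            * shiftP t0 (∏ i ∈ S, (X i + 1)))) * (∏ i ∈ B, X i)) := by rw [e3, one_mul]
      _ = _ := by ring
  have hsub : (∅ : Finset (Fin n)).disjSum ((∅ : Finset (Fin r)).disjSum B) ⊆ F'' := by
    rw [hF'']
    apply Finset.disjSum_mono (Finset.empty_subset _)
    exact Finset.disjSum_mono (Finset.empty_subset _) subset_rfl
  have hrem := MF_remove_many hb hposB (C ((-1 : ℂ) ^ B.card) * (shiftP t0 u *
          shiftP t0 ((Polynomial.aeval (∑ i, (X i : MvPolynomial (Fin r) ℂ)) b') *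
            ∏ i ∈ S, (X i + 1)))) _ hsub
  simp only [Pi.zero_apply] at hrem
  rw [e1, hrem, MF_C_mul] at hRHS
  have hsd : F'' \ (∅ : Finset (Fin n)).disjSum ((∅ : Finset (Fin r)).disjSum B) = F' := by
    ext k
    rw [Finset.mem_sdiff, hF'', hF']
    rcases k with j | l | l
    · simp
    · simp
    · simp
  rw [hsd] at hRHS
  rcases mul_eq_zero.mp hRHS with h | h
  · exact absurd h (pow_ne_zero _ (by norm_num))
  · exact h

/-- The global smoothed theorem. -/
theorem global_theoremB (a : Fin r → (Fin n →₀ ℕ)) (S : Finset (Fin r)) (hstar : StarC a S)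
    (b' : Polynomial ℂ) (K : ℕ) (hK : 1 ≤ K) {A : Type*} (T : Finset A) (m : A → Fin r → ℤ)
    (g : A → MvPolynomial (Fin r) ℂ) (M : Set (Fin r → ℝ))
    (hM : ∀ α ∈ T, (fun i => (m α i : ℝ)) ∈ M) (E : MvPolynomial (Fin r) ℂ)
    (hE : KillAll a M E)
    (hid : (Polynomial.aeval (∑ i, (X i : MvPolynomial (Fin r) ℂ)) b') * ∏ i, DDp K 0 i =
        ∑ α ∈ T, g α * (∏ j, zf a j (-(∑ i, m α i * (a i j : ℤ)))) *
          ∏ i, DDp K (m α i) i + E)
    (ρ : Fin r → ℝ → ℂ) (hρ : BoxB M ρ) :
    MF (bv a) cv ((univ : Finset (Fin n)).disjSum (S.disjSum (∅ : Finset (Fin r)))) ρ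
      ((Polynomial.aeval (∑ i, (X i : MvPolynomial (Fin r) ℂ)) b') *
        ∏ i ∈ S, (X i + 1)) = 0 := by
  obtain ⟨lo, hi, hb⟩ := hρ.bump
  apply MF_reduce hb _ _ (pos_global a S)
  intro F' hF' hcen
  obtain ⟨t0, ht0, hkill⟩ := hE F' hcen
  rw [MF_twist hb t0 ht0]
  set J' : Finset (Fin n) := F'.toLeft with hJ'
  set L' : Finset (Fin r) := F'.toRight.toLeft with hL'
  have hFeq : F' = J'.disjSum (L'.disjSum (∅ : Finset (Fin r))) := by
    ext k
    rcases k with j | l | l
    · simp [hJ']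
    · simp [hL']
    · simp only [Finset.inr_mem_disjSum, Finset.notMem_empty, iff_false]
      intro h
      have := hF' h
      simp at this
  have hJ : ∀ j ∈ J', 1 + ∑ i, (a i j : ℝ) * t0 i = 0 := by
    intro j hj
    have := ht0 (Sum.inl j) (by rw [hFeq, Finset.inl_mem_disjSum]; exact hj)
    simp only [bv, cv] at this
    linarith
  have hL0 : ∀ l ∈ L', t0 l = 0 := by
    intro l hl
    have := ht0 (Sum.inr (Sum.inl l)) (by
      rw [hFeq, Finset.inr_mem_disjSum, Finset.inl_mem_disjSum]; exact hl)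
    simp only [bv, cv] at this
    rw [Finset.sum_eq_single l] at this
    · simp at this; exact this
    · intro i _ hi; simp [hi]
    · intro h; exact absurd (Finset.mem_univ _) h
  have hLS : L' ⊆ S := by
    intro l hl
    have h1 : (Sum.inr (Sum.inl l) : Fin n ⊕ (Fin r ⊕ Fin r)) ∈ F' := by
      rw [hFeq, Finset.inr_mem_disjSum, Finset.inl_mem_disjSum]; exact hl
    have := hF' h1
    simpa using this
  have hpos : PosF (bv a) 0 (J'.disjSum (L'.disjSum (∅ : Finset (Fin r)))) := by
    apply (pos_local a S hstar K t0 J' L' hLS hJ hL0).mono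
    apply Finset.disjSum_mono subset_rfl
    exact Finset.disjSum_mono subset_rfl (Finset.empty_subset _)
  have := local_theoremB a S hstar b' K hK T m g M hM E hid t0 hkill J' L' hLS hJ hL0 hpos
  rw [hFeq]
  exact (mem_annB.mp this) _ (hρ.twist t0)

/-- The smoothed identity, summed over all faces. -/
theorem face_sumB (a : Fin r → (Fin n →₀ ℕ))
    (b' : Polynomial ℂ) (K : ℕ) (hK : 1 ≤ K) {A : Type*} (T : Finset A) (m : A → Fin r → ℤ)
    (g : A → MvPolynomial (Fin r) ℂ) (M : Set (Fin r → ℝ))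
    (hM : ∀ α ∈ T, (fun i => (m α i : ℝ)) ∈ M) (E : MvPolynomial (Fin r) ℂ)
    (hE : KillAll a M E)
    (hid : (Polynomial.aeval (∑ i, (X i : MvPolynomial (Fin r) ℂ)) b') * ∏ i, DDp K 0 i =
        ∑ α ∈ T, g α * (∏ j, zf a j (-(∑ i, m α i * (a i j : ℤ)))) *
          ∏ i, DDp K (m α i) i + E)
    (ρ : Fin r → ℝ → ℂ) (hρ : BoxB M ρ) (θ : Finset (Fin r) → ℂ) (hθ : ApexInv a θ) :
    ∑ σ : Finset (Fin r), (-1 : ℂ) ^ σ.card * θ σ *
      MF (bv a) cv (Fam n σ) ρ (Polynomial.aeval (∑ i, (X i : MvPolynomial (Fin r) ℂ)) b')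
      = 0 := by
  classical
  obtain ⟨lo, hi, hb⟩ := hρ.bump
  obtain ⟨c, hc⟩ := exists_zeta_inverse θ
  set p := Polynomial.aeval (∑ i, (X i : MvPolynomial (Fin r) ℂ)) b' with hp
  have h1 : ∀ U : Finset (Fin r), c U * ∑ G ∈ Uᶜ.powerset, (-1 : ℂ) ^ G.card *
      MF (bv a) cv (Fam n (U ∪ G)) ρ p = 0 := by
    intro U
    by_cases hstar : StarC a Uᶜ
    · rw [← global_expand a U hb p]
      rw [global_theoremB a Uᶜ hstar b' K hK T m g M hM E hE hid ρ hρ, mul_zero]
    · unfold StarC at hstar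
      push Not at hstar
      obtain ⟨i, hi, j, hij, hl⟩ := hstar
      rw [coeff_eq_zero_of_apex a θ hθ c hc i j hij U (by simpa using hi)
        (fun l hlU hli => hl l (by simpa using hlU) hli), zero_mul]
  have h2 : ∑ U : Finset (Fin r), (-1 : ℂ) ^ U.card * (c U * ∑ G ∈ Uᶜ.powerset,
      (-1 : ℂ) ^ G.card * MF (bv a) cv (Fam n (U ∪ G)) ρ p) = 0 := by
    apply Finset.sum_eq_zero
    intro U _
    rw [h1 U, mul_zero]
  rw [← h2]
  -- reorganise
  have h3 : ∀ U : Finset (Fin r), (-1 : ℂ) ^ U.card * (c U * ∑ G ∈ Uᶜ.powerset,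
      (-1 : ℂ) ^ G.card * MF (bv a) cv (Fam n (U ∪ G)) ρ p) =
      ∑ σ : Finset (Fin r), if U ⊆ σ then (-1 : ℂ) ^ σ.card * c U *
        MF (bv a) cv (Fam n σ) ρ p else 0 := by
    intro U
    rw [← Finset.sum_filter, Finset.mul_sum, Finset.mul_sum]
    refine Finset.sum_bij' (fun G _ => U ∪ G) (fun σ _ => σ \ U) ?_ ?_ ?_ ?_ ?_
    · intro G _
      rw [Finset.mem_filter]
      exact ⟨Finset.mem_univ _, Finset.subset_union_left⟩
    · intro σ _
      rw [Finset.mem_powerset]
      intro x hx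
      rw [Finset.mem_sdiff] at hx
      rw [Finset.mem_compl]
      exact hx.2
    · intro G hG
      rw [Finset.mem_powerset] at hG
      ext x
      rw [Finset.mem_sdiff, Finset.mem_union]
      constructor
      · rintro ⟨h | h, h'⟩
        · exact absurd h h'
        · exact h
      · intro h
        exact ⟨Or.inr h, by simpa using hG h⟩
    · intro σ hσ
      rw [Finset.mem_filter] at hσ
      exact Finset.union_sdiff_of_subset hσ.2
    · intro G hG
      rw [Finset.mem_powerset] at hG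
      have hd : Disjoint U G := by
        rw [Finset.disjoint_left]
        intro x hx hx'
        have := hG hx'
        rw [Finset.mem_compl] at this
        exact this hx
      rw [Finset.card_union_of_disjoint hd, pow_add]
      ring
  simp only [h3]
  rw [Finset.sum_comm]
  refine Finset.sum_congr rfl fun σ _ => ?_
  rw [← hc σ, ← Finset.sum_filter]
  have h4 : (univ.filter fun U => U ⊆ σ) = σ.powerset := by
    ext U; simp
  rw [h4, Finset.mul_sum, Finset.sum_mul]

/-- The face sum after integration by parts. -/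
theorem parts_mainB (a : Fin r → (Fin n →₀ ℕ))
    (b' : Polynomial ℂ) (K : ℕ) (hK : 1 ≤ K) {A : Type*} (T : Finset A) (m : A → Fin r → ℤ)
    (g : A → MvPolynomial (Fin r) ℂ) (M : Set (Fin r → ℝ))
    (hM : ∀ α ∈ T, (fun i => (m α i : ℝ)) ∈ M) (E : MvPolynomial (Fin r) ℂ)
    (hE : KillAll a M E)
    (hid : (Polynomial.aeval (∑ i, (X i : MvPolynomial (Fin r) ℂ)) b') * ∏ i, DDp K 0 i =
        ∑ α ∈ T, g α * (∏ j, zf a j (-(∑ i, m α i * (a i j : ℤ)))) *
          ∏ i, DDp K (m α i) i + E)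
    (θ : Finset (Fin r) → ℂ) (hθ : ApexInv a θ) :
    ∃ (Cp : ℕ → Polynomial ℂ) (D : ℕ), Cp 0 = b' ∧
      ∀ (s : ℝ), 0 < s → ∀ (ρ : Fin r → ℝ → ℂ) (R lam : ℝ), IsBump ρ (-R) R → 0 < lam →
        (∀ N : ℝ, 1 ≤ N → BoxB M (trB (scB ρ lam) N)) →
        ∑ j ∈ Finset.range (D + 1), (Cp j).eval (s : ℂ) *
          ∑ σ : Finset (Fin r), (-1 : ℂ) ^ σ.card * θ σ * Lam a σ (scB ρ lam) s j 0 = 0 := by
  choose c hc0 hcz hc using parts_recursion
  refine ⟨fun j => ∑ e ∈ Finset.range (b'.natDegree + 1), Polynomial.C (b'.coeff e) * c e j,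
    b'.natDegree, ?_, ?_⟩
  · simp only [hc0]
    conv_rhs => rw [b'.as_sum_range_C_mul_X_pow]
  · intro s hs ρ R lam hρ hlam hbox
    have hb := scB_bump hlam hρ
    -- the integrated identity
    have h1 : ∫ N : ℝ, ((etaF 0 N * Real.exp (-s * N) : ℝ) : ℂ) *
        (∑ σ : Finset (Fin r), (-1 : ℂ) ^ σ.card * θ σ *
          MF (bv a) cv (Fam n σ) (trB (scB ρ lam) N)
            (Polynomial.aeval (∑ i, (X i : MvPolynomial (Fin r) ℂ)) b')) = 0 := by
      have : ∀ N : ℝ, ((etaF 0 N * Real.exp (-s * N) : ℝ) : ℂ) *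
        (∑ σ : Finset (Fin r), (-1 : ℂ) ^ σ.card * θ σ *
          MF (bv a) cv (Fam n σ) (trB (scB ρ lam) N)
            (Polynomial.aeval (∑ i, (X i : MvPolynomial (Fin r) ℂ)) b')) = 0 := by
        intro N
        by_cases hN : N < 1
        · rw [etaF_zero_lt 0 N hN]; simp
        · push Not at hN
          rw [face_sumB a b' K hK T m g M hM E hE hid _ (hbox N hN) θ hθ,
            mul_zero]
      simp only [this]; simp
    -- expand b'
    have hexp : ∀ (σ : Finset (Fin r)) (N : ℝ), MF (bv a) cv (Fam n σ) (trB (scB ρ lam) N)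
            (Polynomial.aeval (∑ i, (X i : MvPolynomial (Fin r) ℂ)) b') =
        ∑ e ∈ Finset.range (b'.natDegree + 1), b'.coeff e *
          MF (bv a) cv (Fam n σ) (trB (scB ρ lam) N) ((∑ i, X i) ^ e) := by
      intro σ N
      have hpos : PosF (bv a) cv (Fam n σ) := pos_global a σᶜ
      rw [Polynomial.aeval_eq_sum_range, MF_sum (trB_bump hb N) hpos]
      refine Finset.sum_congr rfl fun e _ => ?_
      rw [smul_eq_C_mul, MF_C_mul]
    have hint : ∀ (σ : Finset (Fin r)) (e : ℕ), Integrable (fun N : ℝ =>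
        ((etaF 0 N * Real.exp (-s * N) : ℝ) : ℂ) *
          MF (bv a) cv (Fam n σ) (trB (scB ρ lam) N) ((∑ i, X i) ^ e)) := by
      intro σ e
      obtain ⟨C0, _, hC0⟩ := etaF_bound 0
      exact Lam_integrable a σ hb s hs (etaF 0) (etaF_continuous 0) (etaF_zero_lt 0) C0 hC0 _
    have h2 : ∑ σ : Finset (Fin r), (-1 : ℂ) ^ σ.card * θ σ *
        ∑ e ∈ Finset.range (b'.natDegree + 1), b'.coeff e * Lam a σ (scB ρ lam) s 0 e = 0 := by
      rw [← h1]
      have h3 : ∀ N : ℝ, ((etaF 0 N * Real.exp (-s * N) : ℝ) : ℂ) *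
        (∑ σ : Finset (Fin r), (-1 : ℂ) ^ σ.card * θ σ *
          MF (bv a) cv (Fam n σ) (trB (scB ρ lam) N)
            (Polynomial.aeval (∑ i, (X i : MvPolynomial (Fin r) ℂ)) b')) =
          ∑ σ : Finset (Fin r), ∑ e ∈ Finset.range (b'.natDegree + 1),
            ((-1 : ℂ) ^ σ.card * θ σ * b'.coeff e) *
            (((etaF 0 N * Real.exp (-s * N) : ℝ) : ℂ) *
          MF (bv a) cv (Fam n σ) (trB (scB ρ lam) N) ((∑ i, X i) ^ e)) := by
        intro N
        rw [Finset.mul_sum]
        refine Finset.sum_congr rfl fun σ _ => ?_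
        rw [hexp σ N, Finset.mul_sum, Finset.mul_sum]
        refine Finset.sum_congr rfl fun e _ => ?_
        ring
      simp only [h3]
      rw [integral_finsetSum _ (fun σ _ => integrable_finsetSum _ fun e _ =>
        (hint σ e).const_mul _)]
      refine Finset.sum_congr rfl fun σ _ => ?_
      rw [integral_finsetSum _ (fun e _ => (hint σ e).const_mul _), Finset.mul_sum]
      refine Finset.sum_congr rfl fun e _ => ?_
      rw [integral_const_mul]
      unfold Lam
      ring
    rw [← h2]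
    have h4 : ∀ σ : Finset (Fin r), ∑ e ∈ Finset.range (b'.natDegree + 1),
        b'.coeff e * Lam a σ (scB ρ lam) s 0 e =
        ∑ j ∈ Finset.range (b'.natDegree + 1), (∑ e ∈ Finset.range (b'.natDegree + 1),
          Polynomial.C (b'.coeff e) * c e j).eval (s : ℂ) * Lam a σ (scB ρ lam) s j 0 := by
      intro σ
      have h5 : ∀ e ∈ Finset.range (b'.natDegree + 1), Lam a σ (scB ρ lam) s 0 e =
          ∑ j ∈ Finset.range (b'.natDegree + 1), (c e j).eval (s : ℂ) *
            Lam a σ (scB ρ lam) s j 0 := by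
        intro e he
        rw [Finset.mem_range] at he
        rw [hc e (s : ℂ) (Lam a σ (scB ρ lam) s) (fun j e => Lam_rec a σ hb s hs j e) 0]
        simp only [zero_add]
        apply Finset.sum_subset
        · intro x hx; rw [Finset.mem_range] at *; omega
        · intro x _ hx
          rw [Finset.mem_range] at hx
          rw [hcz e x (by omega)]; simp
      rw [Finset.sum_congr rfl (fun e he => by rw [h5 e he])]
      simp only [Polynomial.eval_finsetSum, Polynomial.eval_mul, Polynomial.eval_C,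
        Finset.sum_mul, Finset.mul_sum]
      rw [Finset.sum_comm]
      refine Finset.sum_congr rfl fun j _ => Finset.sum_congr rfl fun e _ => ?_
      ring
    simp only [h4]
    simp only [Finset.mul_sum]
    rw [Finset.sum_comm]
    refine Finset.sum_congr rfl fun σ _ => Finset.sum_congr rfl fun j _ => ?_
    ring

end Pool.Agent.H22
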