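import Pool.Agent.H22.Defs

/-! Definitions for polynomials with an arbitrary support: faces of the Newton polytope, their
normalised volumes, and the topological zeta function through the formula of Denef and Loeser. -/

namespace Pool.Agent.H22

open Finset MvPolynomial

variable {n r : ℕ}

/-- The exponent `a_i` as a point of `ℝ^n`. -/
def pointR (a : Fin r → (Fin n →₀ ℕ)) (i : Fin r) : Fin n → ℝ := fun j => (a i j : ℝ)

/-- The vector `(1, a_i)` with real entries. -/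
def rowR (a : Fin r → (Fin n →₀ ℕ)) (i : Fin r) : Unit ⊕ Fin n → ℝ :=
  Sum.elim (fun _ => 1) (fun j => (a i j : ℝ))

/-- `1 + dim conv{a_i : i ∈ τ}`, as the rank of the vectors `(1, a_i)`, `i ∈ τ`. -/
noncomputable def faceRank (a : Fin r → (Fin n →₀ ℕ)) (τ : Finset (Fin r)) : ℕ :=
  Module.finrank ℝ (Submodule.span ℝ (rowR a '' (τ : Set (Fin r))))

/-- `τ` is the set of all exponents on the face cut out by some weight vector `k ≥ 0`: the
exponents at which `a_l · k` attains its minimum. -/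
def IsFace (a : Fin r → (Fin n →₀ ℕ)) (τ : Finset (Fin r)) : Prop :=
  ∃ k : Fin n → ℝ, (∀ j, 0 ≤ k j) ∧
    ∀ l, l ∈ τ ↔ ∀ l', ∑ j, (a l j : ℝ) * k j ≤ ∑ j, (a l' j : ℝ) * k j

/-- A decomposition of the cone `D_τ` into simplicial cones of dimension
`d = n - dim conv{a_i : i ∈ τ}` with generators in `ℕ^n`. -/
structure FaceCones (a : Fin r → (Fin n →₀ ℕ)) (τ : Finset (Fin r)) where
  /-- the number of cones -/
  m : ℕ
  /-- the generators of the cones -/
  w : Fin m → Fin (n + 1 - faceRank a τ) → Fin n → ℕ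
  mem : ∀ C c, toReal (w C c) ∈ minCone a τ
  indep : ∀ C, LinearIndependent ℝ (fun c => toReal (w C c))
  disj : ∀ C C', C ≠ C' →
    Disjoint (openCone fun c => toReal (w C c)) (openCone fun c => toReal (w C' c))
  cover : (∃ v : Fin (n + 1 - faceRank a τ) → Fin n → ℝ,
      LinearIndependent ℝ v ∧ ∀ c, v c ∈ minCone a τ) →
    ∀ k ∈ minCone a τ, ∃ C, k ∈ closedCone fun c => toReal (w C c)

/-- The relative interior of the simplex with vertices `a_i`, `i ∈ σ`. -/
def openSimplex (a : Fin r → (Fin n →₀ ℕ)) (σ : Finset (Fin r)) : Set (Fin n → ℝ) :=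
  {p | ∃ x : Fin r → ℝ, (∀ i ∈ σ, 0 < x i) ∧ ∑ i ∈ σ, x i = 1 ∧ p = ∑ i ∈ σ, x i • pointR a i}

/-- A triangulation of the polytope `conv{a_i : i ∈ τ}`: finitely many simplices of full
dimension with vertices among the `a_i`, `i ∈ τ`, with pairwise disjoint interiors, which cover
the polytope. -/
structure FaceTriang (a : Fin r → (Fin n →₀ ℕ)) (τ : Finset (Fin r)) where
  /-- the vertex sets of the simplices -/
  S : Finset (Finset (Fin r))
  sub : ∀ σ ∈ S, σ ⊆ τ
  card : ∀ σ ∈ S, σ.card = faceRank a τ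
  indep : ∀ σ ∈ S, LinearIndependent ℝ (fun i : σ => rowR a i)
  disj : ∀ σ ∈ S, ∀ σ' ∈ S, σ ≠ σ' → Disjoint (openSimplex a σ) (openSimplex a σ')
  cover : ∀ p ∈ convexHull ℝ (pointR a '' (τ : Set (Fin r))),
    ∃ σ ∈ S, p ∈ convexHull ℝ (pointR a '' (σ : Set (Fin r)))

/-- The normalised volume `(dim τ)! Vol(τ)`: the sum of the normalised volumes of the simplices
of a triangulation. -/
noncomputable def nvol {a : Fin r → (Fin n →₀ ℕ)} {τ : Finset (Fin r)} (𝒯 : FaceTriang a τ) : ℕ :=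
  ∑ σ ∈ 𝒯.S, faceVol a σ

/-- `J_τ(s) = Σ_C mult(C) ∏_c 1 / (|w_c| + N(w_c) s)`. -/
noncomputable def JfunG (a : Fin r → (Fin n →₀ ℕ)) (τ : Finset (Fin r)) (𝒟 : FaceCones a τ) :
    RatFunc ℂ :=
  ∑ C, (coneMult (𝒟.w C) : RatFunc ℂ) *
    ∏ c, ((wsum (𝒟.w C c) : RatFunc ℂ) + (wmin a (𝒟.w C c) : RatFunc ℂ) * RatFunc.X)⁻¹

open Classical in
/-- The global topological zeta function of a nondegenerate polynomial with exponents
`a_1, …, a_r`, by the formula of Denef and Loeser: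
`Z(s) = Σ_{τ vertex} J_τ(s) + (s / (s+1)) Σ_{dim τ ≥ 1} (-1)^{dim τ} (dim τ)! Vol(τ) J_τ(s)`,
the sums over the faces of the Newton polytope which are cut out by weight vectors `k ≥ 0`. -/
noncomputable def topZetaG (a : Fin r → (Fin n →₀ ℕ)) (𝒟 : ∀ τ, FaceCones a τ)
    (𝒯 : ∀ τ, FaceTriang a τ) : RatFunc ℂ :=
  ∑ τ ∈ univ.filter (fun τ : Finset (Fin r) => IsFace a τ ∧ faceRank a τ = 1), JfunG a τ (𝒟 τ) +
    RatFunc.X / (RatFunc.X + 1) *
      ∑ τ ∈ univ.filter (fun τ : Finset (Fin r) => IsFace a τ ∧ 2 ≤ faceRank a τ),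
        (-1) ^ (faceRank a τ - 1) * (nvol (𝒯 τ) : RatFunc ℂ) * JfunG a τ (𝒟 τ)

/-- `σ` is a simplex of the regular triangulation with heights `h` (upper hull) of the exponents
in its affine span. -/
def UpperS (a : Fin r → (Fin n →₀ ℕ)) (h : Fin r → ℝ) (σ : Finset (Fin r)) : Prop :=
  LinearIndependent ℝ (fun i : σ => rowR a i) ∧
    ∀ l ∉ σ, ∀ β : σ → ℝ, rowR a l = ∑ i, β i • rowR a i → h l < ∑ i, β i * h i

end Pool.Agent.H22
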