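import Pool.Agent.H22.Trans

/-! Integration by parts against `θ^{(j)}(N) e^{-sN}`. -/

namespace Pool.Agent.H22

open MvPolynomial Finset MeasureTheory

/-- smooth cut-off: `0` for `x ≤ 1`, `1` for `x ≥ 2` -/
noncomputable def thetaF (x : ℝ) : ℝ := Real.smoothTransition (x - 1)

lemma thetaF_smooth : ContDiff ℝ (⊤ : ℕ∞) thetaF :=
  Real.smoothTransition.contDiff.comp (by fun_prop)

lemma thetaF_zero {x : ℝ} (hx : x ≤ 1) : thetaF x = 0 :=
  Real.smoothTransition.zero_of_nonpos (by linarith)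

lemma thetaF_one {x : ℝ} (hx : 2 ≤ x) : thetaF x = 1 :=
  Real.smoothTransition.one_of_one_le (by linarith)

lemma thetaF_nonneg (x : ℝ) : 0 ≤ thetaF x := Real.smoothTransition.nonneg _

lemma thetaF_le_one (x : ℝ) : thetaF x ≤ 1 := Real.smoothTransition.le_one _

/-- `η_j = θ^{(j)}` -/
noncomputable def etaF (j : ℕ) : ℝ → ℝ := iteratedDeriv j thetaF

lemma etaF_continuous (j : ℕ) : Continuous (etaF j) :=
  thetaF_smooth.continuous_iteratedDeriv j (by exact_mod_cast le_top)

lemma etaF_hasDerivAt (j : ℕ) (x : ℝ) : HasDerivAt (etaF j) (etaF (j + 1) x) x := by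
  unfold etaF
  rw [iteratedDeriv_succ]
  exact ((thetaF_smooth.differentiable_iteratedDeriv j
    (by exact_mod_cast ENat.natCast_lt_top _)) x).hasDerivAt

lemma etaF_zero_lt (j : ℕ) : ∀ x < 1, etaF j x = 0 := by
  induction j with
  | zero => intro x hx; unfold etaF; rw [iteratedDeriv_zero]; exact thetaF_zero hx.le
  | succ j ih =>
    intro x hx
    unfold etaF at *
    rw [iteratedDeriv_succ]
    have h1 : iteratedDeriv j thetaF =ᶠ[nhds x] fun _ => 0 := by
      filter_upwards [Iio_mem_nhds hx] with y hy using ih y hy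
    rw [h1.deriv_eq]; simp

lemma etaF_zero_gt (j : ℕ) (hj : 1 ≤ j) : ∀ x, 2 < x → etaF j x = 0 := by
  induction j, hj using Nat.le_induction with
  | base =>
    intro x hx
    unfold etaF
    rw [iteratedDeriv_one]
    have h1 : thetaF =ᶠ[nhds x] fun _ => 1 := by
      filter_upwards [Ioi_mem_nhds hx] with y hy using thetaF_one (le_of_lt hy)
    rw [h1.deriv_eq]; simp
  | succ j hj ih =>
    intro x hx
    unfold etaF at *
    rw [iteratedDeriv_succ]
    have h1 : iteratedDeriv j thetaF =ᶠ[nhds x] fun _ => 0 := by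
      filter_upwards [Ioi_mem_nhds hx] with y hy using ih y hy
    rw [h1.deriv_eq]; simp

lemma etaF_bound (j : ℕ) : ∃ C0 : ℝ, 0 ≤ C0 ∧ ∀ x, |etaF j x| ≤ C0 := by
  rcases Nat.eq_zero_or_pos j with hj | hj
  · refine ⟨1, zero_le_one, fun x => ?_⟩
    subst hj
    unfold etaF
    rw [iteratedDeriv_zero, abs_of_nonneg (thetaF_nonneg x)]
    exact thetaF_le_one x
  · obtain ⟨C0, hC0⟩ := (isCompact_Icc (a := (1 : ℝ)) (b := 2)).exists_bound_of_continuousOn
      (etaF_continuous j).continuousOn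
    refine ⟨max C0 0, le_max_right _ _, fun x => ?_⟩
    by_cases h1 : x < 1
    · rw [etaF_zero_lt j x h1, abs_zero]; exact le_max_right _ _
    · by_cases h2 : 2 < x
      · rw [etaF_zero_gt j hj x h2, abs_zero]; exact le_max_right _ _
      · push Not at h1 h2
        have := hC0 x ⟨h1, h2⟩
        rw [Real.norm_eq_abs] at this
        exact this.trans (le_max_left _ _)

/-- abstract algebra of the integration by parts recursion -/
lemma parts_recursion (e : ℕ) : ∃ c : ℕ → Polynomial ℂ, c 0 = Polynomial.X ^ e ∧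
    (∀ j, e < j → c j = 0) ∧
    ∀ (s : ℂ) (L : ℕ → ℕ → ℂ), (∀ j e, L j (e + 1) = s * L j e - L (j + 1) e) →
      ∀ j0, L j0 e = ∑ j ∈ Finset.range (e + 1), (c j).eval s * L (j0 + j) 0 := by
  induction e with
  | zero =>
    refine ⟨fun j => if j = 0 then 1 else 0, by simp, ?_, ?_⟩
    · intro j hj
      have : j ≠ 0 := by omega
      simp [this]
    · intro s L _ j0; simp
  | succ e ih =>
    obtain ⟨c, hc0, hcz, hc⟩ := ih
    refine ⟨fun j => Polynomial.X * c j - (if j = 0 then 0 else c (j - 1)), ?_, ?_, ?_⟩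
    · simp only [if_true, hc0, sub_zero]; ring
    · intro j hj
      have h0 : j ≠ 0 := by omega
      simp only [h0, if_false]
      rw [hcz j (by omega), hcz (j - 1) (by omega)]; simp
    · intro s L hL j0
      rw [hL j0 e, hc s L hL j0, hc s L hL (j0 + 1)]
      have h1 : ∀ j, Polynomial.eval s (Polynomial.X * c j - (if j = 0 then 0 else c (j - 1))) *
          L (j0 + j) 0 = s * ((c j).eval s * L (j0 + j) 0) -
            (if j = 0 then 0 else (c (j - 1)).eval s * L (j0 + j) 0) := by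
        intro j
        by_cases hj : j = 0
        · simp [hj]; ring
        · simp only [hj, if_false]
          rw [Polynomial.eval_sub, Polynomial.eval_mul, Polynomial.eval_X]; ring
      simp only [h1]
      rw [Finset.sum_sub_distrib]
      congr 1
      · rw [Finset.mul_sum, Finset.sum_range_succ (n := e + 1), hcz (e + 1) (by omega)]
        simp
      · rw [Finset.sum_range_succ' (n := e + 1)]
        simp only [if_true, add_zero]
        refine Finset.sum_congr rfl fun j _ => ?_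
        rw [if_neg (by omega)]
        congr 2
        ring_nf

variable {n r : ℕ}

lemma ts_global (a : Fin r → (Fin n →₀ ℕ)) (σ : Finset (Fin r)) :
    ∃ ts : Fin r → ℝ, ∑ i, ts i ≤ 0 ∧ ∀ k ∈ Fam n σ, 0 < ∑ i, bv a k i * ts i + cv k := by
  set R : ℝ := 1 + ∑ j, ∑ i, (a i j : ℝ) with hR
  have hRj : ∀ j, ∑ i, (a i j : ℝ) < R := by
    intro j
    have : ∑ i, (a i j : ℝ) ≤ ∑ j, ∑ i, (a i j : ℝ) :=
      Finset.single_le_sum (f := fun j => ∑ i, (a i j : ℝ))
        (fun _ _ => Finset.sum_nonneg fun _ _ => Nat.cast_nonneg _) (Finset.mem_univ j)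
    linarith
  have hR0 : 0 < R := by
    have : 0 ≤ ∑ j, ∑ i, (a i j : ℝ) :=
      Finset.sum_nonneg fun _ _ => Finset.sum_nonneg fun _ _ => Nat.cast_nonneg _
    linarith
  refine ⟨fun _ => -(1 / R), ?_, ?_⟩
  · apply Finset.sum_nonpos
    intro i _
    have : 0 < 1 / R := by positivity
    linarith
  · intro k hk
    rcases k with j | l | l
    · simp only [bv, cv]
      rw [← Finset.sum_mul]
      have h1 := hRj j
      have h2 : (∑ i, (a i j : ℝ)) * (1 / R) < 1 := by
        rw [mul_one_div, div_lt_one hR0]; exact h1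
      linarith
    · simp only [bv, cv]
      rw [Finset.sum_eq_single l]
      · simp; exact hR0
      · intro i _ hi; simp [hi]
      · intro h; exact absurd (Finset.mem_univ _) h
    · simp [Fam] at hk

/-- `∫ η_j(N) e^{-sN} MF(ρ^N) ((ΣX)^e) dN` -/
noncomputable def Lam (a : Fin r → (Fin n →₀ ℕ)) (σ : Finset (Fin r)) (ρ : Fin r → ℝ → ℂ)
    (s : ℝ) (j e : ℕ) : ℂ :=
  ∫ N : ℝ, ((etaF j N * Real.exp (-s * N) : ℝ) : ℂ) *
    MF (bv a) cv (Fam n σ) (trB ρ N) ((∑ i, X i) ^ e)

lemma Lam_integrable (a : Fin r → (Fin n →₀ ℕ)) (σ : Finset (Fin r)) {ρ : Fin r → ℝ → ℂ}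
    {lo hi : ℝ} (hρ : IsBump ρ lo hi) (s : ℝ) (hs : 0 < s) (g : ℝ → ℝ) (hg : Continuous g)
    (hg0 : ∀ x < 1, g x = 0) (C0 : ℝ) (hgb : ∀ x, |g x| ≤ C0) (h : MvPolynomial (Fin r) ℂ) :
    Integrable (fun N : ℝ => ((g N * Real.exp (-s * N) : ℝ) : ℂ) *
      MF (bv a) cv (Fam n σ) (trB ρ N) h) := by
  obtain ⟨ts, hts0, hts⟩ := ts_global a σ
  obtain ⟨Cb, hCb0, hCb⟩ := MF_trB_bound hρ h ts hts
  have hC00 : 0 ≤ C0 := (abs_nonneg _).trans (hgb 0)
  have hcont : Continuous (fun N : ℝ => MF (bv a) cv (Fam n σ) (trB ρ N) h) := by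
    rw [continuous_iff_continuousAt]
    intro N
    exact (MF_trB_hasDerivAt hρ h ⟨ts, hts⟩ N).continuousAt
  have hmeas : AEStronglyMeasurable (fun N : ℝ => ((g N * Real.exp (-s * N) : ℝ) : ℂ) *
      MF (bv a) cv (Fam n σ) (trB ρ N) h) volume := by
    apply Continuous.aestronglyMeasurable
    apply Continuous.mul _ hcont
    exact Complex.continuous_ofReal.comp (hg.mul (by fun_prop))
  refine Integrable.mono' (g := fun N => (C0 * Cb) * (if 0 ≤ N then Real.exp (-s * N) else 0))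
    ((integrable_exp_Ici hs).const_mul _) hmeas (Filter.Eventually.of_forall fun N => ?_)
  by_cases hN : N < 1
  · rw [hg0 N hN]
    simp only [zero_mul, Complex.ofReal_zero, norm_zero]
    split_ifs <;> positivity
  · push Not at hN
    rw [if_pos (by linarith)]
    rw [norm_mul, Complex.norm_real, Real.norm_eq_abs, abs_mul, abs_of_pos (Real.exp_pos _)]
    have h1 : Real.exp ((∑ i, ts i) * N) ≤ 1 := by
      rw [Real.exp_le_one_iff]
      nlinarith
    have h2 : ‖MF (bv a) cv (Fam n σ) (trB ρ N) h‖ ≤ Cb := by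
      refine (hCb N).trans ?_
      nlinarith
    calc |g N| * Real.exp (-s * N) * ‖MF (bv a) cv (Fam n σ) (trB ρ N) h‖
        ≤ C0 * Real.exp (-s * N) * Cb := by
          apply mul_le_mul _ h2 (norm_nonneg _) (by positivity)
          exact mul_le_mul_of_nonneg_right (hgb N) (Real.exp_pos _).le
      _ = _ := by ring

lemma Lam_rec (a : Fin r → (Fin n →₀ ℕ)) (σ : Finset (Fin r)) {ρ : Fin r → ℝ → ℂ}
    {lo hi : ℝ} (hρ : IsBump ρ lo hi) (s : ℝ) (hs : 0 < s) (j e : ℕ) :
    Lam a σ ρ s j (e + 1) = (s : ℂ) * Lam a σ ρ s j e - Lam a σ ρ s (j + 1) e := by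
  obtain ⟨ts, hts0, hts⟩ := ts_global a σ
  have hpos : PosF (bv a) cv (Fam n σ) := ⟨ts, hts⟩
  obtain ⟨C0, hC00, hC0⟩ := etaF_bound j
  obtain ⟨C1, hC10, hC1⟩ := etaF_bound (j + 1)
  unfold Lam
  set v : ℝ → ℂ := fun N => MF (bv a) cv (Fam n σ) (trB ρ N) ((∑ i, X i) ^ e) with hv
  set v' : ℝ → ℂ := fun N => MF (bv a) cv (Fam n σ) (trB ρ N) ((∑ i, X i) ^ (e + 1)) with hv'
  have hdv : ∀ N, HasDerivAt v (v' N) N := by
    intro N
    have := MF_trB_hasDerivAt hρ ((∑ i, X i) ^ e) hpos N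
    rw [← pow_succ'] at this
    exact this
  have hdu : ∀ N : ℝ, HasDerivAt (fun N : ℝ => ((etaF j N * Real.exp (-s * N) : ℝ) : ℂ))
      (((etaF (j + 1) N - s * etaF j N) * Real.exp (-s * N) : ℝ) : ℂ) N := by
    intro N
    have h1 : HasDerivAt (fun N : ℝ => Real.exp (-s * N)) (-s * Real.exp (-s * N)) N := by
      have h0 : HasDerivAt (fun u : ℝ => -s * u) (-s) N := by
        simpa using (hasDerivAt_id N).const_mul (-s)
      have := h0.exp
      rw [mul_comm] at this
      exact this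
    have h2 := ((etaF_hasDerivAt j N).mul h1).ofReal_comp
    refine h2.congr_deriv ?_
    push_cast; ring
  have i1 := Lam_integrable a σ hρ s hs (etaF j) (etaF_continuous j) (etaF_zero_lt j) C0 hC0
    ((∑ i, X i) ^ (e + 1))
  have i2 := Lam_integrable a σ hρ s hs (fun N => etaF (j + 1) N - s * etaF j N)
    ((etaF_continuous (j + 1)).sub (continuous_const.mul (etaF_continuous j)))
    (fun x hx => by rw [etaF_zero_lt _ x hx, etaF_zero_lt _ x hx]; simp) (C1 + |s| * C0)
    (fun x => by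
      refine (abs_sub _ _).trans ?_
      rw [abs_mul]
      exact add_le_add (hC1 x) (mul_le_mul_of_nonneg_left (hC0 x) (abs_nonneg _)))
    ((∑ i, X i) ^ e)
  have i3 := Lam_integrable a σ hρ s hs (etaF j) (etaF_continuous j) (etaF_zero_lt j) C0 hC0
    ((∑ i, X i) ^ e)
  have i4 := Lam_integrable a σ hρ s hs (etaF (j + 1)) (etaF_continuous (j + 1))
    (etaF_zero_lt (j + 1)) C1 hC1 ((∑ i, X i) ^ e)
  have key := integral_mul_deriv_eq_deriv_mul_of_integrable (fun N _ => hdu N) (fun N _ => hdv N)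
    i1 i2 i3
  have h5 : ∫ N : ℝ, ((etaF j N * Real.exp (-s * N) : ℝ) : ℂ) * v' N =
      -∫ N : ℝ, (((etaF (j + 1) N - s * etaF j N) * Real.exp (-s * N) : ℝ) : ℂ) * v N := key
  rw [h5, ← integral_const_mul, ← integral_sub (i3.const_mul _) i4, ← integral_neg]
  refine integral_congr_ae (Filter.Eventually.of_forall fun N => ?_)
  simp only [hv]
  push_cast
  ring

end Pool.Agent.H22

namespace Pool.Agent.H22

open MvPolynomial Finset MeasureTheory

variable {n r : ℕ}

/-- scaled bump `x ↦ ρ_i(x/lam)` -/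
noncomputable def scB (ρ : Fin r → ℝ → ℂ) (lam : ℝ) : Fin r → ℝ → ℂ := fun i x => ρ i (lam⁻¹ * x)

lemma IsBump.mono {ρ : Fin r → ℝ → ℂ} {lo hi lo' hi' : ℝ} (h : IsBump ρ lo hi)
    (h1 : lo' ≤ lo) (h2 : hi ≤ hi') : IsBump ρ lo' hi' :=
  ⟨h.smooth, fun i x hx => h.supp i x fun hx' => hx ⟨h1.trans hx'.1, hx'.2.trans h2⟩⟩

lemma scB_bump {ρ : Fin r → ℝ → ℂ} {lo hi lam : ℝ} (hlam : 0 < lam) (hρ : IsBump ρ lo hi) :
    IsBump (scB ρ lam) (lam * lo) (lam * hi) := by
  have := bump_scale (μ := lam⁻¹) (by positivity) hρ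
  have e1 : lo / lam⁻¹ = lam * lo := by field_simp
  have e2 : hi / lam⁻¹ = lam * hi := by field_simp
  rw [e1, e2] at this
  exact this

lemma conic_trB {ρ : Fin r → ℝ → ℂ} {R lam δ N : ℝ} (hlam : 0 < lam) (hR : 0 ≤ R)
    (hρ : IsBump ρ (-R) R) (hN : 1 ≤ N) (hδ : lam * R ≤ δ) :
    Conic δ (trB (scB ρ lam) N) := by
  refine ⟨N, by linarith, ?_⟩
  have h0 : 0 ≤ lam * R := by positivity
  refine (trB_bump (scB_bump hlam hρ) N).mono ?_ ?_
  · have : lam * -R = -(lam * R) := by ring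
    rw [this]; nlinarith
  · nlinarith

/-- The face sum after integration by parts. -/
theorem parts_main (a : Fin r → (Fin n →₀ ℕ))
    (b' : Polynomial ℂ) (K : ℕ) (hK : 1 ≤ K) {A : Type*} (T : Finset A) (m : A → Fin r → ℤ)
    (g : A → MvPolynomial (Fin r) ℂ)
    (hm1 : ∀ α ∈ T, ∑ i, m α i = -1)
    (hid : (Polynomial.aeval (∑ i, (X i : MvPolynomial (Fin r) ℂ)) b') * ∏ i, DDp K 0 i =
        ∑ α ∈ T, g α * (∏ j, zf a j (-(∑ i, m α i * (a i j : ℤ)))) *
          ∏ i, DDp K (m α i) i)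
    (δ : ℝ) (hδ : ∀ α ∈ T, δ * ∑ i, |(m α i : ℝ)| < 1)
    (θ : Finset (Fin r) → ℂ) (hθ : ApexInv a θ) :
    ∃ (Cp : ℕ → Polynomial ℂ) (D : ℕ), Cp 0 = b' ∧
      ∀ (s : ℝ), 0 < s → ∀ (ρ : Fin r → ℝ → ℂ) (R lam : ℝ), 0 ≤ R → IsBump ρ (-R) R → 0 < lam →
        lam * R ≤ δ →
        ∑ j ∈ Finset.range (D + 1), (Cp j).eval (s : ℂ) *
          ∑ σ : Finset (Fin r), (-1 : ℂ) ^ σ.card * θ σ * Lam a σ (scB ρ lam) s j 0 = 0 := by
  choose c hc0 hcz hc using parts_recursion
  refine ⟨fun j => ∑ e ∈ Finset.range (b'.natDegree + 1), Polynomial.C (b'.coeff e) * c e j,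
    b'.natDegree, ?_, ?_⟩
  · simp only [hc0]
    conv_rhs => rw [b'.as_sum_range_C_mul_X_pow]
  · intro s hs ρ R lam hR hρ hlam hlamδ
    have hb := scB_bump hlam hρ
    -- the integrated identity
    have h1 : ∫ N : ℝ, ((etaF 0 N * Real.exp (-s * N) : ℝ) : ℂ) *
        (∑ σ : Finset (Fin r), (-1 : ℂ) ^ σ.card * θ σ *
          MF (bv a) cv (Fam n σ) (trB (scB ρ lam) N)
            (Polynomial.aeval (∑ i, (X i : MvPolynomial (Fin r) ℂ)) b')) = 0 := by
      have : ∀ N : ℝ, ((etaF 0 N * Real.exp (-s * N) : ℝ) : ℂ) *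
        (∑ σ : Finset (Fin r), (-1 : ℂ) ^ σ.card * θ σ *
          MF (bv a) cv (Fam n σ) (trB (scB ρ lam) N)
            (Polynomial.aeval (∑ i, (X i : MvPolynomial (Fin r) ℂ)) b')) = 0 := by
        intro N
        by_cases hN : N < 1
        · rw [etaF_zero_lt 0 N hN]; simp
        · push Not at hN
          rw [face_sum a b' K hK T m g hm1 hid δ hδ _ (conic_trB hlam hR hρ hN hlamδ) θ hθ,
            mul_zero]
      simp only [this]; simp
    -- expand b'
    have hexp : ∀ (σ : Finset (Fin r)) (N : ℝ), MF (bv a) cv (Fam n σ) (trB (scB ρ lam) N)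
            (Polynomial.aeval (∑ i, (X i : MvPolynomial (Fin r) ℂ)) b') =
        ∑ e ∈ Finset.range (b'.natDegree + 1), b'.coeff e *
          MF (bv a) cv (Fam n σ) (trB (scB ρ lam) N) ((∑ i, X i) ^ e) := by
      intro σ N
      have hpos : PosF (bv a) cv (Fam n σ) := pos_global a σᶜ
      rw [Polynomial.aeval_eq_sum_range, MF_sum (trB_bump hb N) hpos]
      refine Finset.sum_congr rfl fun e _ => ?_
      rw [smul_eq_C_mul, MF_C_mul]
    have hint : ∀ (σ : Finset (Fin r)) (e : ℕ), Integrable (fun N : ℝ =>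
        ((etaF 0 N * Real.exp (-s * N) : ℝ) : ℂ) *
          MF (bv a) cv (Fam n σ) (trB (scB ρ lam) N) ((∑ i, X i) ^ e)) := by
      intro σ e
      obtain ⟨C0, _, hC0⟩ := etaF_bound 0
      exact Lam_integrable a σ hb s hs (etaF 0) (etaF_continuous 0) (etaF_zero_lt 0) C0 hC0 _
    have h2 : ∑ σ : Finset (Fin r), (-1 : ℂ) ^ σ.card * θ σ *
        ∑ e ∈ Finset.range (b'.natDegree + 1), b'.coeff e * Lam a σ (scB ρ lam) s 0 e = 0 := by
      rw [← h1]
      have h3 : ∀ N : ℝ, ((etaF 0 N * Real.exp (-s * N) : ℝ) : ℂ) *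
        (∑ σ : Finset (Fin r), (-1 : ℂ) ^ σ.card * θ σ *
          MF (bv a) cv (Fam n σ) (trB (scB ρ lam) N)
            (Polynomial.aeval (∑ i, (X i : MvPolynomial (Fin r) ℂ)) b')) =
          ∑ σ : Finset (Fin r), ∑ e ∈ Finset.range (b'.natDegree + 1),
            ((-1 : ℂ) ^ σ.card * θ σ * b'.coeff e) *
            (((etaF 0 N * Real.exp (-s * N) : ℝ) : ℂ) *
          MF (bv a) cv (Fam n σ) (trB (scB ρ lam) N) ((∑ i, X i) ^ e)) := by
        intro N
        rw [Finset.mul_sum]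
        refine Finset.sum_congr rfl fun σ _ => ?_
        rw [hexp σ N, Finset.mul_sum, Finset.mul_sum]
        refine Finset.sum_congr rfl fun e _ => ?_
        ring
      simp only [h3]
      rw [integral_finsetSum _ (fun σ _ => integrable_finsetSum _ fun e _ =>
        (hint σ e).const_mul _)]
      refine Finset.sum_congr rfl fun σ _ => ?_
      rw [integral_finsetSum _ (fun e _ => (hint σ e).const_mul _), Finset.mul_sum]
      refine Finset.sum_congr rfl fun e _ => ?_
      rw [integral_const_mul]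
      unfold Lam
      ring
    rw [← h2]
    have h4 : ∀ σ : Finset (Fin r), ∑ e ∈ Finset.range (b'.natDegree + 1),
        b'.coeff e * Lam a σ (scB ρ lam) s 0 e =
        ∑ j ∈ Finset.range (b'.natDegree + 1), (∑ e ∈ Finset.range (b'.natDegree + 1),
          Polynomial.C (b'.coeff e) * c e j).eval (s : ℂ) * Lam a σ (scB ρ lam) s j 0 := by
      intro σ
      have h5 : ∀ e ∈ Finset.range (b'.natDegree + 1), Lam a σ (scB ρ lam) s 0 e =
          ∑ j ∈ Finset.range (b'.natDegree + 1), (c e j).eval (s : ℂ) *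
            Lam a σ (scB ρ lam) s j 0 := by
        intro e he
        rw [Finset.mem_range] at he
        rw [hc e (s : ℂ) (Lam a σ (scB ρ lam) s) (fun j e => Lam_rec a σ hb s hs j e) 0]
        simp only [zero_add]
        apply Finset.sum_subset
        · intro x hx; rw [Finset.mem_range] at *; omega
        · intro x _ hx
          rw [Finset.mem_range] at hx
          rw [hcz e x (by omega)]; simp
      rw [Finset.sum_congr rfl (fun e he => by rw [h5 e he])]
      simp only [Polynomial.eval_finsetSum, Polynomial.eval_mul, Polynomial.eval_C,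
        Finset.sum_mul, Finset.mul_sum]
      rw [Finset.sum_comm]
      refine Finset.sum_congr rfl fun j _ => Finset.sum_congr rfl fun e _ => ?_
      ring
    simp only [h4]
    simp only [Finset.mul_sum]
    rw [Finset.sum_comm]
    refine Finset.sum_congr rfl fun σ _ => Finset.sum_congr rfl fun j _ => ?_
    ring

end Pool.Agent.H22

/-! Linear change of variables between spaces of real functions on finite types. -/

namespace Pool.Agent.H22

open Finset MeasureTheory

/-- relabelling of the variables -/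
lemma integral_relabel {α β : Type*} [Fintype α] [Fintype β] (e : α ≃ β) (G : (α → ℝ) → ℂ) :
    ∫ x : α → ℝ, G x = ∫ y : β → ℝ, G (fun k => y (e k)) := by
  have mp := volume_measurePreserving_piCongrLeft (fun _ : β => ℝ) e
  rw [← mp.integral_comp']
  refine integral_congr_ae (Filter.Eventually.of_forall fun τ => ?_)
  simp only
  refine congrArg G (funext fun k => ?_)
  rw [MeasurableEquiv.coe_piCongrLeft, Equiv.piCongrLeft_apply_apply]

theorem change_var {κ τ : Type*} [Fintype κ] [DecidableEq κ] [Fintype τ]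
    (A : Matrix κ τ ℝ) (e : κ ≃ τ) (hdet : (A.submatrix id e).det ≠ 0)
    (G : (κ → ℝ) → ℂ) :
    ∫ z : κ → ℝ, G z = (|(A.submatrix id e).det| : ℝ) * ∫ x : τ → ℝ, G (A.mulVec x) := by
  set M := A.submatrix id e with hM
  have hmap := Real.map_matrix_volume_pi_eq_smul_volume_pi hdet
  have hemb : MeasurableEmbedding (Matrix.toLin' M) := by
    have hunit : IsUnit M.det := isUnit_iff_ne_zero.mpr hdet
    let L : (κ → ℝ) ≃ₗ[ℝ] (κ → ℝ) := Matrix.toLin'OfInv
      (Matrix.nonsing_inv_mul M hunit) (Matrix.mul_nonsing_inv M hunit)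
    have : (Matrix.toLin' M : (κ → ℝ) → (κ → ℝ)) = L.toContinuousLinearEquiv.toHomeomorph := by
      funext x
      rfl
    rw [this]
    exact L.toContinuousLinearEquiv.toHomeomorph.measurableEmbedding
  have h1 : ∫ z, G z ∂(Measure.map (Matrix.toLin' M) volume) = ∫ y, G (Matrix.toLin' M y) :=
    hemb.integral_map G
  rw [hmap, integral_smul_measure, ENNReal.toReal_ofReal (abs_nonneg _)] at h1
  have h2 : ∫ x : τ → ℝ, G (A.mulVec x) = ∫ y : κ → ℝ, G (Matrix.toLin' M y) := by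
    rw [integral_relabel e.symm (fun x : τ → ℝ => G (A.mulVec x))]
    refine integral_congr_ae (Filter.Eventually.of_forall fun y => ?_)
    simp only
    refine congrArg G ?_
    rw [Matrix.toLin'_apply, hM]
    funext k
    simp only [Matrix.mulVec, dotProduct, Matrix.submatrix_apply, id]
    rw [← e.sum_comp]
    simp
  rw [h2, ← h1, Complex.real_smul, ← mul_assoc, ← Complex.ofReal_mul, abs_inv,
    mul_inv_cancel₀ (abs_ne_zero.mpr hdet)]
  simp

end Pool.Agent.H22

namespace Pool.Agent.H22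

open MvPolynomial Finset MeasureTheory

variable {n r : ℕ}

/-- coordinates `(ν, k)` with `ν = -N` -/
abbrev Kap (n : ℕ) := Unit ⊕ Fin n

/-- `a_i·k + ν` -/
noncomputable def ell (a : Fin r → (Fin n →₀ ℕ)) (i : Fin r) (z : Kap n → ℝ) : ℝ :=
  ∑ j, (a i j : ℝ) * z (Sum.inr j) + z (Sum.inl ())

/-- `∫_{y ≥ 0} f(x+y) dy` -/
noncomputable def Hh (f : ℝ → ℂ) (x : ℝ) : ℂ :=
  ∫ y : ℝ, ((if 0 ≤ y then 1 else 0 : ℝ) : ℂ) * f (x + y)

noncomputable def gz (η : ℝ → ℝ) (s : ℝ) (z : Kap n → ℝ) : ℝ :=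
  η (-z (Sum.inl ())) * Real.exp (s * z (Sum.inl ())) * ∏ j, expo0 (z (Sum.inr j))

noncomputable def qf (σ : Finset (Fin r)) (ρ : Fin r → ℝ → ℂ) (i : Fin r) : ℝ → ℂ :=
  if i ∈ σ then ρ i else Hh (ρ i)

lemma Hh_measurable {f : ℝ → ℂ} (hf : Continuous f) : Measurable (Hh f) := by
  unfold Hh
  have : StronglyMeasurable (Function.uncurry fun (x y : ℝ) =>
      ((if 0 ≤ y then 1 else 0 : ℝ) : ℂ) * f (x + y)) := by
    apply Measurable.stronglyMeasurable
    apply Measurable.mul
    · apply Complex.measurable_ofReal.comp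
      exact Measurable.ite (measurableSet_le measurable_const measurable_snd)
        measurable_const measurable_const
    · exact (hf.comp (continuous_fst.add continuous_snd)).measurable
  exact (this.integral_prod_right).measurable

lemma Hh_of_le {f : ℝ → ℂ} {lo hi : ℝ} (hf : ∀ x, x ∉ Set.Icc lo hi → f x = 0) {x : ℝ}
    (hx : x ≤ lo) : Hh f x = ∫ u, f u := by
  unfold Hh
  rw [← integral_add_left_eq_self f x]
  refine integral_congr_ae (Filter.Eventually.of_forall fun y => ?_)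
  simp only
  by_cases hy : 0 ≤ y
  · rw [if_pos hy]; simp
  · rw [if_neg hy, hf (x + y) (by rw [Set.mem_Icc]; push Not at hy; intro h; linarith [h.1])]
    simp

lemma Hh_of_gt {f : ℝ → ℂ} {lo hi : ℝ} (hf : ∀ x, x ∉ Set.Icc lo hi → f x = 0) {x : ℝ}
    (hx : hi < x) : Hh f x = 0 := by
  unfold Hh
  have : ∀ y : ℝ, ((if 0 ≤ y then 1 else 0 : ℝ) : ℂ) * f (x + y) = 0 := by
    intro y
    by_cases hy : 0 ≤ y
    · rw [hf (x + y) (by rw [Set.mem_Icc]; intro h; linarith [h.2])]; simp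
    · rw [if_neg hy]; simp
  simp only [this]; simp

lemma Hh_norm_le {f : ℝ → ℂ} (hf : Integrable f) (x : ℝ) : ‖Hh f x‖ ≤ ∫ u, ‖f u‖ := by
  unfold Hh
  refine (norm_integral_le_integral_norm _).trans ?_
  rw [← integral_add_left_eq_self (fun u => ‖f u‖) x]
  apply integral_mono_of_nonneg (Filter.Eventually.of_forall fun y => norm_nonneg _)
  · exact (hf.comp_add_left x).norm
  · refine Filter.Eventually.of_forall fun y => ?_
    simp only
    rw [norm_mul, Complex.norm_real]
    split_ifs <;> simp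

lemma bump_integrable {ρ : Fin r → ℝ → ℂ} {lo hi : ℝ} (hρ : IsBump ρ lo hi) (i : Fin r) :
    Integrable (ρ i) := by
  apply Continuous.integrable_of_hasCompactSupport (hρ.smooth i).continuous
  apply HasCompactSupport.of_support_subset_isCompact (isCompact_Icc (a := lo) (b := hi))
  intro x hx
  by_contra h
  exact hx (hρ.supp i x h)

lemma qf_bound (σ : Finset (Fin r)) {ρ : Fin r → ℝ → ℂ} {lo hi : ℝ} (hρ : IsBump ρ lo hi) :
    ∃ C0 : ℝ, 0 ≤ C0 ∧ ∀ i x, ‖qf σ ρ i x‖ ≤ C0 := by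
  have h1 : ∀ i, ∃ C0 : ℝ, 0 ≤ C0 ∧ ∀ x, ‖qf σ ρ i x‖ ≤ C0 := by
    intro i
    unfold qf
    by_cases hi' : i ∈ σ
    · simp only [hi', if_true]
      obtain ⟨C0, hC0⟩ := (isCompact_Icc (a := lo) (b := hi)).exists_bound_of_continuousOn
        (hρ.smooth i).continuous.continuousOn
      refine ⟨max C0 0, le_max_right _ _, fun x => ?_⟩
      by_cases hx : x ∈ Set.Icc lo hi
      · exact (hC0 x hx).trans (le_max_left _ _)
      · rw [hρ.supp i x hx, norm_zero]; exact le_max_right _ _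
    · simp only [hi', if_false]
      exact ⟨∫ u, ‖ρ i u‖, integral_nonneg fun _ => norm_nonneg _,
        fun x => Hh_norm_le (bump_integrable hρ i) x⟩
  choose C0 hC0 hC using h1
  refine ⟨∑ i, C0 i, Finset.sum_nonneg fun i _ => hC0 i, fun i x => (hC i x).trans ?_⟩
  exact Finset.single_le_sum (f := C0) (fun i _ => hC0 i) (Finset.mem_univ i)

lemma qf_measurable (σ : Finset (Fin r)) {ρ : Fin r → ℝ → ℂ} {lo hi : ℝ} (hρ : IsBump ρ lo hi)
    (i : Fin r) : Measurable (qf σ ρ i) := by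
  unfold qf
  split_ifs
  · exact (hρ.smooth i).continuous.measurable
  · exact Hh_measurable (hρ.smooth i).continuous

lemma expo0_measurable : Measurable expo0 := by
  unfold expo0
  exact Measurable.ite measurableSet_Ici (by fun_prop) measurable_const

lemma expo0_nonneg (u : ℝ) : 0 ≤ expo0 u := by
  unfold expo0; split_ifs <;> positivity

lemma expo0_integrable : Integrable expo0 := by
  have := integrable_exp_Ici (β := 1) one_pos
  unfold expo0
  simpa using this

lemma gz_measurable {η : ℝ → ℝ} (hη : Continuous η) (s : ℝ) :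
    Measurable (gz (n := n) η s) := by
  unfold gz
  apply Measurable.mul
  · apply Measurable.mul
    · exact (hη.measurable).comp ((measurable_pi_apply (Sum.inl ())).neg)
    · have h : Measurable fun z : Kap n → ℝ => z (Sum.inl ()) := measurable_pi_apply _
      exact Real.measurable_exp.comp (measurable_const.mul h)
  · apply Finset.measurable_fun_prod
    intro j _
    exact expo0_measurable.comp (measurable_pi_apply _)

/-- majorant of `gz` -/
lemma gz_bound {η : ℝ → ℝ} {C0 : ℝ} (hC : ∀ x, |η x| ≤ C0) (h0 : ∀ x < 1, η x = 0) (s : ℝ)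
    (z : Kap n → ℝ) :
    |gz η s z| ≤ C0 * ∏ k : Kap n, (Sum.elim (fun _ => fun u : ℝ => if 0 ≤ -u then
      Real.exp (-s * (-u)) else 0) (fun _ => expo0) k) (z k) := by
  have hC0 : 0 ≤ C0 := (abs_nonneg _).trans (hC 0)
  unfold gz
  rw [Fintype.prod_sum_type]
  simp only [Sum.elim_inl, Sum.elim_inr, Finset.univ_unique, Finset.prod_singleton,
    PUnit.default_eq_unit]
  rw [abs_mul, abs_mul, abs_of_pos (Real.exp_pos _),
    abs_of_nonneg (Finset.prod_nonneg fun j _ => expo0_nonneg (z (Sum.inr j))), mul_assoc]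
  by_cases hz : -z (Sum.inl ()) < 1
  · rw [h0 _ hz]
    simp only [abs_zero, zero_mul]
    apply mul_nonneg hC0
    apply mul_nonneg
    · split_ifs <;> positivity
    · exact Finset.prod_nonneg fun j _ => expo0_nonneg _
  · push Not at hz
    rw [if_pos (by linarith)]
    have : -s * (-z (Sum.inl ())) = s * z (Sum.inl ()) := by ring
    rw [this]
    apply mul_le_mul_of_nonneg_right (hC _)
    apply mul_nonneg (Real.exp_pos _).le
    exact Finset.prod_nonneg fun j _ => expo0_nonneg _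

lemma majorant_integrable {s : ℝ} (hs : 0 < s) : Integrable (fun z : Kap n → ℝ =>
    ∏ k : Kap n, (Sum.elim (fun _ => fun u : ℝ => if 0 ≤ -u then
      Real.exp (-s * (-u)) else 0) (fun _ => expo0) k) (z k)) := by
  apply Integrable.fintype_prod
  intro k
  rcases k with k | k
  · simp only [Sum.elim_inl]
    exact (integrable_exp_Ici hs).comp_neg
  · exact expo0_integrable

/-- the integrand in the `(ν,k)` coordinates -/
noncomputable def Gz (a : Fin r → (Fin n →₀ ℕ)) (σ : Finset (Fin r)) (ρ : Fin r → ℝ → ℂ)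
    (η : ℝ → ℝ) (s lam : ℝ) (z : Kap n → ℝ) : ℂ :=
  (gz η s z : ℂ) * ∏ i, qf σ ρ i (-(lam⁻¹ * ell a i z))

lemma ell_measurable (a : Fin r → (Fin n →₀ ℕ)) (i : Fin r) : Measurable (ell a i) := by
  unfold ell
  fun_prop

lemma Gz_measurable (a : Fin r → (Fin n →₀ ℕ)) (σ : Finset (Fin r)) {ρ : Fin r → ℝ → ℂ}
    {lo hi : ℝ} (hρ : IsBump ρ lo hi) {η : ℝ → ℝ} (hη : Continuous η) (s lam : ℝ) :
    Measurable (Gz a σ ρ η s lam) := by
  unfold Gz
  apply Measurable.mul
  · exact Complex.measurable_ofReal.comp (gz_measurable hη s)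
  · apply Finset.measurable_fun_prod
    intro i _
    exact (qf_measurable σ hρ i).comp (((ell_measurable a i).const_mul _).neg)

lemma Gz_integrable (a : Fin r → (Fin n →₀ ℕ)) (σ : Finset (Fin r)) {ρ : Fin r → ℝ → ℂ}
    {lo hi : ℝ} (hρ : IsBump ρ lo hi) {η : ℝ → ℝ} (hη : Continuous η) {C0 : ℝ}
    (hC : ∀ x, |η x| ≤ C0) (h0 : ∀ x < 1, η x = 0) {s : ℝ} (hs : 0 < s) (lam : ℝ) :
    Integrable (Gz a σ ρ η s lam) := by
  obtain ⟨C1, hC1, hq⟩ := qf_bound σ hρ
  refine Integrable.mono' (((majorant_integrable (n := n) hs).const_mul C0).mul_const (C1 ^ r))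
    (Gz_measurable a σ hρ hη s lam).aestronglyMeasurable
    (Filter.Eventually.of_forall fun z => ?_)
  unfold Gz
  rw [norm_mul, Complex.norm_real, Real.norm_eq_abs]
  apply mul_le_mul (gz_bound hC h0 s z) _ (norm_nonneg _)
    ((abs_nonneg _).trans (gz_bound hC h0 s z))
  rw [norm_prod]
  calc ∏ i, ‖qf σ ρ i (-(lam⁻¹ * ell a i z))‖ ≤ ∏ _i : Fin r, C1 :=
        Finset.prod_le_prod (fun i _ => norm_nonneg _) (fun i _ => hq i _)
    _ = C1 ^ r := by simp

lemma Hh_scale {f : ℝ → ℂ} {lam : ℝ} (hlam : 0 < lam) (x : ℝ) :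
    ∫ y : ℝ, ((if 0 ≤ y then 1 else 0 : ℝ) : ℂ) * f (lam⁻¹ * (x + y)) =
      (lam : ℂ) * Hh f (lam⁻¹ * x) := by
  unfold Hh
  have h1 := Measure.integral_comp_mul_left
    (fun y : ℝ => ((if 0 ≤ y then 1 else 0 : ℝ) : ℂ) * f (lam⁻¹ * x + y)) lam⁻¹
  rw [inv_inv, abs_of_pos hlam] at h1
  have h2 : ∀ y : ℝ, ((if 0 ≤ lam⁻¹ * y then 1 else 0 : ℝ) : ℂ) *
      f (lam⁻¹ * x + lam⁻¹ * y) = ((if 0 ≤ y then 1 else 0 : ℝ) : ℂ) * f (lam⁻¹ * (x + y)) := by
    intro y
    have h3 : (0 ≤ lam⁻¹ * y) ↔ (0 ≤ y) := by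
      constructor
      · intro h; exact nonneg_of_mul_nonneg_right h (by positivity)
      · intro h; positivity
    rw [mul_add]
    by_cases hy : 0 ≤ y
    · rw [if_pos (h3.mpr hy), if_pos hy]
    · rw [if_neg (fun h => hy (h3.mp h)), if_neg hy]
  simp only [h2] at h1
  rw [h1, Complex.real_smul]

/-- `Lam` in the `(ν,k)` coordinates. -/
theorem Lam_eq (a : Fin r → (Fin n →₀ ℕ)) (σ : Finset (Fin r)) {ρ : Fin r → ℝ → ℂ}
    {lo hi : ℝ} (hρ : IsBump ρ lo hi) {s : ℝ} (hs : 0 < s) (j : ℕ) {lam : ℝ} (hlam : 0 < lam) :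
    Lam a σ (scB ρ lam) s j 0 =
      (lam : ℂ) ^ (σᶜ).card * ∫ z : Kap n → ℝ, Gz a σ ρ (etaF j) s lam z := by
  obtain ⟨C0, _, hC0⟩ := etaF_bound j
  rw [integral_sum_pi _ (Gz_integrable a σ hρ (etaF_continuous j) hC0 (etaF_zero_lt j) hs lam)]
  have hunit : ∀ F : (Unit → ℝ) → ℂ, ∫ u : Unit → ℝ, F u = ∫ ν : ℝ, F (fun _ => ν) := by
    intro F
    have mp := (volume_preserving_funUnique Unit ℝ).symm
    rw [← mp.integral_comp' F]
    refine integral_congr_ae (Filter.Eventually.of_forall fun ν => ?_)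
    simp only
    refine congrArg F (funext fun k => ?_)
    simp [MeasurableEquiv.funUnique]
  rw [hunit, ← integral_neg_eq_self, ← integral_const_mul]
  unfold Lam
  refine integral_congr_ae (Filter.Eventually.of_forall fun N => ?_)
  simp only
  rw [pow_zero, MF_Fam a σ _ (trB_bump (scB_bump hlam hρ) N), ← integral_const_mul,
    ← integral_const_mul]
  refine integral_congr_ae (Filter.Eventually.of_forall fun k => ?_)
  simp only [Gz, gz, Sum.elim_inl, Sum.elim_inr, neg_neg]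
  have h1 : (∏ i, (if i ∈ σ then trB (scB ρ lam) N i (-(∑ j, k j * (a i j : ℝ))) else
        ∫ y : ℝ, ((if 0 ≤ y then 1 else 0 : ℝ) : ℂ) *
          trB (scB ρ lam) N i (-(∑ j, k j * (a i j : ℝ)) + y))) =
      (lam : ℂ) ^ (σᶜ).card * ∏ i, qf σ ρ i (-(lam⁻¹ * ell a i (Sum.elim (fun _ => -N) k))) := by
    have h2 : (lam : ℂ) ^ (σᶜ).card = ∏ i, (if i ∈ σ then (1 : ℂ) else (lam : ℂ)) := by
      rw [Finset.prod_ite]
      simp only [Finset.prod_const_one, one_mul, Finset.prod_const]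
      congr 2
      ext i; simp
    rw [h2, ← Finset.prod_mul_distrib]
    refine Finset.prod_congr rfl fun i _ => ?_
    have h3 : -(lam⁻¹ * ell a i (Sum.elim (fun _ => -N) k)) =
        lam⁻¹ * (-(∑ j, k j * (a i j : ℝ)) + N) := by
      unfold ell
      simp only [Sum.elim_inl, Sum.elim_inr]
      have : ∑ j, (a i j : ℝ) * k j = ∑ j, k j * (a i j : ℝ) :=
        Finset.sum_congr rfl fun j _ => mul_comm _ _
      rw [this]; ring
    rw [h3]
    unfold qf trB scB
    by_cases hi' : i ∈ σ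
    · simp only [hi', if_true, one_mul]
    · simp only [hi', if_false]
      rw [← Hh_scale hlam]
      refine integral_congr_ae (Filter.Eventually.of_forall fun y => ?_)
      simp only
      congr 3
      ring
  rw [h1]
  push_cast
  have h4 : s * -N = -s * N := by ring
  have h5 : (s : ℂ) * -(N : ℂ) = -(s : ℂ) * N := by ring
  rw [h5]
  ring

end Pool.Agent.H22

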