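import Pool.Agent.H22.G1
import Pool.Agent.H22.GDefs
import Pool.Agent.H22.Lim1

/-! Generic heights, bumps and limits for an arbitrary support. -/

namespace Pool.Agent.H22

open MvPolynomial Finset MeasureTheory Filter Topology

variable {n r : ℕ}

lemma rowR_eq (a : Fin r → (Fin n →₀ ℕ)) (i : Fin r) :
    rowR a i = algebraMap ℤ ℝ ∘ homRow a i := by
  funext k
  rcases k with k | k <;> simp [rowR, homRow]

lemma rows_indep_iff (a : Fin r → (Fin n →₀ ℕ)) (σ : Finset (Fin r)) :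
    LinearIndependent ℝ (fun i : σ => rowR a i) ↔ LinearIndependent ℤ (fun i : σ => homRow a i) := by
  rw [← linearIndependent_algebraMap_comp_iff (R := ℤ) (S := ℝ)]
  simp only [rowR_eq]

/-- `v` is an integral relation between the vectors `(1, a_i)` -/
def IsRel (a : Fin r → (Fin n →₀ ℕ)) (v : Fin r → ℤ) : Prop :=
  ∑ i, v i = 0 ∧ ∀ j, ∑ i, v i * (a i j : ℤ) = 0

lemma isRel_iff (a : Fin r → (Fin n →₀ ℕ)) (v : Fin r → ℤ) :
    IsRel a v ↔ ∑ i, v i • homRow a i = 0 := by
  constructor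
  · rintro ⟨h1, h2⟩
    funext k
    rcases k with k | k
    · simpa [homRow] using h1
    · simpa [homRow] using h2 k
  · intro h
    refine ⟨?_, fun j => ?_⟩
    · have := congrFun h (Sum.inl ())
      simpa [homRow] using this
    · have := congrFun h (Sum.inr j)
      simpa [homRow] using this

lemma IsRel.ell {a : Fin r → (Fin n →₀ ℕ)} {v : Fin r → ℤ} (hv : IsRel a v) (z : Kap n → ℝ) :
    ∑ i, (v i : ℝ) * ell a i z = 0 := by
  unfold Pool.Agent.H22.ell
  simp only [mul_add, Finset.sum_add_distrib, Finset.mul_sum]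
  rw [Finset.sum_comm]
  have h1 : ∀ j : Fin n, ∑ i, (v i : ℝ) * ((a i j : ℝ) * z (Sum.inr j)) = 0 := by
    intro j
    have h2 : ∑ i, (v i : ℝ) * ((a i j : ℝ) * z (Sum.inr j)) =
        ((∑ i, v i * (a i j : ℤ) : ℤ) : ℝ) * z (Sum.inr j) := by
      push_cast
      rw [Finset.sum_mul]
      exact Finset.sum_congr rfl fun i _ => by ring
    rw [h2, hv.2 j]; simp
  simp only [h1, Finset.sum_const_zero, zero_add]
  rw [← Finset.sum_mul]
  have h3 : ∑ i, (v i : ℝ) = ((∑ i, v i : ℤ) : ℝ) := by push_cast; rfl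
  rw [h3, hv.1]; simp

lemma IsRel.weight {a : Fin r → (Fin n →₀ ℕ)} {v : Fin r → ℤ} (hv : IsRel a v) :
    ∑ i, (v i : ℝ) * (∑ j, (a i j : ℝ)) = 0 := by
  simp only [Finset.mul_sum]
  rw [Finset.sum_comm]
  apply Finset.sum_eq_zero
  intro j _
  have h2 : ∑ i, (v i : ℝ) * (a i j : ℝ) = ((∑ i, v i * (a i j : ℤ) : ℤ) : ℝ) := by
    push_cast; rfl
  rw [h2, hv.2 j]; simp

lemma height_ne {h' : Fin r → ℝ} (hh : LinearIndependent ℚ h') {v : Fin r → ℤ} (hv : v ≠ 0) :
    ∑ i, (v i : ℝ) * h' i ≠ 0 := by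
  intro h0
  apply hv
  have h1 := Fintype.linearIndependent_iff.mp hh (fun i => (v i : ℚ)) (by
    rw [← h0]
    refine Finset.sum_congr rfl fun i _ => ?_
    rw [Rat.smul_def]
    push_cast; rfl)
  funext i
  have := h1 i
  exact_mod_cast this

/-- an integral relation supported on a dependent family -/
lemma exists_rel_of_dep {a : Fin r → (Fin n →₀ ℕ)} {σ : Finset (Fin r)}
    (h : ¬ LinearIndependent ℤ (fun i : σ => homRow a i)) :
    ∃ v : Fin r → ℤ, v ≠ 0 ∧ IsRel a v ∧ ∀ i ∉ σ, v i = 0 := by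
  classical
  rw [Fintype.not_linearIndependent_iff] at h
  obtain ⟨g, hg, i0, hi0⟩ := h
  refine ⟨fun i => if hi : i ∈ σ then g ⟨i, hi⟩ else 0, ?_, ?_, fun i hi => by simp [hi]⟩
  · intro h0
    apply hi0
    have := congrFun h0 i0
    simpa using this
  · rw [isRel_iff, ← hg, ← Finset.sum_subset (Finset.subset_univ σ), ← Finset.sum_coe_sort]
    · exact Finset.sum_congr rfl fun i _ => by simp
    · intro i _ hi; simp [hi]

/-- coefficients of a vector `(1,a_l)` in an independent family are rational -/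
lemma exists_rel_of_span {a : Fin r → (Fin n →₀ ℕ)} {σ : Finset (Fin r)}
    (hσ : LinearIndependent ℤ (fun i : σ => homRow a i)) {l : Fin r} (hl : l ∉ σ) (β : σ → ℝ)
    (hβ : rowR a l = ∑ i, β i • rowR a i) :
    ∃ v : Fin r → ℤ, v l ≠ 0 ∧ IsRel a v ∧ (∀ i ∉ σ, i ≠ l → v i = 0) ∧
      ∀ i : σ, (v i : ℝ) = -(v l : ℝ) * β i := by
  classical
  have hdep : ¬ LinearIndependent ℤ (fun i : (insert l σ : Finset (Fin r)) => homRow a i) := by
    rw [← rows_indep_iff]
    intro hind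
    rw [Fintype.linearIndependent_iff] at hind
    have := hind (fun i => if h : (i : Fin r) ∈ σ then β ⟨i, h⟩ else -1) (by
      rw [Finset.univ_eq_attach, Finset.sum_attach (insert l σ)
        (fun i => (if h : i ∈ σ then β ⟨i, h⟩ else -1) • rowR a i),
        Finset.sum_insert hl, dif_neg hl, ← Finset.sum_coe_sort, hβ]
      simp only [neg_smul, one_smul]
      rw [neg_add_eq_zero]
      exact Finset.sum_congr rfl fun i _ => by simp) ⟨l, Finset.mem_insert_self _ _⟩
    simp [hl] at this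
  obtain ⟨v, hv0, hv, hvs⟩ := exists_rel_of_dep hdep
  have hsplit : ∀ (E : Type) [AddCommGroup E] [Module ℤ E] (f : Fin r → E),
      ∑ i, v i • f i = v l • f l + ∑ i : σ, v i • f i := by
    intro E _ _ f
    rw [← Finset.sum_subset (Finset.subset_univ (insert l σ)), Finset.sum_insert hl,
      ← Finset.sum_coe_sort σ]
    intro i _ hi
    rw [hvs i hi, zero_smul]
  have hrel := (isRel_iff a v).mp hv
  rw [hsplit] at hrel
  have hvl : v l ≠ 0 := by
    intro h0
    rw [h0, zero_smul, zero_add] at hrel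
    have h1 := Fintype.linearIndependent_iff.mp hσ (fun i => v i) hrel
    apply hv0
    funext i
    by_cases hi : i ∈ insert l σ
    · rcases Finset.mem_insert.mp hi with rfl | hi
      · exact h0
      · exact h1 ⟨i, hi⟩
    · exact hvs i hi
  refine ⟨v, hvl, hv, fun i hi hil => hvs i (by
    rw [Finset.mem_insert]; tauto), ?_⟩
  -- compare coefficients
  have hreal : (v l : ℝ) • rowR a l + ∑ i : σ, (v i : ℝ) • rowR a i = 0 := by
    funext k
    have := congrFun hrel k
    simp only [Pi.add_apply, Pi.smul_apply, Finset.sum_apply, smul_eq_mul, Pi.zero_apply] at this ⊢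
    simp only [rowR_eq, Function.comp]
    have h2 : ((v l * homRow a l k + ∑ i : σ, v i * homRow a i k : ℤ) : ℝ) = ((0 : ℤ) : ℝ) := by
      rw [this]
    push_cast at h2
    simpa using h2
  rw [hβ, Finset.smul_sum, ← Finset.sum_add_distrib] at hreal
  have h3 : ∑ i : σ, ((v l : ℝ) * β i + (v i : ℝ)) • rowR a i = 0 := by
    rw [← hreal]
    exact Finset.sum_congr rfl fun i _ => by rw [add_smul, mul_smul]
  have h4 := Fintype.linearIndependent_iff.mp ((rows_indep_iff a σ).mpr hσ) _ h3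
  intro i
  have := h4 i
  linarith

/-- the small number `δ` -/
lemma exists_delta {h' : Fin r → ℝ} (V : Finset (Fin r → ℤ))
    (hV : ∀ v ∈ V, ∑ i, (v i : ℝ) * h' i ≠ 0) :
    ∃ δ : ℝ, 0 < δ ∧ δ ≤ 1 ∧ ∀ v ∈ V, δ * ∑ i, |(v i : ℝ)| < |∑ i, (v i : ℝ) * h' i| := by
  classical
  induction V using Finset.induction_on with
  | empty => exact ⟨1, one_pos, le_rfl, by simp⟩
  | insert v V hv ih =>
    obtain ⟨δ, hδ0, hδ1, hδ⟩ := ih fun v hv => hV v (Finset.mem_insert_of_mem hv)
    have hv0 : 0 < |∑ i, (v i : ℝ) * h' i| := abs_pos.mpr (hV v (Finset.mem_insert_self _ _))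
    have hS0 : 0 ≤ ∑ i, |(v i : ℝ)| := Finset.sum_nonneg fun _ _ => abs_nonneg _
    set δ2 := |∑ i, (v i : ℝ) * h' i| / (1 + ∑ i, |(v i : ℝ)|) with hδ2
    have hδ2pos : 0 < δ2 := by positivity
    refine ⟨min δ δ2, lt_min hδ0 hδ2pos, (min_le_left _ _).trans hδ1, fun w hw => ?_⟩
    rcases Finset.mem_insert.mp hw with rfl | hw
    · calc min δ δ2 * ∑ i, |(w i : ℝ)| ≤ δ2 * ∑ i, |(w i : ℝ)| :=
            mul_le_mul_of_nonneg_right (min_le_right _ _) hS0
        _ < δ2 * (1 + ∑ i, |(w i : ℝ)|) := by nlinarith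
        _ = _ := by rw [hδ2]; field_simp
    · have hw0 : 0 ≤ ∑ i, |(w i : ℝ)| := Finset.sum_nonneg fun _ _ => abs_nonneg _
      exact lt_of_le_of_lt (mul_le_mul_of_nonneg_right (min_le_left _ _) hw0) (hδ w hw)

/-- the box property of the scaled and translated bumps -/
lemma boxB_trB {M : Set (Fin r → ℝ)} {ρ : Fin r → ℝ → ℂ} {H : Fin r → ℝ} {δ lam : ℝ}
    (hsm : ∀ i, ContDiff ℝ (⊤ : ℕ∞) (ρ i))
    (hz : ∀ i x, x ∉ Set.Icc (-(H i) - δ) (-(H i) + δ) → ρ i x = 0) (hlam : 0 < lam)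
    (hM : ∀ m ∈ M, (∑ i, m i ≤ -1 ∧ lam * (|∑ i, m i * H i| + δ * ∑ i, |m i|) < 1) ∨
      (∑ i, m i = 0 ∧ ∑ i, m i * H i + δ * ∑ i, |m i| < 0)) {N : ℝ} (hN : 1 ≤ N) :
    BoxB M (trB (scB ρ lam) N) := by
  refine ⟨fun i => -N - lam * (H i + δ), fun i => -N - lam * (H i - δ), fun i => ?_, ?_, ?_⟩
  · exact (hsm i).comp (by fun_prop)
  · intro i x hx
    unfold trB scB
    apply hz
    intro h
    apply hx
    rw [Set.mem_Icc] at h ⊢
    have h1 : lam * (lam⁻¹ * (x + N)) = x + N := by field_simp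
    constructor
    · nlinarith [mul_le_mul_of_nonneg_left h.1 hlam.le]
    · nlinarith [mul_le_mul_of_nonneg_left h.2 hlam.le]
  · intro m hm x hx
    set ξ : Fin r → ℝ := fun i => -(x i + N + lam * H i) with hξ
    have hξb : ∀ i, |ξ i| ≤ lam * δ := by
      intro i
      have := hx i
      rw [Set.mem_Icc] at this
      rw [abs_le]
      constructor <;> simp only [hξ] <;> nlinarith [this.1, this.2]
    have h1 : ∑ i, m i * x i = -N * ∑ i, m i - lam * ∑ i, m i * H i - ∑ i, m i * ξ i := by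
      simp only [Finset.mul_sum]
      rw [← Finset.sum_sub_distrib, ← Finset.sum_sub_distrib]
      refine Finset.sum_congr rfl fun i _ => ?_
      simp only [hξ]; ring
    have h2 : |∑ i, m i * ξ i| ≤ (∑ i, |m i|) * (lam * δ) := by
      refine (Finset.abs_sum_le_sum_abs _ _).trans ?_
      rw [Finset.sum_mul]
      refine Finset.sum_le_sum fun i _ => ?_
      rw [abs_mul]
      exact mul_le_mul_of_nonneg_left (hξb i) (abs_nonneg _)
    have h3 := le_abs_self (∑ i, m i * ξ i)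
    rw [h1]
    rcases hM m hm with ⟨h4, h5⟩ | ⟨h4, h5⟩
    · have h6 := le_abs_self (∑ i, m i * H i)
      have h7 : lam * ∑ i, m i * H i ≤ lam * |∑ i, m i * H i| :=
        mul_le_mul_of_nonneg_left h6 hlam.le
      nlinarith
    · rw [h4]
      have h7 : 0 < lam * -(∑ i, m i * H i + δ * ∑ i, |m i|) := by
        apply mul_pos hlam; linarith
      nlinarith

end Pool.Agent.H22
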