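import Pool.Agent.H22.G2
import Pool.Agent.H22.G4
import Pool.Agent.H22.Cones

/-! The limit of the functional for faces whose span contains further exponents. -/

namespace Pool.Agent.H22

open MvPolynomial Finset MeasureTheory Filter Topology

variable {n r : ℕ}

lemma ell_scx_flat (a : Fin r → (Fin n →₀ ℕ)) {σ : Finset (Fin r)} {d : ℕ}
    (A : Matrix (Kap n) (Fin d ⊕ σ) ℝ) {l : Fin r}
    (h : ∀ c, ell a l (fun z => A z (Sum.inl c)) = 0) (lam : ℝ) (x : Fin d ⊕ σ → ℝ) :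
    ell a l (A.mulVec (scx lam x)) =
      lam * ∑ i : σ, ell a l (fun z => A z (Sum.inr i)) * x (Sum.inr i) := by
  rw [ell_mulVec, Fintype.sum_sum_type]
  simp only [h, zero_mul, Finset.sum_const_zero, zero_add, scx, Sum.elim_inr]
  rw [Finset.mul_sum]
  exact Finset.sum_congr rfl fun i _ => by ring

lemma Gz_tendstoG (a : Fin r → (Fin n →₀ ℕ)) {σ : Finset (Fin r)} {d : ℕ}
    {A : Matrix (Kap n) (Fin d ⊕ σ) ℝ} (hA : Adm a σ A) {ρ : Fin r → ℝ → ℂ} {R : ℝ}
    (hρ : IsBump ρ (-R) R) (hint : ∀ i, ∫ u, ρ i u = 1) {η : ℝ → ℝ} (hη : Continuous η) (s : ℝ)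
    (hpos : ∀ j : Fin n, (∀ c, A (Sum.inr j) (Sum.inl c) = 0) → ∀ x : Fin d ⊕ σ → ℝ,
      (∀ i : σ, ρ i (-(x (Sum.inr i))) ≠ 0) → 0 ≤ ∑ i : σ, A (Sum.inr j) (Sum.inr i) * x (Sum.inr i))
    (ε : Fin r → ℂ)
    (hε1 : ∀ l ∉ σ, (∃ c, ell a l (fun z => A z (Sum.inl c)) ≠ 0) → ε l = 1)
    (hε2 : ∀ l ∉ σ, (∀ c, ell a l (fun z => A z (Sum.inl c)) = 0) → ∀ x : Fin d ⊕ σ → ℝ,
      (∀ i : σ, ρ i (-(x (Sum.inr i))) ≠ 0) →
      Hh (ρ l) (-(∑ i : σ, ell a l (fun z => A z (Sum.inr i)) * x (Sum.inr i))) = ε l)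
    (x : Fin d ⊕ σ → ℝ)
    (hx1 : ∀ j : Fin n, (∀ c, A (Sum.inr j) (Sum.inl c) = 0) ∨
      (A.mulVec (Sum.elim (fun c => x (Sum.inl c)) 0)) (Sum.inr j) ≠ 0)
    (hx2 : ∀ l ∉ σ, (∃ c, ell a l (fun z => A z (Sum.inl c)) ≠ 0) →
      ell a l (A.mulVec (Sum.elim (fun c => x (Sum.inl c)) 0)) ≠ 0) :
    Tendsto (fun lam => Gz a σ ρ η s lam (A.mulVec (scx lam x))) (𝓝[>] 0)
      (𝓝 ((∏ l ∈ σᶜ, ε l) * G0 a σ A ρ η s x)) := by
  have hself : ∀ᶠ lam : ℝ in 𝓝[>] 0, 0 < lam := self_mem_nhdsWithin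
  by_cases hz : ∃ i : σ, ρ i (-(x (Sum.inr i))) = 0
  · obtain ⟨i, hi⟩ := hz
    have h0 : ∏ i : σ, ρ i (-(x (Sum.inr i))) = 0 := Finset.prod_eq_zero (Finset.mem_univ i) hi
    have h1 : G0 a σ A ρ η s x = 0 := by unfold G0; rw [h0, mul_zero]
    rw [h1, mul_zero]
    refine tendsto_const_nhds.congr' ?_
    filter_upwards [hself] with lam hlam
    rw [Gz_scx a hA ρ η s hlam, h0, mul_zero]
  · push Not at hz
    have hev : (fun lam => (gz η s (A.mulVec (scx lam x)) : ℂ) *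
        (∏ l ∈ σᶜ, Hh (ρ l) (-(lam⁻¹ * ell a l (A.mulVec (scx lam x))))) *
        ∏ i : σ, ρ i (-(x (Sum.inr i)))) =ᶠ[𝓝[>] 0]
        (fun lam => Gz a σ ρ η s lam (A.mulVec (scx lam x))) := by
      filter_upwards [hself] with lam hlam
      rw [Gz_scx a hA ρ η s hlam]
    refine Tendsto.congr' hev ?_
    unfold G0
    rw [← mul_assoc]
    refine Tendsto.mul ?_ tendsto_const_nhds
    have hT : (∏ l ∈ σᶜ, ε l) * (((Tk a σ A η s (fun c => x (Sum.inl c)) : ℝ) : ℂ) *
        (∏ l ∈ σᶜ, ∫ u, ρ l u)) =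
        ((gz η s (A.mulVec (Sum.elim (fun c => x (Sum.inl c)) 0)) : ℝ) : ℂ) *
        ∏ l ∈ σᶜ, (if 0 ≤ ell a l (A.mulVec (Sum.elim (fun c => x (Sum.inl c)) 0)) then
          ε l else 0) := by
      simp only [hint, Finset.prod_const_one, mul_one]
      unfold Tk
      push_cast
      rw [mul_left_comm, ← Finset.prod_mul_distrib]
      congr 1
      refine Finset.prod_congr rfl fun l _ => ?_
      split_ifs <;> simp
    rw [hT]
    refine Tendsto.mul ?_ (tendsto_finsetProd _ fun l hl => ?_)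
    · refine (Complex.continuous_ofReal.tendsto _).comp ?_
      unfold gz
      refine Tendsto.mul (Tendsto.mul ?_ ?_) (tendsto_finsetProd _ fun j _ => ?_)
      · exact (hη.tendsto _).comp (mulVec_scx_tendsto A x (Sum.inl ())).neg
      · exact (Real.continuous_exp.tendsto _).comp
          ((mulVec_scx_tendsto A x (Sum.inl ())).const_mul s)
      · refine expo0_tendsto (mulVec_scx_tendsto A x (Sum.inr j)) ?_
        rcases hx1 j with h | h
        · right
          filter_upwards [hself] with lam hlam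
          rw [mulVec_scx]
          have h2 : (A.mulVec (Sum.elim (fun c => x (Sum.inl c)) 0)) (Sum.inr j) = 0 := by
            simp [Matrix.mulVec, dotProduct, h]
          rw [h2, zero_add]
          exact mul_nonneg hlam.le (hpos j h x hz)
        · left; exact h
    · have hl' := Finset.mem_compl.mp hl
      by_cases hflat : ∀ c, ell a l (fun z => A z (Sum.inl c)) = 0
      · have h0 : ell a l (A.mulVec (Sum.elim (fun c => x (Sum.inl c)) 0)) = 0 := by
          rw [ell_mulVec, Fintype.sum_sum_type]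
          simp [hflat]
        rw [if_pos h0.ge]
        refine tendsto_const_nhds.congr' ?_
        filter_upwards [hself] with lam hlam
        rw [ell_scx_flat a A hflat, ← mul_assoc, inv_mul_cancel₀ hlam.ne', one_mul]
        exact (hε2 l hl' hflat x hz).symm
      · push Not at hflat
        have hε := hε1 l hl' hflat
        rw [hε]
        have hell : Tendsto (fun lam : ℝ => ell a l (A.mulVec (scx lam x))) (𝓝[>] 0)
            (𝓝 (ell a l (A.mulVec (Sum.elim (fun c => x (Sum.inl c)) 0)))) := by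
          unfold ell
          exact (tendsto_finsetSum _ fun j _ => (mulVec_scx_tendsto A x _).const_mul _).add
            (mulVec_scx_tendsto A x _)
        have hinv : Tendsto (fun lam : ℝ => lam⁻¹) (𝓝[>] 0) atTop := tendsto_inv_nhdsGT_zero
        rcases lt_or_gt_of_ne (hx2 l hl' hflat) with h | h
        · rw [if_neg (by linarith)]
          have h2 := (hinv.atTop_mul_neg h hell)
          refine tendsto_const_nhds.congr' ?_
          filter_upwards [h2.eventually (eventually_lt_atBot (-R))] with lam hlam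
          rw [Hh_of_gt (hρ.supp l) (by linarith)]
        · rw [if_pos h.le]
          have h2 := (hinv.atTop_mul_pos h hell)
          refine tendsto_const_nhds.congr' ?_
          filter_upwards [h2.eventually (eventually_ge_atTop R)] with lam hlam
          rw [Hh_of_le (hρ.supp l) (by linarith), hint]

/-- The limit of the functionals. -/
theorem Lam_tendstoG (a : Fin r → (Fin n →₀ ℕ)) {σ : Finset (Fin r)} {d : ℕ}
    {A : Matrix (Kap n) (Fin d ⊕ σ) ℝ} (e : Kap n ≃ Fin d ⊕ σ)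
    (hdet : (A.submatrix id e).det ≠ 0) (hA : Adm a σ A)
    {ρ : Fin r → ℝ → ℂ} {R : ℝ} (hρ : IsBump ρ (-R) R) {s : ℝ} (hs : 0 < s) (j : ℕ)
    (hpos : ∀ j : Fin n, (∀ c, A (Sum.inr j) (Sum.inl c) = 0) → ∀ x : Fin d ⊕ σ → ℝ,
      (∀ i : σ, ρ i (-(x (Sum.inr i))) ≠ 0) →
        0 ≤ ∑ i : σ, A (Sum.inr j) (Sum.inr i) * x (Sum.inr i))
    (hint : ∀ i, ∫ u, ρ i u = 1)
    (ε : Fin r → ℂ)
    (hε1 : ∀ l ∉ σ, (∃ c, ell a l (fun z => A z (Sum.inl c)) ≠ 0) → ε l = 1)
    (hε2 : ∀ l ∉ σ, (∀ c, ell a l (fun z => A z (Sum.inl c)) = 0) → ∀ x : Fin d ⊕ σ → ℝ,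
      (∀ i : σ, ρ i (-(x (Sum.inr i))) ≠ 0) →
      Hh (ρ l) (-(∑ i : σ, ell a l (fun z => A z (Sum.inr i)) * x (Sum.inr i))) = ε l) :
    Tendsto (fun lam : ℝ => ((lam : ℂ) ^ r)⁻¹ * Lam a σ (scB ρ lam) s j 0) (𝓝[>] 0)
      (𝓝 ((∏ l ∈ σᶜ, ε l) *
        ((|(A.submatrix id e).det| * ∫ p : Fin d → ℝ, Tk a σ A (etaF j) s p : ℝ) : ℂ))) := by
  obtain ⟨C0, hC00, hC0⟩ := etaF_bound j
  have hself : ∀ᶠ lam : ℝ in 𝓝[>] 0, 0 < lam := self_mem_nhdsWithin
  obtain ⟨ε', C1, hε', hC1, hb⟩ := Gz_adm_bound a hρ hC0 (etaF_zero_lt j) hs A e hdet hA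
  -- almost every point is good
  have hgood : ∀ᵐ x : Fin d ⊕ σ → ℝ,
      (∀ j : Fin n, (∀ c, A (Sum.inr j) (Sum.inl c) = 0) ∨
        (A.mulVec (Sum.elim (fun c => x (Sum.inl c)) 0)) (Sum.inr j) ≠ 0) ∧
      (∀ l ∉ σ, (∃ c, ell a l (fun z => A z (Sum.inl c)) ≠ 0) →
        ell a l (A.mulVec (Sum.elim (fun c => x (Sum.inl c)) 0)) ≠ 0) := by
    rw [Filter.eventually_and]
    constructor
    · rw [ae_all_iff]
      intro j
      by_cases h : ∀ c, A (Sum.inr j) (Sum.inl c) = 0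
      · exact Filter.Eventually.of_forall fun x => Or.inl h
      · push Not at h
        obtain ⟨c, hc⟩ := h
        have hB : (Sum.elim (fun c => A (Sum.inr j) (Sum.inl c)) 0 : Fin d ⊕ σ → ℝ) ≠ 0 := by
          intro h0
          exact hc (congrFun h0 (Sum.inl c))
        filter_upwards [ae_form_ne _ hB] with x hx
        right
        intro h0
        apply hx
        rw [← h0]
        simp [Matrix.mulVec, dotProduct]
    · rw [ae_all_iff]
      intro l
      by_cases hl : l ∉ σ ∧ ∃ c, ell a l (fun z => A z (Sum.inl c)) ≠ 0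
      · obtain ⟨_, c, hc⟩ := hl
        have hB : (Sum.elim (fun c => ell a l (fun z => A z (Sum.inl c))) 0 :
            Fin d ⊕ σ → ℝ) ≠ 0 := by
          intro h0
          exact hc (congrFun h0 (Sum.inl c))
        filter_upwards [ae_form_ne _ hB] with x hx _ _
        rw [ell_mulVec]
        intro h0
        apply hx
        rw [← h0]
        simp
      · exact Filter.Eventually.of_forall fun x h h' => absurd ⟨h, h'⟩ hl
  have hlim : Tendsto (fun lam : ℝ => ∫ x : Fin d ⊕ σ → ℝ,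
      Gz a σ ρ (etaF j) s lam (A.mulVec (scx lam x))) (𝓝[>] 0)
      (𝓝 (∫ x : Fin d ⊕ σ → ℝ, (∏ l ∈ σᶜ, ε l) * G0 a σ A ρ (etaF j) s x)) := by
    refine tendsto_integral_filter_of_dominated_convergence (fun x => C1 * bndF σ ε' R x)
      ?_ ?_ ((bndF_integrable σ hε' R).const_mul _) ?_
    · filter_upwards with lam
      exact ((Gz_measurable a σ hρ (etaF_continuous j) s lam).comp
        ((continuous_mulVec' A).comp (continuous_scx lam)).measurable).aestronglyMeasurable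
    · filter_upwards [hself] with lam hlam
      exact Filter.Eventually.of_forall fun x => hb lam hlam x
    · filter_upwards [hgood] with x hx
      exact Gz_tendstoG a hA hρ hint (etaF_continuous j) s hpos ε hε1 hε2 x hx.1 hx.2
  have hmeasG0 : Measurable (G0 a σ A ρ (etaF j) s) := by
    unfold G0 Tk
    have hm1 : Measurable (fun x : Fin d ⊕ σ → ℝ =>
        A.mulVec (Sum.elim (fun c => x (Sum.inl c)) (0 : σ → ℝ))) := by
      apply Continuous.measurable
      refine (continuous_mulVec' A).comp ?_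
      refine continuous_pi fun k => ?_
      rcases k with k | k
      · simp only [Sum.elim_inl]; fun_prop
      · simp only [Sum.elim_inr]; fun_prop
    refine Measurable.mul (Measurable.mul ?_ measurable_const) ?_
    · refine Complex.measurable_ofReal.comp (Measurable.mul ?_ ?_)
      · exact (gz_measurable (etaF_continuous j) s).comp hm1
      · apply Finset.measurable_fun_prod
        intro l _
        exact Measurable.ite (measurableSet_le measurable_const
          ((ell_measurable a l).comp hm1)) measurable_const measurable_const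
    · apply Finset.measurable_fun_prod
      intro i _
      exact (hρ.smooth i).continuous.measurable.comp (measurable_pi_apply _).neg
  have hval : ∫ x : Fin d ⊕ σ → ℝ, (∏ l ∈ σᶜ, ε l) * G0 a σ A ρ (etaF j) s x =
      (∏ l ∈ σᶜ, ε l) * ((∫ p : Fin d → ℝ, Tk a σ A (etaF j) s p : ℝ) : ℂ) := by
    rw [integral_const_mul]
    by_cases hE : ∏ l ∈ σᶜ, ε l = 0
    · rw [hE, zero_mul, zero_mul]
    congr 1
    -- the limit function is integrable
    have hG0i : Integrable (G0 a σ A ρ (etaF j) s) := by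
      have h1 : Integrable (fun x => (∏ l ∈ σᶜ, ε l) * G0 a σ A ρ (etaF j) s x) := by
        refine Integrable.mono' ((bndF_integrable σ hε' R).const_mul C1)
          (hmeasG0.const_mul _).aestronglyMeasurable ?_
        filter_upwards [hgood] with x hx
        refine le_of_tendsto (Gz_tendstoG a hA hρ hint (etaF_continuous j) s hpos ε hε1 hε2 x
          hx.1 hx.2).norm ?_
        filter_upwards [hself] with lam hlam
        exact hb lam hlam x
      have h2 := h1.const_mul (∏ l ∈ σᶜ, ε l)⁻¹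
      refine h2.congr (Filter.Eventually.of_forall fun x => ?_)
      simp only
      rw [← mul_assoc, inv_mul_cancel₀ hE, one_mul]
    rw [integral_sum_pi _ hG0i, ← integral_complex_ofReal]
    refine integral_congr_ae (Filter.Eventually.of_forall fun p => ?_)
    simp only [G0, Sum.elim_inl, Sum.elim_inr, hint, Finset.prod_const_one, mul_one]
    rw [integral_const_mul, integral_fintype_prod_volume_eq_prod
      (fun (i : σ) (u : ℝ) => ρ i (-u))]
    have : ∏ i : σ, ∫ u : ℝ, ρ i (-u) = 1 := by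
      refine Finset.prod_eq_one fun i _ => ?_
      rw [integral_neg_eq_self (fun u => ρ i u), hint]
    rw [this, mul_one]
  rw [hval] at hlim
  have h3 := hlim.const_mul ((|(A.submatrix id e).det| : ℝ) : ℂ)
  have h4 : ((|(A.submatrix id e).det| : ℝ) : ℂ) * ((∏ l ∈ σᶜ, ε l) *
      ((∫ p : Fin d → ℝ, Tk a σ A (etaF j) s p : ℝ) : ℂ)) = (∏ l ∈ σᶜ, ε l) *
        ((|(A.submatrix id e).det| * ∫ p : Fin d → ℝ, Tk a σ A (etaF j) s p : ℝ) : ℂ) := by
    push_cast; ring
  rw [h4] at h3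
  refine h3.congr' ?_
  filter_upwards [hself] with lam hlam
  rw [Lam_eq a σ hρ hs j hlam, scale_change A e hdet hlam]
  have hlamC : (lam : ℂ) ≠ 0 := by exact_mod_cast hlam.ne'
  have hcard : (lam : ℂ) ^ r = (lam : ℂ) ^ (σᶜ).card * (lam : ℂ) ^ (Fintype.card σ) := by
    rw [← pow_add, Fintype.card_coe, Finset.card_compl, Fintype.card_fin]
    congr 1
    have := Finset.card_le_univ σ
    rw [Fintype.card_fin] at this
    omega
  rw [hcard]
  field_simp

end Pool.Agent.H22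

/-! Bumps with generic centres and the limits of all face functionals. -/

namespace Pool.Agent.H22

open MvPolynomial Finset MeasureTheory Filter Topology

variable {n r : ℕ}

/-- coordinates for all independent faces -/
abbrev FDat (a : Fin r → (Fin n →₀ ℕ)) :=
  ∀ σ : Finset (Fin r), LinearIndependent ℤ (fun i : σ => homRow a i) → FaceDat a σ

/-- existence of a suitable family of bumps -/
theorem exists_bumpsG (a : Fin r → (Fin n →₀ ℕ)) (h' : Fin r → ℝ) (D : FDat a)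
    (V : Finset (Fin r → ℤ)) (hV : ∀ v ∈ V, ∑ i, (v i : ℝ) * h' i ≠ 0) :
    ∃ (H : Fin r → ℝ) (δ : ℝ) (ρ : Fin r → ℝ → ℂ) (R : ℝ), 0 < δ ∧ IsBump ρ (-R) R ∧
      (∀ i, ∫ u, ρ i u = 1) ∧
      (∀ i x, x ∉ Set.Icc (-(H i) - δ) (-(H i) + δ) → ρ i x = 0) ∧
      (∀ v : Fin r → ℤ, IsRel a v → ∑ i, (v i : ℝ) * H i = ∑ i, (v i : ℝ) * h' i) ∧
      (∀ v ∈ V, δ * ∑ i, |(v i : ℝ)| < |∑ i, (v i : ℝ) * h' i|) ∧
      ∀ σ hσ, ∀ j : Fin n, (∀ c, (D σ hσ).A (Sum.inr j) (Sum.inl c) = 0) →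
        ∀ x : Fin (D σ hσ).d ⊕ σ → ℝ, (∀ i : σ, ρ i (-(x (Sum.inr i))) ≠ 0) →
        0 ≤ ∑ i : σ, (D σ hσ).A (Sum.inr j) (Sum.inr i) * x (Sum.inr i) := by
  classical
  obtain ⟨δ, hδ0, hδ1, hδ⟩ := exists_delta V hV
  set cσ : Finset (Fin r) → ℝ := fun σ =>
    if hσ : LinearIndependent ℤ (fun i : σ => homRow a i) then
      ∑ j : Fin n, ∑ i : σ, |(D σ hσ).A (Sum.inr j) (Sum.inr i)| * (|h' i| + 1) else 0 with hcσ
  have hcσ0 : ∀ σ, 0 ≤ cσ σ := by
    intro σ
    simp only [hcσ]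
    split_ifs
    · positivity
    · exact le_rfl
  set c : ℝ := ∑ σ : Finset (Fin r), cσ σ with hc
  let f : ContDiffBump (0 : ℝ) := ⟨δ / 2, δ, by linarith, by linarith⟩
  set w : Fin r → ℝ := fun i => ∑ j', (a i j' : ℝ) with hw
  set H : Fin r → ℝ := fun i => c * w i + h' i with hH
  have hsupp : ∀ x : ℝ, f.normed volume x ≠ 0 → |x| < δ := by
    intro x hx
    have : x ∈ Function.support (f.normed volume) := hx
    rw [f.support_normed_eq, Metric.mem_ball, dist_zero_right, Real.norm_eq_abs] at this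
    exact this
  refine ⟨H, δ, fun i x => ((f.normed volume (x + H i) : ℝ) : ℂ), δ + ∑ i, |H i|, hδ0,
    ?_, ?_, ?_, ?_, hδ, ?_⟩
  · constructor
    · intro i
      exact Complex.ofRealCLM.contDiff.comp (f.contDiff_normed.comp (by fun_prop))
    · intro i x hx
      by_contra h
      apply hx
      have h1 : |x + H i| < δ := hsupp _ (by simpa using h)
      have h2 : |H i| ≤ ∑ i, |H i| :=
        Finset.single_le_sum (f := fun i => |H i|) (fun i _ => abs_nonneg _)
          (Finset.mem_univ i)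
      rw [abs_lt] at h1
      have h3 := le_abs_self (H i)
      have h4 := neg_abs_le (H i)
      rw [Set.mem_Icc]
      constructor <;> linarith [h1.1, h1.2]
  · intro i
    rw [integral_complex_ofReal, integral_add_right_eq_self (fun x => f.normed volume x),
      f.integral_normed]
    simp
  · intro i x hx
    by_contra h
    apply hx
    have h1 : |x + H i| < δ := hsupp _ (by simpa using h)
    rw [abs_lt] at h1
    rw [Set.mem_Icc]
    constructor <;> linarith [h1.1, h1.2]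
  · intro v hv
    have h1 : ∑ i, (v i : ℝ) * H i = c * ∑ i, (v i : ℝ) * w i + ∑ i, (v i : ℝ) * h' i := by
      rw [Finset.mul_sum, ← Finset.sum_add_distrib]
      exact Finset.sum_congr rfl fun i _ => by simp only [hH]; ring
    rw [h1, hv.weight, mul_zero, zero_add]
  · intro σ hσ j hj x hx
    have h1 := row_sum_eq_one (D σ hσ) j hj
    have h2 : ∀ i : σ, |(-(x (Sum.inr i))) + H i| < δ := by
      intro i
      exact hsupp _ (by simpa using hx i)
    have h3 : ∑ i : σ, (D σ hσ).A (Sum.inr j) (Sum.inr i) * x (Sum.inr i) =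
        c - ∑ i : σ, (D σ hσ).A (Sum.inr j) (Sum.inr i) *
          (((-(x (Sum.inr i))) + H i) - h' i) := by
      have h6 : c * ∑ i : σ, (D σ hσ).A (Sum.inr j) (Sum.inr i) * w i = c := by rw [h1, mul_one]
      have h7 : ∑ i : σ, (D σ hσ).A (Sum.inr j) (Sum.inr i) * x (Sum.inr i) =
          c * ∑ i : σ, (D σ hσ).A (Sum.inr j) (Sum.inr i) * w i -
          ∑ i : σ, (D σ hσ).A (Sum.inr j) (Sum.inr i) * (((-(x (Sum.inr i))) + H i) - h' i) := by
        rw [Finset.mul_sum, ← Finset.sum_sub_distrib]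
        exact Finset.sum_congr rfl fun i _ => by simp only [hH]; ring
      rw [h7, h6]
    rw [h3]
    have h4 : ∑ i : σ, (D σ hσ).A (Sum.inr j) (Sum.inr i) * (((-(x (Sum.inr i))) + H i) - h' i) ≤
        ∑ i : σ, |(D σ hσ).A (Sum.inr j) (Sum.inr i)| * (|h' i| + 1) := by
      refine Finset.sum_le_sum fun i _ => ?_
      refine (le_abs_self _).trans ?_
      rw [abs_mul]
      refine mul_le_mul_of_nonneg_left ?_ (abs_nonneg _)
      have h8 := abs_sub (-(x (Sum.inr i)) + H i) (h' i)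
      have h9 := h2 i
      linarith
    have h5 : ∑ i : σ, |(D σ hσ).A (Sum.inr j) (Sum.inr i)| * (|h' i| + 1) ≤ c := by
      rw [hc]
      refine le_trans ?_ (Finset.single_le_sum (f := cσ) (fun σ _ => hcσ0 σ)
        (Finset.mem_univ σ))
      simp only [hcσ, dif_pos hσ]
      exact Finset.single_le_sum (f := fun j => ∑ i : σ,
        |(D σ hσ).A (Sum.inr j) (Sum.inr i)| * (|h' i| + 1)) (fun _ _ =>
        by positivity) (Finset.mem_univ j)
    linarith

/-- the functional of a dependent face vanishes -/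
lemma Lam_dep (a : Fin r → (Fin n →₀ ℕ)) {σ : Finset (Fin r)} {ρ : Fin r → ℝ → ℂ}
    {lo hi : ℝ} (hρ : IsBump ρ lo hi) {s : ℝ} (hs : 0 < s) (j : ℕ) {lam : ℝ} (hlam : 0 < lam)
    {H : Fin r → ℝ} {δ : ℝ}
    (hz : ∀ i x, x ∉ Set.Icc (-(H i) - δ) (-(H i) + δ) → ρ i x = 0)
    {v : Fin r → ℤ} (hv : IsRel a v) (hvσ : ∀ i ∉ σ, v i = 0)
    (hδ : δ * ∑ i, |(v i : ℝ)| < |∑ i, (v i : ℝ) * H i|) :
    Lam a σ (scB ρ lam) s j 0 = 0 := by
  rw [Lam_eq a σ hρ hs j hlam]
  have h0 : ∀ z : Kap n → ℝ, Gz a σ ρ (etaF j) s lam z = 0 := by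
    intro z
    by_contra hne
    have hne2 : ∀ i ∈ σ, ρ i (-(lam⁻¹ * ell a i z)) ≠ 0 := by
      intro i hi h0
      apply hne
      unfold Gz
      have : ∏ i, qf σ ρ i (-(lam⁻¹ * ell a i z)) = 0 := by
        apply Finset.prod_eq_zero (Finset.mem_univ i)
        unfold qf
        rw [if_pos hi, h0]
      rw [this, mul_zero]
    have hle : ∀ i, |(v i : ℝ) * (H i - lam⁻¹ * ell a i z)| ≤ |(v i : ℝ)| * δ := by
      intro i
      rw [abs_mul]
      by_cases hi : i ∈ σ
      · refine mul_le_mul_of_nonneg_left ?_ (abs_nonneg _)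
        by_contra hcon
        apply hne2 i hi
        apply hz
        intro hmem
        apply hcon
        rw [Set.mem_Icc] at hmem
        rw [abs_le]
        constructor <;> linarith [hmem.1, hmem.2]
      · rw [hvσ i hi]; simp
    have h1 : ∑ i, (v i : ℝ) * H i = ∑ i, (v i : ℝ) * (H i - lam⁻¹ * ell a i z) := by
      have h2 : ∑ i, (v i : ℝ) * (H i - lam⁻¹ * ell a i z) =
          ∑ i, (v i : ℝ) * H i - lam⁻¹ * ∑ i, (v i : ℝ) * ell a i z := by
        rw [Finset.mul_sum, ← Finset.sum_sub_distrib]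
        exact Finset.sum_congr rfl fun i _ => by ring
      rw [h2, hv.ell z, mul_zero, sub_zero]
    have h3 : |∑ i, (v i : ℝ) * H i| ≤ δ * ∑ i, |(v i : ℝ)| := by
      rw [h1]
      refine (Finset.abs_sum_le_sum_abs _ _).trans ?_
      rw [Finset.mul_sum]
      refine Finset.sum_le_sum fun i _ => ?_
      rw [mul_comm δ]
      exact hle i
    linarith
  simp only [h0]
  simp

/-- a form which is constant along the face comes from a linear relation -/
lemma flat_row {a : Fin r → (Fin n →₀ ℕ)} {σ : Finset (Fin r)} (D : FaceDat a σ) (l : Fin r)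
    (hflat : ∀ c, ell a l (fun z => D.A z (Sum.inl c)) = 0) :
    rowR a l = ∑ i : σ, (ell a l (fun z => D.A z (Sum.inr i))) • rowR a i := by
  have h1 : ∀ z : Kap n → ℝ, ell a l z =
      ∑ i : σ, ell a l (fun z => D.A z (Sum.inr i)) * ell a i z := by
    intro z
    obtain ⟨y, rfl⟩ := mulVec_surj D.A D.e D.det_ne z
    rw [ell_mulVec, Fintype.sum_sum_type]
    simp only [hflat, zero_mul, Finset.sum_const_zero, zero_add]
    exact Finset.sum_congr rfl fun i _ => by rw [D.adm]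
  funext k
  simp only [Finset.sum_apply, Pi.smul_apply, smul_eq_mul]
  have h2 : ∀ (i : Fin r), ell a i (Pi.single k 1 : Kap n → ℝ) = rowR a i k := by
    intro i
    rcases k with k | k
    · simp [ell, rowR, Pi.single_apply]
    · simp [ell, rowR, Pi.single_apply]
  have h3 := h1 (Pi.single k 1)
  simp only [h2] at h3
  exact h3

/-- conversely, a linear relation makes the form constant along the face -/
lemma row_flat {a : Fin r → (Fin n →₀ ℕ)} {σ : Finset (Fin r)} (D : FaceDat a σ) (l : Fin r)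
    (β : σ → ℝ) (h : rowR a l = ∑ i : σ, β i • rowR a i) (c : Fin D.d) :
    ell a l (fun z => D.A z (Sum.inl c)) = 0 := by
  have h1 : ∀ (i : Fin r) (z : Kap n → ℝ), ell a i z = ∑ k, rowR a i k * z k := by
    intro i z
    unfold ell
    rw [Fintype.sum_sum_type]
    simp [rowR]
    ring
  have h2 : ∀ i : σ, ell a i (fun z => D.A z (Sum.inl c)) = 0 := by
    intro i
    have h3 := D.adm (Pi.single (Sum.inl c) 1) i
    have h4 : D.A.mulVec (Pi.single (Sum.inl c) 1) = fun z => D.A z (Sum.inl c) := by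
      rw [Matrix.mulVec_single_one]; rfl
    rw [h4] at h3
    rw [h3]
    simp
  rw [h1, h]
  simp only [Finset.sum_apply, Pi.smul_apply, smul_eq_mul, Finset.sum_mul]
  rw [Finset.sum_comm]
  apply Finset.sum_eq_zero
  intro i _
  have h5 := h2 i
  rw [h1] at h5
  have h6 : ∑ x, β i * rowR a i x * D.A x (Sum.inl c) =
      β i * ∑ x, rowR a i x * D.A x (Sum.inl c) := by
    rw [Finset.mul_sum]
    exact Finset.sum_congr rfl fun _ _ => by ring
  rw [h6, h5, mul_zero]

open Classical in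
/-- the limits -/
noncomputable def TG (a : Fin r → (Fin n →₀ ℕ)) (h' : Fin r → ℝ) (D : FDat a)
    (σ : Finset (Fin r)) (j : ℕ) (s : ℝ) : ℝ :=
  if h : UpperS a h' σ then (D σ ((rows_indep_iff a σ).mp h.1)).T (etaF j) s else 0

/-- all limits at once -/
theorem exists_limitsG (a : Fin r → (Fin n →₀ ℕ)) {h' : Fin r → ℝ}
    (hh : LinearIndependent ℚ h') (D : FDat a)
    (V0 : Finset (Fin r → ℤ)) (hV0 : ∀ v ∈ V0, v ≠ 0) :
    ∃ (H : Fin r → ℝ) (δ : ℝ) (ρ : Fin r → ℝ → ℂ) (R : ℝ), 0 < δ ∧ IsBump ρ (-R) R ∧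
      (∀ i x, x ∉ Set.Icc (-(H i) - δ) (-(H i) + δ) → ρ i x = 0) ∧
      (∀ v : Fin r → ℤ, IsRel a v → ∑ i, (v i : ℝ) * H i = ∑ i, (v i : ℝ) * h' i) ∧
      (∀ v ∈ V0, δ * ∑ i, |(v i : ℝ)| < |∑ i, (v i : ℝ) * h' i|) ∧
      ∀ (σ : Finset (Fin r)) (s : ℝ), 0 < s → ∀ j,
        Tendsto (fun lam : ℝ => ((lam : ℂ) ^ r)⁻¹ * Lam a σ (scB ρ lam) s j 0) (𝓝[>] 0)
          (𝓝 ((TG a h' D σ j s : ℝ) : ℂ)) := by
  classical
  -- the relations which have to be separated
  have hdep : ∀ σ : Finset (Fin r), ∃ v : Fin r → ℤ,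
      ¬ LinearIndependent ℤ (fun i : σ => homRow a i) →
        v ≠ 0 ∧ IsRel a v ∧ ∀ i ∉ σ, v i = 0 := by
    intro σ
    by_cases h : LinearIndependent ℤ (fun i : σ => homRow a i)
    · exact ⟨0, fun h' => absurd h h'⟩
    · obtain ⟨v, hv⟩ := exists_rel_of_dep h
      exact ⟨v, fun _ => hv⟩
  choose vd hvd using hdep
  have hspan : ∀ (σ : Finset (Fin r)) (l : Fin r), ∃ v : Fin r → ℤ,
      ∀ hσ : LinearIndependent ℤ (fun i : σ => homRow a i), l ∉ σ → ∀ β : σ → ℝ,
        rowR a l = ∑ i, β i • rowR a i → v l ≠ 0 ∧ IsRel a v ∧ (∀ i ∉ σ, i ≠ l → v i = 0) ∧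
          ∀ i : σ, (v i : ℝ) = -(v l : ℝ) * β i := by
    intro σ l
    by_cases h : LinearIndependent ℤ (fun i : σ => homRow a i) ∧ l ∉ σ ∧
        ∃ β : σ → ℝ, rowR a l = ∑ i, β i • rowR a i
    · obtain ⟨hσ, hl, β, hβ⟩ := h
      obtain ⟨v, hv⟩ := exists_rel_of_span hσ hl β hβ
      refine ⟨v, fun _ _ β' hβ' => ?_⟩
      have : β' = β := by
        funext i
        have hreal := (rows_indep_iff a σ).mpr hσ
        have h0 : ∑ i : σ, (β' i - β i) • rowR a i = 0 := by
          simp only [sub_smul, Finset.sum_sub_distrib]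
          rw [← hβ, ← hβ', sub_self]
        have := Fintype.linearIndependent_iff.mp hreal _ h0 i
        linarith
      rw [this]; exact hv
    · exact ⟨0, fun hσ hl β hβ => absurd ⟨hσ, hl, β, hβ⟩ h⟩
  choose vs hvs using hspan
  set V : Finset (Fin r → ℤ) := (V0 ∪ univ.image vd ∪
    univ.image (fun p : Finset (Fin r) × Fin r => vs p.1 p.2)).filter (fun v => v ≠ 0) with hVdef
  have hV : ∀ v ∈ V, ∑ i, (v i : ℝ) * h' i ≠ 0 := by
    intro v hv
    rw [hVdef, Finset.mem_filter] at hv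
    exact height_ne hh hv.2
  obtain ⟨H, δ, ρ, R, hδ0, hb, hint, hz, hrel, hδ, hpos⟩ := exists_bumpsG a h' D V hV
  refine ⟨H, δ, ρ, R, hδ0, hb, hz, hrel, fun v hv => hδ v (by
    rw [hVdef, Finset.mem_filter]
    exact ⟨by simp [hv], hV0 v hv⟩), fun σ s hs j => ?_⟩
  by_cases hσ : LinearIndependent ℤ (fun i : σ => homRow a i)
  swap
  · have hT : TG a h' D σ j s = 0 := by
      unfold TG
      rw [dif_neg]
      intro h
      exact hσ ((rows_indep_iff a σ).mp h.1)
    rw [hT]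
    obtain ⟨h1, h2, h3⟩ := hvd σ hσ
    have h4 := hδ (vd σ) (by
      rw [hVdef, Finset.mem_filter]
      exact ⟨by simp, h1⟩)
    rw [← hrel _ h2] at h4
    have h5 : (fun _ : ℝ => (0 : ℂ)) =ᶠ[𝓝[>] 0]
        (fun lam : ℝ => ((lam : ℂ) ^ r)⁻¹ * Lam a σ (scB ρ lam) s j 0) := by
      filter_upwards [self_mem_nhdsWithin] with lam hlam
      rw [Lam_dep a hb hs j hlam hz h2 h3 h4, mul_zero]
    have h6 : Tendsto (fun _ : ℝ => (0 : ℂ)) (𝓝[>] 0) (𝓝 ((0 : ℝ) : ℂ)) := by
      simp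
    exact h6.congr' h5
  -- independent faces
  set DD := D σ hσ with hDD
  -- sign of the height of a flat exponent
  have hkey : ∀ l ∉ σ, ∀ β : σ → ℝ, rowR a l = ∑ i, β i • rowR a i →
      ∀ ξ : σ → ℝ, (∀ i, |ξ i| ≤ δ) →
      ((h' l < ∑ i : σ, β i * h' i) → -(∑ i : σ, β i * (H i + ξ i)) ≤ -(H l) - δ) ∧
      ((¬ h' l < ∑ i : σ, β i * h' i) → -(H l) + δ < -(∑ i : σ, β i * (H i + ξ i))) := by
    intro l hl β hβ ξ hξ
    obtain ⟨hv1, hv2, hv3, hv4⟩ := hvs σ l hσ hl β hβ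
    set v := vs σ l with hvdef
    have hmem : v ∈ V := by
      rw [hVdef, Finset.mem_filter]
      refine ⟨?_, fun h => hv1 (by rw [h]; rfl)⟩
      rw [Finset.mem_union]; right
      exact Finset.mem_image.mpr ⟨(σ, l), Finset.mem_univ _, rfl⟩
    have hsplit : ∀ f : Fin r → ℝ, ∑ i, (v i : ℝ) * f i =
        (v l : ℝ) * (f l - ∑ i : σ, β i * f i) := by
      intro f
      rw [← Finset.sum_subset (Finset.subset_univ (insert l σ)), Finset.sum_insert hl,
        ← Finset.sum_coe_sort σ, mul_sub, Finset.mul_sum, sub_eq_add_neg,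
        ← Finset.sum_neg_distrib]
      · congr 1
        refine Finset.sum_congr rfl fun i _ => ?_
        rw [hv4 i]; ring
      · intro i _ hi
        rw [Finset.mem_insert, not_or] at hi
        rw [hv3 i hi.2 hi.1]; simp
    have habs : ∑ i, |(v i : ℝ)| = |(v l : ℝ)| * (1 + ∑ i : σ, |β i|) := by
      rw [← Finset.sum_subset (Finset.subset_univ (insert l σ)), Finset.sum_insert hl,
        ← Finset.sum_coe_sort σ, mul_add, mul_one, Finset.mul_sum]
      · congr 1
        refine Finset.sum_congr rfl fun i _ => ?_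
        rw [hv4 i, abs_mul, abs_neg]
      · intro i _ hi
        rw [Finset.mem_insert, not_or] at hi
        rw [hv3 i hi.2 hi.1]; simp
    have hvl : 0 < |(v l : ℝ)| := abs_pos.mpr (by exact_mod_cast hv1)
    have h1 := hδ v hmem
    rw [hsplit h', habs, abs_mul] at h1
    have h2 : δ * (1 + ∑ i : σ, |β i|) < |h' l - ∑ i : σ, β i * h' i| := by
      have h3 : |(v l : ℝ)| * (δ * (1 + ∑ i : σ, |β i|)) <
          |(v l : ℝ)| * |h' l - ∑ i : σ, β i * h' i| := by
        calc _ = δ * (|(v l : ℝ)| * (1 + ∑ i : σ, |β i|)) := by ring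
          _ < _ := h1
      exact lt_of_mul_lt_mul_left h3 hvl.le
    have h4 : H l - ∑ i : σ, β i * H i = h' l - ∑ i : σ, β i * h' i := by
      have h5 := hrel v hv2
      rw [hsplit H, hsplit h'] at h5
      exact mul_left_cancel₀ (by exact_mod_cast hv1) h5
    have h6 : ∑ i : σ, β i * (H i + ξ i) = ∑ i : σ, β i * H i + ∑ i : σ, β i * ξ i := by
      rw [← Finset.sum_add_distrib]
      exact Finset.sum_congr rfl fun i _ => by ring
    have h7 : |∑ i : σ, β i * ξ i| ≤ δ * ∑ i : σ, |β i| := by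
      refine (Finset.abs_sum_le_sum_abs _ _).trans ?_
      rw [Finset.mul_sum]
      refine Finset.sum_le_sum fun i _ => ?_
      rw [abs_mul, mul_comm]
      exact mul_le_mul_of_nonneg_right (hξ i) (abs_nonneg _)
    rw [abs_le] at h7
    rw [h6]
    constructor
    · intro h8
      rw [abs_of_neg (by linarith)] at h2
      linarith [h7.1]
    · intro h8
      rw [abs_of_nonneg (by push Not at h8; linarith)] at h2
      linarith [h7.2]
  set ε : Fin r → ℂ := fun l =>
    if (∃ β : σ → ℝ, rowR a l = ∑ i, β i • rowR a i ∧ ¬ h' l < ∑ i : σ, β i * h' i)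
      then 0 else 1 with hε
  have huniq : ∀ l, ∀ β β' : σ → ℝ, rowR a l = ∑ i, β i • rowR a i →
      rowR a l = ∑ i, β' i • rowR a i → β = β' := by
    intro l β β' hβ hβ'
    funext i
    have hreal := (rows_indep_iff a σ).mpr hσ
    have h0 : ∑ i : σ, (β i - β' i) • rowR a i = 0 := by
      simp only [sub_smul, Finset.sum_sub_distrib]
      rw [← hβ, ← hβ', sub_self]
    have := Fintype.linearIndependent_iff.mp hreal _ h0 i
    linarith
  have hlim := Lam_tendstoG a DD.e DD.det_ne DD.adm hb hs j (hpos σ hσ) hint ε ?_ ?_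
  · by_cases hU : UpperS a h' σ
    · have hε1 : ∏ l ∈ σᶜ, ε l = 1 := by
        apply Finset.prod_eq_one
        intro l hl
        simp only [hε]
        rw [if_neg]
        rintro ⟨β, hβ, hβ2⟩
        exact hβ2 (hU.2 l (Finset.mem_compl.mp hl) β hβ)
      rw [hε1, one_mul] at hlim
      have hT : TG a h' D σ j s = DD.T (etaF j) s := by
        unfold TG
        rw [dif_pos hU]
      rw [hT]
      exact hlim
    · have hε0 : ∏ l ∈ σᶜ, ε l = 0 := by
        have h1 : ∃ l ∉ σ, ∃ β : σ → ℝ, rowR a l = ∑ i, β i • rowR a i ∧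
            ¬ h' l < ∑ i : σ, β i * h' i := by
          by_contra hcon
          push Not at hcon
          apply hU
          exact ⟨(rows_indep_iff a σ).mpr hσ, fun l hl β hβ => hcon l hl β hβ⟩
        obtain ⟨l, hl, h2⟩ := h1
        apply Finset.prod_eq_zero (Finset.mem_compl.mpr hl)
        simp only [hε]
        rw [if_pos h2]
      rw [hε0, zero_mul] at hlim
      have hT : TG a h' D σ j s = 0 := by
        unfold TG
        rw [dif_neg hU]
      rw [hT]
      simpa using hlim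
  · intro l hl hc
    simp only [hε]
    rw [if_neg]
    rintro ⟨β, hβ, _⟩
    obtain ⟨c, hc⟩ := hc
    exact hc (row_flat DD l β hβ c)
  · intro l hl hflat x hx
    have hβ := flat_row DD l hflat
    set β : σ → ℝ := fun i => ell a l (fun z => DD.A z (Sum.inr i)) with hβdef
    have hxi : ∀ i : σ, |x (Sum.inr i) - H i| ≤ δ := by
      intro i
      by_contra hcon
      apply hx i
      apply hz
      intro hmem
      apply hcon
      rw [Set.mem_Icc] at hmem
      rw [abs_le]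
      constructor <;> linarith [hmem.1, hmem.2]
    have h1 := hkey l hl β hβ (fun i => x (Sum.inr i) - H i) hxi
    have h2 : ∑ i : σ, β i * (H i + (x (Sum.inr i) - H i)) = ∑ i : σ, β i * x (Sum.inr i) :=
      Finset.sum_congr rfl fun i _ => by ring
    rw [h2] at h1
    simp only [hε]
    by_cases hlt : h' l < ∑ i : σ, β i * h' i
    · rw [if_neg]
      · rw [Hh_of_le (hz l) (h1.1 hlt), hint]
      · rintro ⟨β', hβ', hβ2⟩
        rw [huniq l β' β hβ' hβ] at hβ2
        exact hβ2 hlt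
    · rw [if_pos ⟨β, hβ, hlt⟩]
      exact Hh_of_gt (hz l) (h1.2 hlt)

/-- The limit of the integrated face sum. -/
theorem limit_sumG (a : Fin r → (Fin n →₀ ℕ)) {h' : Fin r → ℝ}
    (hh : LinearIndependent ℚ h') (D : FDat a)
    (b' : Polynomial ℂ) (K : ℕ) (hK : 1 ≤ K) {A : Type*} (T : Finset A) (m : A → Fin r → ℤ)
    (g : A → MvPolynomial (Fin r) ℂ) (M : Set (Fin r → ℝ)) (hMfin : M.Finite)
    (hM : ∀ α ∈ T, (fun i => (m α i : ℝ)) ∈ M)
    (hM2 : ∀ x ∈ M, ∑ i, x i ≤ -1 ∨ ∃ v : Fin r → ℤ, (fun i => (v i : ℝ)) = x ∧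
      IsRel a v ∧ ∑ i, (v i : ℝ) * h' i < 0)
    (E : MvPolynomial (Fin r) ℂ) (hE : KillAll a M E)
    (hid : (Polynomial.aeval (∑ i, (X i : MvPolynomial (Fin r) ℂ)) b') * ∏ i, DDp K 0 i =
        ∑ α ∈ T, g α * (∏ j, zf a j (-(∑ i, m α i * (a i j : ℤ)))) *
          ∏ i, DDp K (m α i) i + E)
    (θ : Finset (Fin r) → ℂ) (hθ : ApexInv a θ) :
    ∃ (Cp : ℕ → Polynomial ℂ) (Dg : ℕ), Cp 0 = b' ∧
      ∀ (s : ℝ), 0 < s →
        ∑ j ∈ Finset.range (Dg + 1), (Cp j).eval (s : ℂ) *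
          ∑ σ : Finset (Fin r), (-1 : ℂ) ^ σ.card * θ σ * ((TG a h' D σ j s : ℝ) : ℂ) = 0 := by
  classical
  obtain ⟨Cp, Dg, hC0, hC⟩ := parts_mainB a b' K hK T m g M hM E hE hid θ hθ
  have hM3 : ∀ x : Fin r → ℝ, ∃ v : Fin r → ℤ, x ∈ M → (∑ i, x i ≤ -1 ∨
      ((fun i => (v i : ℝ)) = x ∧ IsRel a v ∧ ∑ i, (v i : ℝ) * h' i < 0)) := by
    intro x
    by_cases hx : x ∈ M
    · rcases hM2 x hx with h | ⟨v, hv⟩
      · exact ⟨0, fun _ => Or.inl h⟩
      · exact ⟨v, fun _ => Or.inr hv⟩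
    · exact ⟨0, fun h => absurd h hx⟩
  choose vv hvv using hM3
  set V0 : Finset (Fin r → ℤ) := (hMfin.toFinset.image vv).filter
    (fun v => IsRel a v ∧ ∑ i, (v i : ℝ) * h' i < 0) with hV0
  have hV0ne : ∀ v ∈ V0, v ≠ 0 := by
    intro v hv h0
    rw [hV0, Finset.mem_filter] at hv
    rw [h0] at hv
    simp at hv
  obtain ⟨H, δ, ρ, R, hδ0, hb, hz, hrel, hδ, hlim⟩ := exists_limitsG a hh D V0 hV0ne
  refine ⟨Cp, Dg, hC0, fun s hs => ?_⟩
  have h1 : Tendsto (fun lam : ℝ => ∑ j ∈ Finset.range (Dg + 1), (Cp j).eval (s : ℂ) *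
      ∑ σ : Finset (Fin r), (-1 : ℂ) ^ σ.card * θ σ *
        (((lam : ℂ) ^ r)⁻¹ * Lam a σ (scB ρ lam) s j 0)) (𝓝[>] 0)
      (𝓝 (∑ j ∈ Finset.range (Dg + 1), (Cp j).eval (s : ℂ) *
        ∑ σ : Finset (Fin r), (-1 : ℂ) ^ σ.card * θ σ * ((TG a h' D σ j s : ℝ) : ℂ))) := by
    refine tendsto_finsetSum _ fun j _ => Tendsto.const_mul _ ?_
    refine tendsto_finsetSum _ fun σ _ => Tendsto.const_mul _ ?_
    exact hlim σ s hs j
  have h2 : (fun _ : ℝ => (0 : ℂ)) =ᶠ[𝓝[>] 0]
      (fun lam : ℝ => ∑ j ∈ Finset.range (Dg + 1), (Cp j).eval (s : ℂ) *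
      ∑ σ : Finset (Fin r), (-1 : ℂ) ^ σ.card * θ σ *
        (((lam : ℂ) ^ r)⁻¹ * Lam a σ (scB ρ lam) s j 0)) := by
    have hsmall : ∀ᶠ lam : ℝ in 𝓝[>] 0, ∀ x ∈ hMfin.toFinset,
        lam * (|∑ i, x i * H i| + δ * ∑ i, |x i|) < 1 := by
      rw [Filter.eventually_all_finset]
      intro x _
      have hc : Continuous (fun lam : ℝ => lam * (|∑ i, x i * H i| + δ * ∑ i, |x i|)) := by
        fun_prop
      have h3 : Tendsto (fun lam : ℝ => lam * (|∑ i, x i * H i| + δ * ∑ i, |x i|))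
          (𝓝[>] 0) (𝓝 0) := by
        have := (hc.tendsto 0).mono_left (nhdsWithin_le_nhds (s := Set.Ioi 0))
        simpa using this
      exact h3.eventually (gt_mem_nhds one_pos)
    filter_upwards [self_mem_nhdsWithin, hsmall] with lam hlam hlamδ
    have h4 := hC s hs ρ R lam hb hlam (fun N hN => boxB_trB hb.smooth hz hlam (by
      intro x hx
      rcases hvv x hx with h5 | ⟨hx1, h5, h6⟩
      · left
        exact ⟨h5, hlamδ x (hMfin.mem_toFinset.mpr hx)⟩
      · right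
        have h8 : ∑ i, x i = ∑ i, (vv x i : ℝ) := by
          conv_lhs => rw [← hx1]
        have h9 : ∑ i, x i * H i = ∑ i, (vv x i : ℝ) * H i := by
          conv_lhs => rw [← hx1]
        have h10 : ∑ i, |x i| = ∑ i, |(vv x i : ℝ)| := by
          conv_lhs => rw [← hx1]
        have h11 := hδ (vv x) (by
          rw [hV0, Finset.mem_filter]
          exact ⟨Finset.mem_image.mpr ⟨x, hMfin.mem_toFinset.mpr hx, rfl⟩, h5, h6⟩)
        constructor
        · rw [h8]
          have := h5.1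
          exact_mod_cast this
        · rw [h9, h10, hrel _ h5]
          rw [abs_of_neg h6] at h11
          linarith) hN)
    have h5 : ∑ j ∈ Finset.range (Dg + 1), (Cp j).eval (s : ℂ) *
      ∑ σ : Finset (Fin r), (-1 : ℂ) ^ σ.card * θ σ *
        (((lam : ℂ) ^ r)⁻¹ * Lam a σ (scB ρ lam) s j 0) = ((lam : ℂ) ^ r)⁻¹ *
        ∑ j ∈ Finset.range (Dg + 1), (Cp j).eval (s : ℂ) *
          ∑ σ : Finset (Fin r), (-1 : ℂ) ^ σ.card * θ σ * Lam a σ (scB ρ lam) s j 0 := by
      simp only [Finset.mul_sum]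
      refine Finset.sum_congr rfl fun j _ => Finset.sum_congr rfl fun σ _ => ?_
      ring
    rw [h5, h4, mul_zero]
  exact tendsto_nhds_unique h1 (tendsto_const_nhds.congr' h2)

/-- the relation between the empty face and the vertices, in the limit -/
theorem limit_emptyG (a : Fin r → (Fin n →₀ ℕ)) {h' : Fin r → ℝ}
    (hh : LinearIndependent ℚ h') (D : FDat a) {s : ℝ} (hs : 0 < s) :
    s * TG a h' D ∅ 0 s = TG a h' D ∅ 1 s - ∑ l : Fin r, TG a h' D {l} 0 s := by
  obtain ⟨H, δ, ρ, R, hδ0, hb, hz, hrel, hδ, hlim⟩ := exists_limitsG a hh D ∅ (by simp)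
  have h1 : Tendsto (fun lam : ℝ => (s : ℂ) * (((lam : ℂ) ^ r)⁻¹ * Lam a ∅ (scB ρ lam) s 0 0))
      (𝓝[>] 0) (𝓝 ((s : ℂ) * ((TG a h' D ∅ 0 s : ℝ) : ℂ))) :=
    (hlim ∅ s hs 0).const_mul _
  have h2 : Tendsto (fun lam : ℝ => ((lam : ℂ) ^ r)⁻¹ * Lam a ∅ (scB ρ lam) s 1 0 -
      ∑ l : Fin r, ((lam : ℂ) ^ r)⁻¹ * Lam a {l} (scB ρ lam) s 0 0)
      (𝓝[>] 0) (𝓝 (((TG a h' D ∅ 1 s : ℝ) : ℂ) -
        ∑ l : Fin r, ((TG a h' D {l} 0 s : ℝ) : ℂ))) :=
    (hlim ∅ s hs 1).sub (tendsto_finsetSum _ fun l _ => hlim {l} s hs 0)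
  have h3 : (fun lam : ℝ => (s : ℂ) * (((lam : ℂ) ^ r)⁻¹ * Lam a ∅ (scB ρ lam) s 0 0))
      =ᶠ[𝓝[>] 0] (fun lam : ℝ => ((lam : ℂ) ^ r)⁻¹ * Lam a ∅ (scB ρ lam) s 1 0 -
      ∑ l : Fin r, ((lam : ℂ) ^ r)⁻¹ * Lam a {l} (scB ρ lam) s 0 0) := by
    filter_upwards [self_mem_nhdsWithin] with lam hlam
    rw [← Finset.mul_sum, ← mul_sub, ← Lam_empty_rel a (scB_bump hlam hb) s hs]
    ring
  have h4 := tendsto_nhds_unique (h1.congr' h3) h2
  exact_mod_cast h4

/-- `∅` and the singletons are simplices -/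
lemma upperS_empty (a : Fin r → (Fin n →₀ ℕ)) (h' : Fin r → ℝ) : UpperS a h' ∅ := by
  refine ⟨linearIndependent_empty_type, fun l _ β hβ => ?_⟩
  have := congrFun hβ (Sum.inl ())
  simp [rowR] at this

lemma upperS_singleton {a : Fin r → (Fin n →₀ ℕ)} (ha : Function.Injective a) (h' : Fin r → ℝ)
    (i : Fin r) : UpperS a h' {i} := by
  have hsum : ∀ (g : ({i} : Finset (Fin r)) → ℝ), ∑ k, g k • rowR a k =
      g ⟨i, Finset.mem_singleton_self i⟩ • rowR a i := by
    intro g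
    rw [Finset.sum_eq_single_of_mem (⟨i, Finset.mem_singleton_self i⟩ : ({i} : Finset (Fin r)))
      (Finset.mem_univ _)]
    rintro ⟨b, hb⟩ _ hne
    exact absurd (Subtype.ext (Finset.mem_singleton.mp hb)) hne
  refine ⟨?_, fun l hl β hβ => ?_⟩
  · rw [Fintype.linearIndependent_iff]
    intro g hg k
    rw [hsum] at hg
    have h1 := congrFun hg (Sum.inl ())
    simp only [Pi.smul_apply, smul_eq_mul, rowR, Sum.elim_inl, mul_one, Pi.zero_apply] at h1
    obtain ⟨b, hb⟩ := k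
    have hbi := Finset.mem_singleton.mp hb
    subst hbi
    exact h1
  · exfalso
    rw [hsum] at hβ
    have h1 := congrFun hβ (Sum.inl ())
    simp only [Pi.smul_apply, smul_eq_mul, rowR, Sum.elim_inl, mul_one] at h1
    rw [← h1, one_smul] at hβ
    apply hl
    rw [Finset.mem_singleton]
    apply ha
    ext j
    have h2 := congrFun hβ (Sum.inr j)
    simp only [rowR, Sum.elim_inr] at h2
    exact_mod_cast h2

end Pool.Agent.H22

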