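import Pool.Agent.H22.Ident
import Pool.Agent.H22.G4

/-! The polynomial identity for algebraically independent coefficients. -/

namespace Pool.Agent.H22

open MvPolynomial Finset

variable {n r : ℕ}

/-- the exponent vector of a function -/
noncomputable def tf (e : Fin r → ℕ) : Fin r →₀ ℕ := Finsupp.equivFunOnFinite.symm e

@[simp] lemma tf_apply (e : Fin r → ℕ) (i : Fin r) : tf e i = e i := rfl

/-- the coefficient of `y^e`, as a complex number -/
noncomputable def cfC (p : MvPolynomial (Fin r) ℚ) (e : Fin r → ℕ) : ℂ :=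
  ((coeff (tf e) p : ℚ) : ℂ)

lemma cfC_add (p q : MvPolynomial (Fin r) ℚ) (e : Fin r → ℕ) :
    cfC (p + q) e = cfC p e + cfC q e := by
  simp [cfC]

lemma cfC_sum {ι : Type*} (S : Finset ι) (p : ι → MvPolynomial (Fin r) ℚ) (e : Fin r → ℕ) :
    cfC (∑ i ∈ S, p i) e = ∑ i ∈ S, cfC (p i) e := by
  simp [cfC, coeff_sum]

lemma cfC_C_mul (x : ℚ) (p : MvPolynomial (Fin r) ℚ) (e : Fin r → ℕ) :
    cfC (C x * p) e = (x : ℂ) * cfC p e := by
  simp [cfC]

lemma cfC_mul_monomial {W : Finset (Fin r → ℕ)} (p : MvPolynomial (Fin r) ℚ)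
    (hW : ∀ e, cfC p e ≠ 0 → e ∈ W) (t w : Fin r → ℕ) (x : ℚ) :
    cfC (p * monomial (tf t) x) w = ∑ ε ∈ W, if t + ε = w then cfC p ε * (x : ℂ) else 0 := by
  classical
  have hle : tf t ≤ tf w ↔ t ≤ w := by
    rw [Finsupp.le_def, Pi.le_def]; rfl
  have hsub : tf w - tf t = tf (w - t) := by
    ext i; simp
  unfold cfC
  rw [coeff_mul_monomial']
  by_cases h : t ≤ w
  · rw [if_pos (hle.mpr h), hsub]
    have htw : t + (w - t) = w := add_tsub_cancel_of_le h
    rw [Finset.sum_eq_single (w - t)]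
    · rw [if_pos htw]; push_cast; rfl
    · intro ε _ hne
      rw [if_neg]
      intro h2
      apply hne
      rw [← h2]; simp
    · intro hmem
      rw [if_pos htw]
      have h0 : cfC p (w - t) = 0 := by
        by_contra hne
        exact hmem (hW _ hne)
      unfold cfC at h0
      rw [h0, zero_mul]
  · rw [if_neg (fun h' => h (hle.mp h'))]
    rw [Finset.sum_eq_zero]
    · simp
    · intro ε _
      rw [if_neg]
      intro h2
      apply h
      rw [← h2]
      exact le_self_add

lemma aeval_tf (κ : Fin r → ℂ) (t : Fin r → ℕ) (x : ℚ) :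
    aeval κ (monomial (tf t) x) = (x : ℂ) * ∏ i, κ i ^ t i := by
  rw [aeval_monomial, Finsupp.prod_fintype]
  · simp
  · intro i; simp

/-- exchange of the order of summation -/
lemma swap_sum (e0 u : Fin r → ℕ) (K d : ℕ) (hK : ∀ i, e0 i ≤ K) (W : Finset (Fin r → ℕ))
    (cond cond' : (Fin r → ℕ) → Prop) [DecidablePred cond] [DecidablePred cond'] (hcond : ∀ t ε, t + ε = e0 + u → (cond t ↔ cond' ε))
    (F Q Q' : (Fin r → ℕ) → ℂ) (hQ : ∀ t ε, t + ε = e0 + u → cond' ε → Q t = Q' ε) :
    (∏ i, (((u i + K).factorial : ℕ) : ℂ)) *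
      ∑ t ∈ Finset.piAntidiag univ (∑ i, u i + d), (if cond t then
        ∑ ε ∈ W, (if t + ε = e0 + u then F ε * ((Nat.multinomial univ t : ℂ) * Q t) else 0)
        else 0) =
      (((∑ i, u i + d).factorial : ℕ) : ℂ) * ∑ ε ∈ W,
        (if (∑ i, ((ε i : ℤ) - e0 i) = -(d : ℤ)) ∧ cond' ε then
          F ε * (∏ i, DD K ((ε i : ℤ) - e0 i) (u i : ℂ)) * Q' ε else 0) := by
  have h1 : ∑ t ∈ Finset.piAntidiag univ (∑ i, u i + d), (if cond t then
        ∑ ε ∈ W, (if t + ε = e0 + u then F ε * ((Nat.multinomial univ t : ℂ) * Q t) else 0)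
        else 0) = ∑ ε ∈ W, ∑ t ∈ Finset.piAntidiag univ (∑ i, u i + d),
        (if cond t ∧ t + ε = e0 + u then F ε * ((Nat.multinomial univ t : ℂ) * Q t) else 0) := by
    rw [Finset.sum_comm]
    refine Finset.sum_congr rfl fun t _ => ?_
    by_cases h : cond t
    · simp [h]
    · simp [h]
  rw [h1, Finset.mul_sum, Finset.mul_sum]
  refine Finset.sum_congr rfl fun ε _ => ?_
  by_cases hle : ε ≤ e0 + u
  · set t0 : Fin r → ℕ := e0 + u - ε with ht0
    have ht : t0 + ε = e0 + u := tsub_add_cancel_of_le hle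
    have hti : ∀ i, t0 i + ε i = e0 i + u i := fun i => congrFun ht i
    have hsum : (∑ i, t0 i = ∑ i, u i + d) ↔ (∑ i, ((ε i : ℤ) - e0 i) = -(d : ℤ)) := by
      have h2 : ∑ i, ((ε i : ℤ) - e0 i) = ∑ i, ((u i : ℤ) - t0 i) := by
        refine Finset.sum_congr rfl fun i _ => ?_
        have := hti i
        omega
      rw [h2, Finset.sum_sub_distrib]
      constructor
      · intro h
        have h3 : ((∑ i, t0 i : ℕ) : ℤ) = ((∑ i, u i + d : ℕ) : ℤ) := by rw [h]
        push_cast at h3
        linarith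
      · intro h
        have h3 : ((∑ i, t0 i : ℕ) : ℤ) = ((∑ i, u i + d : ℕ) : ℤ) := by
          push_cast; linarith
        exact_mod_cast h3
    have hsingle : ∑ t ∈ Finset.piAntidiag univ (∑ i, u i + d),
        (if cond t ∧ t + ε = e0 + u then F ε * ((Nat.multinomial univ t : ℂ) * Q t) else 0) =
        if (∑ i, t0 i = ∑ i, u i + d) ∧ cond t0 then
          F ε * ((Nat.multinomial univ t0 : ℂ) * Q t0) else 0 := by
      by_cases hs : ∑ i, t0 i = ∑ i, u i + d
      · rw [Finset.sum_eq_single t0]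
        · simp [hs, ht]
        · intro t _ hne
          rw [if_neg]
          rintro ⟨_, h3⟩
          apply hne
          rw [ht0, ← h3]; simp
        · intro h
          exfalso
          apply h
          rw [Finset.mem_piAntidiag]
          exact ⟨hs, fun i _ => Finset.mem_univ i⟩
      · rw [if_neg (fun h => hs h.1)]
        apply Finset.sum_eq_zero
        intro t ht'
        rw [if_neg]
        rintro ⟨_, h3⟩
        have h4 : t = t0 := by rw [ht0, ← h3]; simp
        rw [Finset.mem_piAntidiag] at ht'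
        apply hs
        rw [← h4]
        exact ht'.1
    rw [hsingle]
    by_cases hc : (∑ i, ((ε i : ℤ) - e0 i) = -(d : ℤ)) ∧ cond' ε
    · rw [if_pos hc, if_pos ⟨hsum.mpr hc.1, (hcond t0 ε ht).mpr hc.2⟩]
      have h5 : ∏ i, (((u i + K).factorial : ℕ) : ℂ) =
          (∏ i, DD K ((ε i : ℤ) - e0 i) (u i : ℂ)) * ∏ i, ((t0 i).factorial : ℂ) := by
        rw [← Finset.prod_mul_distrib]
        refine Finset.prod_congr rfl fun i _ => ?_
        have h6 := hti i
        have h7 := hK i
        rw [← DD_nat_of_le K ((ε i : ℤ) - e0 i) (u i) (by omega) (by omega)]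
        congr 3
        omega
      have h8 := multinomial_cast t0
      rw [hsum.mpr hc.1] at h8
      rw [h5, ← h8, hQ t0 ε ht hc.2]
      ring
    · rw [if_neg hc, if_neg (fun h => hc ⟨hsum.mp h.1, (hcond t0 ε ht).mp h.2⟩)]
      simp
  · have h0 : ∏ i, DD K ((ε i : ℤ) - e0 i) (u i : ℂ) = 0 := by
      rw [Pi.le_def] at hle
      push Not at hle
      obtain ⟨i, hi⟩ := hle
      apply Finset.prod_eq_zero (Finset.mem_univ i)
      apply DD_nat_of_lt
      simp only [Pi.add_apply] at hi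
      omega
    rw [h0]
    have h2 : ∑ t ∈ Finset.piAntidiag univ (∑ i, u i + d),
        (if cond t ∧ t + ε = e0 + u then F ε * ((Nat.multinomial univ t : ℂ) * Q t) else 0) =
        0 := by
      apply Finset.sum_eq_zero
      intro t _
      rw [if_neg]
      rintro ⟨_, h3⟩
      apply hle
      rw [← h3]
      exact le_add_self
    rw [h2]
    simp

open Classical in
/-- The identity at integer points. -/
lemma identity_nat_gen (a : Fin r → (Fin n →₀ ℕ)) (κ : Fin r → ℂ)
    (g q : Polynomial ℚ) (βp : Polynomial ℂ) (P : WeylS n)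
    (hP : ∀ k : ℕ, P.act (k : ℂ) (sparsePoly a κ ^ (k + 1)) =
      C (((k : ℂ) + 1) * ((g.map (algebraMap ℚ ℂ)).eval (k : ℂ) +
        βp.eval (k : ℂ) * (q.map (algebraMap ℚ ℂ)).eval (k : ℂ))) * sparsePoly a κ ^ k)
    (Γ : Finset (Fin n →₀ ℕ)) (hΓ : ∀ β, (P β).support ⊆ Γ)
    (L : ℕ) (hL : ∀ β γ, ((P β).coeff γ).natDegree < L) (hLβ : βp.natDegree < L)
    (c : MvPolynomial (Fin r) ℚ) (Φ : ℂ → MvPolynomial (Fin r) ℚ)
    (hΦ : ∀ {ι ι' : Type} (I : Finset ι) (I' : Finset ι') (z : ι → ℂ) (z' : ι' → ℂ)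
        (ρ : ι → MvPolynomial (Fin r) ℚ) (ρ' : ι' → MvPolynomial (Fin r) ℚ)
        (ρ0 : MvPolynomial (Fin r) ℚ),
        (∀ i ∈ I, ∃ β ∈ P.support, ∃ γ ∈ Γ, ∃ l ∈ Finset.range L,
          z i = ((P β).coeff γ).coeff l) → (∀ i ∈ I', ∃ l ∈ Finset.range L,
            z' i = βp.coeff l) →
        ∑ i ∈ I, z i * aeval κ (ρ i) = aeval κ ρ0 + ∑ i ∈ I', z' i * aeval κ (ρ' i) →
        ∑ i ∈ I, Φ (z i) * ρ i = c * ρ0 + ∑ i ∈ I', Φ (z' i) * ρ' i)
    (W : Finset (Fin r → ℕ)) (hWc : ∀ e, cfC c e ≠ 0 → e ∈ W)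
    (hWP : ∀ β ∈ P.support, ∀ γ ∈ Γ, ∀ l ∈ Finset.range L,
      ∀ e, cfC (Φ (((P β).coeff γ).coeff l)) e ≠ 0 → e ∈ W)
    (hWβ : ∀ l ∈ Finset.range L, ∀ e, cfC (Φ (βp.coeff l)) e ≠ 0 → e ∈ W)
    (e0 : Fin r → ℕ) (K : ℕ) (hK : ∀ i, e0 i ≤ K) (u : Fin r → ℕ) :
    ∑ ε ∈ W, (if IsRel a (fun i => (ε i : ℤ) - e0 i) then
      (cfC c ε * (g.map (algebraMap ℚ ℂ)).eval ((∑ i, u i : ℕ) : ℂ) +
        (∑ l ∈ Finset.range L, cfC (Φ (βp.coeff l)) ε * ((∑ i, u i : ℕ) : ℂ) ^ l) *
          (q.map (algebraMap ℚ ℂ)).eval ((∑ i, u i : ℕ) : ℂ)) *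
        ∏ i, DD K ((ε i : ℤ) - e0 i) (u i : ℂ) else 0) =
    ∑ β ∈ P.support, ∑ γ ∈ Γ, ∑ ε ∈ W,
      (if IsShift a γ β (fun i => (ε i : ℤ) - e0 i) then
        (∑ l ∈ Finset.range L, cfC (Φ (((P β).coeff γ).coeff l)) ε *
          ((∑ i, u i : ℕ) : ℂ) ^ l) * (∏ i, DD K ((ε i : ℤ) - e0 i) (u i : ℂ)) *
        ∏ j, ff ((∑ i, (u i : ℂ) * (a i j : ℂ)) - γ j + β j) (β j) else 0) := by
  set k := ∑ i, u i with hk
  set v := expo a u with hv
  -- the complex relation
  set ρP : (Fin n →₀ ℕ) × (Fin n →₀ ℕ) × ℕ → MvPolynomial (Fin r) ℚ := fun x =>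
    C ((k : ℚ) ^ x.2.2) * ∑ t ∈ Finset.piAntidiag univ (k + 1),
      if x.2.1 + expo a t = v + x.1 then
        monomial (tf t) ((Nat.multinomial univ t : ℚ) *
          ∏ j, ((expo a t j).descFactorial (x.1 j) : ℚ)) else 0 with hρP
  set ρB : MvPolynomial (Fin r) ℚ := ∑ t ∈ Finset.piAntidiag univ k,
      if expo a t = v then monomial (tf t) (Nat.multinomial univ t : ℚ) else 0 with hρB
  have hqk : ∀ p : Polynomial ℚ, (p.map (algebraMap ℚ ℂ)).eval (k : ℂ) =
      ((p.eval (k : ℚ) : ℚ) : ℂ) := by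
    intro p
    rw [Polynomial.eval_map]
    have := Polynomial.hom_eval₂ p (RingHom.id ℚ) (algebraMap ℚ ℂ) (k : ℚ)
    simp only [RingHom.comp_id] at this
    rw [← Polynomial.eval₂_id, ]
    rw [show ((Polynomial.eval₂ (RingHom.id ℚ) (k : ℚ) p : ℚ) : ℂ) =
      algebraMap ℚ ℂ (Polynomial.eval₂ (RingHom.id ℚ) (k : ℚ) p) from rfl, this]
    simp
  have hexp : ∀ (p : Polynomial ℂ), p.natDegree < L → p.eval (k : ℂ) =
      ∑ l ∈ Finset.range L, p.coeff l * (k : ℂ) ^ l := fun p hp =>
    Polynomial.eval_eq_sum_range' hp _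
  have hrel := hΦ (P.support ×ˢ Γ ×ˢ Finset.range L) (Finset.range L)
    (fun x => ((P x.1).coeff x.2.1).coeff x.2.2) (fun l => βp.coeff l) ρP
    (fun l => C (((k : ℚ) + 1) * (k : ℚ) ^ l * q.eval (k : ℚ)) * ρB)
    (C (((k : ℚ) + 1) * g.eval (k : ℚ)) * ρB)
    (by
      rintro ⟨β, γ, l⟩ hx
      simp only [Finset.mem_product] at hx
      exact ⟨β, hx.1, γ, hx.2.1, l, hx.2.2, rfl⟩)
    (fun l hl => ⟨l, hl, rfl⟩)
    (by
      have h1 := congrArg (coeff v) (hP k)
      rw [coeff_act a κ P (k : ℂ) k v Γ hΓ, coeff_C_mul, sparse_pow, coeff_sum] at h1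
      have h2 : ∑ t ∈ Finset.piAntidiag univ k, coeff v (monomial (expo a t)
          ((Nat.multinomial univ t : ℂ) * ∏ i, κ i ^ t i)) = aeval κ ρB := by
        rw [hρB, map_sum]
        refine Finset.sum_congr rfl fun t _ => ?_
        rw [coeff_monomial]
        split_ifs
        · rw [aeval_tf]; push_cast; rfl
        · simp
      rw [h2] at h1
      have h3 : ∀ x : (Fin n →₀ ℕ) × (Fin n →₀ ℕ) × ℕ, aeval κ (ρP x) = (k : ℂ) ^ x.2.2 *
          ∑ t ∈ Finset.piAntidiag univ (k + 1),
          if x.2.1 + expo a t = v + x.1 then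
            (Nat.multinomial univ t : ℂ) * (∏ i, κ i ^ t i) * ∏ j, ff (expo a t j) (x.1 j)
          else 0 := by
        intro x
        simp only [hρP]
        rw [map_mul, map_sum, algHom_C]
        congr 1
        · simp
        · refine Finset.sum_congr rfl fun t _ => ?_
          split_ifs
          · rw [aeval_tf]
            push_cast
            simp only [ff_natCast]
            ring
          · simp
      rw [Finset.sum_product]
      simp only [Finset.sum_product, h3]
      have h4 : ∀ l, aeval κ (C (((k : ℚ) + 1) * (k : ℚ) ^ l * q.eval (k : ℚ)) * ρB) =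
          ((k : ℂ) + 1) * (k : ℂ) ^ l * ((q.eval (k : ℚ) : ℚ) : ℂ) * aeval κ ρB := by
        intro l
        rw [map_mul, algHom_C]
        congr 1
        simp
      have h5 : aeval κ (C (((k : ℚ) + 1) * g.eval (k : ℚ)) * ρB) =
          ((k : ℂ) + 1) * ((g.eval (k : ℚ) : ℚ) : ℂ) * aeval κ ρB := by
        rw [map_mul, algHom_C]
        congr 1
        simp
      simp only [h4, h5]
      have h6 : ∑ β ∈ P.support, ∑ γ ∈ Γ, ∑ l ∈ Finset.range L,
          ((P β).coeff γ).coeff l * ((k : ℂ) ^ l *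
          ∑ t ∈ Finset.piAntidiag univ (k + 1),
          if γ + expo a t = v + β then
            (Nat.multinomial univ t : ℂ) * (∏ i, κ i ^ t i) * ∏ j, ff (expo a t j) (β j)
          else 0) = ∑ β ∈ P.support, ∑ γ ∈ Γ, ((P β).coeff γ).eval (k : ℂ) *
          ∑ t ∈ Finset.piAntidiag univ (k + 1),
          if γ + expo a t = v + β then
            (Nat.multinomial univ t : ℂ) * (∏ i, κ i ^ t i) * ∏ j, ff (expo a t j) (β j)
          else 0 := by
        refine Finset.sum_congr rfl fun β _ => Finset.sum_congr rfl fun γ _ => ?_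
        rw [hexp _ (hL β γ), Finset.sum_mul]
        exact Finset.sum_congr rfl fun l _ => by ring
      rw [h6, h1, hexp βp hLβ, hqk, hqk]
      have h7 : ∑ l ∈ Finset.range L, βp.coeff l * (((k : ℂ) + 1) * (k : ℂ) ^ l *
          ((q.eval (k : ℚ) : ℚ) : ℂ) * aeval κ ρB) = ((k : ℂ) + 1) *
          ((∑ l ∈ Finset.range L, βp.coeff l * (k : ℂ) ^ l) * ((q.eval (k : ℚ) : ℚ) : ℂ)) *
          aeval κ ρB := by
        rw [Finset.sum_mul, Finset.mul_sum, Finset.sum_mul]
        exact Finset.sum_congr rfl fun l _ => by ring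
      rw [h7]
      ring)
  -- coefficient extraction
  have h1 := congrArg (fun p => (∏ i, (((u i + K).factorial : ℕ) : ℂ)) * cfC p (e0 + u)) hrel
  simp only [cfC_add, cfC_sum] at h1
  rw [mul_add] at h1
  -- the left hand side
  have hLHS : (∏ i, (((u i + K).factorial : ℕ) : ℂ)) * ∑ x ∈ P.support ×ˢ Γ ×ˢ Finset.range L,
      cfC (Φ (((P x.1).coeff x.2.1).coeff x.2.2) * ρP x) (e0 + u) =
      (((k + 1).factorial : ℕ) : ℂ) * ∑ β ∈ P.support, ∑ γ ∈ Γ, ∑ ε ∈ W,
      (if IsShift a γ β (fun i => (ε i : ℤ) - e0 i) then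
        (∑ l ∈ Finset.range L, cfC (Φ (((P β).coeff γ).coeff l)) ε *
          (k : ℂ) ^ l) * (∏ i, DD K ((ε i : ℤ) - e0 i) (u i : ℂ)) *
        ∏ j, ff ((∑ i, (u i : ℂ) * (a i j : ℂ)) - γ j + β j) (β j) else 0) := by
    rw [Finset.sum_product]
    simp only [Finset.sum_product]
    rw [Finset.mul_sum, Finset.mul_sum]
    refine Finset.sum_congr rfl fun β hβ => ?_
    rw [Finset.mul_sum, Finset.mul_sum]
    refine Finset.sum_congr rfl fun γ hγ => ?_
    have h2 : ∀ l ∈ Finset.range L, (∏ i, (((u i + K).factorial : ℕ) : ℂ)) *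
        cfC (Φ (((P β).coeff γ).coeff l) * ρP (β, γ, l)) (e0 + u) =
        (((k + 1).factorial : ℕ) : ℂ) * ∑ ε ∈ W,
        (if IsShift a γ β (fun i => (ε i : ℤ) - e0 i) then
          (cfC (Φ (((P β).coeff γ).coeff l)) ε * (k : ℂ) ^ l) *
            (∏ i, DD K ((ε i : ℤ) - e0 i) (u i : ℂ)) *
            ∏ j, ff ((∑ i, (u i : ℂ) * (a i j : ℂ)) - γ j + β j) (β j) else 0) := by
      intro l hl
      have h3 : Φ (((P β).coeff γ).coeff l) * ρP (β, γ, l) = C ((k : ℚ) ^ l) *
          ∑ t ∈ Finset.piAntidiag univ (k + 1), if γ + expo a t = v + β then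
            Φ (((P β).coeff γ).coeff l) * monomial (tf t) ((Nat.multinomial univ t : ℚ) *
          ∏ j, ((expo a t j).descFactorial (β j) : ℚ)) else 0 := by
        simp only [hρP]
        rw [mul_left_comm, Finset.mul_sum]
        congr 1
        refine Finset.sum_congr rfl fun t _ => ?_
        split_ifs <;> simp
      have h4 : cfC (Φ (((P β).coeff γ).coeff l) * ρP (β, γ, l)) (e0 + u) = (k : ℂ) ^ l *
          ∑ t ∈ Finset.piAntidiag univ (k + 1), (if γ + expo a t = v + β then
            ∑ ε ∈ W, (if t + ε = e0 + u then cfC (Φ (((P β).coeff γ).coeff l)) ε *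
              ((Nat.multinomial univ t : ℂ) * ∏ j, ff (expo a t j) (β j)) else 0) else 0) := by
        rw [h3, cfC_C_mul, cfC_sum]
        congr 1
        · push_cast; rfl
        · refine Finset.sum_congr rfl fun t _ => ?_
          split_ifs
          · rw [cfC_mul_monomial _ (hWP β hβ γ hγ l hl)]
            refine Finset.sum_congr rfl fun ε _ => ?_
            push_cast
            simp only [ff_natCast]
          · simp [cfC]
      rw [h4, mul_left_comm, swap_sum e0 u K 1 hK W (fun t => γ + expo a t = v + β)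
        (fun ε => ∀ j, ∑ i, ((ε i : ℤ) - e0 i) * (a i j : ℤ) = (γ j : ℤ) - β j) ?_
        (cfC (Φ (((P β).coeff γ).coeff l))) (fun t => ∏ j, ff (expo a t j) (β j))
        (fun _ => ∏ j, ff ((∑ i, (u i : ℂ) * (a i j : ℂ)) - γ j + β j) (β j)) ?_,
        mul_left_comm]
      · congr 1
        rw [Finset.mul_sum]
        refine Finset.sum_congr rfl fun ε _ => ?_
        by_cases hs : IsShift a γ β (fun i => (ε i : ℤ) - e0 i)
        · rw [if_pos hs, if_pos (by exact hs)]
          ring
        · rw [if_neg hs, if_neg (by exact hs)]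
          simp
      · intro t ε hte
        have hti : ∀ i, (t i : ℤ) + ε i = e0 i + u i := fun i => by
          have := congrFun hte i
          simp only [Pi.add_apply] at this
          exact_mod_cast this
        have key : ∀ j, (∑ i, ((ε i : ℤ) - e0 i) * (a i j : ℤ)) =
            (v j : ℤ) - (expo a t j : ℤ) := by
          intro j
          rw [hv, expo_apply, expo_apply]
          push_cast
          rw [← Finset.sum_sub_distrib]
          refine Finset.sum_congr rfl fun i _ => ?_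
          have := hti i
          have h6 : (ε i : ℤ) - e0 i = u i - t i := by linarith
          rw [h6]; ring
        constructor
        · intro h j
          have h7 : γ j + expo a t j = v j + β j := by
            rw [← Finsupp.add_apply, h, Finsupp.add_apply]
          rw [key j]
          have h8 : ((γ j + expo a t j : ℕ) : ℤ) = ((v j + β j : ℕ) : ℤ) := by rw [h7]
          push_cast at h8
          linarith
        · intro h
          ext j
          rw [Finsupp.add_apply, Finsupp.add_apply]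
          have h7 := h j
          rw [key j] at h7
          have h8 : ((γ j + expo a t j : ℕ) : ℤ) = ((v j + β j : ℕ) : ℤ) := by
            push_cast; linarith
          exact_mod_cast h8
      · intro t ε hte hc
        refine Finset.prod_congr rfl fun j _ => ?_
        congr 1
        have hti : ∀ i, (t i : ℤ) + ε i = e0 i + u i := fun i => by
          have := congrFun hte i
          simp only [Pi.add_apply] at this
          exact_mod_cast this
        have key : (expo a t j : ℤ) = (∑ i, (u i : ℤ) * (a i j : ℤ)) - γ j + β j := by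
          have h7 := hc j
          have h8 : (∑ i, ((ε i : ℤ) - e0 i) * (a i j : ℤ)) =
              (∑ i, (u i : ℤ) * (a i j : ℤ)) - (expo a t j : ℤ) := by
            rw [expo_apply]
            push_cast
            rw [← Finset.sum_sub_distrib]
            refine Finset.sum_congr rfl fun i _ => ?_
            have := hti i
            have h6 : (ε i : ℤ) - e0 i = u i - t i := by linarith
            rw [h6]; ring
          linarith
        have h9 : ((expo a t j : ℤ) : ℂ) =
            (((∑ i, (u i : ℤ) * (a i j : ℤ)) - γ j + β j : ℤ) : ℂ) := by rw [key]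
        push_cast at h9
        exact h9
    rw [Finset.mul_sum, Finset.sum_congr rfl h2, ← Finset.mul_sum, Finset.sum_comm]
    congr 1
    refine Finset.sum_congr rfl fun ε _ => ?_
    by_cases hs : IsShift a γ β (fun i => (ε i : ℤ) - e0 i)
    · simp only [if_pos hs]
      rw [← Finset.sum_mul, ← Finset.sum_mul]
    · simp only [if_neg hs]
      simp
  -- the b side: general computation
  have hB : ∀ (p : MvPolynomial (Fin r) ℚ) (hp : ∀ e, cfC p e ≠ 0 → e ∈ W) (x : ℚ),
      (∏ i, (((u i + K).factorial : ℕ) : ℂ)) * cfC (p * (C x * ρB)) (e0 + u) =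
      ((k.factorial : ℕ) : ℂ) * ∑ ε ∈ W, (if IsRel a (fun i => (ε i : ℤ) - e0 i) then
        cfC p ε * (x : ℂ) * ∏ i, DD K ((ε i : ℤ) - e0 i) (u i : ℂ) else 0) := by
    intro p hp x
    have h3 : p * (C x * ρB) = C x * ∑ t ∈ Finset.piAntidiag univ k,
        if expo a t = v then p * monomial (tf t) (Nat.multinomial univ t : ℚ) else 0 := by
      rw [hρB, mul_left_comm, Finset.mul_sum]
      congr 1
      refine Finset.sum_congr rfl fun t _ => ?_
      split_ifs <;> simp
    have h4 : cfC (p * (C x * ρB)) (e0 + u) = (x : ℂ) *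
        ∑ t ∈ Finset.piAntidiag univ (k + 0), (if expo a t = v then
          ∑ ε ∈ W, (if t + ε = e0 + u then cfC p ε *
            ((Nat.multinomial univ t : ℂ) * 1) else 0) else 0) := by
      rw [h3, cfC_C_mul, cfC_sum, add_zero]
      congr 1
      refine Finset.sum_congr rfl fun t _ => ?_
      split_ifs
      · rw [cfC_mul_monomial _ hp]
        refine Finset.sum_congr rfl fun ε _ => ?_
        push_cast
        rw [mul_one]
      · simp [cfC]
    rw [h4, mul_left_comm, swap_sum e0 u K 0 hK W (fun t => expo a t = v)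
      (fun ε => ∀ j, ∑ i, ((ε i : ℤ) - e0 i) * (a i j : ℤ) = 0) ?_
      (cfC p) (fun _ => 1) (fun _ => 1) (fun _ _ _ _ => rfl), mul_left_comm]
    · rw [add_zero]
      congr 1
      rw [Finset.mul_sum]
      refine Finset.sum_congr rfl fun ε _ => ?_
      by_cases hs : IsRel a (fun i => (ε i : ℤ) - e0 i)
      · rw [if_pos hs, if_pos (by
          refine ⟨?_, hs.2⟩
          have := hs.1
          simpa using this)]
        ring
      · rw [if_neg hs, if_neg (by
          intro h
          apply hs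
          refine ⟨?_, h.2⟩
          have := h.1
          simpa using this)]
        simp
    · intro t ε hte
      have hti : ∀ i, (t i : ℤ) + ε i = e0 i + u i := fun i => by
        have := congrFun hte i
        simp only [Pi.add_apply] at this
        exact_mod_cast this
      have key : ∀ j, (∑ i, ((ε i : ℤ) - e0 i) * (a i j : ℤ)) =
          (v j : ℤ) - (expo a t j : ℤ) := by
        intro j
        rw [hv, expo_apply, expo_apply]
        push_cast
        rw [← Finset.sum_sub_distrib]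
        refine Finset.sum_congr rfl fun i _ => ?_
        have := hti i
        have h6 : (ε i : ℤ) - e0 i = u i - t i := by linarith
        rw [h6]; ring
      constructor
      · intro h j
        rw [key j, h]; ring
      · intro h
        ext j
        have h7 := h j
        rw [key j] at h7
        have h8 : (expo a t j : ℤ) = (v j : ℤ) := by linarith
        exact_mod_cast h8
  have hRHS : (∏ i, (((u i + K).factorial : ℕ) : ℂ)) *
        cfC (c * (C (((k : ℚ) + 1) * g.eval (k : ℚ)) * ρB)) (e0 + u) +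
      (∏ i, (((u i + K).factorial : ℕ) : ℂ)) * ∑ l ∈ Finset.range L,
        cfC (Φ (βp.coeff l) * (C (((k : ℚ) + 1) * (k : ℚ) ^ l * q.eval (k : ℚ)) * ρB)) (e0 + u) =
      (((k + 1).factorial : ℕ) : ℂ) *
      ∑ ε ∈ W, (if IsRel a (fun i => (ε i : ℤ) - e0 i) then
      (cfC c ε * (g.map (algebraMap ℚ ℂ)).eval (k : ℂ) +
        (∑ l ∈ Finset.range L, cfC (Φ (βp.coeff l)) ε * (k : ℂ) ^ l) *
          (q.map (algebraMap ℚ ℂ)).eval (k : ℂ)) *
        ∏ i, DD K ((ε i : ℤ) - e0 i) (u i : ℂ) else 0) := by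
    have e1 := Finset.mul_sum (Finset.range L) (fun l =>
      cfC (Φ (βp.coeff l) * (C (((k : ℚ) + 1) * (k : ℚ) ^ l * q.eval (k : ℚ)) * ρB)) (e0 + u))
      (∏ i, (((u i + K).factorial : ℕ) : ℂ))
    rw [hB c hWc, e1, Finset.sum_congr rfl (fun l hl => hB (Φ (βp.coeff l)) (hWβ l hl)
      (((k : ℚ) + 1) * (k : ℚ) ^ l * q.eval (k : ℚ))), ← Finset.mul_sum,
      ← mul_add, Nat.factorial_succ, Finset.sum_comm, ← Finset.sum_add_distrib]
    have e2 : (((k + 1) * k.factorial : ℕ) : ℂ) = ((k.factorial : ℕ) : ℂ) * ((k : ℂ) + 1) := by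
      push_cast; ring
    rw [e2, mul_assoc, Finset.mul_sum (a := (k : ℂ) + 1)]
    congr 1
    refine Finset.sum_congr rfl fun ε _ => ?_
    by_cases hs : IsRel a (fun i => (ε i : ℤ) - e0 i)
    · simp only [if_pos hs]
      rw [hqk, hqk]
      have e3 : ∑ l ∈ Finset.range L, cfC (Φ (βp.coeff l)) ε *
          (((((k : ℚ) + 1) * (k : ℚ) ^ l * q.eval (k : ℚ) : ℚ)) : ℂ) *
          ∏ i, DD K ((ε i : ℤ) - e0 i) (u i : ℂ) = ((k : ℂ) + 1) *
          ((∑ l ∈ Finset.range L, cfC (Φ (βp.coeff l)) ε * (k : ℂ) ^ l) *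
            ((q.eval (k : ℚ) : ℚ) : ℂ)) * ∏ i, DD K ((ε i : ℤ) - e0 i) (u i : ℂ) := by
        rw [Finset.sum_mul, Finset.mul_sum, Finset.sum_mul]
        refine Finset.sum_congr rfl fun l _ => ?_
        push_cast
        ring
      rw [e3]
      push_cast
      ring
    · simp only [if_neg hs]
      simp
  rw [hLHS, hRHS] at h1
  have hk1 : (((k + 1).factorial : ℕ) : ℂ) ≠ 0 := by exact_mod_cast Nat.factorial_ne_zero _
  exact (mul_left_cancel₀ hk1 h1).symm

end Pool.Agent.H22
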