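import Pool.Agent.H22.Defs

/-! Lattice indices and adapted bases. -/

namespace Pool.Agent.H22

open Finset

section lattice

variable {κ ι : Type*} [Fintype κ] [Fintype ι] [DecidableEq ι]

theorem latIndex_eq_det (N : Submodule ℤ (κ → ℤ))
    (hsat : ∀ (k : ℤ) (x : κ → ℤ), k ≠ 0 → k • x ∈ N → x ∈ N)
    (b : Module.Basis ι ℤ N) (w : ι → κ → ℤ) (Q : Matrix ι ι ℤ)
    (hw : ∀ c, w c = ∑ c', Q c' c • (b c' : κ → ℤ)) (hQ : Q.det ≠ 0) :
    latIndex w = Q.det.natAbs := by
  classical
  have hwN : ∀ c, w c ∈ N := by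
    intro c
    rw [hw]
    exact Submodule.sum_mem _ fun c' _ => Submodule.smul_mem _ _ (b c').2
  set w' : ι → N := fun c => ⟨w c, hwN c⟩ with hw'
  have hw'eq : ∀ c, w' c = ∑ c', Q c' c • b c' := by
    intro c
    apply Subtype.ext
    simp only [hw', Submodule.coe_sum, Submodule.coe_smul]
    exact hw c
  have hlin : LinearIndependent ℤ w' := by
    rw [Fintype.linearIndependent_iff]
    intro x hx
    have h1 : ∑ c', (Q.mulVec x) c' • b c' = 0 := by
      rw [← hx]
      simp only [hw'eq, Finset.smul_sum, Matrix.mulVec, dotProduct, Finset.sum_smul]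
      rw [Finset.sum_comm]
      refine Finset.sum_congr rfl fun c _ => Finset.sum_congr rfl fun c' _ => ?_
      rw [smul_smul, mul_comm]
    have h2 := Fintype.linearIndependent_iff.mp b.linearIndependent _ h1
    have h3 : Q.mulVec x = 0 := funext h2
    have h4 := Matrix.eq_zero_of_mulVec_eq_zero hQ h3
    exact fun c => congrFun h4 c
  set W : Submodule ℤ N := Submodule.span ℤ (Set.range w') with hW
  let bW : Module.Basis ι ℤ W := Module.Basis.span hlin
  have hcard := Submodule.natAbs_det_basis_change b W bW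
  have hcoe : ((↑) ∘ bW : ι → N) = w' := by
    funext c
    exact congrArg Subtype.val (Module.Basis.span_apply hlin c)
  rw [hcoe] at hcard
  have hdet : b.det w' = Q.det := by
    rw [Module.Basis.det_apply]
    congr 1
    ext i j
    rw [Module.Basis.toMatrix_apply, hw'eq]
    simp [Finsupp.single_apply]
  rw [hdet] at hcard
  unfold latIndex
  rw [hcard]
  set S := Submodule.span ℤ (Set.range w) with hS
  let φ : N →ₗ[ℤ] ((κ → ℤ) ⧸ S) := S.mkQ.comp N.subtype
  have hmap : W.map N.subtype = S := by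
    rw [hW, Submodule.map_span, hS]
    congr 1
    rw [← Set.range_comp]
    rfl
  have hSN : S ≤ N := by
    rw [← hmap]
    intro x hx
    obtain ⟨y, _, rfl⟩ := hx
    exact y.2
  have hker : LinearMap.ker φ = W := by
    ext x
    rw [LinearMap.mem_ker]
    change S.mkQ (x : κ → ℤ) = 0 ↔ _
    rw [Submodule.mkQ_apply, Submodule.Quotient.mk_eq_zero, ← hmap]
    constructor
    · rintro ⟨y, hy, hyx⟩
      have : y = x := Subtype.ext hyx
      rwa [← this]
    · intro hx
      exact ⟨x, hx, rfl⟩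
  have hran : LinearMap.range φ = Submodule.torsion ℤ ((κ → ℤ) ⧸ S) := by
    ext y
    rw [Submodule.mem_torsion_iff]
    constructor
    · rintro ⟨x, rfl⟩
      have hne : (Q.det.natAbs : ℤ) ≠ 0 := by
        simpa using hQ
      refine ⟨⟨(Q.det.natAbs : ℤ), mem_nonZeroDivisors_of_ne_zero hne⟩, ?_⟩
      have h1 : (Nat.card (N ⧸ W)) • (Submodule.Quotient.mk x : N ⧸ W) = 0 :=
        card_nsmul_eq_zero'
      rw [← hcard] at h1
      have h2 : ((Q.det.natAbs : ℤ) • x) ∈ W := by
        rw [← Submodule.Quotient.mk_eq_zero W, Submodule.Quotient.mk_smul]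
        rw [natCast_zsmul]; exact h1
      rw [← hker, LinearMap.mem_ker, map_smul] at h2
      exact h2
    · rintro ⟨⟨k, hk⟩, h⟩
      obtain ⟨x, rfl⟩ := S.mkQ_surjective y
      have hk0 : k ≠ 0 := nonZeroDivisors.ne_zero hk
      have h1 : k • x ∈ S := by
        have h2 : S.mkQ (k • x) = 0 := by rw [map_smul]; exact h
        rwa [Submodule.mkQ_apply, Submodule.Quotient.mk_eq_zero] at h2
      exact ⟨⟨x, hsat k x hk0 (hSN h1)⟩, rfl⟩
  rw [← hran, ← hker]
  exact Nat.card_congr φ.quotKerEquivRange.symm.toEquiv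

/-- Adapted basis of a lattice with respect to linearly independent vectors. -/
theorem exists_adapted_basis (v : ι → κ → ℤ) (hv : LinearIndependent ℤ v) (d : ℕ)
    (hd : d + Fintype.card ι = Fintype.card κ) :
    ∃ (B : Module.Basis (Fin d ⊕ ι) ℤ (κ → ℤ)) (G : Matrix ι ι ℤ),
      (∀ i, v i = ∑ i', G i' i • B (Sum.inr i')) ∧ G.det ≠ 0 ∧ latIndex v = G.det.natAbs := by
  classical
  set S := Submodule.span ℤ (Set.range v) with hS
  let Qt := (κ → ℤ) ⧸ S
  let ψ : (κ → ℤ) →ₗ[ℤ] (Qt ⧸ Submodule.torsion ℤ Qt) :=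
    (Submodule.torsion ℤ Qt).mkQ.comp S.mkQ
  have hψ : Function.Surjective ψ :=
    (Submodule.mkQ_surjective _).comp (Submodule.mkQ_surjective _)
  set N := LinearMap.ker ψ with hN
  have hrS : Module.finrank ℤ S = Fintype.card ι := finrank_span_eq_card hv
  have hrQ : Module.finrank ℤ Qt = d := by
    have h1 := Submodule.finrank_quotient_add_finrank S
    rw [hrS, Module.finrank_fintype_fun_eq_card] at h1
    change Module.finrank ℤ ((κ → ℤ) ⧸ S) = d
    omega
  have hrT : Module.finrank ℤ (Qt ⧸ Submodule.torsion ℤ Qt) = d := by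
    rw [finrank_quotient_eq_of_le_torsion le_rfl, hrQ]
  let e := ψ.quotKerEquivOfSurjective hψ
  have hrN : Module.finrank ℤ N = Fintype.card ι := by
    have h1 := Submodule.finrank_quotient_add_finrank N
    have h2 : Module.finrank ℤ ((κ → ℤ) ⧸ N) = d := by rw [← hrT]; exact e.finrank_eq
    rw [h2, Module.finrank_fintype_fun_eq_card] at h1
    omega
  let bQ : Module.Basis (Fin d) ℤ ((κ → ℤ) ⧸ N) :=
    ((Module.finBasisOfFinrankEq ℤ (Qt ⧸ Submodule.torsion ℤ Qt) hrT)).map e.symm
  let bN : Module.Basis ι ℤ N :=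
    (Module.finBasisOfFinrankEq ℤ N hrN).reindex (Fintype.equivFin ι).symm
  let B : Module.Basis (Fin d ⊕ ι) ℤ (κ → ℤ) :=
    (Module.Basis.sumQuot bN bQ).reindex (Equiv.sumComm _ _)
  have hB : ∀ i, B (Sum.inr i) = bN i := by
    intro i
    simp [B]
  have hvN : ∀ i, v i ∈ N := by
    intro i
    rw [hN, LinearMap.mem_ker]
    change (Submodule.torsion ℤ Qt).mkQ (S.mkQ (v i)) = 0
    have : S.mkQ (v i) = 0 := by
      rw [Submodule.mkQ_apply, Submodule.Quotient.mk_eq_zero]
      exact Submodule.subset_span ⟨i, rfl⟩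
    rw [this, map_zero]
  let G : Matrix ι ι ℤ := fun i' i => bN.repr ⟨v i, hvN i⟩ i'
  have hG : ∀ i, v i = ∑ i', G i' i • (bN i' : κ → ℤ) := by
    intro i
    have h1 := bN.sum_repr ⟨v i, hvN i⟩
    have h2 := congrArg (fun x : N => (x : κ → ℤ)) h1
    simp only [Submodule.coe_sum, Submodule.coe_smul] at h2
    exact h2.symm
  have hdet : G.det ≠ 0 := by
    intro h0
    obtain ⟨x, hx0, hx⟩ := Matrix.exists_mulVec_eq_zero_iff.mpr h0
    apply hx0
    have h1 : ∑ i, x i • v i = 0 := by
      simp only [hG, Finset.smul_sum]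
      rw [Finset.sum_comm]
      have h2 : ∀ i', ∑ i, x i • G i' i • (bN i' : κ → ℤ) = (G.mulVec x) i' • (bN i' : κ → ℤ) := by
        intro i'
        simp only [Matrix.mulVec, dotProduct, Finset.sum_smul, smul_smul]
        exact Finset.sum_congr rfl fun i _ => by rw [mul_comm]
      simp only [h2, hx, Pi.zero_apply, zero_smul, Finset.sum_const_zero]
    exact funext (Fintype.linearIndependent_iff.mp hv x h1)
  refine ⟨B, G, fun i => ?_, hdet, ?_⟩
  · simp only [hB]
    exact hG i
  · refine latIndex_eq_det N ?_ bN v G hG hdet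
    intro k x hk hx
    rw [hN, LinearMap.mem_ker] at hx ⊢
    rw [map_smul] at hx
    exact (smul_eq_zero.mp hx).resolve_left hk

end lattice

end Pool.Agent.H22
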