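import Pool.Agent.H22.Rat
import Pool.Agent.H22.Lattice
import Pool.Agent.H22.Cones

/-! Face coordinates adapted to the lattice. -/

namespace Pool.Agent.H22

open Finset

variable {n r : ℕ}

/-- affine independence in coordinates -/
def AffInd (a : Fin r → (Fin n →₀ ℕ)) : Prop :=
  ∀ m : Fin r → ℝ, ∑ i, m i = 0 → (∀ j, ∑ i, m i * (a i j : ℝ) = 0) → m = 0

lemma rows_linearIndependent {a : Fin r → (Fin n →₀ ℕ)} (hA : AffInd a)
    (σ : Finset (Fin r)) : LinearIndependent ℤ (fun i : σ => homRow a i) := by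
  rw [Fintype.linearIndependent_iff]
  intro x hx
  have h1 := hA (fun i => if h : i ∈ σ then (x ⟨i, h⟩ : ℝ) else 0) ?_ ?_
  · intro i
    have h2 := congrFun h1 (i : Fin r)
    simp only [i.2, dif_pos, Pi.zero_apply] at h2
    exact_mod_cast h2
  · have h3 := congrFun hx (Sum.inl ())
    simp only [Finset.sum_apply, Pi.smul_apply, homRow, Sum.elim_inl, smul_eq_mul, mul_one,
      Pi.zero_apply] at h3
    have h4 : ∑ i : Fin r, (if h : i ∈ σ then (x ⟨i, h⟩ : ℝ) else 0) =
        ∑ i : σ, (x i : ℝ) := by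
      rw [← Finset.sum_subset (Finset.subset_univ σ), ← Finset.sum_coe_sort]
      · exact Finset.sum_congr rfl fun i _ => by simp
      · intro i _ hi; simp [hi]
    rw [h4]
    exact_mod_cast h3
  · intro j
    have h3 := congrFun hx (Sum.inr j)
    simp only [Finset.sum_apply, Pi.smul_apply, homRow, Sum.elim_inr, smul_eq_mul,
      Pi.zero_apply] at h3
    have h4 : ∑ i : Fin r, (if h : i ∈ σ then (x ⟨i, h⟩ : ℝ) else 0) * (a i j : ℝ) =
        ∑ i : σ, (x i : ℝ) * (a i j : ℝ) := by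
      rw [← Finset.sum_subset (Finset.subset_univ σ), ← Finset.sum_coe_sort]
      · exact Finset.sum_congr rfl fun i _ => by simp
      · intro i _ hi; simp [hi]
    rw [h4]
    exact_mod_cast h3

lemma gen_of_affInd {a : Fin r → (Fin n →₀ ℕ)} (hA : AffInd a) {σ : Finset (Fin r)} {d : ℕ}
    (A : Matrix (Kap n) (Fin d ⊕ σ) ℝ) (e : Kap n ≃ Fin d ⊕ σ)
    (hdet : (A.submatrix id e).det ≠ 0) (hadm : Adm a σ A) :
    ∀ l ∉ σ, ∃ c : Fin d, ell a l (fun z => A z (Sum.inl c)) ≠ 0 := by
  intro l hl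
  by_contra hcon
  push Not at hcon
  set β : σ → ℝ := fun i => ell a l (fun z => A z (Sum.inr i)) with hβ
  have h1 : ∀ z : Kap n → ℝ, ell a l z = ∑ i : σ, β i * ell a i z := by
    intro z
    obtain ⟨y, rfl⟩ := mulVec_surj A e hdet z
    rw [ell_mulVec, Fintype.sum_sum_type]
    simp only [hcon, zero_mul, Finset.sum_const_zero, zero_add]
    exact Finset.sum_congr rfl fun i _ => by rw [hadm]
  set m : Fin r → ℝ := fun i => (if i = l then 1 else 0) -
    (if h : i ∈ σ then β ⟨i, h⟩ else 0) with hm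
  have hsum : ∀ g : Fin r → ℝ, ∑ i, m i * g i = g l - ∑ i : σ, β i * g i := by
    intro g
    simp only [hm, sub_mul, Finset.sum_sub_distrib]
    congr 1
    · simp
    · rw [← Finset.sum_subset (Finset.subset_univ σ), ← Finset.sum_coe_sort]
      · exact Finset.sum_congr rfl fun i _ => by simp
      · intro i _ hi; simp [hi]
  have h2 := hA m ?_ ?_
  · have h3 := congrFun h2 l
    simp [hm, hl] at h3
  · have h3 := hsum (fun _ => 1)
    simp only [mul_one] at h3
    rw [h3]
    have h4 := h1 (Sum.elim (fun _ => 1) 0)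
    simp only [ell, Sum.elim_inr, Pi.zero_apply, mul_zero, Finset.sum_const_zero, zero_add,
      Sum.elim_inl, mul_one] at h4
    linarith
  · intro j
    rw [hsum (fun i => (a i j : ℝ))]
    have h4 := h1 (Sum.elim (fun _ => 0) (Pi.single j 1))
    have h5 : ∀ i, ell a i (Sum.elim (fun _ => 0) (Pi.single j 1) : Kap n → ℝ) = (a i j : ℝ) := by
      intro i
      simp only [ell, Sum.elim_inr, Sum.elim_inl, add_zero]
      rw [Finset.sum_eq_single j]
      · simp
      · intro j' _ hj'; simp [hj']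
      · intro h; exact absurd (Finset.mem_univ _) h
    simp only [h5] at h4
    linarith

/-- coordinates on a face adapted to the lattice -/
structure LatDat (a : Fin r → (Fin n →₀ ℕ)) (σ : Finset (Fin r)) where
  A : Matrix (Kap n) (Fin (n + 1 - σ.card) ⊕ σ) ℝ
  e : Kap n ≃ Fin (n + 1 - σ.card) ⊕ σ
  det_ne : (A.submatrix id e).det ≠ 0
  adm : Adm a σ A
  vol : |(A.submatrix id e).det| * (faceVol a σ : ℝ) = 1
  mult : σ.Nonempty → ∀ w : Fin (n + 1 - σ.card) → Fin n → ℕ,
    (∀ c, toReal (w c) ∈ minCone a σ) → LinearIndependent ℝ (fun c => toReal (w c)) →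
    ∃ Q : Matrix (Fin (n + 1 - σ.card)) (Fin (n + 1 - σ.card)) ℝ,
      (∀ c, kC A (fun c' => Q c' c) = toReal (w c)) ∧ |Q.det| = (coneMult w : ℝ)

/-- the underlying face coordinates -/
noncomputable def LatDat.toFace {a : Fin r → (Fin n →₀ ℕ)} {σ : Finset (Fin r)}
    (D : LatDat a σ) : FaceDat a σ :=
  ⟨n + 1 - σ.card, D.A, D.e, D.det_ne, D.adm⟩

lemma LatDat.gen {a : Fin r → (Fin n →₀ ℕ)} (hA : AffInd a) {σ : Finset (Fin r)}
    (D : LatDat a σ) : D.toFace.Gen :=
  gen_of_affInd hA D.A D.e D.det_ne D.adm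

theorem exists_latDat {a : Fin r → (Fin n →₀ ℕ)} (σ : Finset (Fin r))
    (hlin' : LinearIndependent ℤ (fun i : σ => homRow a i)) :
    Nonempty (LatDat a σ) := by
  classical
  set v : σ → Kap n → ℤ := fun i => homRow a i with hv
  have hlin : LinearIndependent ℤ v := hlin'
  have hcard : σ.card ≤ n + 1 := by
    have := hlin.fintype_card_le_finrank
    rw [Module.finrank_fintype_fun_eq_card] at this
    simp only [Fintype.card_coe, Fintype.card_sum, Fintype.card_unit, Fintype.card_fin] at this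
    omega
  set d := n + 1 - σ.card with hd
  have hdcard : d + Fintype.card σ = Fintype.card (Kap n) := by
    simp only [Fintype.card_coe, Fintype.card_sum, Fintype.card_unit, Fintype.card_fin]
    omega
  obtain ⟨B, G, hvG, hG, hidx⟩ := exists_adapted_basis v hlin d hdcard
  let e : Kap n ≃ Fin d ⊕ σ := Fintype.equivOfCardEq (by
    rw [← hdcard, Fintype.card_sum, Fintype.card_fin])
  set U : Matrix (Kap n) (Fin d ⊕ σ) ℤ := fun z k => B.repr (Pi.single z 1) k with hU
  set P : Matrix (Fin d ⊕ σ) (Kap n) ℤ := fun k z => B k z with hP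
  have hpair : ∀ (x : Kap n → ℤ) k, ∑ z, x z * U z k = B.repr x k := by
    intro x k
    have h1 : x = ∑ z, x z • (Pi.single z 1 : Kap n → ℤ) := by
      funext t
      simp [Finset.sum_apply, Pi.single_apply]
    conv_rhs => rw [h1]
    rw [map_sum, Finsupp.finsetSum_apply]
    refine Finset.sum_congr rfl fun z _ => ?_
    rw [map_smul]
    rfl
  have hPU : P * U = 1 := by
    ext k k'
    rw [Matrix.mul_apply, Matrix.one_apply]
    have := hpair (B k) k'
    rw [this]
    simp [Finsupp.single_apply]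
  have hUP : U * P = 1 := (Matrix.mul_eq_one_comm_of_equiv e.symm).mp hPU
  have hreprv : ∀ i k, B.repr (v i) k = Sum.elim (fun _ => 0) (fun i' => G i' i) k := by
    intro i k
    rw [hvG i, map_sum, Finsupp.finsetSum_apply]
    have h1 : ∀ i' : σ, (B.repr (G i' i • B (Sum.inr i'))) k =
        G i' i * (if k = Sum.inr i' then 1 else 0) := by
      intro i'
      rw [map_smul, Module.Basis.repr_self, Finsupp.smul_apply, Finsupp.single_apply, smul_eq_mul]
      congr 1
      by_cases h : k = Sum.inr i'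
      · rw [if_pos h, if_pos h.symm]
      · rw [if_neg h, if_neg (fun h' => h h'.symm)]
    simp only [h1]
    rcases k with k | k
    · simp
    · simp [Sum.inr.injEq]
  -- the real matrices
  set Ur : Matrix (Kap n) (Fin d ⊕ σ) ℝ := U.map (Int.cast : ℤ → ℝ) with hUr
  set Gr : Matrix σ σ ℝ := G.map (Int.cast : ℤ → ℝ) with hGr
  have hGrdet : Gr.det = (G.det : ℝ) := by
    have := (Int.castRingHom ℝ).map_det G
    simp only [eq_intCast] at this
    rw [this]
    rfl
  have hGr0 : Gr.det ≠ 0 := by rw [hGrdet]; exact_mod_cast hG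
  set X : Matrix σ σ ℝ := (Gr.transpose)⁻¹ with hX
  have hGX : Gr.transpose * X = 1 :=
    Matrix.mul_nonsing_inv _ (isUnit_iff_ne_zero.mpr (by rwa [Matrix.det_transpose]))
  set F : Matrix (Fin d ⊕ σ) (Fin d ⊕ σ) ℝ := Matrix.fromBlocks 1 0 0 X with hF
  set A : Matrix (Kap n) (Fin d ⊕ σ) ℝ := Ur * F with hAdef
  have hUdet : |(Ur.submatrix id e).det| = 1 := by
    have h1 : (P.submatrix e id) * (U.submatrix id e) = 1 := by
      have h2 : (P.submatrix e id) * (U.submatrix id e) = (P * U).submatrix e e := by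
        ext i j; simp [Matrix.mul_apply]
      rw [h2, hPU, Matrix.submatrix_one_equiv]
    have h3 : (P.submatrix e id).det * (U.submatrix id e).det = 1 := by
      rw [← Matrix.det_mul, h1, Matrix.det_one]
    have h4 : IsUnit (U.submatrix id e).det := IsUnit.of_mul_eq_one_right _ h3
    have h5 : (Ur.submatrix id e).det = ((U.submatrix id e).det : ℝ) := by
      have := (Int.castRingHom ℝ).map_det (U.submatrix id e)
      simp only [eq_intCast] at this
      rw [this]
      rfl
    rw [h5]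
    rcases Int.isUnit_iff.mp h4 with h | h <;> rw [h] <;> simp
  have hFdet : F.det = X.det := by
    rw [hF, Matrix.det_fromBlocks_zero₂₁, Matrix.det_one, one_mul]
  have hXdet : X.det * (G.det : ℝ) = 1 := by
    have := congrArg Matrix.det hGX
    rw [Matrix.det_mul, Matrix.det_transpose, Matrix.det_one, hGrdet] at this
    linarith
  have hAdet : |(A.submatrix id e).det| = |X.det| := by
    have h1 : A.submatrix id e = (Ur.submatrix id e) * (F.submatrix e e) := by
      rw [Matrix.submatrix_mul_equiv]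
    rw [h1, Matrix.det_mul, abs_mul, hUdet, one_mul, Matrix.det_submatrix_equiv_self, hFdet]
  have hX0 : X.det ≠ 0 := by
    intro h; rw [h] at hXdet; simp at hXdet
  have hdetA : (A.submatrix id e).det ≠ 0 := by
    rw [← abs_ne_zero, hAdet, abs_ne_zero]; exact hX0
  have hAinl : ∀ z c, A z (Sum.inl c) = (U z (Sum.inl c) : ℝ) := by
    intro z c
    rw [hAdef, Matrix.mul_apply, Fintype.sum_sum_type]
    simp [hF, Matrix.one_apply, hUr]
  have hellU : ∀ (i : σ) (k : Fin d ⊕ σ), ∑ z, (v i z : ℝ) * Ur z k =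
      Sum.elim (fun _ => 0) (fun i' => Gr i' i) k := by
    intro i k
    have h1 := hpair (v i) k
    rw [hreprv] at h1
    have h2 : ∑ z, (v i z : ℝ) * Ur z k = ((∑ z, v i z * U z k : ℤ) : ℝ) := by
      push_cast; rfl
    rw [h2, h1]
    rcases k with k | k <;> simp [hGr]
  have hellv : ∀ (i : σ) (z : Kap n → ℝ), ell a i z = ∑ t, (v i t : ℝ) * z t := by
    intro i z
    unfold ell
    rw [Fintype.sum_sum_type]
    simp [hv, homRow]
    ring
  have hadm : Adm a σ A := by
    intro y i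
    rw [ell_mulVec, Fintype.sum_sum_type]
    have h1 : ∀ k, ell a i (fun z => A z k) =
        ∑ k', (Sum.elim (fun _ => 0) (fun i' => Gr i' i) k' : ℝ) * F k' k := by
      intro k
      rw [hellv]
      simp only [hAdef, Matrix.mul_apply, Finset.mul_sum]
      rw [Finset.sum_comm]
      refine Finset.sum_congr rfl fun k' _ => ?_
      rw [← hellU i k', Finset.sum_mul]
      exact Finset.sum_congr rfl fun z _ => by ring
    have h2 : ∀ c, ell a i (fun z => A z (Sum.inl c)) = 0 := by
      intro c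
      rw [h1, Fintype.sum_sum_type]
      simp [hF]
    have h3 : ∀ i', ell a i (fun z => A z (Sum.inr i')) = if i = i' then 1 else 0 := by
      intro i'
      rw [h1, Fintype.sum_sum_type]
      have h4 : (Gr.transpose * X) i i' = (1 : Matrix σ σ ℝ) i i' := by rw [hGX]
      rw [Matrix.mul_apply, Matrix.one_apply] at h4
      rw [← h4]
      simp [hF]
    simp only [h2, h3, zero_mul, Finset.sum_const_zero, zero_add, ite_mul, one_mul]
    simp
  refine ⟨⟨A, e, hdetA, hadm, ?_, ?_⟩⟩
  · rw [hAdet]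
    have h1 : (faceVol a σ : ℝ) = |(G.det : ℝ)| := by
      have : faceVol a σ = G.det.natAbs := hidx
      rw [this, Nat.cast_natAbs, Int.cast_abs]
    rw [h1, ← abs_mul, hXdet, abs_one]
  · intro hσ w hmem hind
    obtain ⟨i0, hi0⟩ := hσ
    set lift : (Fin n → ℤ) → Kap n → ℤ := fun k =>
      Sum.elim (fun _ => -∑ j, (a i0 j : ℤ) * k j) k with hlift
    set u : Fin d → Fin n → ℤ := fun c j => U (Sum.inr j) (Sum.inl c) with hu
    let N' : Submodule ℤ (Fin n → ℤ) :=
      { carrier := {k | ∀ i ∈ σ, ∀ l ∈ σ, ∑ j, (a i j : ℤ) * k j = ∑ j, (a l j : ℤ) * k j}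
        add_mem' := by
          intro x y hx hy i hi l hl
          simp only [Pi.add_apply, mul_add, Finset.sum_add_distrib]
          rw [hx i hi l hl, hy i hi l hl]
        zero_mem' := by intro i _ l _; simp
        smul_mem' := by
          intro c x hx i hi l hl
          have h1 : ∀ i : Fin r, ∑ j, (a i j : ℤ) * (c • x) j = c * ∑ j, (a i j : ℤ) * x j := by
            intro i
            rw [Finset.mul_sum]
            exact Finset.sum_congr rfl fun j _ => by simp; ring
          rw [h1, h1, hx i hi l hl] }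
    have hmemN : ∀ k : Fin n → ℤ, k ∈ N' ↔
        ∀ i ∈ σ, ∀ l ∈ σ, ∑ j, (a i j : ℤ) * k j = ∑ j, (a l j : ℤ) * k j := fun k => Iff.rfl
    have hUrel : ∀ (i : σ) c, U (Sum.inl ()) (Sum.inl c) = -∑ j, (a i j : ℤ) * u c j := by
      intro i c
      have h1 := hpair (v i) (Sum.inl c)
      rw [hreprv, Fintype.sum_sum_type] at h1
      simp only [hv, homRow, Sum.elim_inl, Sum.elim_inr, one_mul, Finset.univ_unique,
        Finset.sum_singleton, PUnit.default_eq_unit] at h1
      simp only [hu]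
      linarith
    have huN : ∀ c, u c ∈ N' := by
      intro c i hi l hl
      have h1 := hUrel ⟨i, hi⟩ c
      have h2 := hUrel ⟨l, hl⟩ c
      simp only at h1 h2
      linarith
    have hP0 : ∀ k ∈ N', ∀ i', (P.mulVec (lift k)) (Sum.inr i') = 0 := by
      intro k hk
      have h1 : (G.transpose).mulVec (fun i' => (P.mulVec (lift k)) (Sum.inr i')) = 0 := by
        funext i
        simp only [Matrix.mulVec, dotProduct, Matrix.transpose_apply, Pi.zero_apply,
          Finset.mul_sum]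
        rw [Finset.sum_comm]
        have h2 : ∀ t, ∑ i', G i' i * (P (Sum.inr i') t * lift k t) = v i t * lift k t := by
          intro t
          have h3 := congrFun (hvG i) t
          rw [h3]
          simp only [Finset.sum_apply, Pi.smul_apply, smul_eq_mul, Finset.sum_mul, hP]
          exact Finset.sum_congr rfl fun i' _ => by ring
        simp only [h2]
        rw [Fintype.sum_sum_type]
        simp only [hv, homRow, hlift, Sum.elim_inl, Sum.elim_inr, one_mul, Finset.univ_unique,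
          Finset.sum_singleton, PUnit.default_eq_unit]
        have h4 := hk i i.2 i0 hi0
        linarith
      have h2 := Matrix.eq_zero_of_mulVec_eq_zero (by rwa [Matrix.det_transpose]) h1
      exact fun i' => congrFun h2 i'
    have hrec : ∀ k ∈ N', k = ∑ c, (P.mulVec (lift k)) (Sum.inl c) • u c := by
      intro k hk
      have h1 : U.mulVec (P.mulVec (lift k)) = lift k := by
        rw [Matrix.mulVec_mulVec, hUP, Matrix.one_mulVec]
      funext j
      have h2 := congrFun h1 (Sum.inr j)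
      simp only [hlift, Sum.elim_inr] at h2
      conv_lhs => rw [← h2]
      rw [Matrix.mulVec, dotProduct, Fintype.sum_sum_type]
      have h3 : ∀ i', (P.mulVec (Sum.elim (fun _ => -∑ j, (a i0 j : ℤ) * k j) k)) (Sum.inr i')
          = 0 := hP0 k hk
      simp only [h3, mul_zero, Finset.sum_const_zero, add_zero, Finset.sum_apply,
        Pi.smul_apply, smul_eq_mul, hu]
      exact Finset.sum_congr rfl fun c _ => mul_comm _ _
    have hli : LinearIndependent ℤ (fun c => (⟨u c, huN c⟩ : N')) := by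
      rw [Fintype.linearIndependent_iff]
      intro x hx
      have hx' : ∑ c, x c • u c = 0 := by
        have := congrArg (fun y : N' => (y : Fin n → ℤ)) hx
        simpa [Submodule.coe_sum] using this
      have h1 : U.mulVec (Sum.elim x 0) = 0 := by
        funext t
        rw [Matrix.mulVec, dotProduct, Fintype.sum_sum_type]
        simp only [Sum.elim_inl, Sum.elim_inr, Pi.zero_apply, mul_zero, Finset.sum_const_zero,
          add_zero]
        rcases t with t | j
        · have h2 : ∀ c, U (Sum.inl t) (Sum.inl c) * x c =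
              -∑ j, (a i0 j : ℤ) * (x c * u c j) := by
            intro c
            have h3 := hUrel ⟨i0, hi0⟩ c
            rw [show (Sum.inl t : Kap n) = Sum.inl () from rfl, h3, neg_mul, Finset.sum_mul]
            congr 1
            exact Finset.sum_congr rfl fun j _ => by ring
          simp only [h2]
          rw [Finset.sum_neg_distrib, Finset.sum_comm]
          simp only [← Finset.mul_sum]
          have h4 : ∀ j, ∑ c, x c * u c j = 0 := by
            intro j
            have := congrFun hx' j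
            simpa using this
          simp [h4]
        · have := congrFun hx' j
          simp only [Finset.sum_apply, Pi.smul_apply, smul_eq_mul, Pi.zero_apply, hu] at this
          rw [← this]
          exact Finset.sum_congr rfl fun c _ => mul_comm _ _
      have h2 : P.mulVec (U.mulVec (Sum.elim x 0)) = Sum.elim x 0 := by
        rw [Matrix.mulVec_mulVec, hPU, Matrix.one_mulVec]
      rw [h1, Matrix.mulVec_zero] at h2
      intro c
      have := congrFun h2 (Sum.inl c)
      simpa using this.symm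
    have hsp : ⊤ ≤ Submodule.span ℤ (Set.range (fun c => (⟨u c, huN c⟩ : N'))) := by
      rintro ⟨k, hk⟩ _
      have h1 : (⟨k, hk⟩ : N') = ∑ c, (P.mulVec (lift k)) (Sum.inl c) • (⟨u c, huN c⟩ : N') := by
        apply Subtype.ext
        simp only [Submodule.coe_sum, Submodule.coe_smul]
        exact hrec k hk
      rw [h1]
      exact Submodule.sum_mem _ fun c _ =>
        Submodule.smul_mem _ _ (Submodule.subset_span ⟨c, rfl⟩)
    let b : Module.Basis (Fin d) ℤ N' := Module.Basis.mk hli hsp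
    have hb : ∀ c, (b c : Fin n → ℤ) = u c := by
      intro c
      simp [b, Module.Basis.mk_apply]
    set wz : Fin d → Fin n → ℤ := fun c j => (w c j : ℤ) with hwz
    have hwN : ∀ c, wz c ∈ N' := by
      intro c i hi l hl
      have h1 := (hmem c).2 i hi l
      have h2 := (hmem c).2 l hl i
      have h3 : ∑ j, (a i j : ℝ) * toReal (w c) j = ∑ j, (a l j : ℝ) * toReal (w c) j :=
        le_antisymm h1 h2
      unfold toReal at h3
      simp only [hwz]
      exact_mod_cast h3
    set Qz : Matrix (Fin d) (Fin d) ℤ := fun c' c => (P.mulVec (lift (wz c))) (Sum.inl c')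
      with hQz
    have hwQ : ∀ c, wz c = ∑ c', Qz c' c • (b c' : Fin n → ℤ) := by
      intro c
      simp only [hb]
      exact hrec (wz c) (hwN c)
    set Q : Matrix (Fin d) (Fin d) ℝ := Qz.map (Int.cast : ℤ → ℝ) with hQ
    have hkQ : ∀ c, kC A (fun c' => Q c' c) = toReal (w c) := by
      intro c
      funext j
      unfold kC toReal
      rw [mulVec_elim_zero]
      simp only [hAinl]
      have h1 := congrFun (hwQ c) j
      simp only [hb, Finset.sum_apply, Pi.smul_apply, smul_eq_mul, hwz, hu] at h1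
      have h2 : ((w c j : ℤ) : ℝ) = ((∑ c', Qz c' c * U (Sum.inr j) (Sum.inl c') : ℤ) : ℝ) := by
        rw [h1]
      push_cast at h2
      rw [h2]
      refine Finset.sum_congr rfl fun c' _ => ?_
      simp only [hQ, Matrix.map_apply]
      ring
    have hQdet : Q.det = (Qz.det : ℝ) := by
      have := (Int.castRingHom ℝ).map_det Qz
      simp only [eq_intCast] at this
      rw [this]
      rfl
    have hQ0 : Qz.det ≠ 0 := by
      intro h0
      have h1 : Q.det = 0 := by rw [hQdet, h0]; simp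
      obtain ⟨x, hx0, hx⟩ := Matrix.exists_mulVec_eq_zero_iff.mpr h1
      apply hx0
      have h2 := kC_sum A Q x
      rw [hx] at h2
      have h3 : kC A (0 : Fin d → ℝ) = 0 := by
        funext j; simp [kC]
      rw [h3] at h2
      simp only [hkQ] at h2
      funext c
      exact (Fintype.linearIndependent_iff.mp hind) x h2.symm c
    refine ⟨Q, hkQ, ?_⟩
    have hsat : ∀ (k : ℤ) (x : Fin n → ℤ), k ≠ 0 → k • x ∈ N' → x ∈ N' := by
      intro k x hk hx i hi l hl
      have h1 := hx i hi l hl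
      have h2 : ∀ i : Fin r, ∑ j, (a i j : ℤ) * (k • x) j = k * ∑ j, (a i j : ℤ) * x j := by
        intro i
        rw [Finset.mul_sum]
        exact Finset.sum_congr rfl fun j _ => by simp; ring
      rw [h2, h2] at h1
      exact mul_left_cancel₀ hk h1
    have hfin := latIndex_eq_det N' hsat b wz Qz hwQ hQ0
    rw [hQdet]
    have : coneMult w = Qz.det.natAbs := hfin
    rw [this, Nat.cast_natAbs, Int.cast_abs]

end Pool.Agent.H22

/-! Invariance of the normalised volume under adding an apex at height one. -/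

namespace Pool.Agent.H22

open Finset

variable {n r : ℕ}

lemma mem_torsion_mkQ {κ : Type*} (S : Submodule ℤ (κ → ℤ)) (x : κ → ℤ) :
    S.mkQ x ∈ Submodule.torsion ℤ ((κ → ℤ) ⧸ S) ↔ ∃ k : ℤ, k ≠ 0 ∧ k • x ∈ S := by
  rw [Submodule.mem_torsion_iff]
  constructor
  · rintro ⟨⟨k, hk⟩, h⟩
    refine ⟨k, nonZeroDivisors.ne_zero hk, ?_⟩
    have h2 : S.mkQ (k • x) = 0 := by rw [map_smul]; exact h
    rwa [Submodule.mkQ_apply, Submodule.Quotient.mk_eq_zero] at h2
  · rintro ⟨k, hk, h⟩
    refine ⟨⟨k, mem_nonZeroDivisors_of_ne_zero hk⟩, ?_⟩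
    have h2 : S.mkQ (k • x) = 0 := by
      rwa [Submodule.mkQ_apply, Submodule.Quotient.mk_eq_zero]
    rw [map_smul] at h2
    exact h2

lemma card_torsion_apex {κ : Type*} (S : Submodule ℤ (κ → ℤ)) (x0 : κ → ℤ) (t : κ)
    (hx : x0 t = 1) (hS : ∀ y ∈ S, y t = 0) :
    Nat.card (Submodule.torsion ℤ ((κ → ℤ) ⧸ (Submodule.span ℤ {x0} ⊔ S))) =
      Nat.card (Submodule.torsion ℤ ((κ → ℤ) ⧸ S)) := by
  set S' := Submodule.span ℤ {x0} ⊔ S with hS'
  have hle : S ≤ S' := le_sup_right
  let π : ((κ → ℤ) ⧸ S) →ₗ[ℤ] ((κ → ℤ) ⧸ S') := S.mapQ S' LinearMap.id hle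
  have hπ : ∀ x, π (S.mkQ x) = S'.mkQ x := fun x => rfl
  have hmem' : ∀ x, x ∈ S' ↔ ∃ c : ℤ, ∃ s ∈ S, x = c • x0 + s := by
    intro x
    rw [hS', Submodule.mem_sup]
    constructor
    · rintro ⟨y, hy, s, hs, rfl⟩
      obtain ⟨c, rfl⟩ := Submodule.mem_span_singleton.mp hy
      exact ⟨c, s, hs, rfl⟩
    · rintro ⟨c, s, hs, rfl⟩
      exact ⟨c • x0, Submodule.mem_span_singleton.mpr ⟨c, rfl⟩, s, hs, rfl⟩
  have htor : ∀ y ∈ Submodule.torsion ℤ ((κ → ℤ) ⧸ S),
      π y ∈ Submodule.torsion ℤ ((κ → ℤ) ⧸ S') := by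
    intro y hy
    obtain ⟨x, rfl⟩ := S.mkQ_surjective y
    rw [hπ, mem_torsion_mkQ]
    obtain ⟨k, hk, h⟩ := (mem_torsion_mkQ S x).mp hy
    exact ⟨k, hk, hle h⟩
  let f : Submodule.torsion ℤ ((κ → ℤ) ⧸ S) →ₗ[ℤ] Submodule.torsion ℤ ((κ → ℤ) ⧸ S') :=
    π.restrict htor
  have hbij : Function.Bijective f := by
    constructor
    · rw [← LinearMap.ker_eq_bot, LinearMap.ker_eq_bot']
      rintro ⟨y, hy⟩ h0
      obtain ⟨x, rfl⟩ := S.mkQ_surjective y
      obtain ⟨k, hk, h⟩ := (mem_torsion_mkQ S x).mp hy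
      have h1 : x t = 0 := by
        have := hS _ h
        simp only [Pi.smul_apply, smul_eq_mul] at this
        exact (mul_eq_zero.mp this).resolve_left hk
      have h2 : S'.mkQ x = 0 := congrArg Subtype.val h0
      rw [Submodule.mkQ_apply, Submodule.Quotient.mk_eq_zero, hmem'] at h2
      obtain ⟨c, s, hs, hxs⟩ := h2
      have h3 : c = 0 := by
        have h4 := congrFun hxs t
        simp only [Pi.add_apply, Pi.smul_apply, smul_eq_mul, hx, hS s hs, h1] at h4
        linarith
      apply Subtype.ext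
      change S.mkQ x = 0
      rw [Submodule.mkQ_apply, Submodule.Quotient.mk_eq_zero, hxs, h3]
      simpa using hs
    · rintro ⟨y, hy⟩
      obtain ⟨x, rfl⟩ := S'.mkQ_surjective y
      obtain ⟨k, hk, h⟩ := (mem_torsion_mkQ S' x).mp hy
      obtain ⟨c, s, hs, hxs⟩ := (hmem' _).mp h
      have h3 : k * x t = c := by
        have h4 := congrFun hxs t
        simp only [Pi.add_apply, Pi.smul_apply, smul_eq_mul, hx, hS s hs] at h4
        linarith
      have h5 : k • (x - x t • x0) = s := by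
        rw [smul_sub, smul_smul, h3, hxs]
        abel
      have h6 : S.mkQ (x - x t • x0) ∈ Submodule.torsion ℤ ((κ → ℤ) ⧸ S) :=
        (mem_torsion_mkQ S _).mpr ⟨k, hk, by rw [h5]; exact hs⟩
      refine ⟨⟨_, h6⟩, ?_⟩
      apply Subtype.ext
      change S'.mkQ (x - x t • x0) = S'.mkQ x
      rw [map_sub]
      have h7 : S'.mkQ (x t • x0) = 0 := by
        rw [Submodule.mkQ_apply, Submodule.Quotient.mk_eq_zero]
        exact (hmem' _).mpr ⟨x t, 0, S.zero_mem, by simp⟩
      rw [h7, sub_zero]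
  exact (Nat.card_congr (Equiv.ofBijective f hbij)).symm

lemma faceVol_insert {a : Fin r → (Fin n →₀ ℕ)} (σ : Finset (Fin r)) (i : Fin r)
    (t : Kap n) (h1 : homRow a i t = 1) (h0 : ∀ l ∈ σ, homRow a l t = 0) :
    faceVol a (insert i σ) = faceVol a σ := by
  classical
  unfold faceVol latIndex
  have hr : Set.range (fun l : (insert i σ : Finset (Fin r)) => homRow a l) =
      insert (homRow a i) (Set.range (fun l : σ => homRow a l)) := by
    ext x
    simp only [Set.mem_range, Set.mem_insert_iff, Subtype.exists, Finset.mem_insert]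
    constructor
    · rintro ⟨l, hl, rfl⟩
      rcases hl with rfl | hl
      · exact Or.inl rfl
      · exact Or.inr ⟨l, hl, rfl⟩
    · rintro (rfl | ⟨l, hl, rfl⟩)
      · exact ⟨i, Or.inl rfl, rfl⟩
      · exact ⟨l, Or.inr hl, rfl⟩
  rw [hr, Submodule.span_insert]
  refine card_torsion_apex _ _ t h1 ?_
  intro y hy
  induction hy using Submodule.span_induction with
  | mem x hx =>
    obtain ⟨l, rfl⟩ := hx
    exact h0 l l.2
  | zero => rfl
  | add x y _ _ hx hy => simp [hx, hy]
  | smul c x _ hx => simp [hx]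

lemma faceVol_empty (a : Fin r → (Fin n →₀ ℕ)) : faceVol a ∅ = 1 := by
  unfold faceVol latIndex
  have hr : Set.range (fun l : (∅ : Finset (Fin r)) => homRow a l) = ∅ := by
    ext x; simp
  rw [hr, Submodule.span_empty]
  have h1 : Submodule.torsion ℤ ((Unit ⊕ Fin n → ℤ) ⧸ (⊥ : Submodule ℤ (Unit ⊕ Fin n → ℤ))) = ⊥ := by
    rw [eq_bot_iff]
    intro y hy
    obtain ⟨x, rfl⟩ := Submodule.mkQ_surjective _ y
    obtain ⟨k, hk, h⟩ := (mem_torsion_mkQ _ x).mp hy
    rw [Submodule.mem_bot] at h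
    have : x = 0 := (smul_eq_zero.mp h).resolve_left hk
    rw [this]; simp
  rw [h1]
  simp

lemma faceVol_singleton (a : Fin r → (Fin n →₀ ℕ)) (i : Fin r) : faceVol a {i} = 1 := by
  have h := faceVol_insert (a := a) ∅ i (Sum.inl ()) rfl (by simp)
  rw [faceVol_empty] at h
  rw [← h]
  rfl

lemma faceVol_apexInv (a : Fin r → (Fin n →₀ ℕ)) :
    ApexInv a (fun σ => ((faceVol a σ : ℂ)) ^ 2) := by
  intro σ i j _ hij hl
  simp only
  rw [faceVol_insert σ i (Sum.inr j)]
  · simp [homRow, hij]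
  · intro l hl'
    simp [homRow, hl l hl']

end Pool.Agent.H22

/-! The main theorem: `b(s) Z_top(s)` is a polynomial. -/

namespace Pool.Agent.H22

open Finset MeasureTheory

variable {n r : ℕ}

lemma wsum_pos {d : ℕ} {w : Fin d → Fin n → ℕ}
    (hind : LinearIndependent ℝ (fun c => toReal (w c))) (c : Fin d) : 0 < wsum (w c) := by
  rw [Nat.pos_iff_ne_zero]
  intro h0
  unfold wsum at h0
  rw [Finset.sum_eq_zero_iff] at h0
  apply hind.ne_zero c
  funext j
  unfold toReal
  rw [h0 j (Finset.mem_univ _)]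
  simp

/-- value of `J_σ` -/
noncomputable def Jval (a : Fin r → (Fin n →₀ ℕ)) (σ : Finset (Fin r)) (𝒟 : ConeDecomp a σ)
    (s : ℝ) : ℝ :=
  ∑ C, (coneMult (𝒟.w C) : ℝ) *
    ∏ c, (1 / ((wsum (𝒟.w C c) : ℝ) + s * (wmin a (𝒟.w C c) : ℝ)))

lemma Jfun_good (a : Fin r → (Fin n →₀ ℕ)) (σ : Finset (Fin r)) (𝒟 : ConeDecomp a σ) :
    GoodR (Jfun a σ 𝒟) (fun s => (Jval a σ 𝒟 s : ℂ)) := by
  unfold Jfun
  refine GoodR.congr (GoodR.sum _ fun C _ => (GoodR.natCast _).mul
    (GoodR.prod _ fun c _ => GoodR.inv_linear (wsum_pos (𝒟.indep C) c))) ?_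
  intro s _
  unfold Jval
  push_cast
  rfl

lemma Jval_eq {a : Fin r → (Fin n →₀ ℕ)} {σ : Finset (Fin r)} (D : LatDat a σ)
    (hσ : σ.Nonempty) (𝒟 : ConeDecomp a σ) {s : ℝ} (hs : 0 < s) :
    Jval a σ 𝒟 s = (faceVol a σ : ℝ) * (|(D.A.submatrix id D.e).det| *
      ∫ p : Fin D.toFace.d → ℝ, Ik a σ D.toFace.A p * Real.exp (s * nuC D.toFace.A p)) := by
  have hQ := fun C => D.mult hσ (𝒟.w C) (𝒟.mem C) (𝒟.indep C)
  choose Q hQ1 hQ2 using hQ
  rw [cone_integral D.toFace hσ 𝒟.w 𝒟.mem 𝒟.indep 𝒟.disj 𝒟.cover Q hQ1 hs, ← mul_assoc,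
    mul_comm (faceVol a σ : ℝ), D.vol, one_mul]
  unfold Jval
  refine Finset.sum_congr rfl fun C _ => ?_
  rw [← hQ2]
  rfl

lemma exists_split {a : Fin r → (Fin n →₀ ℕ)} {σ : Finset (Fin r)} (D : LatDat a σ)
    (𝒟 : ConeDecomp a σ) : ∃ G : ℝ → ℝ, AnalyticOnNhd ℝ G Set.univ ∧
      (σ.Nonempty → ∀ s : ℝ, 0 < s →
        Jval a σ 𝒟 s = (faceVol a σ : ℝ) * (D.toFace.T (etaF 0) s + G s)) := by
  by_cases hσ : σ.Nonempty
  · obtain ⟨G, hG, h⟩ := T_split D.toFace hσ
    refine ⟨G, hG, fun _ s hs => ?_⟩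
    rw [h s hs, Jval_eq D hσ 𝒟 hs, sub_add_cancel]
    rfl
  · exact ⟨fun _ => 0, analyticOnNhd_const, fun h => absurd h hσ⟩

lemma sum_faces (f : Finset (Fin r) → ℂ) :
    ∑ σ, f σ = f ∅ + ∑ i, f {i} +
      ∑ σ ∈ univ.filter (fun σ : Finset (Fin r) => 2 ≤ σ.card), f σ := by
  classical
  have h1 : ∑ i, f {i} = ∑ σ ∈ univ.filter (fun σ : Finset (Fin r) => σ.card = 1), f σ := by
    refine Finset.sum_bij (fun i _ => {i}) ?_ ?_ ?_ ?_
    · intro i _; simp
    · intro i _ j _ h; exact Finset.singleton_injective h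
    · intro σ hσ
      rw [Finset.mem_filter] at hσ
      obtain ⟨i, hi⟩ := Finset.card_eq_one.mp hσ.2
      exact ⟨i, Finset.mem_univ _, hi.symm⟩
    · intro i _; rfl
  have h0 : f ∅ = ∑ σ ∈ univ.filter (fun σ : Finset (Fin r) => σ.card = 0), f σ := by
    have : univ.filter (fun σ : Finset (Fin r) => σ.card = 0) = {∅} := by
      ext σ; simp
    rw [this, Finset.sum_singleton]
  rw [h1, h0, ← Finset.sum_union, ← Finset.sum_union]
  · refine Finset.sum_congr ?_ fun _ _ => rfl
    ext σ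
    simp only [Finset.mem_univ, Finset.mem_union, Finset.mem_filter, true_and, true_iff]
    omega
  · rw [Finset.disjoint_left]
    intro σ h2 h3
    rw [Finset.mem_union, Finset.mem_filter, Finset.mem_filter] at h2
    rw [Finset.mem_filter] at h3
    rcases h2 with h2 | h2 <;> omega
  · rw [Finset.disjoint_left]
    intro σ h2 h3
    rw [Finset.mem_filter] at h2 h3
    omega

lemma ofReal_analytic {G : ℝ → ℝ} (hG : AnalyticOnNhd ℝ G Set.univ) :
    AnalyticOnNhd ℝ (fun s => (G s : ℂ)) Set.univ :=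
  Complex.ofRealCLM.comp_analyticOnNhd hG

theorem main_theorem (a : Fin r → (Fin n →₀ ℕ)) (κ : Fin r → ℂ) (hκ : ∀ i, κ i ≠ 0)
    (hA : AffInd a) (hne : ∃ i, a i ≠ 0) (𝒟 : ∀ σ, ConeDecomp a σ)
    (b : Polynomial ℂ) (P : WeylS n) (hP : FunctionalEquation (sparsePoly a κ) b P) :
    (topZeta a 𝒟).denom ∣ b := by
  classical
  obtain ⟨b', K, T, m, g, hbb', hK, hm1, _, hid⟩ := identity_tilde a κ hκ hA hne b P hP
  set D : ∀ σ, LatDat a σ := fun σ => (exists_latDat σ (rows_linearIndependent hA σ)).some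
    with hD
  set FD : ∀ σ, FaceDat a σ := fun σ => (D σ).toFace with hFD
  have hgen : ∀ σ, (FD σ).Gen := fun σ => (D σ).gen hA
  obtain ⟨Cp, Dg, hC0, hC⟩ := limit_sum a FD hgen b' K hK T m g hm1 hid _ (faceVol_apexInv a)
  choose G hGan hG using fun σ => exists_split (D σ) (𝒟 σ)
  set H : ℝ → ℂ := fun s => ∑ j ∈ Finset.range Dg, (Cp (j + 1)).eval (s : ℂ) *
    ∑ σ : Finset (Fin r), (-1 : ℂ) ^ σ.card * ((faceVol a σ : ℂ)) ^ 2 *
      (((FD σ).T (etaF (j + 1)) s : ℝ) : ℂ) with hH
  set g1 : ℝ → ℂ := fun s => ∑ i, (G {i} s : ℂ) with hg1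
  set g2 : ℝ → ℂ := fun s => ∑ σ ∈ univ.filter (fun σ : Finset (Fin r) => 2 ≤ σ.card),
    (-1 : ℂ) ^ (σ.card - 1) * ((faceVol a σ : ℂ)) ^ 2 * (G σ s : ℂ) with hg2
  set Gtot : ℝ → ℂ := fun s => b'.eval (s : ℂ) *
    ((((FD ∅).T (etaF 1) s : ℝ) : ℂ) + (s + 1) * g1 s + s * g2 s) + s * H s with hGtot
  -- analyticity
  have hTan : ∀ σ j, AnalyticOnNhd ℝ ((FD σ).T (etaF (j + 1))) Set.univ := by
    intro σ j
    obtain ⟨C0, _, hC0⟩ := etaF_bound (j + 1)
    exact analytic_T_of_supp (FD σ) (etaF_continuous _) hC0 (etaF_zero_lt _)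
      (etaF_zero_gt _ (by omega))
  have hs_an : AnalyticOnNhd ℝ (fun s : ℝ => (s : ℂ)) Set.univ :=
    Complex.ofRealCLM.analyticOnNhd _
  have hHan : AnalyticOnNhd ℝ H Set.univ := by
    rw [hH]
    refine Finset.analyticOnNhd_fun_sum _ fun j _ => (eval_analytic _).mul ?_
    refine Finset.analyticOnNhd_fun_sum _ fun σ _ => analyticOnNhd_const.mul ?_
    exact ofReal_analytic (hTan σ j)
  have hg1an : AnalyticOnNhd ℝ g1 Set.univ :=
    Finset.analyticOnNhd_fun_sum _ fun i _ => ofReal_analytic (hGan {i})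
  have hg2an : AnalyticOnNhd ℝ g2 Set.univ :=
    Finset.analyticOnNhd_fun_sum _ fun σ _ => analyticOnNhd_const.mul (ofReal_analytic (hGan σ))
  have hGan' : AnalyticOnNhd ℝ Gtot Set.univ := by
    rw [hGtot]
    refine AnalyticOnNhd.add ((eval_analytic b').mul ?_) (hs_an.mul hHan)
    exact ((ofReal_analytic (hTan ∅ 0)).add
      ((hs_an.add analyticOnNhd_const).mul hg1an)).add (hs_an.mul hg2an)
  -- the value of the zeta function
  have hXX : GoodR (RatFunc.X / (RatFunc.X + 1) : RatFunc ℂ)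
      (fun s => (s : ℂ) / ((s : ℂ) + 1)) := by
    refine ⟨Polynomial.X, Polynomial.X + 1, ?_, ?_, fun s _ => ?_⟩
    · constructor
      · exact Polynomial.X_add_C_ne_zero 1
      · intro z hz
        refine ⟨-1, by norm_num, ?_⟩
        rw [Polynomial.IsRoot] at hz
        simp only [Polynomial.eval_add, Polynomial.eval_X, Polynomial.eval_one] at hz
        push_cast
        linear_combination hz
    · simp [RatFunc.algebraMap_X]
    · simp
  have hZ : GoodR (topZeta a 𝒟) (fun s => ∑ i, (Jval a {i} (𝒟 {i}) s : ℂ) +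
      ((s : ℂ) / ((s : ℂ) + 1)) * ∑ σ ∈ univ.filter (fun σ : Finset (Fin r) => 2 ≤ σ.card),
        ((-1 : ℂ) ^ (σ.card - 1) * (faceVol a σ : ℂ)) * (Jval a σ (𝒟 σ) s : ℂ)) := by
    unfold topZeta
    refine (GoodR.sum _ fun i _ => Jfun_good a {i} (𝒟 {i})).add (hXX.mul
      (GoodR.sum _ fun σ _ => GoodR.mul (GoodR.mul ?_ (GoodR.natCast _)) (Jfun_good a σ (𝒟 σ))))
    have := GoodR.poly ((-1 : Polynomial ℂ) ^ (σ.card - 1))
    simpa using this
  -- the product with `b` is analytic
  have hkey : ∀ s : ℝ, 0 < s → b.eval (s : ℂ) * (∑ i, (Jval a {i} (𝒟 {i}) s : ℂ) +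
      ((s : ℂ) / ((s : ℂ) + 1)) * ∑ σ ∈ univ.filter (fun σ : Finset (Fin r) => 2 ≤ σ.card),
        ((-1 : ℂ) ^ (σ.card - 1) * (faceVol a σ : ℂ)) * (Jval a σ (𝒟 σ) s : ℂ)) = Gtot s := by
    intro s hs
    have hs1 : (s : ℂ) + 1 ≠ 0 := by
      have : (s + 1 : ℝ) ≠ 0 := by linarith
      exact_mod_cast this
    set S1 : ℂ := ∑ i, (((FD {i}).T (etaF 0) s : ℝ) : ℂ) with hS1
    set S2 : ℂ := ∑ σ ∈ univ.filter (fun σ : Finset (Fin r) => 2 ≤ σ.card),
      (-1 : ℂ) ^ (σ.card - 1) * ((faceVol a σ : ℂ)) ^ 2 * (((FD σ).T (etaF 0) s : ℝ) : ℂ) with hS2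
    set T0 : ℂ := (((FD ∅).T (etaF 0) s : ℝ) : ℂ) with hT0
    set T1 : ℂ := (((FD ∅).T (etaF 1) s : ℝ) : ℂ) with hT1
    have e1 : ∑ i, (Jval a {i} (𝒟 {i}) s : ℂ) = S1 + g1 s := by
      rw [hS1, hg1, ← Finset.sum_add_distrib]
      refine Finset.sum_congr rfl fun i _ => ?_
      rw [hG {i} (Finset.singleton_nonempty i) s hs, faceVol_singleton]
      push_cast
      ring
    have e2 : ∑ σ ∈ univ.filter (fun σ : Finset (Fin r) => 2 ≤ σ.card),
        ((-1 : ℂ) ^ (σ.card - 1) * (faceVol a σ : ℂ)) * (Jval a σ (𝒟 σ) s : ℂ) = S2 + g2 s := by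
      rw [hS2, hg2, ← Finset.sum_add_distrib]
      refine Finset.sum_congr rfl fun σ hσ => ?_
      rw [Finset.mem_filter] at hσ
      have hne : σ.Nonempty := Finset.card_pos.mp (by omega)
      rw [hG σ hne s hs]
      push_cast
      ring
    have e3 : (s : ℂ) * T0 = T1 - S1 := by
      have := limit_empty a FD hgen hs
      rw [hT0, hT1, hS1]
      exact_mod_cast this
    have e4 : b'.eval (s : ℂ) * (T0 - S1 - S2) + H s = 0 := by
      have h1 := hC s hs
      rw [Finset.sum_range_succ', hC0, sum_faces] at h1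
      have h2 : ∑ i : Fin r, (-1 : ℂ) ^ ({i} : Finset (Fin r)).card *
          ((faceVol a {i} : ℂ)) ^ 2 * (((FD {i}).T (etaF 0) s : ℝ) : ℂ) = -S1 := by
        rw [hS1, ← Finset.sum_neg_distrib]
        refine Finset.sum_congr rfl fun i _ => ?_
        rw [faceVol_singleton]
        simp
      have h3 : ∑ σ ∈ univ.filter (fun σ : Finset (Fin r) => 2 ≤ σ.card), (-1 : ℂ) ^ σ.card *
          ((faceVol a σ : ℂ)) ^ 2 * (((FD σ).T (etaF 0) s : ℝ) : ℂ) = -S2 := by
        rw [hS2, ← Finset.sum_neg_distrib]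
        refine Finset.sum_congr rfl fun σ hσ => ?_
        rw [Finset.mem_filter] at hσ
        obtain ⟨k, hk⟩ : ∃ k, σ.card = k + 1 := ⟨σ.card - 1, by omega⟩
        rw [hk, Nat.add_sub_cancel, pow_succ]
        ring
      rw [h2, h3] at h1
      have h4 : (-1 : ℂ) ^ (∅ : Finset (Fin r)).card * ((faceVol a ∅ : ℂ)) ^ 2 *
          (((FD ∅).T (etaF 0) s : ℝ) : ℂ) = T0 := by
        rw [faceVol_empty]
        simp [hT0]
      rw [h4] at h1
      rw [hH]
      linear_combination h1
    rw [e1, e2]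
    have hb : b.eval (s : ℂ) = ((s : ℂ) + 1) * b'.eval (s : ℂ) := by
      rw [hbb']
      simp [Polynomial.eval_mul, Polynomial.eval_add]
    rw [hb]
    simp only [hGtot]
    rw [← hT1]
    field_simp
    linear_combination (-(s : ℂ)) * e4 + b'.eval (s : ℂ) * e3
  obtain ⟨p, q, hq, hZpq, hF⟩ := hZ
  have hdvd : q ∣ b * p := by
    refine dvd_of_analytic _ q rfl hq (b * p) Gtot hGan' fun s hs => ?_
    have h1 := hF s hs
    have h2 := hkey s hs
    simp only at h1
    rw [h1] at h2
    rw [← h2, Polynomial.eval_mul]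
    have := hq.eval_ne hs
    field_simp
  by_cases hb0 : b = 0
  · rw [hb0]; exact dvd_zero _
  obtain ⟨h, hh⟩ := hdvd
  rw [RatFunc.denom_dvd hb0]
  refine ⟨h, ?_⟩
  rw [hZpq, div_eq_div_iff (algMap_ne hq.1) (algMap_ne hb0), ← map_mul, ← map_mul]
  congr 1
  linear_combination hh

end Pool.Agent.H22

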