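import Pool.Agent.H22.G5
import Pool.Agent.H22.Main
import Pool.Agent.H22.GDefs

/-! Faces of the Newton polytope and the face integrals of the simplices of the regular
triangulation. -/

namespace Pool.Agent.H22

open Finset MeasureTheory

variable {n r : ℕ}

open Classical in
/-- all exponents in the affine span of the simplex -/
noncomputable def flatF (a : Fin r → (Fin n →₀ ℕ)) (σ : Finset (Fin r)) : Finset (Fin r) :=
  univ.filter (fun l => rowR a l ∈ Submodule.span ℝ (rowR a '' (σ : Set (Fin r))))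

lemma mem_flatF {a : Fin r → (Fin n →₀ ℕ)} {σ : Finset (Fin r)} {l : Fin r} :
    l ∈ flatF a σ ↔ rowR a l ∈ Submodule.span ℝ (rowR a '' (σ : Set (Fin r))) := by
  simp [flatF]

lemma subset_flatF (a : Fin r → (Fin n →₀ ℕ)) (σ : Finset (Fin r)) : σ ⊆ flatF a σ := by
  intro i hi
  rw [mem_flatF]
  exact Submodule.subset_span ⟨i, by exact_mod_cast hi, rfl⟩

lemma span_flatF (a : Fin r → (Fin n →₀ ℕ)) (σ : Finset (Fin r)) :
    Submodule.span ℝ (rowR a '' (flatF a σ : Set (Fin r))) =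
      Submodule.span ℝ (rowR a '' (σ : Set (Fin r))) := by
  apply le_antisymm
  · rw [Submodule.span_le]
    rintro _ ⟨l, hl, rfl⟩
    exact mem_flatF.mp (by exact_mod_cast hl)
  · apply Submodule.span_mono
    apply Set.image_mono
    exact_mod_cast subset_flatF a σ

lemma exists_coeff {a : Fin r → (Fin n →₀ ℕ)} {σ : Finset (Fin r)} {l : Fin r}
    (h : rowR a l ∈ Submodule.span ℝ (rowR a '' (σ : Set (Fin r)))) :
    ∃ β : σ → ℝ, rowR a l = ∑ i, β i • rowR a i := by
  have h1 : rowR a '' (σ : Set (Fin r)) = Set.range (fun i : σ => rowR a i) := by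
    ext x
    simp only [Set.mem_image, Set.mem_range, Subtype.exists]
    constructor
    · rintro ⟨i, hi, rfl⟩; exact ⟨i, by exact_mod_cast hi, rfl⟩
    · rintro ⟨i, hi, rfl⟩; exact ⟨i, by exact_mod_cast hi, rfl⟩
  rw [h1, Submodule.mem_span_range_iff_exists_fun] at h
  obtain ⟨β, hβ⟩ := h
  exact ⟨β, hβ.symm⟩

lemma finrank_span_indep {a : Fin r → (Fin n →₀ ℕ)} {σ : Finset (Fin r)}
    (h : LinearIndependent ℝ (fun i : σ => rowR a i)) : faceRank a σ = σ.card := by
  unfold faceRank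
  have h1 : rowR a '' (σ : Set (Fin r)) = Set.range (fun i : σ => rowR a i) := by
    ext x
    simp only [Set.mem_image, Set.mem_range, Subtype.exists]
    constructor
    · rintro ⟨i, hi, rfl⟩; exact ⟨i, by exact_mod_cast hi, rfl⟩
    · rintro ⟨i, hi, rfl⟩; exact ⟨i, by exact_mod_cast hi, rfl⟩
  rw [h1, finrank_span_eq_card h, Fintype.card_coe]

lemma faceRank_flatF {a : Fin r → (Fin n →₀ ℕ)} {σ : Finset (Fin r)}
    (h : LinearIndependent ℝ (fun i : σ => rowR a i)) : faceRank a (flatF a σ) = σ.card := by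
  rw [← finrank_span_indep h]
  unfold faceRank
  rw [span_flatF]

/-- a flat set is determined by any independent subset of full rank -/
lemma flatF_eq_of_card {a : Fin r → (Fin n →₀ ℕ)} {σ τ : Finset (Fin r)}
    (h : LinearIndependent ℝ (fun i : σ => rowR a i)) (hσ : σ ⊆ τ)
    (hcard : σ.card = faceRank a τ) (hflat : flatF a τ = τ) : flatF a σ = τ := by
  have h1 : Submodule.span ℝ (rowR a '' (σ : Set (Fin r))) =
      Submodule.span ℝ (rowR a '' (τ : Set (Fin r))) := by
    have hfin : FiniteDimensional ℝ (Submodule.span ℝ (rowR a '' (τ : Set (Fin r)))) :=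
      inferInstance
    apply Submodule.eq_of_le_of_finrank_eq
    · apply Submodule.span_mono
      apply Set.image_mono
      exact_mod_cast hσ
    · have h2 := finrank_span_indep h
      unfold faceRank at h2 hcard
      rw [h2, hcard]
  ext l
  rw [mem_flatF, h1, ← mem_flatF, hflat]

lemma minCone_flatF {a : Fin r → (Fin n →₀ ℕ)} {σ : Finset (Fin r)} (hσ : σ.Nonempty) :
    minCone a (flatF a σ) = minCone a σ := by
  ext k
  constructor
  · rintro ⟨h1, h2⟩
    exact ⟨h1, fun i hi => h2 i (subset_flatF a σ hi)⟩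
  · rintro ⟨h1, h2⟩
    refine ⟨h1, fun l hl l' => ?_⟩
    obtain ⟨i0, hi0⟩ := hσ
    obtain ⟨β, hβ⟩ := exists_coeff (mem_flatF.mp hl)
    have heq : ∀ i ∈ σ, ∑ j, (a i j : ℝ) * k j = ∑ j, (a i0 j : ℝ) * k j := fun i hi =>
      le_antisymm (h2 i hi i0) (h2 i0 hi0 i)
    have hs : ∑ i : σ, β i = 1 := by
      have := congrFun hβ (Sum.inl ())
      simp only [rowR, Sum.elim_inl, Finset.sum_apply, Pi.smul_apply, smul_eq_mul, mul_one]
        at this
      exact this.symm
    have h3 : ∑ j, (a l j : ℝ) * k j = ∑ j, (a i0 j : ℝ) * k j := by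
      have h4 : ∀ j, (a l j : ℝ) = ∑ i : σ, β i * (a i j : ℝ) := by
        intro j
        have := congrFun hβ (Sum.inr j)
        simpa [rowR] using this
      simp only [h4, Finset.sum_mul]
      rw [Finset.sum_comm]
      have h5 : ∀ i : σ, ∑ j, β i * (a i j : ℝ) * k j = β i * ∑ j, (a i0 j : ℝ) * k j := by
        intro i
        rw [← heq i i.2, Finset.mul_sum]
        exact Finset.sum_congr rfl fun j _ => by ring
      simp only [h5]
      rw [← Finset.sum_mul, hs, one_mul]
    rw [h3]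
    exact h2 i0 hi0 l'

lemma isFace_flat {a : Fin r → (Fin n →₀ ℕ)} {τ : Finset (Fin r)} (hτ : τ.Nonempty)
    (h : IsFace a τ) : flatF a τ = τ := by
  obtain ⟨k, hk, hmin⟩ := h
  apply Finset.Subset.antisymm _ (subset_flatF a τ)
  intro l hl
  have h1 : k ∈ minCone a τ := ⟨hk, fun i hi l' => (hmin i).mp hi l'⟩
  rw [← minCone_flatF hτ] at h1
  exact (hmin l).mpr (h1.2 l hl)

lemma isFace_nonempty {a : Fin r → (Fin n →₀ ℕ)} {τ : Finset (Fin r)} (hr : 0 < r)
    (h : IsFace a τ) : τ.Nonempty := by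
  obtain ⟨k, hk, hmin⟩ := h
  have : Nonempty (Fin r) := ⟨⟨0, hr⟩⟩
  obtain ⟨l, _, hl⟩ := Finset.exists_min_image (univ : Finset (Fin r))
    (fun l => ∑ j, (a l j : ℝ) * k j) Finset.univ_nonempty
  exact ⟨l, (hmin l).mpr fun l' => hl l' (Finset.mem_univ _)⟩

/-- if the cone of `σ` has full dimension then the closure of `σ` is a face -/
lemma isFace_of_basis {a : Fin r → (Fin n →₀ ℕ)} {σ : Finset (Fin r)} (D : FaceDat a σ)
    (hσ : σ.Nonempty) (v : Fin D.d → Fin n → ℝ) (hv : LinearIndependent ℝ v)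
    (hmem : ∀ c, v c ∈ minCone a σ) : IsFace a (flatF a σ) := by
  obtain ⟨i0, hi0⟩ := hσ
  have hσ' : σ.Nonempty := ⟨i0, hi0⟩
  have hk : ∑ c, v c ∈ minCone a σ := by
    have := openCone_subset (a := a) (σ := σ) v hmem (x := fun _ => 1) (fun _ => zero_le_one)
    simpa using this
  have hdot : ∀ l : Fin r, ∑ j, (a l j : ℝ) * (∑ c, v c) j = ∑ c, ∑ j, (a l j : ℝ) * v c j := by
    intro l
    simp only [Finset.sum_apply, Finset.mul_sum]
    rw [Finset.sum_comm]
  refine ⟨∑ c, v c, hk.1, fun l => ⟨fun hl l' => ?_, fun hl => ?_⟩⟩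
  · rw [← minCone_flatF hσ'] at hk
    exact hk.2 l hl l'
  · -- all `a_l · v_c` are minimal
    have h1 : ∑ j, (a l j : ℝ) * (∑ c, v c) j = ∑ j, (a i0 j : ℝ) * (∑ c, v c) j :=
      le_antisymm (hl i0) (hk.2 i0 hi0 l)
    rw [hdot, hdot] at h1
    have h2 : ∀ c, ∑ j, (a l j : ℝ) * v c j = ∑ j, (a i0 j : ℝ) * v c j := by
      have h3 : ∀ c ∈ (univ : Finset (Fin D.d)), ∑ j, (a i0 j : ℝ) * v c j ≤
          ∑ j, (a l j : ℝ) * v c j := fun c _ => (hmem c).2 i0 hi0 l
      have h4 := (Finset.sum_eq_sum_iff_of_le h3).mp h1.symm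
      exact fun c => (h4 c (Finset.mem_univ c)).symm
    -- parameters of the `v_c`
    have hex : ∀ c, ∃ p, kC D.A p = v c := by
      intro c
      apply exists_kC D hσ'
      intro i hi l' hl'
      exact le_antisymm ((hmem c).2 i hi l') ((hmem c).2 l' hl' i)
    choose p hp using hex
    let L : (Fin D.d → ℝ) →ₗ[ℝ] (Fin n → ℝ) :=
      { toFun := kC D.A
        map_add' := fun p q => by
          funext j
          simp only [kC, mulVec_elim_zero, Pi.add_apply, mul_add, Finset.sum_add_distrib]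
        map_smul' := fun c p => by
          funext j
          simp only [kC, mulVec_elim_zero, Pi.smul_apply, smul_eq_mul, RingHom.id_apply,
            Finset.mul_sum]
          exact Finset.sum_congr rfl fun _ _ => by ring }
    have hpind : LinearIndependent ℝ p := by
      apply LinearIndependent.of_comp L
      have : L ∘ p = v := funext hp
      rw [this]; exact hv
    have hspan : Submodule.span ℝ (Set.range p) = ⊤ := by
      apply hpind.span_eq_top_of_card_eq_finrank'
      simp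
    let F : (Fin D.d → ℝ) →ₗ[ℝ] ℝ :=
      { toFun := fun p => ∑ c, ell a l (fun z => D.A z (Sum.inl c)) * p c
        map_add' := fun p q => by
          simp only [Pi.add_apply, mul_add, Finset.sum_add_distrib]
        map_smul' := fun c p => by
          simp only [Pi.smul_apply, smul_eq_mul, RingHom.id_apply, Finset.mul_sum]
          exact Finset.sum_congr rfl fun _ _ => by ring }
    have hFell : ∀ q, F q = ell a l (D.A.mulVec (Sum.elim q 0)) := by
      intro q
      rw [ell_mulVec, Fintype.sum_sum_type]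
      simp [F]
    have hF0 : ∀ c, F (p c) = 0 := by
      intro c
      rw [hFell]
      have h5 : ell a l (D.A.mulVec (Sum.elim (p c) 0)) =
        ∑ j, (a l j : ℝ) * kC D.A (p c) j + nuC D.A (p c) := rfl
      rw [h5, nuC_eq D hi0, hp c, h2 c]
      ring
    have hFtop : F = 0 := by
      apply LinearMap.ext_on_range hspan
      intro c
      rw [hF0 c]; rfl
    rw [mem_flatF, flat_row D l (fun c => by
      have h6 : F (Pi.single c 1) = 0 := by rw [hFtop]; rfl
      have h7 : F (Pi.single c 1) = ell a l (fun z => D.A z (Sum.inl c)) := by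
        change ∑ c', ell a l (fun z => D.A z (Sum.inl c')) * (Pi.single c 1 : Fin D.d → ℝ) c' = _
        rw [Finset.sum_eq_single c]
        · simp
        · intro c' _ hc'; simp [hc']
        · intro h; exact absurd (Finset.mem_univ _) h
      rw [← h7, h6])]
    apply Submodule.sum_mem
    intro i _
    exact Submodule.smul_mem _ _ (Submodule.subset_span ⟨i, by exact_mod_cast i.2, rfl⟩)

/-- value of `J_τ` -/
noncomputable def JvalG (a : Fin r → (Fin n →₀ ℕ)) (τ : Finset (Fin r)) (𝒟 : FaceCones a τ)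
    (s : ℝ) : ℝ :=
  ∑ C, (coneMult (𝒟.w C) : ℝ) *
    ∏ c, (1 / ((wsum (𝒟.w C c) : ℝ) + s * (wmin a (𝒟.w C c) : ℝ)))

lemma JfunG_good (a : Fin r → (Fin n →₀ ℕ)) (τ : Finset (Fin r)) (𝒟 : FaceCones a τ) :
    GoodR (JfunG a τ 𝒟) (fun s => (JvalG a τ 𝒟 s : ℂ)) := by
  unfold JfunG
  refine GoodR.congr (GoodR.sum _ fun C _ => (GoodR.natCast _).mul
    (GoodR.prod _ fun c _ => GoodR.inv_linear (wsum_pos (𝒟.indep C) c))) ?_
  intro s _
  unfold JvalG
  push_cast
  rfl

/-- the integral attached to a simplex -/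
noncomputable def LatDat.Jint {a : Fin r → (Fin n →₀ ℕ)} {σ : Finset (Fin r)} (D : LatDat a σ)
    (s : ℝ) : ℝ :=
  |(D.A.submatrix id D.e).det| *
      ∫ p : Fin D.toFace.d → ℝ, Ik a σ D.toFace.A p * Real.exp (s * nuC D.toFace.A p)

lemma Jint_aux {a : Fin r → (Fin n →₀ ℕ)} {σ : Finset (Fin r)} (D : LatDat a σ)
    (hσ : σ.Nonempty) {s : ℝ} (hs : 0 < s) {d : ℕ} (hd : d = n + 1 - σ.card) {m : ℕ}
    (w : Fin m → Fin d → Fin n → ℕ)
    (mem : ∀ C c, toReal (w C c) ∈ minCone a σ)
    (indep : ∀ C, LinearIndependent ℝ (fun c => toReal (w C c)))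
    (disj : ∀ C C', C ≠ C' →
      Disjoint (openCone fun c => toReal (w C c)) (openCone fun c => toReal (w C' c)))
    (cover : (∃ v : Fin d → Fin n → ℝ,
      LinearIndependent ℝ v ∧ ∀ c, v c ∈ minCone a σ) →
      ∀ k ∈ minCone a σ, ∃ C, k ∈ closedCone fun c => toReal (w C c)) :
    ∑ C, (coneMult (w C) : ℝ) * ∏ c, (1 / ((wsum (w C c) : ℝ) + s * (wmin a (w C c) : ℝ))) =
      (faceVol a σ : ℝ) * D.Jint s := by
  subst hd
  have hQ := fun C => D.mult hσ (w C) (mem C) (indep C)
  choose Q hQ1 hQ2 using hQ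
  unfold LatDat.Jint
  rw [cone_integral D.toFace hσ w mem indep disj cover Q hQ1 hs, ← mul_assoc,
    mul_comm (faceVol a σ : ℝ), D.vol, one_mul]
  refine Finset.sum_congr rfl fun C _ => ?_
  rw [← hQ2]
  rfl

lemma JvalG_eq {a : Fin r → (Fin n →₀ ℕ)} {σ τ : Finset (Fin r)} (D : LatDat a σ)
    (hσ : σ.Nonempty) (hind : LinearIndependent ℝ (fun i : σ => rowR a i))
    (hτ : flatF a σ = τ) (𝒟 : FaceCones a τ) {s : ℝ} (hs : 0 < s) :
    JvalG a τ 𝒟 s = (faceVol a σ : ℝ) * D.Jint s := by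
  subst hτ
  unfold JvalG
  have hmc := minCone_flatF (a := a) hσ
  exact Jint_aux D hσ hs (by rw [faceRank_flatF hind]) 𝒟.w
    (fun C c => by rw [← hmc]; exact 𝒟.mem C c) 𝒟.indep 𝒟.disj
    (fun h k hk => by
      rw [← hmc] at hk
      refine 𝒟.cover ?_ k hk
      obtain ⟨v, hv1, hv2⟩ := h
      exact ⟨v, hv1, fun c => by rw [hmc]; exact hv2 c⟩)

lemma Jint_zero {a : Fin r → (Fin n →₀ ℕ)} {σ : Finset (Fin r)} (D : LatDat a σ)
    (hσ : σ.Nonempty) (h : ¬ IsFace a (flatF a σ)) (s : ℝ) : D.Jint s = 0 := by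
  unfold LatDat.Jint
  have h1 : ∀ᵐ p : Fin D.toFace.d → ℝ, kC D.toFace.A p ∉ minCone a σ := by
    apply ae_notMem_of_no_basis D.toFace hσ
    rintro ⟨v, hv, hmem⟩
    exact h (isFace_of_basis D.toFace hσ v hv hmem)
  have h2 : ∫ p : Fin D.toFace.d → ℝ, Ik a σ D.toFace.A p * Real.exp (s * nuC D.toFace.A p) =
      0 := by
    rw [← integral_zero (Fin D.toFace.d → ℝ) ℝ]
    apply integral_congr_ae
    filter_upwards [h1] with p hp
    classical
    rw [Ik_eq D.toFace hσ, if_neg hp, zero_mul]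
  rw [h2, mul_zero]

lemma faceRank_pos {a : Fin r → (Fin n →₀ ℕ)} {τ : Finset (Fin r)} (hτ : τ.Nonempty) :
    0 < faceRank a τ := by
  obtain ⟨i, hi⟩ := hτ
  unfold faceRank
  rw [Module.finrank_pos_iff_exists_ne_zero]
  refine ⟨⟨rowR a i, Submodule.subset_span ⟨i, by exact_mod_cast hi, rfl⟩⟩, ?_⟩
  intro h0
  have h1 : rowR a i = 0 := congrArg Subtype.val h0
  have h2 := congrFun h1 (Sum.inl ())
  simp [rowR] at h2

end Pool.Agent.H22
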