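import Pool.Agent.H22.Weyl

/-! The multinomial identity for the Bernstein-Sato functional equation of a polynomial
with affinely independent exponents. -/

namespace Pool.Agent.H22

open MvPolynomial Finset

variable {n r : ℕ}

/-- the polynomial `Σ_i κ_i x^{a_i}` -/
noncomputable def sparsePoly (a : Fin r → (Fin n →₀ ℕ)) (κ : Fin r → ℂ) :
    MvPolynomial (Fin n) ℂ :=
  ∑ i, monomial (a i) (κ i)

noncomputable def expo (a : Fin r → (Fin n →₀ ℕ)) (t : Fin r → ℕ) : Fin n →₀ ℕ :=
  ∑ i, t i • a i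

lemma expo_apply (a : Fin r → (Fin n →₀ ℕ)) (t : Fin r → ℕ) (j : Fin n) :
    expo a t j = ∑ i, t i * a i j := by
  simp [expo, Finsupp.coe_finsetSum]

lemma prod_monomial {ι : Type*} (s : Finset ι) (u : ι → (Fin n →₀ ℕ)) (c : ι → ℂ) :
    ∏ i ∈ s, (monomial (u i) (c i) : MvPolynomial (Fin n) ℂ) =
      monomial (∑ i ∈ s, u i) (∏ i ∈ s, c i) := by
  classical
  induction s using Finset.induction_on with
  | empty => simp
  | insert i s hi ih =>
    rw [Finset.prod_insert hi, ih, monomial_mul, Finset.sum_insert hi, Finset.prod_insert hi]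

lemma sparse_pow (a : Fin r → (Fin n →₀ ℕ)) (κ : Fin r → ℂ) (k : ℕ) :
    (sparsePoly a κ) ^ k = ∑ t ∈ Finset.piAntidiag univ k,
      monomial (expo a t) ((Nat.multinomial univ t : ℂ) * ∏ i, κ i ^ t i) := by
  unfold sparsePoly
  rw [Finset.sum_pow_eq_sum_piAntidiag]
  refine Finset.sum_congr rfl fun t _ => ?_
  simp only [monomial_pow]
  rw [prod_monomial]
  unfold expo
  rw [← C_mul_monomial]
  simp

lemma coeff_act (a : Fin r → (Fin n →₀ ℕ)) (κ : Fin r → ℂ) (P : WeylS n) (c : ℂ) (k : ℕ)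
    (v : Fin n →₀ ℕ) (Γ : Finset (Fin n →₀ ℕ)) (hΓ : ∀ β, (P β).support ⊆ Γ) :
    coeff v (P.act c ((sparsePoly a κ) ^ (k + 1))) =
      ∑ β ∈ P.support, ∑ γ ∈ Γ, ((P β).coeff γ).eval c *
        ∑ t ∈ Finset.piAntidiag univ (k + 1),
          if γ + expo a t = v + β then
            (Nat.multinomial univ t : ℂ) * (∏ i, κ i ^ t i) * ∏ j, ff (expo a t j) (β j)
          else 0 := by
  unfold WeylS.act
  rw [Finsupp.sum, coeff_sum]
  refine Finset.sum_congr rfl fun β _ => ?_
  have h1 : MvPolynomial.map (Polynomial.evalRingHom c) (P β) =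
      ∑ γ ∈ Γ, monomial γ (((P β).coeff γ).eval c) := by
    conv_lhs => rw [(P β).as_sum]
    rw [map_sum]
    rw [Finset.sum_subset (hΓ β)]
    · refine Finset.sum_congr rfl fun γ _ => ?_
      rw [map_monomial]; simp
    · intro γ _ hγ
      rw [notMem_support_iff.mp hγ]; simp
  rw [h1, sparse_pow, map_sum, Finset.sum_mul, coeff_sum]
  refine Finset.sum_congr rfl fun γ _ => ?_
  rw [Finset.mul_sum, coeff_sum, Finset.mul_sum]
  refine Finset.sum_congr rfl fun t _ => ?_
  rw [diffPow_monomial, monomial_mul, coeff_monomial]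
  by_cases hβ : β ≤ expo a t
  · have h2 : (γ + (expo a t - β) = v) ↔ (γ + expo a t = v + β) := by
      constructor
      · intro h
        rw [← h, add_assoc, tsub_add_cancel_of_le hβ]
      · intro h
        apply add_right_cancel (b := β)
        rw [add_assoc, tsub_add_cancel_of_le hβ, h]
    by_cases h3 : γ + expo a t = v + β
    · rw [if_pos h3, if_pos (h2.mpr h3)]
    · rw [if_neg h3, if_neg (fun h => h3 (h2.mp h))]; simp
  · have h3 : ∏ j, ff ((expo a t j : ℕ) : ℂ) (β j) = 0 := by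
      rw [Finsupp.le_def] at hβ
      push Not at hβ
      obtain ⟨j, hj⟩ := hβ
      apply Finset.prod_eq_zero (Finset.mem_univ j)
      rw [ff_natCast, Nat.descFactorial_eq_zero_iff_lt.mpr hj]; simp
    rw [h3]; simp

lemma expo_injOn (a : Fin r → (Fin n →₀ ℕ))
    (hA : ∀ m : Fin r → ℝ, ∑ i, m i = 0 → (∀ j, ∑ i, m i * a i j = 0) → m = 0)
    {t t' : Fin r → ℕ} (h1 : ∑ i, t i = ∑ i, t' i) (h2 : expo a t = expo a t') : t = t' := by
  have h := hA (fun i => (t i : ℝ) - t' i) (by
    rw [Finset.sum_sub_distrib]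
    have : ((∑ i, t i : ℕ) : ℝ) = ((∑ i, t' i : ℕ) : ℝ) := by rw [h1]
    push_cast at this; linarith) (by
    intro j
    have h3 : expo a t j = expo a t' j := by rw [h2]
    rw [expo_apply, expo_apply] at h3
    have : ((∑ i, t i * a i j : ℕ) : ℝ) = ((∑ i, t' i * a i j : ℕ) : ℝ) := by rw [h3]
    push_cast at this
    simp only [sub_mul, Finset.sum_sub_distrib]; linarith)
  funext i
  have h3 := congrFun h i
  simp only [Pi.zero_apply] at h3
  have h4 : (t i : ℝ) = t' i := by linarith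
  exact_mod_cast h4

lemma coeff_sparse_pow (a : Fin r → (Fin n →₀ ℕ)) (κ : Fin r → ℂ)
    (hA : ∀ m : Fin r → ℝ, ∑ i, m i = 0 → (∀ j, ∑ i, m i * a i j = 0) → m = 0)
    (t : Fin r → ℕ) :
    coeff (expo a t) ((sparsePoly a κ) ^ (∑ i, t i)) =
      (Nat.multinomial univ t : ℂ) * ∏ i, κ i ^ t i := by
  rw [sparse_pow, coeff_sum]
  rw [Finset.sum_eq_single t]
  · rw [coeff_monomial, if_pos rfl]
  · intro t' ht' hne
    rw [coeff_monomial, if_neg]
    intro h
    apply hne
    apply expo_injOn a hA _ h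
    rw [Finset.mem_piAntidiag] at ht'
    exact ht'.1
  · intro h
    exfalso
    apply h
    rw [Finset.mem_piAntidiag]
    exact ⟨rfl, fun i _ => Finset.mem_univ i⟩

/-- `(x+K)!/(x-q)!` as a product -/
noncomputable def DD (K : ℕ) (q : ℤ) (x : ℂ) : ℂ :=
  ∏ l ∈ Finset.range ((K : ℤ) + q).toNat, (x - q + 1 + l)

lemma DD_nat_of_le (K : ℕ) (q : ℤ) (x : ℕ) (hK : -(K : ℤ) ≤ q) (h : q ≤ x) :
    DD K q (x : ℂ) * ((((x : ℤ) - q).toNat).factorial : ℂ) = ((x + K).factorial : ℂ) := by
  obtain ⟨y, hy⟩ : ∃ y : ℕ, (x : ℤ) - q = y := ⟨((x : ℤ) - q).toNat, by omega⟩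
  obtain ⟨L, hL⟩ : ∃ L : ℕ, (K : ℤ) + q = L := ⟨((K : ℤ) + q).toNat, by omega⟩
  have h1 : x + K = y + L := by omega
  unfold DD
  rw [hy, hL, h1]
  have h2 : (x : ℂ) - q = y := by
    have : ((x : ℤ) - q : ℤ) = y := hy
    have h3 : (((x : ℤ) - q : ℤ) : ℂ) = ((y : ℤ) : ℂ) := by rw [this]
    push_cast at h3; exact h3
  rw [h2, Int.toNat_natCast, Int.toNat_natCast, ← Nat.factorial_mul_ascFactorial]
  rw [Nat.ascFactorial_eq_prod_range]
  push_cast
  ring

lemma DD_nat_of_lt (K : ℕ) (q : ℤ) (x : ℕ) (h : (x : ℤ) < q) :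
    DD K q (x : ℂ) = 0 := by
  unfold DD
  apply Finset.prod_eq_zero (i := (q - x - 1).toNat)
  · rw [Finset.mem_range]; omega
  · have h1 : (((q - x - 1).toNat : ℕ) : ℂ) = (q : ℂ) - x - 1 := by
      have : (((q - x - 1).toNat : ℕ) : ℤ) = q - x - 1 := by omega
      have h2 : ((((q - x - 1).toNat : ℕ) : ℤ) : ℂ) = ((q - x - 1 : ℤ) : ℂ) := by rw [this]
      push_cast at h2
      exact h2
    rw [h1]; ring

/-- `m ∈ ℤ^r` with `|m| = -1` and `A m = γ - β`. -/
def IsShift (a : Fin r → (Fin n →₀ ℕ)) (γ β : Fin n →₀ ℕ) (m : Fin r → ℤ) : Prop :=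
  ∑ i, m i = -1 ∧ ∀ j, ∑ i, m i * (a i j : ℤ) = (γ j : ℤ) - β j

lemma shift_of_eq (a : Fin r → (Fin n →₀ ℕ)) (γ β : Fin n →₀ ℕ) (t t' : Fin r → ℕ)
    (ht : ∑ i, t' i = ∑ i, t i + 1) (h : γ + expo a t' = expo a t + β) :
    IsShift a γ β (fun i => (t i : ℤ) - t' i) := by
  constructor
  · rw [Finset.sum_sub_distrib]
    have : ((∑ i, t' i : ℕ) : ℤ) = ((∑ i, t i + 1 : ℕ) : ℤ) := by rw [ht]
    push_cast at this; linarith
  · intro j
    have h1 : γ j + expo a t' j = expo a t j + β j := by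
      rw [← Finsupp.add_apply, h, Finsupp.add_apply]
    rw [expo_apply, expo_apply] at h1
    have h2 : ((γ j + ∑ i, t' i * a i j : ℕ) : ℤ) = ((∑ i, t i * a i j + β j : ℕ) : ℤ) := by
      rw [h1]
    push_cast at h2
    simp only [sub_mul, Finset.sum_sub_distrib]; linarith

lemma IsShift.unique {a : Fin r → (Fin n →₀ ℕ)} {γ β : Fin n →₀ ℕ} {m m' : Fin r → ℤ}
    (hA : ∀ m : Fin r → ℝ, ∑ i, m i = 0 → (∀ j, ∑ i, m i * a i j = 0) → m = 0)
    (h : IsShift a γ β m) (h' : IsShift a γ β m') : m = m' := by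
  have h0 := hA (fun i => (m i : ℝ) - m' i) (by
    rw [Finset.sum_sub_distrib]
    have h1 : ((∑ i, m i : ℤ) : ℝ) = ((∑ i, m' i : ℤ) : ℝ) := by rw [h.1, h'.1]
    push_cast at h1; linarith) (by
    intro j
    have h1 : ((∑ i, m i * (a i j : ℤ) : ℤ) : ℝ) = ((∑ i, m' i * (a i j : ℤ) : ℤ) : ℝ) := by
      rw [h.2 j, h'.2 j]
    push_cast at h1
    simp only [sub_mul, Finset.sum_sub_distrib]; linarith)
  funext i
  have h3 := congrFun h0 i
  simp only [Pi.zero_apply] at h3
  have h4 : (m i : ℝ) = m' i := by linarith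
  exact_mod_cast h4

lemma inner_sum_none (a : Fin r → (Fin n →₀ ℕ)) (γ β : Fin n →₀ ℕ) (t : Fin r → ℕ)
    (G : (Fin r → ℕ) → ℂ) (h : ¬ ∃ m, IsShift a γ β m) :
    (∑ t' ∈ Finset.piAntidiag univ (∑ i, t i + 1),
      if γ + expo a t' = expo a t + β then G t' else 0) = 0 := by
  apply Finset.sum_eq_zero
  intro t' ht'
  rw [if_neg]
  intro h1
  rw [Finset.mem_piAntidiag] at ht'
  exact h ⟨_, shift_of_eq a γ β t t' ht'.1 h1⟩

lemma inner_sum_some (a : Fin r → (Fin n →₀ ℕ))
    (hA : ∀ m : Fin r → ℝ, ∑ i, m i = 0 → (∀ j, ∑ i, m i * a i j = 0) → m = 0)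
    (γ β : Fin n →₀ ℕ) (t : Fin r → ℕ)
    (G : (Fin r → ℕ) → ℂ) (m : Fin r → ℤ) (hm : IsShift a γ β m) :
    (∑ t' ∈ Finset.piAntidiag univ (∑ i, t i + 1),
      if γ + expo a t' = expo a t + β then G t' else 0) =
      if ∀ i, m i ≤ t i then G (fun i => ((t i : ℤ) - m i).toNat) else 0 := by
  split_ifs with hle
  · set t0 : Fin r → ℕ := fun i => ((t i : ℤ) - m i).toNat with ht0
    have h0 : ∀ i, (t0 i : ℤ) = t i - m i := by
      intro i; have := hle i; simp only [ht0]; omega
    have hsum : ∑ i, t0 i = ∑ i, t i + 1 := by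
      have : ((∑ i, t0 i : ℕ) : ℤ) = ((∑ i, t i + 1 : ℕ) : ℤ) := by
        push_cast
        simp only [h0, Finset.sum_sub_distrib, hm.1]; ring
      exact_mod_cast this
    have heq : γ + expo a t0 = expo a t + β := by
      ext j
      simp only [Finsupp.add_apply, expo_apply]
      have : ((γ j + ∑ i, t0 i * a i j : ℕ) : ℤ) = ((∑ i, t i * a i j + β j : ℕ) : ℤ) := by
        push_cast
        simp only [h0, sub_mul, Finset.sum_sub_distrib, hm.2 j]; ring
      exact_mod_cast this
    rw [Finset.sum_eq_single t0]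
    · rw [if_pos heq]
    · intro t' ht' hne
      rw [if_neg]
      intro h1
      rw [Finset.mem_piAntidiag] at ht'
      have h2 := IsShift.unique hA (shift_of_eq a γ β t t' ht'.1 h1) hm
      apply hne
      funext i
      have h3 : (t i : ℤ) - t' i = m i := congrFun h2 i
      have := h0 i
      omega
    · intro h
      exfalso
      apply h
      rw [Finset.mem_piAntidiag]
      exact ⟨hsum, fun i _ => Finset.mem_univ i⟩
  · apply Finset.sum_eq_zero
    intro t' ht'
    rw [if_neg]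
    intro h1
    rw [Finset.mem_piAntidiag] at ht'
    have h2 := IsShift.unique hA (shift_of_eq a γ β t t' ht'.1 h1) hm
    apply hle
    intro i
    rw [← h2]
    simp

lemma multinomial_cast (t : Fin r → ℕ) :
    (∏ i, ((t i).factorial : ℂ)) * (Nat.multinomial univ t : ℂ) = ((∑ i, t i).factorial : ℂ) := by
  rw [← Nat.multinomial_spec]
  push_cast; ring

lemma prod_fact_ne_zero (t : Fin r → ℕ) : (∏ i, ((t i).factorial : ℂ)) ≠ 0 := by
  rw [Finset.prod_ne_zero_iff]
  intro i _
  exact_mod_cast Nat.factorial_ne_zero _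

/-- The identity at integer points. -/
lemma identity_nat (a : Fin r → (Fin n →₀ ℕ)) (κ : Fin r → ℂ) (hκ : ∀ i, κ i ≠ 0)
    (hA : ∀ m : Fin r → ℝ, ∑ i, m i = 0 → (∀ j, ∑ i, m i * a i j = 0) → m = 0)
    (b : Polynomial ℂ) (P : WeylS n) (hP : FunctionalEquation (sparsePoly a κ) b P)
    (Γ : Finset (Fin n →₀ ℕ)) (hΓ : ∀ β, (P β).support ⊆ Γ) (K : ℕ)
    (M : (Fin n →₀ ℕ) → (Fin n →₀ ℕ) → Option (Fin r → ℤ))
    (hM1 : ∀ β γ m, M β γ = some m → IsShift a γ β m)
    (hM2 : ∀ β γ, M β γ = none → ¬ ∃ m, IsShift a γ β m)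
    (hK : ∀ β ∈ P.support, ∀ γ ∈ Γ, ∀ m, M β γ = some m → ∀ i, -(K : ℤ) ≤ m i)
    (t : Fin r → ℕ) :
    b.eval ((∑ i, t i : ℕ) : ℂ) * ∏ i, DD K 0 (t i : ℂ) =
      (((∑ i, t i : ℕ) : ℂ) + 1) * ∑ β ∈ P.support, ∑ γ ∈ Γ,
        (match M β γ with
        | none => 0
        | some m => ((P β).coeff γ).eval ((∑ i, t i : ℕ) : ℂ) * (∏ i, κ i ^ (-(m i))) *
            (∏ i, DD K (m i) (t i : ℂ)) *
            ∏ j, ff ((∑ i, (t i : ℂ) * (a i j : ℂ)) - γ j + β j) (β j)) := by
  set k := ∑ i, t i with hk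
  have h1 := congrArg (coeff (expo a t)) (hP k)
  rw [coeff_act a κ P (k : ℂ) k (expo a t) Γ hΓ, coeff_C_mul, hk, coeff_sparse_pow a κ hA t,
    ← hk] at h1
  -- weight
  set W : ℂ := (∏ i, (((t i + K).factorial : ℕ) : ℂ)) * (∏ i, (κ i ^ t i)⁻¹) *
    ((k.factorial : ℂ))⁻¹ with hW
  have hkf : (k.factorial : ℂ) ≠ 0 := by exact_mod_cast Nat.factorial_ne_zero _
  have hκt : ∀ i, κ i ^ t i ≠ 0 := fun i => pow_ne_zero _ (hκ i)
  have hκp : (∏ i, κ i ^ t i) ≠ 0 := Finset.prod_ne_zero_iff.mpr fun i _ => hκt i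
  have hDD0 : ∀ i, DD K 0 (t i : ℂ) * ((t i).factorial : ℂ) = ((t i + K).factorial : ℂ) := by
    intro i
    have := DD_nat_of_le K 0 (t i) (by omega) (by omega)
    simpa using this
  have hL : W * (b.eval (k : ℂ) * ((Nat.multinomial univ t : ℂ) * ∏ i, κ i ^ t i)) =
      b.eval (k : ℂ) * ∏ i, DD K 0 (t i : ℂ) := by
    have h2 : ∏ i, (((t i + K).factorial : ℕ) : ℂ) =
        (∏ i, DD K 0 (t i : ℂ)) * ∏ i, ((t i).factorial : ℂ) := by
      rw [← Finset.prod_mul_distrib]
      exact Finset.prod_congr rfl fun i _ => (hDD0 i).symm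
    rw [hW, h2, Finset.prod_inv_distrib]
    have h3 := multinomial_cast t
    rw [← hk] at h3
    field_simp
    rw [← h3]; ring
  rw [← hL, ← h1, Finset.mul_sum, Finset.mul_sum]
  refine Finset.sum_congr rfl fun β hβ => ?_
  rw [Finset.mul_sum, Finset.mul_sum]
  refine Finset.sum_congr rfl fun γ hγ => ?_
  rcases hMM : M β γ with _ | m
  · rw [hk, inner_sum_none a γ β t _ (hM2 β γ hMM)]
    simp
  · rw [hk, inner_sum_some a hA γ β t _ m (hM1 β γ m hMM), ← hk]
    have hshift := hM1 β γ m hMM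
    split_ifs with hle
    · set t0 : Fin r → ℕ := fun i => ((t i : ℤ) - m i).toNat with ht0
      have h0 : ∀ i, (t0 i : ℤ) = t i - m i := by
        intro i; have := hle i; simp only [ht0]; omega
      have hsum : ∑ i, t0 i = k + 1 := by
        have : ((∑ i, t0 i : ℕ) : ℤ) = ((∑ i, t i + 1 : ℕ) : ℤ) := by
          push_cast
          simp only [h0, Finset.sum_sub_distrib, hshift.1]; ring
        rw [hk]
        exact_mod_cast this
      have hff : ∏ j, ff ((expo a t0 j : ℕ) : ℂ) (β j) =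
          ∏ j, ff ((∑ i, (t i : ℂ) * (a i j : ℂ)) - γ j + β j) (β j) := by
        refine Finset.prod_congr rfl fun j _ => ?_
        congr 1
        rw [expo_apply]
        have : ((∑ i, t0 i * a i j : ℕ) : ℤ) = (∑ i, (t i : ℤ) * (a i j : ℤ)) - γ j + β j := by
          push_cast
          simp only [h0, sub_mul, Finset.sum_sub_distrib, hshift.2 j]; ring
        have h4 : (((∑ i, t0 i * a i j : ℕ) : ℤ) : ℂ) =
            (((∑ i, (t i : ℤ) * (a i j : ℤ)) - γ j + β j : ℤ) : ℂ) := by rw [this]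
        push_cast at h4 ⊢
        exact h4
      rw [hff]
      have hDD : ∏ i, (((t i + K).factorial : ℕ) : ℂ) =
          (∏ i, DD K (m i) (t i : ℂ)) * ∏ i, ((t0 i).factorial : ℂ) := by
        rw [← Finset.prod_mul_distrib]
        exact Finset.prod_congr rfl fun i _ =>
          (DD_nat_of_le K (m i) (t i) (hK β hβ γ hγ m hMM i) (hle i)).symm
      have h3 := multinomial_cast t0
      rw [hsum, Nat.factorial_succ] at h3
      push_cast at h3
      have hκ2 : ∏ i, κ i ^ t0 i = (∏ i, κ i ^ t i) * ∏ i, κ i ^ (-(m i)) := by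
        rw [← Finset.prod_mul_distrib]
        refine Finset.prod_congr rfl fun i _ => ?_
        rw [← zpow_natCast, ← zpow_natCast, ← zpow_add₀ (hκ i)]
        congr 1
        rw [h0 i]; ring
      rw [hW, hDD, hκ2, Finset.prod_inv_distrib]
      have h5 : (Nat.multinomial univ t0 : ℂ) =
          ((k : ℂ) + 1) * (k.factorial : ℂ) / ∏ i, ((t0 i).factorial : ℂ) := by
        rw [eq_div_iff (prod_fact_ne_zero t0), ← h3]; ring
      rw [h5]
      have hpf := prod_fact_ne_zero t0
      field_simp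
    · push Not at hle
      obtain ⟨i, hi⟩ := hle
      have : ∏ i, DD K (m i) (t i : ℂ) = 0 :=
        Finset.prod_eq_zero (Finset.mem_univ i) (DD_nat_of_lt K (m i) (t i) hi)
      dsimp only
      rw [this]; simp

/-- the polynomial version of `DD`, in the variable `X i` -/
noncomputable def DDp (K : ℕ) (q : ℤ) (i : Fin r) : MvPolynomial (Fin r) ℂ :=
  ∏ l ∈ Finset.range ((K : ℤ) + q).toNat, (X i + C (-(q : ℂ) + 1 + l))

/-- `(A t)_j` -/
noncomputable def Vp (a : Fin r → (Fin n →₀ ℕ)) (j : Fin n) : MvPolynomial (Fin r) ℂ :=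
  ∑ i, C ((a i j : ℕ) : ℂ) * X i

/-- `z_j = 1 + (A t)_j` -/
noncomputable def zp (a : Fin r → (Fin n →₀ ℕ)) (j : Fin n) : MvPolynomial (Fin r) ℂ :=
  1 + Vp a j

lemma eval_DDp (K : ℕ) (q : ℤ) (i : Fin r) (x : Fin r → ℂ) :
    eval x (DDp K q i) = DD K q (x i) := by
  unfold DDp DD
  rw [map_prod]
  refine Finset.prod_congr rfl fun l _ => ?_
  simp; ring

lemma eval_Vp (a : Fin r → (Fin n →₀ ℕ)) (j : Fin n) (x : Fin r → ℂ) :
    eval x (Vp a j) = ∑ i, x i * (a i j : ℂ) := by
  unfold Vp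
  rw [map_sum]
  refine Finset.sum_congr rfl fun i _ => ?_
  simp; ring

/-- `(z_j)(z_j+1)...`, with `q` factors when `q > 0`. -/
noncomputable def zf (a : Fin r → (Fin n →₀ ℕ)) (j : Fin n) (q : ℤ) : MvPolynomial (Fin r) ℂ :=
  ∏ l ∈ Finset.range q.toNat, (zp a j + C (l : ℂ))

/-- the product of falling factorials, with the factors `V+1, V+2, …` taken out. -/
lemma ff_factor (γ β : ℕ) (V : MvPolynomial (Fin r) ℂ) :
    ∃ g : MvPolynomial (Fin r) ℂ,
      ∏ l ∈ Finset.range β, (V - C (γ : ℂ) + C (β : ℂ) - C (l : ℂ)) =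
        g * ∏ l ∈ Finset.range (-((γ : ℤ) - β)).toNat, (1 + V + C (l : ℂ)) := by
  have h0 : (-((γ : ℤ) - β)).toNat = β - γ := by omega
  rw [h0]
  refine ⟨∏ l ∈ Finset.range β \ Finset.range (β - γ),
      (V - C (γ : ℂ) + C (β : ℂ) - C (l : ℂ)), ?_⟩
  have hsub : Finset.range (β - γ) ⊆ Finset.range β := by
    intro x hx
    rw [Finset.mem_range] at *
    omega
  rw [← Finset.prod_sdiff hsub]
  congr 1
  rw [← Finset.prod_range_reflect]
  refine Finset.prod_congr rfl fun l hl => ?_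
  rw [Finset.mem_range] at hl
  have h1 : ((β - γ - 1 - l : ℕ) : ℂ) = (β : ℂ) - γ - 1 - l := by
    have h2 : l ≤ β - γ - 1 := by omega
    have h3 : 1 ≤ β - γ := by omega
    have h4 : γ ≤ β := by omega
    rw [Nat.cast_sub h2, Nat.cast_sub h3, Nat.cast_sub h4]; simp
  rw [h1]
  simp only [map_sub, map_one]
  ring

theorem identity_poly (a : Fin r → (Fin n →₀ ℕ)) (κ : Fin r → ℂ) (hκ : ∀ i, κ i ≠ 0)
    (hA : ∀ m : Fin r → ℝ, ∑ i, m i = 0 → (∀ j, ∑ i, m i * a i j = 0) → m = 0)
    (b : Polynomial ℂ) (P : WeylS n) (hP : FunctionalEquation (sparsePoly a κ) b P) :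
    ∃ (K : ℕ) (T : Finset ((Fin n →₀ ℕ) × (Fin n →₀ ℕ))) (m : (Fin n →₀ ℕ) × (Fin n →₀ ℕ) →
      Fin r → ℤ) (g : (Fin n →₀ ℕ) × (Fin n →₀ ℕ) → MvPolynomial (Fin r) ℂ),
      1 ≤ K ∧ (∀ α ∈ T, ∑ i, m α i = -1) ∧ (∀ α ∈ T, ∀ i, -(K : ℤ) ≤ m α i) ∧
      (Polynomial.aeval (∑ i, (X i : MvPolynomial (Fin r) ℂ)) b) * ∏ i, DDp K 0 i =
        (1 + ∑ i, X i) * ∑ α ∈ T, g α *
          (∏ j, zf a j (-(∑ i, m α i * (a i j : ℤ)))) *
          ∏ i, DDp K (m α i) i := by
  classical
  set Γ : Finset (Fin n →₀ ℕ) := P.support.biUnion fun β => (P β).support with hΓdef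
  have hΓ : ∀ β, (P β).support ⊆ Γ := by
    intro β
    by_cases hβ : β ∈ P.support
    · exact Finset.subset_biUnion_of_mem (fun β => (P β).support) hβ
    · rw [Finsupp.notMem_support_iff.mp hβ]; simp
  set M : (Fin n →₀ ℕ) → (Fin n →₀ ℕ) → Option (Fin r → ℤ) := fun β γ =>
    if h : ∃ m, IsShift a γ β m then some h.choose else none with hM
  have hM1 : ∀ β γ m, M β γ = some m → IsShift a γ β m := by
    intro β γ m h
    simp only [hM] at h
    split_ifs at h with h1
    rw [← Option.some.inj h]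
    exact h1.choose_spec
  have hM2 : ∀ β γ, M β γ = none → ¬ ∃ m, IsShift a γ β m := by
    intro β γ h
    simp only [hM] at h
    split_ifs at h with h1
    exact h1
  set mm : (Fin n →₀ ℕ) × (Fin n →₀ ℕ) → Fin r → ℤ := fun x => (M x.1 x.2).getD 0 with hmm
  set T : Finset ((Fin n →₀ ℕ) × (Fin n →₀ ℕ)) :=
    (P.support ×ˢ Γ).filter (fun x => (M x.1 x.2).isSome) with hT
  obtain ⟨K, hK1, hK⟩ : ∃ K : ℕ, 1 ≤ K ∧ ∀ x ∈ P.support ×ˢ Γ, ∀ i, -(K : ℤ) ≤ mm x i := by
    refine ⟨(∑ x ∈ P.support ×ˢ Γ, ∑ i, (mm x i).natAbs) + 1, by omega, fun x hx i => ?_⟩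
    have h1 : (mm x i).natAbs ≤ ∑ i, (mm x i).natAbs :=
      Finset.single_le_sum (f := fun i => (mm x i).natAbs) (fun _ _ => Nat.zero_le _)
        (Finset.mem_univ i)
    have h2 : ∑ i, (mm x i).natAbs ≤ ∑ x ∈ P.support ×ˢ Γ, ∑ i, (mm x i).natAbs :=
      Finset.single_le_sum (f := fun x => ∑ i, (mm x i).natAbs) (fun _ _ => Nat.zero_le _) hx
    omega
  choose gj hgj using fun (x : (Fin n →₀ ℕ) × (Fin n →₀ ℕ)) (j : Fin n) =>
    ff_factor (x.2 j) (x.1 j) (Vp a j)
  refine ⟨K, T, mm, fun x => Polynomial.aeval (∑ i, (X i : MvPolynomial (Fin r) ℂ))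
      ((P x.1).coeff x.2) * C (∏ i, κ i ^ (-(mm x i))) * ∏ j, gj x j, hK1, ?_, ?_, ?_⟩
  · intro x hx
    rw [hT, Finset.mem_filter] at hx
    obtain ⟨m, hm⟩ := Option.isSome_iff_exists.mp hx.2
    have : mm x = m := by simp [hmm, hm]
    rw [this]
    exact (hM1 _ _ _ hm).1
  · intro x hx i
    rw [hT, Finset.mem_filter] at hx
    exact hK x hx.1 i
  · apply MvPolynomial.funext_set (fun _ => Set.range (fun k : ℕ => (k : ℂ)))
      (fun _ => Set.infinite_range_of_injective Nat.cast_injective)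
    intro x hx
    choose t ht using fun i => hx i (Set.mem_univ i)
    have hx' : x = fun i => (t i : ℂ) := by funext i; exact (ht i).symm
    have hid := identity_nat a κ hκ hA b P hP Γ hΓ K M hM1 hM2 (by
      intro β hβ γ hγ m hm i
      have h1 := hK (β, γ) (Finset.mem_product.mpr ⟨hβ, hγ⟩) i
      have : mm (β, γ) = m := by simp [hmm, hm]
      rw [this] at h1
      exact h1) t
    have hev : ∀ p : Polynomial ℂ, eval x (Polynomial.aeval
        (∑ i, (X i : MvPolynomial (Fin r) ℂ)) p) = p.eval ((∑ i, t i : ℕ) : ℂ) := by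
      intro p
      have h1 : eval x (Polynomial.aeval (∑ i, (X i : MvPolynomial (Fin r) ℂ)) p) =
          Polynomial.aeval (eval x (∑ i, (X i : MvPolynomial (Fin r) ℂ))) p := by
        rw [← MvPolynomial.coe_aeval_eq_eval, RingHom.coe_coe, Polynomial.aeval_algHom_apply]
      rw [h1, Polynomial.coe_aeval_eq_eval]
      congr 1
      rw [map_sum, hx']
      simp
    rw [map_mul, map_mul, hev, map_prod]
    simp only [eval_DDp]
    have hx0 : ∀ i, x i = (t i : ℂ) := fun i => (ht i).symm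
    simp only [hx0]
    rw [hid]
    have hs : eval x (1 + ∑ i, (X i : MvPolynomial (Fin r) ℂ)) =
        ((∑ i, t i : ℕ) : ℂ) + 1 := by
      rw [map_add, map_one, map_sum]
      simp only [eval_X, hx0]
      push_cast; ring
    rw [hs]
    congr 1
    rw [map_sum, hT, Finset.sum_filter, Finset.sum_product]
    refine Finset.sum_congr rfl fun β hβ => Finset.sum_congr rfl fun γ hγ => ?_
    rcases hMM : M β γ with _ | m
    · simp
    · have hm : mm (β, γ) = m := by simp [hmm, hMM]
      rw [if_pos (by simp)]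
      simp only [map_mul, hev, eval_C, hm]
      have hshift := hM1 β γ m hMM
      have hprod : (∏ j, ff ((∑ i, (t i : ℂ) * (a i j : ℂ)) - γ j + β j) (β j)) =
          eval x (∏ j, gj (β, γ) j) * eval x (∏ j, zf a j (-(∑ i, m i * (a i j : ℤ)))) := by
        rw [← map_mul, ← Finset.prod_mul_distrib, map_prod]
        refine Finset.prod_congr rfl fun j _ => ?_
        have h1 := hgj (β, γ) j
        simp only at h1
        rw [hshift.2 j]
        unfold zf zp
        rw [← h1, map_prod]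
        unfold ff
        refine Finset.prod_congr rfl fun l _ => ?_
        simp only [map_sub, map_add, eval_C, eval_Vp, hx0]
      rw [hprod, map_prod (eval x) (fun i => DDp K (m i) i)]
      simp only [eval_DDp, hx0]
      ring

lemma eval_zf (a : Fin r → (Fin n →₀ ℕ)) (j : Fin n) (q : ℤ) (x : Fin r → ℂ) :
    eval x (zf a j q) = ∏ l ∈ Finset.range q.toNat, (1 + ∑ i, x i * (a i j : ℂ) + l) := by
  unfold zf zp
  rw [map_prod]
  refine Finset.prod_congr rfl fun l _ => ?_
  simp [eval_Vp]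

/-- `-1` is a root of every Bernstein-Sato type polynomial of a nonconstant `f` of our class. -/
theorem eval_neg_one_eq_zero (a : Fin r → (Fin n →₀ ℕ)) (κ : Fin r → ℂ) (hκ : ∀ i, κ i ≠ 0)
    (hA : ∀ m : Fin r → ℝ, ∑ i, m i = 0 → (∀ j, ∑ i, m i * a i j = 0) → m = 0)
    (hne : ∃ i, a i ≠ 0)
    (b : Polynomial ℂ) (P : WeylS n) (hP : FunctionalEquation (sparsePoly a κ) b P) :
    b.eval (-1) = 0 := by
  obtain ⟨K, T, m, g, _, hm1, hmK, hid⟩ := identity_poly a κ hκ hA b P hP
  have hev : ∀ x : Fin r → ℂ, b.eval (∑ i, x i) * ∏ i, DD K 0 (x i) = (1 + ∑ i, x i) *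
      ∑ α ∈ T, eval x (g α) *
        (∏ j, ∏ l ∈ Finset.range (-(∑ i, m α i * (a i j : ℤ))).toNat,
          (1 + ∑ i, x i * (a i j : ℂ) + l)) * ∏ i, DD K (m α i) (x i) := by
    intro x
    have h1 := congrArg (eval x) hid
    have h2 : eval x (Polynomial.aeval (∑ i, (X i : MvPolynomial (Fin r) ℂ)) b) =
        b.eval (∑ i, x i) := by
      rw [← MvPolynomial.coe_aeval_eq_eval, RingHom.coe_coe, ← Polynomial.aeval_algHom_apply]
      rw [Polynomial.coe_aeval_eq_eval]
      congr 1
      simp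
    rw [map_mul, h2, map_prod, map_mul, map_sum] at h1
    simp only [map_mul, map_prod, eval_DDp, eval_zf, map_add, map_one, map_sum, eval_X] at h1
    exact h1
  obtain ⟨i0, hi0⟩ := hne
  by_cases hr : ∃ i1, i1 ≠ i0
  · obtain ⟨i1, hi1⟩ := hr
    set x : Fin r → ℂ := fun i => if i = i0 then 1/2 else if i = i1 then -3/2 else 0 with hx
    have hsum : ∑ i, x i = -1 := by
      have h1 : ∀ i, x i = (if i = i0 then (1/2 : ℂ) else 0) + (if i = i1 then (-3/2 : ℂ) else 0) := by
        intro i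
        simp only [hx]
        by_cases h1 : i = i0
        · subst h1; simp [Ne.symm hi1]
        · simp [h1]
      simp only [h1, Finset.sum_add_distrib, Finset.sum_ite_eq', Finset.mem_univ, if_true]
      norm_num
    have h1 := hev x
    rw [hsum] at h1
    simp only [add_neg_cancel, zero_mul] at h1
    rcases mul_eq_zero.mp h1 with h2 | h2
    · exact h2
    · exfalso
      rw [Finset.prod_eq_zero_iff] at h2
      obtain ⟨i, _, h2⟩ := h2
      unfold DD at h2
      rw [Finset.prod_eq_zero_iff] at h2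
      obtain ⟨l, _, h2⟩ := h2
      have h3 : x i = -((l : ℂ) + 1) := by
        have : x i + 1 + l = 0 := by simpa using h2
        linear_combination this
      simp only [hx] at h3
      split_ifs at h3 with h4 h5
      · have h6 : ((1 : ℂ)/2).re = (-((l : ℂ) + 1)).re := by rw [h3]
        simp at h6
        have : (0 : ℝ) ≤ l := Nat.cast_nonneg l
        linarith
      · have h6 : (3 : ℂ) = ((2 * (l + 1) : ℕ) : ℂ) := by push_cast; linear_combination (-2) * h3
        have h7 : (3 : ℕ) = 2 * (l + 1) := by exact_mod_cast h6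
        omega
      · have h6 : (0 : ℂ) = ((l + 1 : ℕ) : ℂ) := by push_cast; linear_combination (-1) * h3
        have h7 : (0 : ℕ) = (l + 1) := by exact_mod_cast h6
        omega
  · push Not at hr
    have hsub : ∀ f : Fin r → ℂ, ∑ i, f i = f i0 := by
      intro f
      rw [Finset.sum_eq_single i0]
      · intro i _ hi; exact absurd (hr i) hi
      · intro h; exact absurd (Finset.mem_univ _) h
    have hsubZ : ∀ f : Fin r → ℤ, ∑ i, f i = f i0 := by
      intro f
      rw [Finset.sum_eq_single i0]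
      · intro i _ hi; exact absurd (hr i) hi
      · intro h; exact absurd (Finset.mem_univ _) h
    have hprod : ∀ f : Fin r → ℂ, ∏ i, f i = f i0 := by
      intro f
      rw [Finset.prod_eq_single i0]
      · intro i _ hi; exact absurd (hr i) hi
      · intro h; exact absurd (Finset.mem_univ _) h
    -- a polynomial identity in one variable
    obtain ⟨j0, hj0⟩ : ∃ j, a i0 j ≠ 0 := by
      by_contra h
      push Not at h
      apply hi0
      ext j
      exact h j
    by_cases hT : T = ∅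
    · subst hT
      have h1 := hev (fun _ => 1)
      have hb : b = 0 := by
        apply Polynomial.funext
        intro x
        by_contra hbx
        -- infinitely many zeros
        have hz : ∀ k : ℕ, b.eval (k : ℂ) = 0 := by
          intro k
          have h2 := hev (fun _ => (k : ℂ))
          rw [hsub, hprod] at h2
          simp only [Finset.sum_empty, mul_zero] at h2
          rcases mul_eq_zero.mp h2 with h3 | h3
          · exact h3
          · exfalso
            unfold DD at h3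
            rw [Finset.prod_eq_zero_iff] at h3
            obtain ⟨l, _, h3⟩ := h3
            have : ((k + 1 + l : ℕ) : ℂ) = 0 := by
              push_cast
              have : (k : ℂ) + 1 + l = 0 := by simpa using h3
              exact this
            have h4 : k + 1 + l = 0 := by exact_mod_cast this
            omega
        have : b = 0 := Polynomial.eq_zero_of_infinite_isRoot b
          (Set.Infinite.mono (s := Set.range (fun k : ℕ => (k : ℂ))) (by
            rintro _ ⟨k, rfl⟩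
            exact hz k) (Set.infinite_range_of_injective Nat.cast_injective))
        rw [this] at hbx
        simp at hbx
      rw [hb]; simp
    · obtain ⟨α0, hα0⟩ := Finset.nonempty_iff_ne_empty.mpr hT
      have hmi : ∀ α ∈ T, m α i0 = -1 := by
        intro α hα
        have := hm1 α hα
        rwa [hsubZ] at this
      have hK1 : 1 ≤ K := by
        have h1 := hmK α0 hα0 i0
        rw [hmi α0 hα0] at h1
        omega
      -- DD K 0 x = (x+1) * DD K (-1) x
      have hDD : ∀ x : ℂ, DD K 0 x = (1 + x) * DD K (-1) x := by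
        intro x
        unfold DD
        obtain ⟨K', rfl⟩ : ∃ K', K = K' + 1 := ⟨K - 1, by omega⟩
        have e1 : (((K' + 1 : ℕ) : ℤ) + 0).toNat = K' + 1 := by omega
        have e2 : (((K' + 1 : ℕ) : ℤ) + (-1)).toNat = K' := by omega
        rw [e1, e2, Finset.prod_range_succ']
        rw [mul_comm]
        congr 1
        · simp; ring
        · refine Finset.prod_congr rfl fun l _ => ?_
          push_cast; ring
      -- the polynomial identity after cancellation
      set G : Polynomial ℂ := ∑ α ∈ T, (MvPolynomial.aeval (fun _ : Fin r =>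
        (Polynomial.X : Polynomial ℂ)) (g α)) *
        (∏ j, ∏ l ∈ Finset.range ((a i0 j : ℕ)),
          (1 + Polynomial.X * Polynomial.C ((a i0 j : ℕ) : ℂ) + Polynomial.C (l : ℂ))) with hG
      have hGev : ∀ y : ℂ, G.eval y = ∑ α ∈ T, eval (fun _ => y) (g α) *
          (∏ j, ∏ l ∈ Finset.range (a i0 j), (1 + y * (a i0 j : ℂ) + l)) := by
        intro y
        rw [hG, Polynomial.eval_finsetSum]
        refine Finset.sum_congr rfl fun α _ => ?_
        rw [Polynomial.eval_mul]
        congr 1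
        · have h1 : ((Polynomial.aeval y : Polynomial ℂ →ₐ[ℂ] ℂ).comp
              (MvPolynomial.aeval (fun _ : Fin r => (Polynomial.X : Polynomial ℂ)))) =
              (MvPolynomial.aeval (fun _ : Fin r => y)) := by
            apply MvPolynomial.algHom_ext
            intro i
            simp
          have h2 := congrArg (fun F => F (g α)) h1
          simp only [AlgHom.comp_apply, Polynomial.coe_aeval_eq_eval] at h2
          rw [h2, MvPolynomial.aeval_eq_eval]
        · rw [Polynomial.eval_prod]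
          refine Finset.prod_congr rfl fun j _ => ?_
          rw [Polynomial.eval_prod]
          refine Finset.prod_congr rfl fun l _ => ?_
          simp
      have hbG : b = G := by
        apply Polynomial.funext
        have hinf : ∀ k : ℕ, b.eval (k : ℂ) = G.eval (k : ℂ) := by
          intro k
          have h2 := hev (fun _ => (k : ℂ))
          rw [hsub, hprod, hDD] at h2
          have h3 : (1 + (k : ℂ)) ≠ 0 := by
            have : ((1 + k : ℕ) : ℂ) ≠ 0 := by
              rw [Nat.cast_ne_zero]; omega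
            push_cast at this; exact this
          have h4 : DD K (-1) (k : ℂ) ≠ 0 := by
            unfold DD
            rw [Finset.prod_ne_zero_iff]
            intro l _
            have : ((k + 1 + 1 + l : ℕ) : ℂ) ≠ 0 := by
              rw [Nat.cast_ne_zero]; omega
            push_cast at this ⊢
            intro h5
            apply this
            linear_combination h5
          rw [hGev]
          have h5 : ∀ α ∈ T, eval (fun _ : Fin r => (k : ℂ)) (g α) *
              (∏ j, ∏ l ∈ Finset.range (-(∑ i, m α i * (a i j : ℤ))).toNat,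
                (1 + ∑ i, (k : ℂ) * (a i j : ℂ) + l)) * ∏ i, DD K (m α i) (k : ℂ) =
              (eval (fun _ : Fin r => (k : ℂ)) (g α) *
              (∏ j, ∏ l ∈ Finset.range (a i0 j), (1 + (k : ℂ) * (a i0 j : ℂ) + l))) *
                DD K (-1) (k : ℂ) := by
            intro α hα
            rw [hprod, hmi α hα]
            congr 2
            refine Finset.prod_congr rfl fun j _ => ?_
            rw [hsubZ, hmi α hα, hsub]
            have e : (-(-1 * (a i0 j : ℤ))).toNat = a i0 j := by omega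
            rw [e]
          rw [Finset.sum_congr rfl h5, ← Finset.sum_mul] at h2
          have h6 : (b.eval (k : ℂ) - ∑ α ∈ T, eval (fun _ : Fin r => (k : ℂ)) (g α) *
              (∏ j, ∏ l ∈ Finset.range (a i0 j), (1 + (k : ℂ) * (a i0 j : ℂ) + l))) *
              ((1 + k) * DD K (-1) (k : ℂ)) = 0 := by
            linear_combination h2
          rcases mul_eq_zero.mp h6 with h7 | h7
          · linear_combination h7
          · exact absurd h7 (mul_ne_zero h3 h4)
        have h8 : b = G := Polynomial.eq_of_infinite_eval_eq b G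
          (Set.Infinite.mono (s := Set.range (fun k : ℕ => (k : ℂ))) (by
            rintro _ ⟨k, rfl⟩
            exact hinf k) (Set.infinite_range_of_injective Nat.cast_injective))
        intro y; rw [h8]
      rw [hbG, hGev]
      apply Finset.sum_eq_zero
      intro α _
      have : ∏ j, ∏ l ∈ Finset.range (a i0 j), (1 + (-1 : ℂ) * (a i0 j : ℂ) + l) = 0 := by
        apply Finset.prod_eq_zero (Finset.mem_univ j0)
        apply Finset.prod_eq_zero (i := a i0 j0 - 1)
        · rw [Finset.mem_range]; omega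
        · rw [Nat.cast_sub (by omega)]; push_cast; ring
      rw [this, mul_zero]

/-- The identity for `b(s)/(s+1)`. -/
theorem identity_tilde (a : Fin r → (Fin n →₀ ℕ)) (κ : Fin r → ℂ) (hκ : ∀ i, κ i ≠ 0)
    (hA : ∀ m : Fin r → ℝ, ∑ i, m i = 0 → (∀ j, ∑ i, m i * a i j = 0) → m = 0)
    (hne : ∃ i, a i ≠ 0)
    (b : Polynomial ℂ) (P : WeylS n) (hP : FunctionalEquation (sparsePoly a κ) b P) :
    ∃ (b' : Polynomial ℂ) (K : ℕ) (T : Finset ((Fin n →₀ ℕ) × (Fin n →₀ ℕ)))
      (m : (Fin n →₀ ℕ) × (Fin n →₀ ℕ) → Fin r → ℤ)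
      (g : (Fin n →₀ ℕ) × (Fin n →₀ ℕ) → MvPolynomial (Fin r) ℂ),
      b = (Polynomial.X + 1) * b' ∧ 1 ≤ K ∧
      (∀ α ∈ T, ∑ i, m α i = -1) ∧ (∀ α ∈ T, ∀ i, -(K : ℤ) ≤ m α i) ∧
      (Polynomial.aeval (∑ i, (X i : MvPolynomial (Fin r) ℂ)) b') * ∏ i, DDp K 0 i =
        ∑ α ∈ T, g α * (∏ j, zf a j (-(∑ i, m α i * (a i j : ℤ)))) *
          ∏ i, DDp K (m α i) i := by
  have hroot := eval_neg_one_eq_zero a κ hκ hA hne b P hP
  obtain ⟨K, T, m, g, hK1, hm1, hmK, hid⟩ := identity_poly a κ hκ hA b P hP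
  have hdvd : (Polynomial.X - Polynomial.C (-1 : ℂ)) ∣ b := Polynomial.dvd_iff_isRoot.mpr hroot
  obtain ⟨b', hb'⟩ := hdvd
  have hb2 : b = (Polynomial.X + 1) * b' := by
    rw [hb']; simp
  refine ⟨b', K, T, m, g, hb2, hK1, hm1, hmK, ?_⟩
  have hne0 : (1 + ∑ i, (X i : MvPolynomial (Fin r) ℂ)) ≠ 0 := by
    intro h
    have := congrArg (eval (0 : Fin r → ℂ)) h
    simp at this
  apply mul_left_cancel₀ hne0
  rw [← hid, hb2, map_mul]
  simp only [map_add, Polynomial.aeval_X, map_one]
  ring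

end Pool.Agent.H22
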