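import Mathlib

/-! Rational functions with real poles against real analytic functions, and the main theorem. -/

namespace Pool.Agent.H22

open Finset Polynomial MeasureTheory

variable {n r : ℕ}

/-- all roots are real and nonpositive -/
def RR (q : ℂ[X]) : Prop := q ≠ 0 ∧ ∀ z : ℂ, q.IsRoot z → ∃ t : ℝ, t ≤ 0 ∧ z = (t : ℂ)

lemma RR.mul {p q : ℂ[X]} (hp : RR p) (hq : RR q) : RR (p * q) := by
  refine ⟨mul_ne_zero hp.1 hq.1, fun z hz => ?_⟩
  rw [IsRoot, eval_mul, mul_eq_zero] at hz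
  rcases hz with h | h
  · exact hp.2 z h
  · exact hq.2 z h

lemma RR.eval_ne {q : ℂ[X]} (hq : RR q) {s : ℝ} (hs : 0 < s) : q.eval (s : ℂ) ≠ 0 := by
  intro h
  obtain ⟨t, ht, h2⟩ := hq.2 _ h
  have : s = t := by exact_mod_cast h2
  linarith

lemma eval_analytic (p : ℂ[X]) : AnalyticOnNhd ℝ (fun s : ℝ => p.eval (s : ℂ)) Set.univ := by
  have h1 : AnalyticOnNhd ℝ (fun s : ℝ => (s : ℂ)) Set.univ := Complex.ofRealCLM.analyticOnNhd _
  have h2 := h1.aeval_polynomial p
  simpa [Polynomial.coe_aeval_eq_eval] using h2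

theorem dvd_of_analytic (d : ℕ) : ∀ (q : ℂ[X]), q.natDegree = d → RR q →
    ∀ (p : ℂ[X]) (G : ℝ → ℂ), AnalyticOnNhd ℝ G Set.univ →
    (∀ s : ℝ, 0 < s → q.eval (s : ℂ) * G s = p.eval (s : ℂ)) → q ∣ p := by
  induction d with
  | zero =>
    intro q hd hq p G _ _
    obtain ⟨c, hc⟩ := Polynomial.natDegree_eq_zero.mp hd
    have hc0 : c ≠ 0 := by
      rintro rfl
      exact hq.1 (by rw [← hc, C_0])
    have : IsUnit q := by
      rw [← hc]
      exact Polynomial.isUnit_C.mpr (isUnit_iff_ne_zero.mpr hc0)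
    exact this.dvd
  | succ d ih =>
    intro q hd hq p G hG h
    have hdeg : q.degree ≠ 0 := by
      rw [Polynomial.degree_eq_natDegree hq.1, hd]
      exact_mod_cast Nat.succ_ne_zero d
    obtain ⟨z, hz⟩ := IsAlgClosed.exists_root q hdeg
    obtain ⟨t, ht, rfl⟩ := hq.2 z hz
    -- the identity holds everywhere
    have hall : (fun s : ℝ => q.eval (s : ℂ) * G s) = fun s : ℝ => p.eval (s : ℂ) := by
      refine AnalyticOnNhd.eq_of_eventuallyEq (𝕜 := ℝ) (z₀ := 1) ((eval_analytic q).mul hG)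
        (eval_analytic p) ?_
      filter_upwards [lt_mem_nhds (show (0 : ℝ) < 1 from one_pos)] with s hs
      exact h s hs
    have hpt : p.IsRoot (t : ℂ) := by
      have h3 : q.eval (t : ℂ) * G t = p.eval (t : ℂ) := congrFun hall t
      rw [IsRoot, ← h3, hz.eq_zero, zero_mul]
    obtain ⟨q1, hq1⟩ := Polynomial.dvd_iff_isRoot.mpr hz
    obtain ⟨p1, hp1⟩ := Polynomial.dvd_iff_isRoot.mpr hpt
    have hq10 : q1 ≠ 0 := by
      rintro rfl
      exact hq.1 (by rw [hq1, mul_zero])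
    have hq1d : q1.natDegree = d := by
      have := hd
      rw [hq1, Polynomial.natDegree_mul (X_sub_C_ne_zero _) hq10, natDegree_X_sub_C] at this
      omega
    have hq1R : RR q1 := by
      refine ⟨hq10, fun z hz => hq.2 z ?_⟩
      rw [hq1, IsRoot, eval_mul, hz.eq_zero, mul_zero]
    have h1 := ih q1 hq1d hq1R p1 G hG (fun s hs => by
      have h2 := h s hs
      rw [hq1, hp1, eval_mul, eval_mul, mul_assoc] at h2
      refine mul_left_cancel₀ ?_ h2
      rw [eval_sub, eval_X, eval_C]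
      intro h3
      have h4 : (s : ℂ) = (t : ℂ) := by linear_combination h3
      have h5 : s = t := by exact_mod_cast h4
      linarith)
    rw [hq1, hp1]
    exact mul_dvd_mul_left _ h1

/-- `Z` is a quotient of polynomials, with values `F` on the positive half line, and only
nonpositive real poles -/
def GoodR (Z : RatFunc ℂ) (F : ℝ → ℂ) : Prop :=
  ∃ p q : ℂ[X], RR q ∧ Z = algebraMap ℂ[X] (RatFunc ℂ) p / algebraMap ℂ[X] (RatFunc ℂ) q ∧
    ∀ s : ℝ, 0 < s → F s = p.eval (s : ℂ) / q.eval (s : ℂ)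

lemma RR_one : RR (1 : ℂ[X]) := ⟨one_ne_zero, fun z hz => by simp [IsRoot] at hz⟩

lemma algMap_ne {q : ℂ[X]} (hq : q ≠ 0) : algebraMap ℂ[X] (RatFunc ℂ) q ≠ 0 :=
  RatFunc.algebraMap_ne_zero hq

lemma GoodR.add {Z Z' : RatFunc ℂ} {F F' : ℝ → ℂ} (h : GoodR Z F) (h' : GoodR Z' F') :
    GoodR (Z + Z') (fun s => F s + F' s) := by
  obtain ⟨p, q, hq, hZ, hF⟩ := h
  obtain ⟨p', q', hq', hZ', hF'⟩ := h'
  refine ⟨p * q' + q * p', q * q', hq.mul hq', ?_, fun s hs => ?_⟩
  · rw [hZ, hZ', div_add_div _ _ (algMap_ne hq.1) (algMap_ne hq'.1)]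
    simp only [map_add, map_mul]
  · change F s + F' s = _
    rw [hF s hs, hF' s hs, div_add_div _ _ (hq.eval_ne hs) (hq'.eval_ne hs)]
    simp only [eval_add, eval_mul]

lemma GoodR.mul {Z Z' : RatFunc ℂ} {F F' : ℝ → ℂ} (h : GoodR Z F) (h' : GoodR Z' F') :
    GoodR (Z * Z') (fun s => F s * F' s) := by
  obtain ⟨p, q, hq, hZ, hF⟩ := h
  obtain ⟨p', q', hq', hZ', hF'⟩ := h'
  refine ⟨p * p', q * q', hq.mul hq', ?_, fun s hs => ?_⟩
  · rw [hZ, hZ', div_mul_div_comm]
    simp only [map_mul]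
  · change F s * F' s = _
    rw [hF s hs, hF' s hs, div_mul_div_comm]
    simp only [eval_mul]

lemma GoodR.poly (p : ℂ[X]) :
    GoodR (algebraMap ℂ[X] (RatFunc ℂ) p) (fun s => p.eval (s : ℂ)) :=
  ⟨p, 1, RR_one, by simp, fun s _ => by simp⟩

lemma GoodR.natCast (k : ℕ) : GoodR (k : RatFunc ℂ) (fun _ => (k : ℂ)) := by
  have := GoodR.poly (k : ℂ[X])
  simpa using this

lemma GoodR.congr {Z : RatFunc ℂ} {F F' : ℝ → ℂ} (h : GoodR Z F)
    (hF : ∀ s : ℝ, 0 < s → F' s = F s) : GoodR Z F' := by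
  obtain ⟨p, q, hq, hZ, hF1⟩ := h
  exact ⟨p, q, hq, hZ, fun s hs => by rw [hF s hs, hF1 s hs]⟩

lemma GoodR.sum {ι : Type*} (S : Finset ι) {Z : ι → RatFunc ℂ} {F : ι → ℝ → ℂ}
    (h : ∀ i ∈ S, GoodR (Z i) (F i)) : GoodR (∑ i ∈ S, Z i) (fun s => ∑ i ∈ S, F i s) := by
  classical
  induction S using Finset.induction_on with
  | empty =>
    simp only [Finset.sum_empty]
    have := GoodR.natCast 0
    simpa using this
  | insert i S hi ih =>
    simp only [Finset.sum_insert hi]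
    exact (h i (Finset.mem_insert_self i S)).add
      (ih fun j hj => h j (Finset.mem_insert_of_mem hj))

lemma GoodR.prod {ι : Type*} (S : Finset ι) {Z : ι → RatFunc ℂ} {F : ι → ℝ → ℂ}
    (h : ∀ i ∈ S, GoodR (Z i) (F i)) : GoodR (∏ i ∈ S, Z i) (fun s => ∏ i ∈ S, F i s) := by
  classical
  induction S using Finset.induction_on with
  | empty =>
    simp only [Finset.prod_empty]
    have := GoodR.natCast 1
    simpa using this
  | insert i S hi ih =>
    simp only [Finset.prod_insert hi]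
    exact (h i (Finset.mem_insert_self i S)).mul
      (ih fun j hj => h j (Finset.mem_insert_of_mem hj))

lemma GoodR.inv_linear {ν N : ℕ} (hν : 0 < ν) :
    GoodR (((ν : RatFunc ℂ) + (N : RatFunc ℂ) * RatFunc.X)⁻¹)
      (fun s => 1 / ((ν : ℂ) + (s : ℂ) * (N : ℂ))) := by
  refine ⟨1, (ν : ℂ[X]) + (N : ℂ[X]) * X, ?_, ?_, fun s _ => ?_⟩
  · constructor
    · intro h
      have := congrArg (eval (0 : ℂ)) h
      simp at this
      omega
    · intro z hz
      rw [IsRoot] at hz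
      simp only [eval_add, eval_mul, eval_natCast, eval_X] at hz
      have hN : (N : ℂ) ≠ 0 := by
        intro h0
        rw [h0, zero_mul, add_zero] at hz
        have : ν = 0 := by exact_mod_cast hz
        omega
      have hN' : (0 : ℝ) < N := by
        have : N ≠ 0 := by exact_mod_cast hN
        positivity
      refine ⟨-((ν : ℝ) / (N : ℝ)), ?_, ?_⟩
      · have : (0 : ℝ) ≤ (ν : ℝ) / (N : ℝ) := by positivity
        linarith
      · push_cast
        field_simp
        linear_combination hz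
  · rw [map_one, one_div]
    simp [RatFunc.algebraMap_X]
  · simp only [eval_one, eval_add, eval_mul, eval_natCast, eval_X]
    rw [mul_comm (s : ℂ)]

end Pool.Agent.H22
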