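import Pool.Agent.H22.GDefs
import Pool.Agent.H22.Lattice
import Pool.Agent.H60.ConeExist

/-! The normalised volume of a face, computed from the regular triangulation with generic
heights. -/

namespace Pool.Agent.H22

open Finset MeasureTheory

variable {n r : ℕ}

/-! ### Rows with integer and real entries -/

lemma rowR_eq_cast (a : Fin r → (Fin n →₀ ℕ)) (i : Fin r) :
    rowR a i = fun z => ((homRow a i z : ℤ) : ℝ) := by
  funext z
  rcases z with z | z <;> simp [rowR, homRow]

lemma rowR_inl (a : Fin r → (Fin n →₀ ℕ)) (i : Fin r) (u : Unit) : rowR a i (Sum.inl u) = 1 := rfl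

section coords

variable {κ ι : Type*} [Fintype κ] [DecidableEq κ] {d : ℕ}

/-- The real coordinate map of an integral basis (last coordinates). -/
noncomputable def coordR (B : Module.Basis (Fin d ⊕ ι) ℤ (κ → ℤ)) :
    (κ → ℝ) →ₗ[ℝ] (Fin d ⊕ ι → ℝ) where
  toFun x k := ∑ z, x z * ((B.repr (Pi.single z 1) k : ℤ) : ℝ)
  map_add' x y := by
    funext k
    simp [add_mul, Finset.sum_add_distrib]
  map_smul' c x := by
    funext k
    simp [Finset.mul_sum, mul_assoc]

lemma coordR_cast (B : Module.Basis (Fin d ⊕ ι) ℤ (κ → ℤ)) (x : κ → ℤ) (k : Fin d ⊕ ι) :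
    coordR B (fun z => (x z : ℝ)) k = ((B.repr x k : ℤ) : ℝ) := by
  have h1 : x = ∑ z, x z • (Pi.single z 1 : κ → ℤ) := by
    funext t
    simp [Finset.sum_apply, Pi.single_apply]
  conv_rhs => rw [h1]
  rw [map_sum, Finsupp.finsetSum_apply]
  push_cast
  refine Finset.sum_congr rfl fun z _ => ?_
  rw [map_smul]
  simp

end coords

/-- independence over the integers implies independence over the reals -/
lemma indep_real_of_int (a : Fin r → (Fin n →₀ ℕ)) (s : Finset (Fin r))
    (hs : LinearIndependent ℤ (fun i : s => homRow a i)) :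
    LinearIndependent ℝ (fun i : s => rowR a i) := by
  classical
  have hcard : s.card ≤ n + 1 := by
    have := hs.fintype_card_le_finrank
    rw [Module.finrank_fintype_fun_eq_card] at this
    simp only [Fintype.card_coe, Fintype.card_sum, Fintype.card_unit, Fintype.card_fin] at this
    omega
  obtain ⟨B, G, hvG, hG, -⟩ := exists_adapted_basis (fun i : s => homRow a i) hs (n + 1 - s.card)
    (by
      simp only [Fintype.card_coe, Fintype.card_sum, Fintype.card_unit, Fintype.card_fin]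
      omega)
  rw [Fintype.linearIndependent_iff]
  intro x hx
  have hG' : ((G.map (Int.cast : ℤ → ℝ)) : Matrix s s ℝ).det ≠ 0 := by
    have := (Int.castRingHom ℝ).map_det G
    simp only [eq_intCast] at this
    change (((Int.castRingHom ℝ).mapMatrix G)).det ≠ 0
    rw [← this]
    exact_mod_cast hG
  have hrepr : ∀ i i' : s, B.repr (homRow a i) (Sum.inr i') = G i' i := by
    intro i i'
    rw [hvG i, map_sum, Finsupp.finsetSum_apply]
    have h1 : ∀ k : s, (B.repr (G k i • B (Sum.inr k))) (Sum.inr i') =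
        if k = i' then G k i else 0 := by
      intro k
      rw [map_smul, Module.Basis.repr_self, Finsupp.smul_apply, Finsupp.single_apply, smul_eq_mul]
      by_cases h : k = i'
      · simp [h]
      · simp [h]
    simp only [h1, Finset.sum_ite_eq', Finset.mem_univ, if_true]
  have h1 : (G.map (Int.cast : ℤ → ℝ)).mulVec x = 0 := by
    funext i'
    have h2 := congrArg (fun y => coordR B y (Sum.inr i')) hx
    simp only [map_sum, map_smul, map_zero, Pi.zero_apply, Finset.sum_apply, Pi.smul_apply,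
      smul_eq_mul, rowR_eq_cast, coordR_cast, hrepr] at h2
    simp only [Matrix.mulVec, dotProduct, Matrix.map_apply, Pi.zero_apply]
    rw [← h2]
    exact Finset.sum_congr rfl fun i _ => by ring
  exact fun i => congrFun (Matrix.eq_zero_of_mulVec_eq_zero hG' h1) i

/-- dependent rows satisfy an integral relation -/
lemma exists_int_rel (a : Fin r → (Fin n →₀ ℕ)) (s : Finset (Fin r))
    (hs : ¬ LinearIndependent ℝ (fun i : s => rowR a i)) :
    ∃ c : Fin r → ℤ, (∀ i ∉ s, c i = 0) ∧ c ≠ 0 ∧ ∑ i, (c i : ℝ) • rowR a i = 0 := by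
  classical
  have h1 : ¬ LinearIndependent ℤ (fun i : s => homRow a i) := fun h =>
    hs (indep_real_of_int a s h)
  rw [Fintype.linearIndependent_iff] at h1
  push Not at h1
  obtain ⟨g, hg, i0, hi0⟩ := h1
  refine ⟨fun i => if h : i ∈ s then g ⟨i, h⟩ else 0, ?_, ?_, ?_⟩
  · intro i hi
    exact dif_neg hi
  · intro h
    have := congrFun h i0
    simp only [i0.2, dif_pos, Pi.zero_apply] at this
    exact hi0 this
  · have h2 : ∑ i : Fin r, ((if h : i ∈ s then g ⟨i, h⟩ else 0 : ℤ) : ℝ) • rowR a i =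
        ∑ i : s, (g i : ℝ) • rowR a i := by
      rw [← Finset.sum_subset (Finset.subset_univ s), ← Finset.sum_coe_sort]
      · exact Finset.sum_congr rfl fun i _ => by simp
      · intro i _ hi; simp [hi]
    rw [h2]
    funext z
    have h3 := congrFun hg z
    simp only [Finset.sum_apply, Pi.smul_apply, smul_eq_mul, Pi.zero_apply] at h3 ⊢
    simp only [rowR_eq_cast]
    exact_mod_cast h3

/-- generic heights do not satisfy an integral relation -/
lemma rel_height_ne {h : Fin r → ℝ} (hh : LinearIndependent ℚ h) (c : Fin r → ℤ) (hc : c ≠ 0) :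
    ∑ i, (c i : ℝ) * h i ≠ 0 := by
  intro h0
  apply hc
  have h1 := Fintype.linearIndependent_iff.mp hh (fun i => (c i : ℚ)) (by
    rw [← h0]
    refine Finset.sum_congr rfl fun i _ => ?_
    rw [Rat.smul_def]
    push_cast
    rfl)
  funext i
  exact_mod_cast h1 i

/-! ### Volumes of simplicial cones -/

/-- The open simplicial cone with generators `v i`, `i ∈ σ`. -/
def posCone {V : Type*} [AddCommGroup V] [Module ℝ V] (v : Fin r → V) (σ : Finset (Fin r)) :
    Set V :=
  {y | ∃ x : Fin r → ℝ, (∀ i ∈ σ, 0 < x i) ∧ y = ∑ i ∈ σ, x i • v i}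

/-- The standard open simplex with vertex `0`. -/
def stdOpen (ι : Type*) [Fintype ι] : Set (ι → ℝ) := {x | (∀ i, 0 < x i) ∧ ∑ i, x i < 1}

section vol

variable {ι : Type*} [Fintype ι]

lemma isOpen_stdOpen : IsOpen (stdOpen ι) := by
  have h1 : stdOpen ι = (⋂ i, {x : ι → ℝ | 0 < x i}) ∩ {x | ∑ i, x i < 1} := by
    ext x; simp [stdOpen]
  rw [h1]
  refine IsOpen.inter (isOpen_iInter_of_finite fun i => ?_) ?_
  · exact isOpen_lt continuous_const (continuous_apply i)
  · exact isOpen_lt (by fun_prop) continuous_const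

lemma stdOpen_pos : 0 < volume (stdOpen ι) := by
  refine isOpen_stdOpen.measure_pos volume ⟨fun _ => 1 / (Fintype.card ι + 1), fun i => ?_, ?_⟩
  · positivity
  · simp only [sum_const, card_univ, nsmul_eq_mul]
    rw [mul_one_div, div_lt_one (by positivity)]
    linarith

lemma stdOpen_lt_top : volume (stdOpen ι) < ⊤ := by
  refine lt_of_le_of_lt (measure_mono (t := Set.Icc (0 : ι → ℝ) 1) ?_) isCompact_Icc.measure_lt_top
  rintro x ⟨h1, h2⟩
  refine ⟨fun i => (h1 i).le, fun i => ?_⟩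
  exact (Finset.single_le_sum (fun j _ => (h1 j).le) (Finset.mem_univ i)).trans h2.le

variable [DecidableEq ι]

lemma posCone_eq_image (G : Fin r → ι → ℝ) (ℓ : (ι → ℝ) →ₗ[ℝ] ℝ) (σ : Finset (Fin r))
    (hℓ : ∀ i ∈ σ, ℓ (G i) = 1) (e : ι ≃ σ) :
    posCone G σ ∩ {y | ℓ y < 1} =
      Matrix.toLin' (Matrix.of fun i' i => G (e i) i') '' stdOpen ι := by
  classical
  have hval : ∀ x : Fin r → ℝ, ∑ i ∈ σ, x i • G i =
      Matrix.toLin' (Matrix.of fun i' i => G (e i) i') (fun i => x (e i)) := by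
    intro x
    rw [← Finset.sum_coe_sort, ← e.sum_comp]
    funext i'
    simp only [Finset.sum_apply, Pi.smul_apply, smul_eq_mul, Matrix.toLin'_apply, Matrix.mulVec,
      dotProduct, Matrix.of_apply]
    exact Finset.sum_congr rfl fun i _ => mul_comm _ _
  have hℓv : ∀ x : Fin r → ℝ, ℓ (∑ i ∈ σ, x i • G i) = ∑ i, x (e i) := by
    intro x
    rw [map_sum, e.sum_comp (fun i : σ => x i), Finset.sum_coe_sort σ (fun i => x i)]
    refine Finset.sum_congr rfl fun i hi => ?_
    rw [map_smul, hℓ i hi, smul_eq_mul, mul_one]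
  ext y
  constructor
  · rintro ⟨⟨x, hx, rfl⟩, hy⟩
    refine ⟨fun i => x (e i), ⟨fun i => hx _ (e i).2, ?_⟩, (hval x).symm⟩
    rw [← hℓv x]; exact hy
  · rintro ⟨x, ⟨hx, hx1⟩, rfl⟩
    have hx' : ∀ i, (fun l : Fin r => if h : l ∈ σ then x (e.symm ⟨l, h⟩) else 0) (e i) = x i := by
      intro i
      simp
    have h2 := hval (fun l : Fin r => if h : l ∈ σ then x (e.symm ⟨l, h⟩) else 0)
    have h3 := hℓv (fun l : Fin r => if h : l ∈ σ then x (e.symm ⟨l, h⟩) else 0)
    simp only [hx'] at h2 h3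
    refine ⟨⟨fun l : Fin r => if h : l ∈ σ then x (e.symm ⟨l, h⟩) else 0, ?_, h2.symm⟩, ?_⟩
    · intro i hi
      simp only [hi, dif_pos]
      exact hx _
    · change ℓ _ < 1
      rw [← h2, h3]
      exact hx1

lemma volume_posCone (G : Fin r → ι → ℝ) (ℓ : (ι → ℝ) →ₗ[ℝ] ℝ) (σ : Finset (Fin r))
    (hℓ : ∀ i ∈ σ, ℓ (G i) = 1) (e : ι ≃ σ) :
    volume (posCone G σ ∩ {y | ℓ y < 1}) =
      ENNReal.ofReal |(Matrix.of fun i' i => G (e i) i').det| * volume (stdOpen ι) := by
  rw [posCone_eq_image G ℓ σ hℓ e, Measure.addHaar_image_linearMap, LinearMap.det_toLin']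

lemma measurable_posCone (G : Fin r → ι → ℝ) (ℓ : (ι → ℝ) →ₗ[ℝ] ℝ) (σ : Finset (Fin r))
    (hℓ : ∀ i ∈ σ, ℓ (G i) = 1) (e : ι ≃ σ) (hdet : (Matrix.of fun i' i => G (e i) i').det ≠ 0) :
    MeasurableSet (posCone G σ ∩ {y | ℓ y < 1}) := by
  rw [posCone_eq_image G ℓ σ hℓ e]
  have hd : LinearMap.det (Matrix.toLin' (Matrix.of fun i' i => G (e i) i')) ≠ 0 := by
    rwa [LinearMap.det_toLin']
  have h1 : ((LinearMap.equivOfDetNeZero _ hd).toContinuousLinearEquiv.toHomeomorph '' stdOpen ι) =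
      Matrix.toLin' (Matrix.of fun i' i => G (e i) i') '' stdOpen ι := rfl
  rw [← h1]
  exact ((Homeomorph.isOpen_image _).mpr isOpen_stdOpen).measurableSet

/-- The volume of the truncated cone as a sum over a triangulation. -/
theorem volume_sum (G : Fin r → ι → ℝ) (ℓ : (ι → ℝ) →ₗ[ℝ] ℝ) (τ : Finset (Fin r))
    (hℓ : ∀ i ∈ τ, ℓ (G i) = 1) (F : Finset (Finset (Fin r))) (hsub : ∀ σ ∈ F, σ ⊆ τ)
    (d : Finset (Fin r) → ℝ)
    (hd : ∀ σ ∈ F, ∃ e : ι ≃ σ, (Matrix.of fun i' i => G (e i) i').det ≠ 0 ∧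
      d σ = |(Matrix.of fun i' i => G (e i) i').det|)
    (hdisj : ∀ σ ∈ F, ∀ σ' ∈ F, σ ≠ σ' → Disjoint (posCone G σ) (posCone G σ'))
    (hcov : ∀ x : Fin r → ℝ, (∀ i ∈ τ, 0 ≤ x i) →
      (∀ s : Finset (Fin r), s ⊆ τ → s.card < Fintype.card ι →
        ∑ i ∈ τ, x i • G i ∉ Submodule.span ℝ (G '' (s : Set (Fin r)))) →
      ∃ σ ∈ F, ∑ i ∈ τ, x i • G i ∈ posCone G σ) :
    volume ({y | ∃ x : Fin r → ℝ, (∀ i ∈ τ, 0 ≤ x i) ∧ y = ∑ i ∈ τ, x i • G i} ∩ {y | ℓ y < 1}) =
      ENNReal.ofReal (∑ σ ∈ F, d σ) * volume (stdOpen ι) := by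
  classical
  have hmeas : ∀ σ ∈ F, MeasurableSet (posCone G σ ∩ {y | ℓ y < 1}) := by
    intro σ hσ
    obtain ⟨e, he, -⟩ := hd σ hσ
    exact measurable_posCone G ℓ σ (fun i hi => hℓ i (hsub σ hσ hi)) e he
  have hsum : volume (⋃ σ ∈ F, posCone G σ ∩ {y | ℓ y < 1}) =
      ENNReal.ofReal (∑ σ ∈ F, d σ) * volume (stdOpen ι) := by
    rw [measure_biUnion_finset ?_ hmeas, ENNReal.ofReal_sum_of_nonneg, Finset.sum_mul]
    · refine Finset.sum_congr rfl fun σ hσ => ?_
      obtain ⟨e, -, he⟩ := hd σ hσ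
      rw [volume_posCone G ℓ σ (fun i hi => hℓ i (hsub σ hσ hi)) e, he]
    · intro σ hσ
      obtain ⟨e, -, he⟩ := hd σ hσ
      rw [he]; exact abs_nonneg _
    · intro σ hσ σ' hσ' hne
      exact (hdisj σ hσ σ' hσ' hne).mono Set.inter_subset_left Set.inter_subset_left
  rw [← hsum]
  apply le_antisymm
  · have hnull : volume (⋃ s ∈ (univ : Finset (Finset (Fin r))).filter
        (fun s => s.card < Fintype.card ι),
        (Submodule.span ℝ (G '' (s : Set (Fin r))) : Set (ι → ℝ))) = 0 := by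
      refine measure_iUnion_null fun s => measure_iUnion_null fun hs => ?_
      have hs' : s.card < Fintype.card ι := by
        simpa using hs
      refine Measure.addHaar_submodule volume _ ?_
      intro htop
      have h1 : Module.finrank ℝ (Submodule.span ℝ (G '' (s : Set (Fin r)))) = Fintype.card ι := by
        rw [htop, finrank_top, Module.finrank_fintype_fun_eq_card]
      have h2 : Module.finrank ℝ (Submodule.span ℝ (G '' (s : Set (Fin r)))) ≤ s.card := by
        rw [← Finset.coe_image]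
        exact (finrank_span_finset_le_card _).trans Finset.card_image_le
      omega
    refine (measure_mono (t := (⋃ σ ∈ F, posCone G σ ∩ {y | ℓ y < 1}) ∪
      ⋃ s ∈ (univ : Finset (Finset (Fin r))).filter (fun s => s.card < Fintype.card ι),
        (Submodule.span ℝ (G '' (s : Set (Fin r))) : Set (ι → ℝ))) ?_).trans ?_
    · rintro y ⟨⟨x, hx, rfl⟩, hy⟩
      by_cases hex : ∃ s : Finset (Fin r), s ⊆ τ ∧ s.card < Fintype.card ι ∧
        ∑ i ∈ τ, x i • G i ∈ Submodule.span ℝ (G '' (s : Set (Fin r)))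
      · obtain ⟨s, -, hs, hy'⟩ := hex
        right
        simp only [Set.mem_iUnion]
        exact ⟨s, by simpa using hs, hy'⟩
      · left
        push Not at hex
        obtain ⟨σ, hσ, hy'⟩ := hcov x hx hex
        simp only [Set.mem_iUnion]
        exact ⟨σ, hσ, hy', hy⟩
    · refine (measure_union_le _ _).trans ?_
      rw [hnull, add_zero]
  · refine measure_mono ?_
    intro y hy
    simp only [Set.mem_iUnion] at hy
    obtain ⟨σ, hσ, ⟨x, hx, rfl⟩, hy⟩ := hy
    refine ⟨⟨fun i => if i ∈ σ then x i else 0, ?_, ?_⟩, hy⟩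
    · intro i _
      dsimp only
      split_ifs with h
      · exact (hx i h).le
      · exact le_rfl
    · rw [← Finset.sum_subset (hsub σ hσ)]
      · exact Finset.sum_congr rfl fun i hi => by simp [hi]
      · intro i _ hi; simp [hi]

end vol

/-! ### Integral coordinates on the span of the rows of a face -/

section coords2

variable {κ : Type*} [Fintype κ] [DecidableEq κ] {ι : Type*} [Fintype ι] {d : ℕ}

lemma coordR_expand (B : Module.Basis (Fin d ⊕ ι) ℤ (κ → ℤ)) (x : κ → ℝ) :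
    x = ∑ k, coordR B x k • (fun z => (B k z : ℝ)) := by
  funext t
  simp only [coordR, LinearMap.coe_mk, AddHom.coe_mk, Finset.sum_apply, Pi.smul_apply, smul_eq_mul,
    Finset.sum_mul]
  rw [Finset.sum_comm]
  have h1 : ∀ z : κ, ∑ k, x z * ((B.repr (Pi.single z 1) k : ℤ) : ℝ) * (B k t : ℝ) =
      x z * if z = t then 1 else 0 := by
    intro z
    have h2 := congrFun (B.sum_repr (Pi.single z 1 : κ → ℤ)) t
    simp only [Finset.sum_apply, Pi.smul_apply, smul_eq_mul] at h2
    have h3 : ∑ k, ((B.repr (Pi.single z 1) k : ℤ) : ℝ) * (B k t : ℝ) =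
        if z = t then 1 else 0 := by
      have h4 : ((∑ k, B.repr (Pi.single z 1) k * B k t : ℤ) : ℝ) =
          (((Pi.single z 1 : κ → ℤ) t : ℤ) : ℝ) := by rw [h2]
      push_cast at h4
      rw [h4, Pi.single_apply]
      by_cases h : t = z
      · simp [h]
      · simp [h, Ne.symm h]
    rw [← h3, Finset.mul_sum]
    exact Finset.sum_congr rfl fun k _ => by ring
  simp only [h1, mul_ite, mul_one, mul_zero, Finset.sum_ite_eq', Finset.mem_univ, if_true]

end coords2

theorem exists_coords (a : Fin r → (Fin n →₀ ℕ)) (τ σ₀ : Finset (Fin r)) (hσ₀ : σ₀ ⊆ τ)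
    (hc : σ₀.card = faceRank a τ) (hi : LinearIndependent ℝ (fun i : σ₀ => rowR a i)) :
    ∃ (π : (Unit ⊕ Fin n → ℝ) →ₗ[ℝ] (σ₀ → ℝ)) (ℓ : (σ₀ → ℝ) →ₗ[ℝ] ℝ) (g : Fin r → σ₀ → ℤ),
      (∀ l ∈ τ, π (rowR a l) = fun i => (g l i : ℝ)) ∧
      (∀ l ∈ τ, ℓ (π (rowR a l)) = 1) ∧
      (∀ x ∈ Submodule.span ℝ (rowR a '' (τ : Set (Fin r))), π x = 0 → x = 0) ∧
      ∀ σ ⊆ τ, LinearIndependent ℝ (fun i : σ => rowR a i) → ∀ e : σ₀ ≃ σ,
        (Matrix.of fun i' i => g (e i) i').det ≠ 0 ∧
          faceVol a σ = (Matrix.of fun i' i => g (e i) i').det.natAbs := by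
  classical
  have hiZ : LinearIndependent ℤ (fun i : σ₀ => homRow a i) := by
    rw [Fintype.linearIndependent_iff] at hi ⊢
    intro x hx
    have h1 := hi (fun i => (x i : ℝ)) (by
      funext z
      have h3 := congrFun hx z
      simp only [Finset.sum_apply, Pi.smul_apply, smul_eq_mul, Pi.zero_apply] at h3 ⊢
      simp only [rowR_eq_cast]
      exact_mod_cast h3)
    intro i
    exact_mod_cast h1 i
  have hcard : σ₀.card ≤ n + 1 := by
    have := hiZ.fintype_card_le_finrank
    rw [Module.finrank_fintype_fun_eq_card] at this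
    simp only [Fintype.card_coe, Fintype.card_sum, Fintype.card_unit, Fintype.card_fin] at this
    omega
  obtain ⟨B, G, hvG, hG, -⟩ := exists_adapted_basis (fun i : σ₀ => homRow a i) hiZ
    (n + 1 - σ₀.card) (by
      simp only [Fintype.card_coe, Fintype.card_sum, Fintype.card_unit, Fintype.card_fin]
      omega)
  -- the span of the rows of `τ`
  have hspan : Submodule.span ℝ (rowR a '' (σ₀ : Set (Fin r))) =
      Submodule.span ℝ (rowR a '' (τ : Set (Fin r))) := by
    apply Submodule.eq_of_le_of_finrank_eq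
    · exact Submodule.span_mono (Set.image_mono (by exact_mod_cast hσ₀))
    · have h1 : rowR a '' (σ₀ : Set (Fin r)) = Set.range (fun i : σ₀ => rowR a i) := by
        ext y
        simp
      rw [h1, finrank_span_eq_card hi, Fintype.card_coe, hc]
      rfl
  have hinl0 : ∀ x ∈ Submodule.span ℝ (rowR a '' (τ : Set (Fin r))), ∀ k,
      coordR B x (Sum.inl k) = 0 := by
    intro x hx k
    rw [← hspan] at hx
    have h2 : x ∈ LinearMap.ker ((LinearMap.proj (Sum.inl k)).comp (coordR B)) := by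
      revert x
      change Submodule.span ℝ (rowR a '' (σ₀ : Set (Fin r))) ≤ _
      rw [Submodule.span_le]
      rintro y ⟨i, hi', rfl⟩
      simp only [SetLike.mem_coe, LinearMap.mem_ker, LinearMap.comp_apply, LinearMap.proj_apply]
      rw [rowR_eq_cast, coordR_cast]
      have h3 := hvG ⟨i, hi'⟩
      dsimp only at h3
      rw [h3, map_sum, Finsupp.finsetSum_apply]
      rw [Finset.sum_eq_zero]
      · simp
      · intro j _
        rw [map_smul, Module.Basis.repr_self]
        simp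
    exact h2
  have hrow : ∀ l ∈ τ, rowR a l ∈ Submodule.span ℝ (rowR a '' (τ : Set (Fin r))) := fun l hl =>
    Submodule.subset_span ⟨l, hl, rfl⟩
  have hinlZ : ∀ l ∈ τ, ∀ k, B.repr (homRow a l) (Sum.inl k) = 0 := by
    intro l hl k
    have h1 := hinl0 _ (hrow l hl) k
    rw [rowR_eq_cast, coordR_cast] at h1
    exact_mod_cast h1
  let π : (Unit ⊕ Fin n → ℝ) →ₗ[ℝ] (σ₀ → ℝ) :=
    { toFun := fun x i => coordR B x (Sum.inr i)
      map_add' := fun x y => by funext i; simp
      map_smul' := fun c x => by funext i; simp }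
  let ℓ : (σ₀ → ℝ) →ₗ[ℝ] ℝ :=
    { toFun := fun y => ∑ i, y i * (B (Sum.inr i) (Sum.inl ()) : ℝ)
      map_add' := fun x y => by simp [add_mul, Finset.sum_add_distrib]
      map_smul' := fun c x => by simp [Finset.mul_sum, mul_assoc] }
  have hexp : ∀ x ∈ Submodule.span ℝ (rowR a '' (τ : Set (Fin r))),
      x = ∑ i, π x i • (fun z => (B (Sum.inr i) z : ℝ)) := by
    intro x hx
    conv_lhs => rw [coordR_expand B x]
    rw [Fintype.sum_sum_type]
    simp only [hinl0 x hx, zero_smul, Finset.sum_const_zero, zero_add]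
    rfl
  refine ⟨π, ℓ, fun l i => B.repr (homRow a l) (Sum.inr i), ?_, ?_, ?_, ?_⟩
  · intro l _
    funext i
    change coordR B (rowR a l) (Sum.inr i) = _
    rw [rowR_eq_cast, coordR_cast]
  · intro l hl
    have h1 := congrFun (hexp _ (hrow l hl)) (Sum.inl ())
    simp only [Finset.sum_apply, Pi.smul_apply, smul_eq_mul] at h1
    change ∑ i, π (rowR a l) i * (B (Sum.inr i) (Sum.inl ()) : ℝ) = 1
    rw [← h1]
    rfl
  · intro x hx h0
    rw [hexp x hx, h0]
    simp
  · intro σ hσ hind e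
    have hexpZ : ∀ l ∈ τ, homRow a l = ∑ i, B.repr (homRow a l) (Sum.inr i) • B (Sum.inr i) := by
      intro l hl
      conv_lhs => rw [← B.sum_repr (homRow a l)]
      rw [Fintype.sum_sum_type]
      simp only [hinlZ l hl, zero_smul, Finset.sum_const_zero, zero_add]
    have hdet : (Matrix.of fun (i' i : σ₀) => B.repr (homRow a (e i)) (Sum.inr i')).det ≠ 0 := by
      intro h0
      obtain ⟨x, hx0, hx⟩ := Matrix.exists_mulVec_eq_zero_iff.mpr h0
      apply hx0
      have h1 : ∑ i, x i • homRow a (e i) = 0 := by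
        have h2 : ∀ i, homRow a (e i) =
            ∑ i', B.repr (homRow a (e i)) (Sum.inr i') • B (Sum.inr i') := fun i =>
          hexpZ _ (hσ (e i).2)
        have h3 : ∑ i, x i • homRow a (e i) = ∑ i, x i •
            ∑ i', B.repr (homRow a (e i)) (Sum.inr i') • B (Sum.inr i') :=
          Finset.sum_congr rfl fun i _ => by rw [← h2 i]
        rw [h3]
        simp only [Finset.smul_sum]
        rw [Finset.sum_comm]
        have h4 : ∀ i', ∑ i, x i • B.repr (homRow a (e i)) (Sum.inr i') • B (Sum.inr i') =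
            ((Matrix.of fun (i' i : σ₀) => B.repr (homRow a (e i)) (Sum.inr i')).mulVec x) i' •
              B (Sum.inr i') := by
          intro i'
          simp only [Matrix.mulVec, dotProduct, Finset.sum_smul, smul_smul, Matrix.of_apply]
          exact Finset.sum_congr rfl fun i _ => by rw [mul_comm]
        simp only [h4, hx, Pi.zero_apply, zero_smul, Finset.sum_const_zero]
      have h5 : ∑ j : σ, (x (e.symm j) : ℝ) • rowR a j = 0 := by
        rw [← e.sum_comp]
        simp only [Equiv.symm_apply_apply]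
        funext z
        have h6 := congrFun h1 z
        simp only [Finset.sum_apply, Pi.smul_apply, smul_eq_mul, Pi.zero_apply] at h6 ⊢
        simp only [rowR_eq_cast]
        exact_mod_cast h6
      have h7 := Fintype.linearIndependent_iff.mp hind _ h5
      funext i
      have h8 := h7 (e i)
      simp only [Equiv.symm_apply_apply] at h8
      exact_mod_cast h8
    refine ⟨hdet, ?_⟩
    have hBind : LinearIndependent ℤ (fun i : σ₀ => B (Sum.inr i)) :=
      B.linearIndependent.comp _ Sum.inr_injective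
    set N := Submodule.span ℤ (Set.range (fun i : σ₀ => B (Sum.inr i))) with hN
    have hNmem : ∀ x : Unit ⊕ Fin n → ℤ, x ∈ N ↔ ∀ k, B.repr x (Sum.inl k) = 0 := by
      intro x
      constructor
      · intro hx k
        have h2 : x ∈ LinearMap.ker ((Finsupp.lapply (R := ℤ) (Sum.inl k)).comp
            B.repr.toLinearMap) := by
          revert x
          change N ≤ _
          rw [hN, Submodule.span_le]
          rintro y ⟨i, rfl⟩
          simp
        simpa using h2
      · intro hx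
        rw [← B.sum_repr x, Fintype.sum_sum_type]
        simp only [hx, zero_smul, Finset.sum_const_zero, zero_add]
        exact Submodule.sum_mem _ fun i _ => Submodule.smul_mem _ _
          (Submodule.subset_span ⟨i, rfl⟩)
    have hrange : faceVol a σ = latIndex (fun i : σ₀ => homRow a (e i)) := by
      unfold faceVol latIndex
      have h1 : Set.range (fun i : σ => homRow a i) = Set.range (fun i : σ₀ => homRow a (e i)) :=
        (e.surjective.range_comp (fun i : σ => homRow a i)).symm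
      rw [h1]
    rw [hrange]
    refine latIndex_eq_det N ?_ (Module.Basis.span hBind) _ _ ?_ hdet
    · intro k x hk hx
      rw [hNmem] at hx ⊢
      intro j
      have := hx j
      rw [map_smul, Finsupp.smul_apply, smul_eq_mul] at this
      exact (mul_eq_zero.mp this).resolve_left hk
    · intro c
      rw [hexpZ _ (hσ (e c).2)]
      refine Finset.sum_congr rfl fun i _ => ?_
      rw [Module.Basis.span_apply hBind]
      rfl

/-! ### Families of simplices which triangulate a face -/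

/-- A family of simplices whose open cones are disjoint and cover the generic points of the cone
of `τ`. -/
structure GoodFam (a : Fin r → (Fin n →₀ ℕ)) (τ : Finset (Fin r)) (F : Finset (Finset (Fin r))) :
    Prop where
  sub : ∀ σ ∈ F, σ ⊆ τ
  card : ∀ σ ∈ F, σ.card = faceRank a τ
  indep : ∀ σ ∈ F, LinearIndependent ℝ (fun i : σ => rowR a i)
  disj : ∀ σ ∈ F, ∀ σ' ∈ F, σ ≠ σ' → Disjoint (posCone (rowR a) σ) (posCone (rowR a) σ')
  cover : ∀ x : Fin r → ℝ, (∀ i ∈ τ, 0 ≤ x i) →
    (∀ s : Finset (Fin r), s ⊆ τ → s.card < faceRank a τ →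
      ∑ i ∈ τ, x i • rowR a i ∉ Submodule.span ℝ (rowR a '' (s : Set (Fin r)))) →
    ∃ σ ∈ F, ∑ i ∈ τ, x i • rowR a i ∈ posCone (rowR a) σ

theorem GoodFam.sum_eq {a : Fin r → (Fin n →₀ ℕ)} {τ : Finset (Fin r)}
    {F F' : Finset (Finset (Fin r))} (hF : GoodFam a τ F) (hF' : GoodFam a τ F')
    {σ₀ : Finset (Fin r)} (hσ₀ : σ₀ ∈ F) :
    ∑ σ ∈ F, faceVol a σ = ∑ σ ∈ F', faceVol a σ := by
  classical
  obtain ⟨π, ℓ, g, hg, hℓ, hinj, hvol⟩ := exists_coords a τ σ₀ (hF.sub _ hσ₀) (hF.card _ hσ₀)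
    (hF.indep _ hσ₀)
  set G : Fin r → σ₀ → ℝ := fun l => π (rowR a l) with hG
  have hcard₀ : Fintype.card σ₀ = faceRank a τ := by
    rw [Fintype.card_coe]; exact hF.card _ hσ₀
  have hmem : ∀ σ ⊆ τ, ∀ x : Fin r → ℝ, ∑ i ∈ σ, x i • rowR a i ∈
      Submodule.span ℝ (rowR a '' (τ : Set (Fin r))) := fun σ hσ x =>
    Submodule.sum_mem _ fun i hi => Submodule.smul_mem _ _
      (Submodule.subset_span ⟨i, hσ hi, rfl⟩)
  have hπsum : ∀ (σ : Finset (Fin r)) (x : Fin r → ℝ),
      π (∑ i ∈ σ, x i • rowR a i) = ∑ i ∈ σ, x i • G i := by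
    intro σ x
    rw [map_sum]
    exact Finset.sum_congr rfl fun i _ => map_smul _ _ _
  have key : ∀ E : Finset (Finset (Fin r)), GoodFam a τ E →
      volume ({y | ∃ x : Fin r → ℝ, (∀ i ∈ τ, 0 ≤ x i) ∧ y = ∑ i ∈ τ, x i • G i} ∩
        {y | ℓ y < 1}) =
      ENNReal.ofReal (∑ σ ∈ E, (faceVol a σ : ℝ)) * volume (stdOpen σ₀) := by
    intro E hE
    refine volume_sum G ℓ τ hℓ E hE.sub (fun σ => (faceVol a σ : ℝ)) ?_ ?_ ?_
    · intro σ hσ
      have hc : Fintype.card σ₀ = Fintype.card σ := by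
        rw [hcard₀, Fintype.card_coe]; exact (hE.card σ hσ).symm
      let e : σ₀ ≃ σ := Fintype.equivOfCardEq hc
      obtain ⟨h1, h2⟩ := hvol σ (hE.sub σ hσ) (hE.indep σ hσ) e
      have h3 : (Matrix.of fun i' i => G (e i) i').det =
          ((Matrix.of fun i' i => g (e i) i').det : ℝ) := by
        have h4 : (Matrix.of fun (i' i : σ₀) => G (e i) i') =
            (Int.castRingHom ℝ).mapMatrix (Matrix.of fun (i' i : σ₀) => g (e i) i') := by
          ext i' i
          simp only [Matrix.of_apply, hG, RingHom.mapMatrix_apply, Matrix.map_apply,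
            eq_intCast]
          rw [hg _ (hE.sub σ hσ (e i).2)]
        rw [h4, ← RingHom.map_det]
        rfl
      refine ⟨e, ?_, ?_⟩
      · rw [h3]; exact_mod_cast h1
      · rw [h3, h2, Nat.cast_natAbs, Int.cast_abs]
    · intro σ hσ σ' hσ' hne
      rw [Set.disjoint_left]
      rintro y ⟨x, hx, rfl⟩ ⟨x', hx', hxx⟩
      have h1 : ∑ i ∈ σ, x i • rowR a i = ∑ i ∈ σ', x' i • rowR a i := by
        rw [← sub_eq_zero]
        refine hinj _ (Submodule.sub_mem _ (hmem σ (hE.sub σ hσ) x)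
          (hmem σ' (hE.sub σ' hσ') x')) ?_
        rw [map_sub, hπsum, hπsum, hxx, sub_self]
      exact Set.disjoint_left.mp (hE.disj σ hσ σ' hσ' hne) ⟨x, hx, rfl⟩ ⟨x', hx', h1⟩
    · intro x hx hy
      obtain ⟨σ, hσ, x', hx', h1⟩ := hE.cover x hx (by
        intro s hs hsc hmem'
        apply hy s hs (by rw [hcard₀]; exact hsc)
        rw [← hπsum]
        have h2 := Submodule.mem_map_of_mem (f := π) hmem'
        rw [Submodule.map_span, ← Set.image_comp] at h2
        exact h2)
      refine ⟨σ, hσ, x', hx', ?_⟩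
      rw [← hπsum, ← hπsum, h1]
  have h1 := (key F hF).symm.trans (key F' hF')
  rw [ENNReal.mul_left_inj stdOpen_pos.ne' stdOpen_lt_top.ne] at h1
  rw [ENNReal.ofReal_eq_ofReal_iff (by positivity) (by positivity)] at h1
  exact_mod_cast h1

/-! ### Triangulations -/

lemma faceRank_pos (a : Fin r → (Fin n →₀ ℕ)) {τ : Finset (Fin r)} (hτ : τ.Nonempty) :
    0 < faceRank a τ := by
  obtain ⟨l, hl⟩ := hτ
  unfold faceRank
  rw [Module.finrank_pos_iff_exists_ne_zero]
  refine ⟨⟨rowR a l, Submodule.subset_span ⟨l, hl, rfl⟩⟩, ?_⟩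
  intro h0
  have := congrFun (congrArg Subtype.val h0) (Sum.inl ())
  simp [rowR] at this

lemma sum_rowR_inl (a : Fin r → (Fin n →₀ ℕ)) (σ : Finset (Fin r)) (x : Fin r → ℝ) (u : Unit) :
    (∑ i ∈ σ, x i • rowR a i) (Sum.inl u) = ∑ i ∈ σ, x i := by
  simp [Finset.sum_apply, rowR]

lemma sum_rowR_inr (a : Fin r → (Fin n →₀ ℕ)) (σ : Finset (Fin r)) (x : Fin r → ℝ) :
    (fun j => (∑ i ∈ σ, x i • rowR a i) (Sum.inr j)) = ∑ i ∈ σ, x i • pointR a i := by
  funext j
  simp [Finset.sum_apply, rowR, pointR]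

lemma exists_of_mem_convexHull {V : Type*} [AddCommGroup V] [Module ℝ V] (f : Fin r → V)
    (σ : Finset (Fin r)) {p : V} (hp : p ∈ convexHull ℝ (f '' (σ : Set (Fin r)))) :
    ∃ x : Fin r → ℝ, (∀ i ∈ σ, 0 ≤ x i) ∧ ∑ i ∈ σ, x i = 1 ∧ p = ∑ i ∈ σ, x i • f i := by
  classical
  refine convexHull_min (t := {p | ∃ x : Fin r → ℝ, (∀ i ∈ σ, 0 ≤ x i) ∧ ∑ i ∈ σ, x i = 1 ∧
    p = ∑ i ∈ σ, x i • f i}) ?_ ?_ hp
  · rintro y ⟨i, hi, rfl⟩
    refine ⟨fun j => if j = i then 1 else 0, fun j _ => ?_, ?_, ?_⟩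
    · dsimp only
      split_ifs <;> norm_num
    · rw [Finset.sum_ite_eq' σ i, if_pos (by exact_mod_cast hi)]
    · simp only [ite_smul, one_smul, zero_smul]
      rw [Finset.sum_ite_eq' σ i, if_pos (by exact_mod_cast hi)]
  · rintro y ⟨x, hx, hx1, rfl⟩ y' ⟨x', hx', hx1', rfl⟩ s t hs ht hst
    refine ⟨fun i => s * x i + t * x' i, fun i hi => ?_, ?_, ?_⟩
    · exact add_nonneg (mul_nonneg hs (hx i hi)) (mul_nonneg ht (hx' i hi))
    · rw [Finset.sum_add_distrib, ← Finset.mul_sum, ← Finset.mul_sum, hx1, hx1']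
      linarith
    · simp only [add_smul, Finset.sum_add_distrib, Finset.smul_sum, smul_smul]

theorem FaceTriang.goodFam {a : Fin r → (Fin n →₀ ℕ)} {τ : Finset (Fin r)} (hτ : τ.Nonempty)
    (𝒯 : FaceTriang a τ) : GoodFam a τ 𝒯.S where
  sub := 𝒯.sub
  card := 𝒯.card
  indep := 𝒯.indep
  disj := by
    intro σ hσ σ' hσ' hne
    rw [Set.disjoint_left]
    rintro y ⟨x, hx, rfl⟩ ⟨x', hx', hxx⟩
    have hne1 : σ.Nonempty := by
      rw [← Finset.card_pos, 𝒯.card σ hσ]; exact faceRank_pos a hτ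
    have h1 := congrFun hxx (Sum.inl ())
    rw [sum_rowR_inl, sum_rowR_inl] at h1
    have h2 := congrArg (fun y : Unit ⊕ Fin n → ℝ => fun j => y (Sum.inr j)) hxx
    rw [sum_rowR_inr, sum_rowR_inr] at h2
    have ht : 0 < ∑ i ∈ σ, x i := Finset.sum_pos hx hne1
    have hA : (∑ i ∈ σ, x i)⁻¹ • ∑ i ∈ σ, x i • pointR a i ∈ openSimplex a σ := by
      refine ⟨fun i => (∑ i ∈ σ, x i)⁻¹ * x i, fun i hi => ?_, ?_, ?_⟩
      · exact mul_pos (inv_pos.mpr ht) (hx i hi)
      · rw [← Finset.mul_sum, inv_mul_cancel₀ ht.ne']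
      · rw [Finset.smul_sum]
        simp only [smul_smul]
    have hB : (∑ i ∈ σ, x i)⁻¹ • ∑ i ∈ σ, x i • pointR a i ∈ openSimplex a σ' := by
      refine ⟨fun i => (∑ i ∈ σ, x i)⁻¹ * x' i, fun i hi => ?_, ?_, ?_⟩
      · exact mul_pos (inv_pos.mpr ht) (hx' i hi)
      · rw [← Finset.mul_sum, ← h1, inv_mul_cancel₀ ht.ne']
      · rw [h2, Finset.smul_sum]
        simp only [smul_smul]
    exact Set.disjoint_left.mp (𝒯.disj σ hσ σ' hσ' hne) hA hB
  cover := by
    intro x hx hy
    have hsum0 : 0 < ∑ i ∈ τ, x i := by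
      rcases (Finset.sum_nonneg hx).lt_or_eq with h | h
      · exact h
      · exfalso
        have h1 : ∀ i ∈ τ, x i = 0 := fun i hi => (Finset.sum_eq_zero_iff_of_nonneg hx).mp h.symm i hi
        refine hy ∅ (Finset.empty_subset _) (faceRank_pos a hτ) ?_
        rw [Finset.sum_eq_zero fun i hi => by rw [h1 i hi, zero_smul]]
        exact Submodule.zero_mem _
    have hp : (∑ i ∈ τ, x i)⁻¹ • ∑ i ∈ τ, x i • pointR a i ∈
        convexHull ℝ (pointR a '' (τ : Set (Fin r))) := by
      have h1 := Finset.centerMass_mem_convexHull (R := ℝ) τ (w := x) (z := pointR a)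
        (s := pointR a '' (τ : Set (Fin r))) hx hsum0 (fun i hi => ⟨i, hi, rfl⟩)
      exact h1
    obtain ⟨σ, hσ, hpσ⟩ := 𝒯.cover _ hp
    obtain ⟨w, hw, hw1, hpw⟩ := exists_of_mem_convexHull _ σ hpσ
    set t := ∑ i ∈ τ, x i with ht
    have heq : ∑ i ∈ τ, x i • rowR a i = ∑ i ∈ σ, (t * w i) • rowR a i := by
      funext z
      rcases z with z | z
      · rw [sum_rowR_inl, sum_rowR_inl, ← Finset.mul_sum, hw1, mul_one]
      · have h1 := congrFun (sum_rowR_inr a τ x) z
        have h2 := congrFun (sum_rowR_inr a σ (fun i => t * w i)) z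
        rw [h1, h2]
        have h3 : ∑ i ∈ τ, x i • pointR a i = t • ∑ i ∈ σ, w i • pointR a i := by
          rw [← hpw, smul_smul, mul_inv_cancel₀ hsum0.ne', one_smul]
        rw [h3, Finset.smul_sum]
        simp only [smul_smul]
    refine ⟨σ, hσ, fun i => t * w i, fun i hi => ?_, heq⟩
    rcases (hw i hi).lt_or_eq with h | h
    · exact mul_pos hsum0 h
    · exfalso
      refine hy (σ.erase i) ((Finset.erase_subset _ _).trans (𝒯.sub σ hσ)) ?_ ?_
      · rw [← 𝒯.card σ hσ]
        exact Finset.card_erase_lt_of_mem hi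
      · rw [heq, ← Finset.add_sum_erase σ _ hi, ← h, mul_zero, zero_smul, zero_add]
        exact Submodule.sum_mem _ fun j hj => Submodule.smul_mem _ _
          (Submodule.subset_span ⟨j, hj, rfl⟩)

/-! ### The regular triangulation with generic heights -/

open Pool.Agent.H60.RegTri in
lemma genericOn_rowR (a : Fin r → (Fin n →₀ ℕ)) {h : Fin r → ℝ} (hh : LinearIndependent ℚ h)
    (τ : Finset (Fin r)) : GenericOn (rowR a) h τ := by
  classical
  intro σ _ hind l _ hlσ β hβ heq
  have hdep : ¬ LinearIndependent ℝ (fun i : (insert l σ : Finset (Fin r)) => rowR a i) := by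
    intro h1
    have h2 : LinearIndepOn ℝ (rowR a) ((insert l σ : Finset (Fin r)) : Set (Fin r)) := h1
    rw [Finset.coe_insert, linearIndepOn_insert (by simpa using hlσ)] at h2
    exact h2.2 ((mem_span_iff (rowR a) σ (rowR a l)).mpr ⟨β, hβ⟩)
  obtain ⟨c, hc0, hc, hcrel⟩ := exists_int_rel a _ hdep
  have hsum : ∀ (f : Fin r → ℝ), ∑ i, (c i : ℝ) * f i = c l * f l + ∑ i ∈ σ, (c i : ℝ) * f i := by
    intro f
    rw [← Finset.sum_insert (f := fun i => (c i : ℝ) * f i) hlσ]
    symm
    refine Finset.sum_subset (Finset.subset_univ _) fun i _ hi => ?_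
    rw [hc0 i hi]; simp
  have hsumV : (c l : ℝ) • rowR a l + ∑ i ∈ σ, (c i : ℝ) • rowR a i = 0 := by
    rw [← Finset.sum_insert (f := fun i => (c i : ℝ) • rowR a i) hlσ, ← hcrel]
    refine Finset.sum_subset (Finset.subset_univ _) fun i _ hi => ?_
    rw [hc0 i hi]; simp
  have hcoef : ∀ i ∈ σ, (c i : ℝ) = - (c l : ℝ) * β i := by
    apply coeff_unique (rowR a) σ hind
    have h1 : ∑ i ∈ σ, (c i : ℝ) • rowR a i = - ((c l : ℝ) • rowR a l) :=
      (neg_eq_of_add_eq_zero_right hsumV).symm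
    rw [h1, hβ, Finset.smul_sum, ← Finset.sum_neg_distrib]
    refine Finset.sum_congr rfl fun i _ => ?_
    rw [smul_smul, ← neg_smul, neg_mul]
  apply rel_height_ne hh c hc
  rw [hsum, heq, Finset.mul_sum, ← Finset.sum_add_distrib]
  exact Finset.sum_eq_zero fun i hi => by rw [hcoef i hi]; ring

open Classical in
/-- The simplices of the regular triangulation of a face. -/
noncomputable def upperFam (a : Fin r → (Fin n →₀ ℕ)) (h : Fin r → ℝ) (τ : Finset (Fin r)) :
    Finset (Finset (Fin r)) :=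
  univ.filter (fun σ => σ ⊆ τ ∧ σ.card = faceRank a τ ∧ UpperS a h σ)

open Pool.Agent.H60.RegTri Pool.Agent.H60.ConeExist in
theorem goodFam_upper (a : Fin r → (Fin n →₀ ℕ)) {h : Fin r → ℝ} (hh : LinearIndependent ℚ h)
    (τ : Finset (Fin r))
    (hflat : ∀ l, rowR a l ∈ Submodule.span ℝ (rowR a '' (τ : Set (Fin r))) → l ∈ τ) :
    GoodFam a τ (upperFam a h τ) := by
  classical
  have hmem : ∀ σ, σ ∈ upperFam a h τ ↔ σ ⊆ τ ∧ σ.card = faceRank a τ ∧ UpperS a h σ := by
    intro σ
    simp [upperFam]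
  have hfull : ∀ σ ∈ upperFam a h τ, ∀ l ∈ τ,
      rowR a l ∈ Submodule.span ℝ (rowR a '' (σ : Set (Fin r))) := by
    intro σ hσ l hl
    obtain ⟨h1, h2, h3⟩ := (hmem σ).mp hσ
    have hspan : Submodule.span ℝ (rowR a '' (σ : Set (Fin r))) =
        Submodule.span ℝ (rowR a '' (τ : Set (Fin r))) := by
      apply Submodule.eq_of_le_of_finrank_eq
      · exact Submodule.span_mono (Set.image_mono (by exact_mod_cast h1))
      · have h4 : rowR a '' (σ : Set (Fin r)) = Set.range (fun i : σ => rowR a i) := by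
          ext y
          simp
        rw [h4, finrank_span_eq_card h3.1, Fintype.card_coe, h2]
        rfl
    rw [hspan]
    exact Submodule.subset_span ⟨l, hl, rfl⟩
  refine ⟨fun σ hσ => ((hmem σ).mp hσ).1, fun σ hσ => ((hmem σ).mp hσ).2.1,
    fun σ hσ => ((hmem σ).mp hσ).2.2.1, ?_, ?_⟩
  · intro σ hσ σ' hσ' hne
    exact disjoint_oCone (rowR a) h τ σ σ'
      ((upperS_iff_upperOn a h τ σ ((hmem σ).mp hσ).1 hflat).mp ((hmem σ).mp hσ).2.2) (hfull σ hσ)
      ((upperS_iff_upperOn a h τ σ' ((hmem σ').mp hσ').1 hflat).mp ((hmem σ').mp hσ').2.2)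
      (hfull σ' hσ') hne
  · intro x hx hy
    obtain ⟨σ, hσ, hyσ⟩ := exists_upper (rowR a) h τ (LinearMap.proj (Sum.inl ()))
      (fun i _ => by simp [rowR]) (genericOn_rowR a hh τ) (∑ i ∈ τ, x i • rowR a i)
      ⟨x, hx, rfl⟩
    have hc : σ.card = faceRank a τ := by
      have h1 : ¬ σ.card < faceRank a τ := by
        intro h2
        refine hy σ hσ.1 h2 ?_
        obtain ⟨x', -, hx'⟩ := hyσ
        exact (mem_span_iff _ σ _).mpr ⟨x', hx'⟩
      have h2 : σ.card ≤ faceRank a τ := by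
        have h4 : rowR a '' (σ : Set (Fin r)) = Set.range (fun i : σ => rowR a i) := by
          ext y
          simp
        have hind : LinearIndependent ℝ (fun i : σ => rowR a i) := hσ.2.1
        have h5 : Module.finrank ℝ (Submodule.span ℝ (rowR a '' (σ : Set (Fin r)))) = σ.card := by
          rw [h4, finrank_span_eq_card hind, Fintype.card_coe]
        rw [← h5]
        exact Submodule.finrank_mono (Submodule.span_mono (Set.image_mono
          (by exact_mod_cast hσ.1)))
      omega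
    exact ⟨σ, (hmem σ).mpr ⟨hσ.1, hc, (upperS_iff_upperOn a h τ σ hσ.1 hflat).mpr hσ⟩, hyσ⟩

open Classical in
/-- The normalised volume of a face is the sum of the normalised volumes of the simplices of the
regular triangulation with heights `h`. -/
theorem nvol_eq_upper (a : Fin r → (Fin n →₀ ℕ)) (h : Fin r → ℝ) (hh : LinearIndependent ℚ h)
    (τ : Finset (Fin r)) (hτ : τ.Nonempty)
    (hflat : ∀ l, rowR a l ∈ Submodule.span ℝ (rowR a '' (τ : Set (Fin r))) → l ∈ τ)
    (𝒯 : FaceTriang a τ) :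
    nvol 𝒯 = ∑ σ ∈ univ.filter (fun σ : Finset (Fin r) =>
      σ ⊆ τ ∧ σ.card = faceRank a τ ∧ UpperS a h σ), faceVol a σ := by
  obtain ⟨l, hl⟩ := hτ
  obtain ⟨σ₀, hσ₀, -⟩ := 𝒯.cover (pointR a l) (subset_convexHull ℝ _ ⟨l, hl, rfl⟩)
  exact (𝒯.goodFam ⟨l, hl⟩).sum_eq (goodFam_upper a hh τ hflat) hσ₀

end Pool.Agent.H22
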