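import Pool.Agent.H22.Unit
import Pool.Agent.H22.Ident

namespace Pool.Agent.H22

open MvPolynomial Finset MeasureTheory

variable {n r : ℕ}

/-- linear parts of the forms `z_j`, `-t_l` and `-(t_i + p_i)` -/
noncomputable def bv (a : Fin r → (Fin n →₀ ℕ)) : Fin n ⊕ (Fin r ⊕ Fin r) → Fin r → ℝ
  | Sum.inl j => fun i => (a i j : ℝ)
  | Sum.inr (Sum.inl l) => fun i => if i = l then -1 else 0
  | Sum.inr (Sum.inr l) => fun i => if i = l then -1 else 0

/-- constant terms of the global forms -/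
noncomputable def cv : Fin n ⊕ (Fin r ⊕ Fin r) → ℝ
  | Sum.inl _ => 1
  | Sum.inr _ => 0

lemma formP_bv_inl (a : Fin r → (Fin n →₀ ℕ)) (j : Fin n) :
    formP (bv a (Sum.inl j)) 0 = Vp a j := by
  unfold formP Vp bv
  simp

lemma formP_bv_inr_inl (a : Fin r → (Fin n →₀ ℕ)) (l : Fin r) :
    formP (bv a (Sum.inr (Sum.inl l))) 0 = -(X l : MvPolynomial (Fin r) ℂ) := by
  unfold formP bv
  rw [Finset.sum_eq_single l]
  · simp
  · intro i _ hi; simp [hi]
  · intro h; exact absurd (Finset.mem_univ _) h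

lemma formP_bv_inr_inr (a : Fin r → (Fin n →₀ ℕ)) (l : Fin r) :
    formP (bv a (Sum.inr (Sum.inr l))) 0 = -(X l : MvPolynomial (Fin r) ℂ) :=
  formP_bv_inr_inl a l

lemma shiftP_X (t0 : Fin r → ℝ) (i : Fin r) :
    shiftP t0 (X i) = X i + C (t0 i : ℂ) := by
  unfold shiftP; rw [aeval_X]

lemma shiftP_C (t0 : Fin r → ℝ) (c : ℂ) : shiftP t0 (C c) = C c := by
  unfold shiftP; rw [MvPolynomial.algHom_C]; rfl

lemma constantCoeff_shiftP (t0 : Fin r → ℝ) (h : MvPolynomial (Fin r) ℂ) :
    constantCoeff (shiftP t0 h) = eval (fun i => (t0 i : ℂ)) h := by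
  induction h using MvPolynomial.induction_on with
  | C a => rw [shiftP_C]; simp
  | add p q hp hq => rw [map_add, map_add, hp, hq, map_add]
  | mul_X p i hp => rw [map_mul, map_mul, hp, map_mul, shiftP_X]; simp

lemma shiftP_zp (a : Fin r → (Fin n →₀ ℕ)) (t0 : Fin r → ℝ) (j : Fin n)
    (h : 1 + ∑ i, (a i j : ℝ) * t0 i = 0) : shiftP t0 (zp a j) = Vp a j := by
  unfold zp Vp
  rw [map_add, map_one, map_sum]
  simp only [map_mul, shiftP_C, shiftP_X, mul_add, Finset.sum_add_distrib]
  have h1 : (1 : MvPolynomial (Fin r) ℂ) + ∑ i, C ((a i j : ℕ) : ℂ) * C (t0 i : ℂ) = 0 := by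
    have h2 : (1 : MvPolynomial (Fin r) ℂ) + ∑ i, C ((a i j : ℕ) : ℂ) * C (t0 i : ℂ) =
        C (((1 + ∑ i, (a i j : ℝ) * t0 i : ℝ)) : ℂ) := by
      push_cast
      simp
    rw [h2, h]; simp
  linear_combination h1

/-- one-variable factorisation -/
lemma factor_one (i : Fin r) (A : Finset ℕ) (x : ℝ) :
    ∃ u : MvPolynomial (Fin r) ℂ, (∀ t0 : Fin r → ℝ, t0 i = x →
        eval (fun i => (t0 i : ℂ)) u ≠ 0) ∧
      ∏ l ∈ A, (X i + C ((1 : ℂ) + l)) =
        u * (if ∃ l ∈ A, x = -((l : ℝ) + 1) then (X i - C (x : ℂ)) else 1) := by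
  classical
  split_ifs with h
  · obtain ⟨l0, hl0, hx⟩ := h
    refine ⟨∏ l ∈ A.erase l0, (X i + C ((1 : ℂ) + l)), ?_, ?_⟩
    · intro t0 ht0
      rw [map_prod, Finset.prod_ne_zero_iff]
      intro l hl
      simp only [map_add, eval_X, eval_C, ht0, hx]
      have hne : l ≠ l0 := Finset.ne_of_mem_erase hl
      intro h0
      apply hne
      have h2 : (l : ℂ) = l0 := by
        push_cast at h0
        linear_combination h0
      exact_mod_cast h2
    · rw [← Finset.prod_erase_mul _ _ hl0]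
      congr 1
      rw [hx]
      push_cast
      simp only [map_add, map_neg, map_one]
      ring
  · refine ⟨∏ l ∈ A, (X i + C ((1 : ℂ) + l)), ?_, by ring⟩
    intro t0 ht0
    rw [map_prod, Finset.prod_ne_zero_iff]
    intro l hl
    simp only [map_add, eval_X, eval_C, ht0]
    intro h0
    apply h
    refine ⟨l, hl, ?_⟩
    have h2 : ((x : ℝ) : ℂ) = ((-((l : ℝ) + 1) : ℝ) : ℂ) := by
      push_cast
      linear_combination h0
    exact_mod_cast h2

lemma DDp_zero (K : ℕ) (i : Fin r) :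
    DDp K 0 i = ∏ l ∈ Finset.range K, (X i + C ((1 : ℂ) + l)) := by
  unfold DDp
  simp

open Classical in
/-- the indices `i` with `t0_i` a negative integer (`≤ -2` if `i ∈ S`) -/
noncomputable def Bset (S : Finset (Fin r)) (K : ℕ) (t0 : Fin r → ℝ) : Finset (Fin r) :=
  univ.filter fun i => ∃ l ∈ (if i ∈ S then (Finset.range K).erase 0 else Finset.range K),
    t0 i = -((l : ℝ) + 1)

lemma den_factor (S : Finset (Fin r)) (K : ℕ) (hK : 1 ≤ K) (t0 : Fin r → ℝ) :
    ∃ u : MvPolynomial (Fin r) ℂ, eval (fun i => (t0 i : ℂ)) u ≠ 0 ∧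
      ∏ i, DDp K 0 i = (∏ i ∈ S, (X i + 1)) * u * ∏ i ∈ Bset S K t0, (X i - C (t0 i : ℂ)) := by
  classical
  choose u hu1 hu2 using fun i : Fin r => factor_one i
    (if i ∈ S then (Finset.range K).erase 0 else Finset.range K) (t0 i)
  refine ⟨∏ i, u i, ?_, ?_⟩
  · rw [map_prod, Finset.prod_ne_zero_iff]
    intro i _
    exact hu1 i t0 rfl
  · have h1 : ∀ i, DDp K 0 i = (if i ∈ S then (X i + 1) else 1) * u i *
        (if ∃ l ∈ (if i ∈ S then (Finset.range K).erase 0 else Finset.range K),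
          t0 i = -((l : ℝ) + 1) then (X i - C (t0 i : ℂ)) else 1) := by
      intro i
      rw [mul_assoc, ← hu2 i, DDp_zero]
      by_cases hi : i ∈ S
      · simp only [hi, if_true]
        have h0 : 0 ∈ Finset.range K := Finset.mem_range.mpr (by omega)
        rw [← Finset.mul_prod_erase _ _ h0]
        simp
      · simp only [hi, if_false, one_mul]
    simp only [h1]
    rw [Finset.prod_mul_distrib, Finset.prod_mul_distrib, Finset.prod_ite_mem,
      Finset.univ_inter]
    congr 1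
    unfold Bset
    rw [Finset.prod_filter]

/-- no element of the complement of `S` is an apex at height one with respect to it -/
def StarC (a : Fin r → (Fin n →₀ ℕ)) (S : Finset (Fin r)) : Prop :=
  ∀ i, i ∉ S → ∀ j, ¬ (a i j = 1 ∧ ∀ l, l ∉ S → l ≠ i → a l j = 0)

lemma mem_Bset {S : Finset (Fin r)} {K : ℕ} {t0 : Fin r → ℝ} {i : Fin r} :
    i ∈ Bset S K t0 ↔ ∃ l : ℕ, l < K ∧ (i ∈ S → l ≠ 0) ∧ t0 i = -((l : ℝ) + 1) := by
  classical
  unfold Bset
  rw [Finset.mem_filter]
  simp only [Finset.mem_univ, true_and]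
  by_cases hi : i ∈ S
  · simp only [hi, if_true, Finset.mem_erase, Finset.mem_range, forall_true_left]
    constructor
    · rintro ⟨l, ⟨h1, h2⟩, h3⟩; exact ⟨l, h2, h1, h3⟩
    · rintro ⟨l, h2, h1, h3⟩; exact ⟨l, ⟨h1, h2⟩, h3⟩
  · simp only [hi, if_false, Finset.mem_range, false_implies, true_and]

lemma exists_pos_coord (a : Fin r → (Fin n →₀ ℕ)) (S : Finset (Fin r)) (hstar : StarC a S)
    (K : ℕ) (t0 : Fin r → ℝ) (L' : Finset (Fin r)) (hL : L' ⊆ S)
    (hL0 : ∀ l ∈ L', t0 l = 0) (j : Fin n) (hj : 1 + ∑ i, (a i j : ℝ) * t0 i = 0) :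
    ∃ i, i ∉ L' ∪ Bset S K t0 ∧ 0 < a i j := by
  classical
  by_contra hcon
  push Not at hcon
  have h0 : ∀ i, i ∉ L' ∪ Bset S K t0 → a i j = 0 := by
    intro i hi
    have := hcon i hi
    omega
  choose! lv hlv using fun (i : Fin r) (hi : i ∈ Bset S K t0) => mem_Bset.mp hi
  have h1 : ∑ i, (a i j : ℝ) * t0 i =
      -((∑ i ∈ Bset S K t0, a i j * (lv i + 1) : ℕ) : ℝ) := by
    rw [← Finset.sum_subset (Finset.subset_univ (Bset S K t0))]
    · push_cast
      rw [← Finset.sum_neg_distrib]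
      refine Finset.sum_congr rfl fun i hi => ?_
      rw [(hlv i hi).2.2]; ring
    · intro i _ hi
      by_cases hiL : i ∈ L'
      · rw [hL0 i hiL, mul_zero]
      · rw [h0 i (by rw [Finset.mem_union]; tauto)]; simp
  rw [h1] at hj
  have h2 : (∑ i ∈ Bset S K t0, a i j * (lv i + 1)) = 1 := by
    have : ((∑ i ∈ Bset S K t0, a i j * (lv i + 1) : ℕ) : ℝ) = 1 := by linarith
    exact_mod_cast this
  obtain ⟨i, hi, hi1⟩ : ∃ i ∈ Bset S K t0, a i j * (lv i + 1) ≠ 0 := by
    by_contra hh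
    push Not at hh
    rw [Finset.sum_eq_zero hh] at h2
    omega
  rw [← Finset.add_sum_erase _ _ hi] at h2
  have h3 : a i j * (lv i + 1) = 1 := by omega
  have h4 : ∑ x ∈ (Bset S K t0).erase i, a x j * (lv x + 1) = 0 := by omega
  have h5 : a i j = 1 ∧ lv i + 1 = 1 := mul_eq_one.mp h3
  have hiS : i ∉ S := by
    intro hiS
    have := (hlv i hi).2.1 hiS
    omega
  apply hstar i hiS j
  refine ⟨h5.1, fun l hlS hli => ?_⟩
  by_cases hlB : l ∈ Bset S K t0
  · have h6 := (Finset.sum_eq_zero_iff.mp h4) l (Finset.mem_erase.mpr ⟨hli, hlB⟩)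
    rcases Nat.mul_eq_zero.mp h6 with h7 | h7
    · exact h7
    · omega
  · apply h0
    rw [Finset.mem_union]
    rintro (h6 | h6)
    · exact hlS (hL h6)
    · exact hlB h6

lemma pos_local (a : Fin r → (Fin n →₀ ℕ)) (S : Finset (Fin r)) (hstar : StarC a S)
    (K : ℕ) (t0 : Fin r → ℝ) (J' : Finset (Fin n)) (L' : Finset (Fin r)) (hL : L' ⊆ S)
    (hJ : ∀ j ∈ J', 1 + ∑ i, (a i j : ℝ) * t0 i = 0) (hL0 : ∀ l ∈ L', t0 l = 0) :
    PosF (bv a) 0 (J'.disjSum (L'.disjSum (Bset S K t0))) := by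
  classical
  set R : ℝ := 1 + ∑ j, ∑ i, (a i j : ℝ) with hR
  have hRj : ∀ j, ∑ i, (a i j : ℝ) < R := by
    intro j
    have : ∑ i, (a i j : ℝ) ≤ ∑ j, ∑ i, (a i j : ℝ) :=
      Finset.single_le_sum (f := fun j => ∑ i, (a i j : ℝ))
        (fun _ _ => Finset.sum_nonneg fun _ _ => Nat.cast_nonneg _) (Finset.mem_univ j)
    linarith
  have hR0 : 0 < R := by
    have : 0 ≤ ∑ j, ∑ i, (a i j : ℝ) :=
      Finset.sum_nonneg fun _ _ => Finset.sum_nonneg fun _ _ => Nat.cast_nonneg _
    linarith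
  refine ⟨fun i => if i ∈ L' ∪ Bset S K t0 then -1 else R, ?_⟩
  intro k hk
  rcases k with j | l | l
  · rw [Finset.inl_mem_disjSum] at hk
    obtain ⟨i1, hi1, hi1p⟩ := exists_pos_coord a S hstar K t0 L' hL hL0 j (hJ j hk)
    simp only [bv, Pi.zero_apply, add_zero]
    have h1 : ∀ i, (a i j : ℝ) * (if i ∈ L' ∪ Bset S K t0 then -1 else R) ≥
        -(a i j : ℝ) + (if i = i1 then R else 0) := by
      intro i
      have ha : (0 : ℝ) ≤ a i j := Nat.cast_nonneg _
      by_cases hi : i ∈ L' ∪ Bset S K t0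
      · have hne : i ≠ i1 := by rintro rfl; exact hi1 hi
        rw [if_pos hi, if_neg hne]; linarith
      · rw [if_neg hi]
        by_cases hii : i = i1
        · subst hii
          rw [if_pos rfl]
          have h2 : (1 : ℝ) ≤ a i j := by exact_mod_cast hi1p
          nlinarith
        · rw [if_neg hii]
          nlinarith
    have h2 : ∑ i, (a i j : ℝ) * (if i ∈ L' ∪ Bset S K t0 then -1 else R) ≥
        ∑ i, (-(a i j : ℝ) + (if i = i1 then R else 0)) := Finset.sum_le_sum fun i _ => h1 i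
    rw [Finset.sum_add_distrib, Finset.sum_neg_distrib, Finset.sum_ite_eq' univ i1] at h2
    simp only [Finset.mem_univ, if_true] at h2
    have := hRj j
    linarith
  · rw [Finset.inr_mem_disjSum, Finset.inl_mem_disjSum] at hk
    simp only [bv, Pi.zero_apply, add_zero]
    rw [Finset.sum_eq_single l]
    · rw [if_pos rfl, if_pos (Finset.mem_union_left _ hk)]; norm_num
    · intro i _ hi; simp [hi]
    · intro h; exact absurd (Finset.mem_univ _) h
  · rw [Finset.inr_mem_disjSum, Finset.inr_mem_disjSum] at hk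
    simp only [bv, Pi.zero_apply, add_zero]
    rw [Finset.sum_eq_single l]
    · rw [if_pos rfl, if_pos (Finset.mem_union_right _ hk)]; norm_num
    · intro i _ hi; simp [hi]
    · intro h; exact absurd (Finset.mem_univ _) h


lemma dvd_shift_zf (a : Fin r → (Fin n →₀ ℕ)) (t0 : Fin r → ℝ) (j : Fin n)
    (h : 1 + ∑ i, (a i j : ℝ) * t0 i = 0) (q : ℤ) (hq : 0 < q) :
    formP (bv a (Sum.inl j)) 0 ∣ shiftP t0 (zf a j q) := by
  rw [formP_bv_inl, ← shiftP_zp a t0 j h]
  apply map_dvd
  unfold zf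
  have h0 : 0 ∈ Finset.range q.toNat := by rw [Finset.mem_range]; omega
  have := Finset.dvd_prod_of_mem (fun l : ℕ => (zp a j + C (l : ℂ))) h0
  simpa using this

lemma dvd_shift_DDp (K : ℕ) (t0 : Fin r → ℝ) (i : Fin r) (p : ℕ) (hp : p ≤ K)
    (ht : t0 i = -(p : ℝ)) (q : ℤ) (hq : -(p : ℤ) < q) :
    (X i : MvPolynomial (Fin r) ℂ) ∣ shiftP t0 (DDp K q i) := by
  unfold DDp
  rw [map_prod]
  have h0 : ((p : ℤ) + q - 1).toNat ∈ Finset.range ((K : ℤ) + q).toNat := by
    rw [Finset.mem_range]; omega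
  have h1 := Finset.dvd_prod_of_mem (fun l : ℕ => shiftP t0 (X i + C (-(q : ℂ) + 1 + l))) h0
  refine dvd_trans (dvd_of_eq ?_) h1
  rw [map_add, shiftP_X, shiftP_C, ht, add_assoc, ← C_add]
  have h2 : (((((p : ℤ) + q - 1).toNat : ℕ) : ℂ)) = (p : ℂ) + q - 1 := by
    have h3 : ((((p : ℤ) + q - 1).toNat : ℕ) : ℤ) = (p : ℤ) + q - 1 := by omega
    have h4 : (((((p : ℤ) + q - 1).toNat : ℕ) : ℤ) : ℂ) = (((p : ℤ) + q - 1 : ℤ) : ℂ) := by
      rw [h3]
    push_cast at h4 ⊢
    exact h4
  rw [h2]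
  push_cast
  have h5 : (-(p : ℂ)) + (-(q : ℂ) + 1 + ((p : ℂ) + q - 1)) = 0 := by ring
  rw [h5]; simp

/-- The local theorem: near a common zero `t0` of the forms in `F' = J' ⊔ L'`. -/
theorem local_theorem (a : Fin r → (Fin n →₀ ℕ)) (S : Finset (Fin r)) (hstar : StarC a S)
    (b' : Polynomial ℂ) (K : ℕ) (hK : 1 ≤ K) {A : Type*} (T : Finset A) (m : A → Fin r → ℤ)
    (g : A → MvPolynomial (Fin r) ℂ)
    (hm1 : ∀ α ∈ T, ∑ i, m α i = -1)
    (hid : (Polynomial.aeval (∑ i, (X i : MvPolynomial (Fin r) ℂ)) b') * ∏ i, DDp K 0 i =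
        ∑ α ∈ T, g α * (∏ j, zf a j (-(∑ i, m α i * (a i j : ℤ)))) *
          ∏ i, DDp K (m α i) i)
    (δ : ℝ) (hδ : ∀ α ∈ T, δ * ∑ i, |(m α i : ℝ)| < 1)
    (t0 : Fin r → ℝ) (J' : Finset (Fin n)) (L' : Finset (Fin r)) (hL : L' ⊆ S)
    (hJ : ∀ j ∈ J', 1 + ∑ i, (a i j : ℝ) * t0 i = 0) (hL0 : ∀ l ∈ L', t0 l = 0)
    (hpos : PosF (bv a) 0 (J'.disjSum (L'.disjSum ∅))) :
    shiftP t0 ((Polynomial.aeval (∑ i, (X i : MvPolynomial (Fin r) ℂ)) b') *
      ∏ i ∈ S, (X i + 1)) ∈ annIdeal (bv a) (J'.disjSum (L'.disjSum ∅)) hpos δ := by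
  classical
  obtain ⟨u, hu, hden⟩ := den_factor S K hK t0
  set B := Bset S K t0 with hB
  have hposB := pos_local a S hstar K t0 J' L' hL hJ hL0
  rw [← hB] at hposB
  set F' := J'.disjSum (L'.disjSum (∅ : Finset (Fin r))) with hF'
  set F'' := J'.disjSum (L'.disjSum B) with hF''
  have hu0 : constantCoeff (shiftP t0 u) ≠ 0 := by rw [constantCoeff_shiftP]; exact hu
  apply unit_removal (u := shiftP t0 u) hu0
  rw [mem_annIdeal]
  intro ρ hρ
  obtain ⟨N, hN, hb⟩ := id hρ
  -- disjointness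
  have hLB : ∀ l ∈ L', l ∉ B := by
    intro l hl hlB
    obtain ⟨k, _, _, h3⟩ := mem_Bset.mp hlB
    rw [hL0 l hl] at h3
    have : (0 : ℝ) ≤ k := Nat.cast_nonneg k
    linarith
  -- the functional on F'' applied to the shifted identity
  have hRHS : MF (bv a) 0 F'' ρ (shiftP t0 (∑ α ∈ T, g α *
      (∏ j, zf a j (-(∑ i, m α i * (a i j : ℤ)))) * ∏ i, DDp K (m α i) i)) = 0 := by
    rw [map_sum, MF_sum hb hposB]
    apply Finset.sum_eq_zero
    intro α hα
    set G1 := J'.filter fun j => ∑ i, m α i * (a i j : ℤ) < 0 with hG1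
    set G2 := L'.filter fun l => 0 < m α l with hG2
    set G3 := B.filter fun i => t0 i < (m α i : ℝ) with hG3
    set G := G1.disjSum (G2.disjSum G3) with hG
    have hdvd : ∏ k ∈ G, formP (bv a k) 0 ∣ shiftP t0 (g α *
        (∏ j, zf a j (-(∑ i, m α i * (a i j : ℤ)))) * ∏ i, DDp K (m α i) i) := by
      rw [map_mul, map_mul, map_prod, map_prod, hG, Finset.prod_disjSum]
      apply mul_dvd_mul
      · apply Dvd.dvd.mul_left
        refine dvd_trans ?_ (Finset.prod_dvd_prod_of_subset G1 univ _ (Finset.subset_univ _))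
        apply Finset.prod_dvd_prod_of_dvd
        intro j hj
        rw [hG1, Finset.mem_filter] at hj
        exact dvd_shift_zf a t0 j (hJ j hj.1) _ (by linarith [hj.2])
      · rw [Finset.prod_disjSum]
        have hdisj : Disjoint G2 G3 := by
          rw [Finset.disjoint_left]
          intro l hl2 hl3
          rw [hG2, Finset.mem_filter] at hl2
          rw [hG3, Finset.mem_filter] at hl3
          exact hLB l hl2.1 hl3.1
        have e1 : (∏ x ∈ G2, formP (bv a (Sum.inr (Sum.inl x))) 0) *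
            (∏ x ∈ G3, formP (bv a (Sum.inr (Sum.inr x))) 0) =
            ∏ x ∈ G2 ∪ G3, (-(X x : MvPolynomial (Fin r) ℂ)) := by
          rw [Finset.prod_union hdisj]
          simp only [formP_bv_inr_inl, formP_bv_inr_inr]
        rw [e1]
        refine dvd_trans ?_ (Finset.prod_dvd_prod_of_subset (G2 ∪ G3) univ _
          (Finset.subset_univ _))
        apply Finset.prod_dvd_prod_of_dvd
        intro l hl
        rw [neg_dvd]
        rw [Finset.mem_union] at hl
        rcases hl with hl | hl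
        · rw [hG2, Finset.mem_filter] at hl
          exact dvd_shift_DDp K t0 l 0 (Nat.zero_le _) (by rw [hL0 l hl.1]; simp) _
            (by simpa using hl.2)
        · rw [hG3, Finset.mem_filter] at hl
          obtain ⟨k, hk1, _, hk3⟩ := mem_Bset.mp hl.1
          refine dvd_shift_DDp K t0 l (k + 1) (by omega) (by rw [hk3]; push_cast; ring) _ ?_
          have h5 : -((k : ℝ) + 1) < (m α l : ℝ) := by rw [← hk3]; exact hl.2
          have h6 : ((-((k : ℤ) + 1) : ℤ) : ℝ) < (m α l : ℝ) := by push_cast; linarith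
          have h7 : (-((k : ℤ) + 1) : ℤ) < m α l := by exact_mod_cast h6
          push_cast; linarith
    obtain ⟨w, hw⟩ := hdvd
    rw [hw]
    have hGF : G ⊆ F'' := by
      rw [hG, hF'']
      apply Finset.disjSum_mono (Finset.filter_subset _ _)
      exact Finset.disjSum_mono (Finset.filter_subset _ _) (Finset.filter_subset _ _)
    have hrem := MF_remove_many hb hposB w G hGF
    simp only [Pi.zero_apply] at hrem
    rw [hrem]
    apply MF_vanish hb w (fun i => (m α i : ℝ))
    · intro k hk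
      rw [Finset.mem_sdiff] at hk
      rcases k with j | l | l
      · have h1 : j ∈ J' := by
          have := hk.1; rw [hF'', Finset.inl_mem_disjSum] at this; exact this
        have h2 : j ∉ G1 := by
          intro h; apply hk.2; rw [hG, Finset.inl_mem_disjSum]; exact h
        have h3 : ¬ (∑ i, m α i * (a i j : ℤ) < 0) := by
          intro h; apply h2; rw [hG1, Finset.mem_filter]; exact ⟨h1, h⟩
        push Not at h3
        have h4 : ((0 : ℤ) : ℝ) ≤ ((∑ i, m α i * (a i j : ℤ) : ℤ) : ℝ) := by exact_mod_cast h3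
        push_cast at h4
        simpa [bv] using h4
      · have h1 : l ∈ L' := by
          have := hk.1
          rw [hF'', Finset.inr_mem_disjSum, Finset.inl_mem_disjSum] at this; exact this
        have h2 : l ∉ G2 := by
          intro h; apply hk.2
          rw [hG, Finset.inr_mem_disjSum, Finset.inl_mem_disjSum]; exact h
        have h3 : ¬ (0 < m α l) := by
          intro h; apply h2; rw [hG2, Finset.mem_filter]; exact ⟨h1, h⟩
        push Not at h3
        have h4 : (m α l : ℝ) ≤ 0 := by exact_mod_cast h3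
        have h5 : ∑ i, (m α i : ℝ) * bv a (Sum.inr (Sum.inl l)) i = -(m α l : ℝ) := by
          simp only [bv]
          rw [Finset.sum_eq_single l]
          · simp
          · intro i _ hi; simp [hi]
          · intro h; exact absurd (Finset.mem_univ _) h
        rw [h5]; linarith
      · have h1 : l ∈ B := by
          have := hk.1
          rw [hF'', Finset.inr_mem_disjSum, Finset.inr_mem_disjSum] at this; exact this
        have h2 : l ∉ G3 := by
          intro h; apply hk.2
          rw [hG, Finset.inr_mem_disjSum, Finset.inr_mem_disjSum]; exact h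
        have h3 : ¬ (t0 l < (m α l : ℝ)) := by
          intro h; apply h2; rw [hG3, Finset.mem_filter]; exact ⟨h1, h⟩
        push Not at h3
        obtain ⟨k, hk1, _, hk3⟩ := mem_Bset.mp h1
        have h4 : (m α l : ℝ) ≤ 0 := by
          have : (0 : ℝ) ≤ k := Nat.cast_nonneg k
          linarith
        have h5 : ∑ i, (m α i : ℝ) * bv a (Sum.inr (Sum.inr l)) i = -(m α l : ℝ) := by
          simp only [bv]
          rw [Finset.sum_eq_single l]
          · simp
          · intro i _ hi; simp [hi]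
          · intro h; exact absurd (Finset.mem_univ _) h
        rw [h5]; linarith
    · intro x hx
      have h1 : ∑ i, (m α i : ℝ) * x i = N + ∑ i, (m α i : ℝ) * (x i + N) := by
        have h2 : ∑ i, (m α i : ℝ) * (x i + N) = ∑ i, (m α i : ℝ) * x i +
            (∑ i, (m α i : ℝ)) * N := by
          simp only [mul_add, Finset.sum_add_distrib, Finset.sum_mul]
        have h3 : ∑ i, (m α i : ℝ) = -1 := by
          have := hm1 α hα
          have h4 : ((∑ i, m α i : ℤ) : ℝ) = ((-1 : ℤ) : ℝ) := by rw [this]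
          push_cast at h4; exact h4
        rw [h2, h3]; ring
      have h2 : |∑ i, (m α i : ℝ) * (x i + N)| ≤ ∑ i, |(m α i : ℝ)| * (N * δ) := by
        refine (Finset.abs_sum_le_sum_abs _ _).trans ?_
        apply Finset.sum_le_sum
        intro i _
        rw [abs_mul]
        apply mul_le_mul_of_nonneg_left _ (abs_nonneg _)
        rw [abs_le]
        have := hx i
        rw [Set.mem_Icc] at this
        constructor <;> nlinarith [this.1, this.2]
      rw [← Finset.sum_mul] at h2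
      have h3 := hδ α hα
      have h4 : (∑ i, |(m α i : ℝ)|) * (N * δ) < N := by nlinarith
      rw [h1]
      have := neg_abs_le (∑ i, (m α i : ℝ) * (x i + N))
      linarith
  rw [← hid, hden] at hRHS
  have e1 : shiftP t0 ((Polynomial.aeval (∑ i, (X i : MvPolynomial (Fin r) ℂ)) b') *
      ((∏ i ∈ S, (X i + 1)) * u * ∏ i ∈ B, (X i - C (t0 i : ℂ)))) =
      (∏ k ∈ (∅ : Finset (Fin n)).disjSum ((∅ : Finset (Fin r)).disjSum B),
        formP (bv a k) 0) * (C ((-1 : ℂ) ^ B.card) * (shiftP t0 u *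
          shiftP t0 ((Polynomial.aeval (∑ i, (X i : MvPolynomial (Fin r) ℂ)) b') *
            ∏ i ∈ S, (X i + 1)))) := by
    rw [Finset.prod_disjSum, Finset.prod_disjSum]
    simp only [Finset.prod_empty, one_mul, formP_bv_inr_inr]
    rw [Finset.prod_neg, map_mul, map_mul, map_mul, map_mul, map_prod (shiftP t0)
      (fun i => (X i - C (t0 i : ℂ) : MvPolynomial (Fin r) ℂ)) B]
    have e2 : ∀ i, shiftP t0 (X i - C (t0 i : ℂ)) = X i := by
      intro i; rw [map_sub, shiftP_X, shiftP_C]; ring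
    simp only [e2]
    have e3 : ((-1 : MvPolynomial (Fin r) ℂ)) ^ B.card * C ((-1 : ℂ) ^ B.card) = 1 := by
      rw [map_pow, map_neg, map_one, ← mul_pow]; simp
    calc _ = (shiftP t0 u * (shiftP t0 (Polynomial.aeval (∑ i, (X i : MvPolynomial (Fin r) ℂ)) b')
            * shiftP t0 (∏ i ∈ S, (X i + 1)))) * (∏ i ∈ B, X i) := by ring
      _ = (((-1 : MvPolynomial (Fin r) ℂ)) ^ B.card * C ((-1 : ℂ) ^ B.card)) * ((shiftP t0 u *
          (shiftP t0 (Polynomial.aeval (∑ i, (X i : MvPolynomial (Fin r) ℂ)) b')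
            * shiftP t0 (∏ i ∈ S, (X i + 1)))) * (∏ i ∈ B, X i)) := by rw [e3, one_mul]
      _ = _ := by ring
  have hsub : (∅ : Finset (Fin n)).disjSum ((∅ : Finset (Fin r)).disjSum B) ⊆ F'' := by
    rw [hF'']
    apply Finset.disjSum_mono (Finset.empty_subset _)
    exact Finset.disjSum_mono (Finset.empty_subset _) subset_rfl
  have hrem := MF_remove_many hb hposB (C ((-1 : ℂ) ^ B.card) * (shiftP t0 u *
          shiftP t0 ((Polynomial.aeval (∑ i, (X i : MvPolynomial (Fin r) ℂ)) b') *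
            ∏ i ∈ S, (X i + 1)))) _ hsub
  simp only [Pi.zero_apply] at hrem
  rw [e1, hrem, MF_C_mul] at hRHS
  have hsd : F'' \ (∅ : Finset (Fin n)).disjSum ((∅ : Finset (Fin r)).disjSum B) = F' := by
    ext k
    rw [Finset.mem_sdiff, hF'', hF']
    rcases k with j | l | l
    · simp
    · simp
    · simp
  rw [hsd] at hRHS
  rcases mul_eq_zero.mp hRHS with h | h
  · exact absurd h (pow_ne_zero _ (by norm_num))
  · exact h

end Pool.Agent.H22

namespace Pool.Agent.H22

open MvPolynomial Finset MeasureTheory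

section general

variable {r : ℕ} {ι : Type*} [Fintype ι] [DecidableEq ι]

omit [Fintype ι] in
lemma not_central (b : ι → Fin r → ℝ) (c : ι → ℝ) (F : Finset ι)
    (h : ¬ ∃ t0 : Fin r → ℝ, ∀ k ∈ F, ∑ i, b k i * t0 i + c k = 0) :
    ∃ α : ι → ℝ, (∀ i, ∑ k ∈ F, α k * b k i = 0) ∧ ∑ k ∈ F, α k * c k = 1 := by
  classical
  let A : (Fin r → ℝ) →ₗ[ℝ] (F → ℝ) :=
    { toFun := fun t k => ∑ i, b k i * t i
      map_add' := by
        intro x y; funext k
        simp only [Pi.add_apply, mul_add, Finset.sum_add_distrib]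
      map_smul' := by
        intro s x; funext k
        simp only [Pi.smul_apply, smul_eq_mul, RingHom.id_apply, Finset.mul_sum]
        refine Finset.sum_congr rfl fun i _ => ?_
        ring }
  have hA : ∀ t k, A t k = ∑ i, b k i * t i := fun _ _ => rfl
  set v : F → ℝ := fun k => c k with hv
  have hvn : v ∉ LinearMap.range A := by
    rintro ⟨t, ht⟩
    apply h
    refine ⟨-t, fun k hk => ?_⟩
    have := congrFun ht ⟨k, hk⟩
    rw [hA, hv] at this
    simp only at this
    rw [← this]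
    simp
  obtain ⟨f, hf, hker⟩ := Submodule.exists_le_ker_of_notMem hvn
  have hfx : ∀ x : F → ℝ, f x = ∑ k : F, x k * f (Pi.single k 1) := by
    intro x
    rw [LinearMap.pi_apply_eq_sum_univ f x]
    refine Finset.sum_congr rfl fun k _ => ?_
    rw [smul_eq_mul]
    congr 2
    funext k'
    simp [Pi.single_apply, eq_comm]
  refine ⟨fun k => if hk : k ∈ F then f (Pi.single ⟨k, hk⟩ 1) / f v else 0, ?_, ?_⟩
  · intro i
    have h1 : f (A (Pi.single i 1)) = 0 := by
      have : A (Pi.single i 1) ∈ LinearMap.ker f := hker ⟨_, rfl⟩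
      exact this
    rw [hfx] at h1
    have h2 : ∀ k : F, A (Pi.single i 1) k = b k i := by
      intro k
      rw [hA]
      rw [Finset.sum_eq_single i]
      · simp
      · intro i' _ hne; simp [hne]
      · intro h; exact absurd (Finset.mem_univ _) h
    simp only [h2] at h1
    rw [← Finset.sum_coe_sort]
    have h3 : ∀ k : F, (if hk : (k : ι) ∈ F then f (Pi.single ⟨k, hk⟩ 1) / f v else 0) * b k i =
        (b k i * f (Pi.single k 1)) / f v := by
      intro k
      rw [dif_pos k.2]; ring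
    rw [Finset.sum_congr rfl (fun k _ => h3 k), ← Finset.sum_div, h1, zero_div]
  · rw [← Finset.sum_coe_sort]
    have h3 : ∀ k : F, (if hk : (k : ι) ∈ F then f (Pi.single ⟨k, hk⟩ 1) / f v else 0) * c k =
        (v k * f (Pi.single k 1)) / f v := by
      intro k
      rw [dif_pos k.2, hv]; ring
    rw [Finset.sum_congr rfl (fun k _ => h3 k), ← Finset.sum_div, ← hfx, div_self hf]

/-- reduction to central subfamilies -/
theorem MF_reduce {b : ι → Fin r → ℝ} {c : ι → ℝ} {ρ : Fin r → ℝ → ℂ} {lo hi : ℝ}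
    (hρ : IsBump ρ lo hi) (h : MvPolynomial (Fin r) ℂ) (F : Finset ι) (hF : PosF b c F)
    (hcen : ∀ F' ⊆ F, (∃ t0 : Fin r → ℝ, ∀ k ∈ F', ∑ i, b k i * t0 i + c k = 0) →
      MF b c F' ρ h = 0) :
    MF b c F ρ h = 0 := by
  induction F using Finset.strongInduction with
  | H F ih =>
    by_cases hc : ∃ t0 : Fin r → ℝ, ∀ k ∈ F, ∑ i, b k i * t0 i + c k = 0
    · exact hcen F subset_rfl hc
    · obtain ⟨α, hα1, hα2⟩ := not_central b c F hc
      have h1 : h = ∑ k ∈ F, C (α k : ℂ) * (formP (b k) (c k) * h) := by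
        have h2 : ∑ k ∈ F, C (α k : ℂ) * formP (b k) (c k) = 1 := by
          unfold formP
          simp only [mul_add, Finset.mul_sum, Finset.sum_add_distrib]
          rw [Finset.sum_comm]
          have h3 : ∀ i, ∑ k ∈ F, C (α k : ℂ) * (C (b k i : ℂ) * X i) =
              (0 : MvPolynomial (Fin r) ℂ) := by
            intro i
            have : ∑ k ∈ F, C (α k : ℂ) * (C (b k i : ℂ) * X i) =
                C ((∑ k ∈ F, α k * b k i : ℝ) : ℂ) * (X i : MvPolynomial (Fin r) ℂ) := by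
              push_cast
              rw [map_sum, Finset.sum_mul]
              refine Finset.sum_congr rfl fun k _ => ?_
              rw [map_mul]; ring
            rw [this, hα1 i]; simp
          simp only [h3, Finset.sum_const_zero, zero_add]
          have : ∑ k ∈ F, C (α k : ℂ) * C (c k : ℂ) =
              (C ((∑ k ∈ F, α k * c k : ℝ) : ℂ) : MvPolynomial (Fin r) ℂ) := by
            push_cast
            rw [map_sum]
            refine Finset.sum_congr rfl fun k _ => ?_
            rw [map_mul]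
          rw [this, hα2]; simp
        have h4 : ∑ k ∈ F, C (α k : ℂ) * (formP (b k) (c k) * h) =
            (∑ k ∈ F, C (α k : ℂ) * formP (b k) (c k)) * h := by
          rw [Finset.sum_mul]
          refine Finset.sum_congr rfl fun k _ => ?_
          ring
        rw [h4, h2, one_mul]
      rw [h1, MF_sum hρ hF]
      apply Finset.sum_eq_zero
      intro k hk
      rw [MF_C_mul, MF_remove hρ h hF hk]
      rw [ih (F.erase k) (Finset.erase_ssubset hk) (hF.mono (Finset.erase_subset _ _))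
        (fun F' hF' hc' => hcen F' (hF'.trans (Finset.erase_subset _ _)) hc')]
      simp

end general

variable {n r : ℕ}

lemma pos_global (a : Fin r → (Fin n →₀ ℕ)) (S : Finset (Fin r)) :
    PosF (bv a) cv ((univ : Finset (Fin n)).disjSum (S.disjSum (∅ : Finset (Fin r)))) := by
  set R : ℝ := 1 + ∑ j, ∑ i, (a i j : ℝ) with hR
  have hRj : ∀ j, ∑ i, (a i j : ℝ) < R := by
    intro j
    have : ∑ i, (a i j : ℝ) ≤ ∑ j, ∑ i, (a i j : ℝ) :=
      Finset.single_le_sum (f := fun j => ∑ i, (a i j : ℝ))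
        (fun _ _ => Finset.sum_nonneg fun _ _ => Nat.cast_nonneg _) (Finset.mem_univ j)
    linarith
  have hR0 : 0 < R := by
    have : 0 ≤ ∑ j, ∑ i, (a i j : ℝ) :=
      Finset.sum_nonneg fun _ _ => Finset.sum_nonneg fun _ _ => Nat.cast_nonneg _
    linarith
  refine ⟨fun _ => -(1 / R), ?_⟩
  intro k hk
  rcases k with j | l | l
  · simp only [bv, cv]
    rw [← Finset.sum_mul]
    have h1 := hRj j
    have h2 : (∑ i, (a i j : ℝ)) * (1 / R) < 1 := by
      rw [mul_one_div, div_lt_one hR0]; exact h1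
    linarith
  · simp only [bv, cv]
    rw [Finset.sum_eq_single l]
    · simp; exact hR0
    · intro i _ hi; simp [hi]
    · intro h; exact absurd (Finset.mem_univ _) h
  · simp at hk

/-- The global smoothed theorem. -/
theorem global_theorem (a : Fin r → (Fin n →₀ ℕ)) (S : Finset (Fin r)) (hstar : StarC a S)
    (b' : Polynomial ℂ) (K : ℕ) (hK : 1 ≤ K) {A : Type*} (T : Finset A) (m : A → Fin r → ℤ)
    (g : A → MvPolynomial (Fin r) ℂ)
    (hm1 : ∀ α ∈ T, ∑ i, m α i = -1)
    (hid : (Polynomial.aeval (∑ i, (X i : MvPolynomial (Fin r) ℂ)) b') * ∏ i, DDp K 0 i =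
        ∑ α ∈ T, g α * (∏ j, zf a j (-(∑ i, m α i * (a i j : ℤ)))) *
          ∏ i, DDp K (m α i) i)
    (δ : ℝ) (hδ : ∀ α ∈ T, δ * ∑ i, |(m α i : ℝ)| < 1)
    (ρ : Fin r → ℝ → ℂ) (hρ : Conic δ ρ) :
    MF (bv a) cv ((univ : Finset (Fin n)).disjSum (S.disjSum (∅ : Finset (Fin r)))) ρ
      ((Polynomial.aeval (∑ i, (X i : MvPolynomial (Fin r) ℂ)) b') *
        ∏ i ∈ S, (X i + 1)) = 0 := by
  obtain ⟨N, hN, hb⟩ := id hρ
  apply MF_reduce hb _ _ (pos_global a S)
  intro F' hF' hcen
  obtain ⟨t0, ht0⟩ := hcen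
  rw [MF_twist hb t0 ht0]
  set J' : Finset (Fin n) := F'.toLeft with hJ'
  set L' : Finset (Fin r) := F'.toRight.toLeft with hL'
  have hFeq : F' = J'.disjSum (L'.disjSum (∅ : Finset (Fin r))) := by
    ext k
    rcases k with j | l | l
    · simp [hJ']
    · simp [hL']
    · simp only [Finset.inr_mem_disjSum, Finset.notMem_empty, iff_false]
      intro h
      have := hF' h
      simp at this
  have hJ : ∀ j ∈ J', 1 + ∑ i, (a i j : ℝ) * t0 i = 0 := by
    intro j hj
    have := ht0 (Sum.inl j) (by rw [hFeq, Finset.inl_mem_disjSum]; exact hj)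
    simp only [bv, cv] at this
    linarith
  have hL0 : ∀ l ∈ L', t0 l = 0 := by
    intro l hl
    have := ht0 (Sum.inr (Sum.inl l)) (by
      rw [hFeq, Finset.inr_mem_disjSum, Finset.inl_mem_disjSum]; exact hl)
    simp only [bv, cv] at this
    rw [Finset.sum_eq_single l] at this
    · simp at this; exact this
    · intro i _ hi; simp [hi]
    · intro h; exact absurd (Finset.mem_univ _) h
  have hLS : L' ⊆ S := by
    intro l hl
    have h1 : (Sum.inr (Sum.inl l) : Fin n ⊕ (Fin r ⊕ Fin r)) ∈ F' := by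
      rw [hFeq, Finset.inr_mem_disjSum, Finset.inl_mem_disjSum]; exact hl
    have := hF' h1
    simpa using this
  have hpos : PosF (bv a) 0 (J'.disjSum (L'.disjSum (∅ : Finset (Fin r)))) := by
    apply (pos_local a S hstar K t0 J' L' hLS hJ hL0).mono
    apply Finset.disjSum_mono subset_rfl
    exact Finset.disjSum_mono subset_rfl (Finset.empty_subset _)
  have := local_theorem a S hstar b' K hK T m g hm1 hid δ hδ t0 J' L' hLS hJ hL0 hpos
  rw [hFeq]
  exact (mem_annIdeal.mp this) _ (hρ.twist t0)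

end Pool.Agent.H22

/-! Integrating out the auxiliary variables of the functional. -/

namespace Pool.Agent.H22

open MvPolynomial Finset MeasureTheory

lemma integral_sum_pi {α β : Type*} [Fintype α] [Fintype β] (G : (α ⊕ β → ℝ) → ℂ)
    (hG : Integrable G) :
    ∫ z, G z = ∫ x : α → ℝ, ∫ y : β → ℝ, G (Sum.elim x y) := by
  have mp := volume_measurePreserving_sumPiEquivProdPi_symm (fun _ : α ⊕ β => ℝ)
  rw [← mp.integral_comp' G, Measure.volume_eq_prod, integral_prod]
  · refine integral_congr_ae (Filter.Eventually.of_forall fun x => ?_)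
    refine integral_congr_ae (Filter.Eventually.of_forall fun y => ?_)
    simp only
    refine congrArg G (funext fun k => ?_)
    rcases k with k | k <;> simp [MeasurableEquiv.coe_sumPiEquivProdPi_symm]
  · rw [← Measure.volume_eq_prod]
    exact (mp.integrable_comp_emb (MeasurableEquiv.measurableEmbedding _)).mpr hG

variable {n r : ℕ}

/-- `e^{-u}` on `[0,∞)` -/
noncomputable def expo0 (u : ℝ) : ℝ := if 0 ≤ u then Real.exp (-u) else 0

/-- the index set of the family of forms attached to a face `σ` -/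
noncomputable def Fam (n : ℕ) {r : ℕ} (σ : Finset (Fin r)) : Finset (Fin n ⊕ (Fin r ⊕ Fin r)) :=
  (univ : Finset (Fin n)).disjSum (σᶜ.disjSum (∅ : Finset (Fin r)))

lemma pt_Fam (a : Fin r → (Fin n →₀ ℕ)) (σ : Finset (Fin r))
    (τ : Fin n ⊕ (Fin r ⊕ Fin r) → ℝ) (i : Fin r) :
    pt (bv a) (Fam n σ) τ i = -(∑ j, τ (Sum.inl j) * (a i j : ℝ)) +
      (if i ∈ σ then 0 else τ (Sum.inr (Sum.inl i))) := by
  unfold pt Fam
  rw [Finset.sum_disjSum, Finset.sum_disjSum]
  simp only [Finset.sum_empty, add_zero, bv]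
  rw [neg_add]
  congr 1
  by_cases hi : i ∈ σ
  · rw [if_pos hi]
    rw [Finset.sum_eq_zero]
    · simp
    · intro l hl
      have : i ≠ l := by
        rintro rfl
        exact (Finset.mem_compl.mp hl) hi
      simp [this]
  · rw [if_neg hi]
    rw [Finset.sum_eq_single i]
    · simp
    · intro l _ hl; simp [hl.symm]
    · intro h; exact absurd (Finset.mem_compl.mpr hi) h

/-- the functional on the family of `σ` as an integral over `k ∈ ℝ^n` -/
theorem MF_Fam (a : Fin r → (Fin n →₀ ℕ)) (σ : Finset (Fin r)) (ρ : Fin r → ℝ → ℂ)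
    {lo hi : ℝ} (hρ : IsBump ρ lo hi) :
    MF (bv a) cv (Fam n σ) ρ 1 = ∫ k : Fin n → ℝ, ((∏ j, expo0 (k j) : ℝ) : ℂ) *
      ∏ i, (if i ∈ σ then ρ i (-(∑ j, k j * (a i j : ℝ))) else
        ∫ y : ℝ, ((if 0 ≤ y then 1 else 0 : ℝ) : ℂ) * ρ i (-(∑ j, k j * (a i j : ℝ)) + y)) := by
  unfold MF
  have hpos : PosF (bv a) cv (Fam n σ) := pos_global a σᶜ
  rw [integral_sum_pi _ (integrable_Mint hρ 1 hpos)]
  refine integral_congr_ae (Filter.Eventually.of_forall fun k => ?_)
  simp only
  have h1 : ∀ yz : Fin r ⊕ Fin r → ℝ, Mint (bv a) cv (Fam n σ) ρ 1 (Sum.elim k yz) =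
      ((∏ j, expo0 (k j) : ℝ) : ℂ) * ∏ x, (Sum.elim
        (fun (i : Fin r) (y : ℝ) => if i ∈ σ then
          ((if 0 ≤ y ∧ y ≤ 1 then 1 else 0 : ℝ) : ℂ) * ρ i (-(∑ j, k j * (a i j : ℝ)))
          else ((if 0 ≤ y then 1 else 0 : ℝ) : ℂ) * ρ i (-(∑ j, k j * (a i j : ℝ)) + y))
        (fun (_ : Fin r) (z : ℝ) => ((if 0 ≤ z ∧ z ≤ 1 then 1 else 0 : ℝ) : ℂ)) x) (yz x) := by
    intro yz
    unfold Mint
    have e1 : Psi ρ 1 (pt (bv a) (Fam n σ) (Sum.elim k yz)) =
        ∏ i, ρ i (pt (bv a) (Fam n σ) (Sum.elim k yz) i) := by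
      have := Psi_monomial ρ 0 1 (pt (bv a) (Fam n σ) (Sum.elim k yz))
      simpa using this
    rw [e1, Fintype.prod_sum_type, Fintype.prod_sum_type]
    have e2 : ∏ j, wt cv (Fam n σ) (Sum.inl j) (Sum.elim k yz (Sum.inl j)) =
        ∏ j, expo0 (k j) := by
      refine Finset.prod_congr rfl fun j _ => ?_
      unfold wt expo0 cv
      rw [if_pos (by simp [Fam])]
      simp
    rw [e2, Fintype.prod_sum_type]
    simp only [Sum.elim_inr, Sum.elim_inl]
    push_cast
    rw [mul_assoc]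
    congr 1
    rw [mul_comm (∏ x, ((wt cv (Fam n σ) (Sum.inr (Sum.inl x)) (yz (Sum.inl x)) : ℝ) : ℂ)),
      mul_assoc, mul_comm]
    congr 1
    · rw [← Finset.prod_mul_distrib]
      refine Finset.prod_congr rfl fun i _ => ?_
      rw [pt_Fam]
      unfold wt cv
      by_cases hi : i ∈ σ
      · have hn : Sum.inr (Sum.inl i) ∉ Fam n σ := by simp [Fam, hi]
        rw [if_neg hn, if_pos hi, if_pos hi]
        simp only [Sum.elim_inl, add_zero]
      · have hn : Sum.inr (Sum.inl i) ∈ Fam n σ := by simp [Fam, hi]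
        rw [if_pos hn, if_neg hi, if_neg hi]
        simp only [Sum.elim_inl, Sum.elim_inr]
        split_ifs <;> simp
    · refine Finset.prod_congr rfl fun i _ => ?_
      unfold wt
      have hn : Sum.inr (Sum.inr i) ∉ Fam n σ := by simp [Fam]
      rw [if_neg hn]
  simp only [h1]
  rw [integral_const_mul]
  congr 1
  rw [integral_fintype_prod_volume_eq_prod, Fintype.prod_sum_type]
  simp only [Sum.elim_inl, Sum.elim_inr]
  have hbox : ∫ u : ℝ, ((if 0 ≤ u ∧ u ≤ 1 then (1 : ℝ) else 0 : ℝ) : ℂ) = 1 := by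
    rw [integral_complex_ofReal]
    have h1 : (fun u : ℝ => if 0 ≤ u ∧ u ≤ 1 then (1 : ℝ) else 0) =
        (Set.Icc (0 : ℝ) 1).indicator (fun _ => (1 : ℝ)) := by
      funext u
      by_cases hu : 0 ≤ u ∧ u ≤ 1
      · rw [if_pos hu, Set.indicator_of_mem (Set.mem_Icc.mpr hu)]
      · rw [if_neg hu, Set.indicator_of_notMem (by simpa [Set.mem_Icc] using hu)]
    rw [h1, integral_indicator measurableSet_Icc]
    simp
  rw [hbox, Finset.prod_const_one, mul_one]
  refine Finset.prod_congr rfl fun i _ => ?_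
  by_cases hi : i ∈ σ
  · simp only [hi, if_true]
    rw [integral_mul_const, hbox, one_mul]
  · simp only [hi, if_false]

end Pool.Agent.H22

/-! The combinatorial sum over all faces. -/

namespace Pool.Agent.H22

open MvPolynomial Finset MeasureTheory

variable {n r : ℕ}

/-- inverse of the zeta transform on subsets, by recursion -/
lemma exists_zeta_inverse {β : Type*} [DecidableEq β] [Fintype β] (θ : Finset β → ℂ) :
    ∃ c : Finset β → ℂ, ∀ σ, ∑ U ∈ σ.powerset, c U = θ σ := by
  let c : Finset β → ℂ := fun U => Finset.strongInduction (p := fun _ => ℂ)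
    (fun s ih => θ s - ∑ x ∈ s.ssubsets.attach, ih x.1 (Finset.mem_ssubsets.mp x.2)) U
  have hc : ∀ U, c U = θ U - ∑ x ∈ U.ssubsets, c x := by
    intro U
    have h1 : c U = θ U - ∑ x ∈ U.ssubsets.attach, c x.1 := by
      simp only [c]
      rw [Finset.strongInduction_eq]
    rw [h1, Finset.sum_attach U.ssubsets c]
  refine ⟨c, fun σ => ?_⟩
  have h2 : σ.powerset = insert σ σ.ssubsets := by
    ext x
    rw [Finset.mem_powerset, Finset.mem_insert, Finset.mem_ssubsets, Finset.ssubset_iff_subset_ne]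
    constructor
    · intro h
      by_cases hx : x = σ
      · left; exact hx
      · right; exact ⟨h, hx⟩
    · rintro (h | h)
      · rw [h]
      · exact h.1
  rw [h2, Finset.sum_insert (by simp), hc σ]
  ring

/-- property (P): the weight does not change when adding an apex at height one -/
def ApexInv (a : Fin r → (Fin n →₀ ℕ)) (θ : Finset (Fin r) → ℂ) : Prop :=
  ∀ (σ : Finset (Fin r)) (i : Fin r) (j : Fin n), i ∉ σ → a i j = 1 → (∀ l ∈ σ, a l j = 0) →
    θ (insert i σ) = θ σ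

lemma coeff_eq_zero_of_apex (a : Fin r → (Fin n →₀ ℕ)) (θ : Finset (Fin r) → ℂ)
    (hθ : ApexInv a θ) (c : Finset (Fin r) → ℂ) (hc : ∀ σ, ∑ U ∈ σ.powerset, c U = θ σ)
    (i : Fin r) (j : Fin n) (hij : a i j = 1) (U : Finset (Fin r)) (hiU : i ∈ U)
    (hU : ∀ l ∈ U, l ≠ i → a l j = 0) : c U = 0 := by
  induction U using Finset.strongInduction with
  | H U ih =>
    have h1 := hc U
    have h2 := hc (U.erase i)
    have h3 : θ U = θ (U.erase i) := by
      conv_lhs => rw [← Finset.insert_erase hiU]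
      apply hθ (U.erase i) i j (Finset.notMem_erase i U) hij
      intro l hl
      exact hU l (Finset.mem_of_mem_erase hl) (Finset.ne_of_mem_erase hl)
    have h4 : U.powerset = (U.erase i).powerset ∪ (U.powerset.filter (fun x => i ∈ x)) := by
      ext x
      rw [Finset.mem_union, Finset.mem_powerset, Finset.mem_powerset, Finset.mem_filter,
        Finset.mem_powerset]
      constructor
      · intro h
        by_cases hx : i ∈ x
        · right; exact ⟨h, hx⟩
        · left
          intro y hy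
          rw [Finset.mem_erase]
          exact ⟨by rintro rfl; exact hx hy, h hy⟩
      · rintro (h | h)
        · exact h.trans (Finset.erase_subset _ _)
        · exact h.1
    have h5 : Disjoint (U.erase i).powerset (U.powerset.filter (fun x => i ∈ x)) := by
      rw [Finset.disjoint_left]
      intro x hx hx'
      rw [Finset.mem_powerset] at hx
      rw [Finset.mem_filter] at hx'
      exact Finset.notMem_erase i U (hx hx'.2)
    rw [h4, Finset.sum_union h5, h2, h3] at h1
    have h6 : ∑ x ∈ U.powerset.filter (fun x => i ∈ x), c x = c U := by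
      apply Finset.sum_eq_single U
      · intro x hx hne
        rw [Finset.mem_filter, Finset.mem_powerset] at hx
        exact ih x (Finset.ssubset_iff_subset_ne.mpr ⟨hx.1, hne⟩) hx.2
          (fun l hl hli => hU l (hx.1 hl) hli)
      · intro h
        exfalso; apply h
        rw [Finset.mem_filter, Finset.mem_powerset]
        exact ⟨subset_rfl, hiU⟩
    rw [h6] at h1
    linear_combination h1

/-- expansion of the global theorem for a fixed `U` -/
lemma global_expand (a : Fin r → (Fin n →₀ ℕ)) (U : Finset (Fin r)) {ρ : Fin r → ℝ → ℂ}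
    {lo hi : ℝ} (hρ : IsBump ρ lo hi) (p : MvPolynomial (Fin r) ℂ) :
    MF (bv a) cv ((univ : Finset (Fin n)).disjSum (Uᶜ.disjSum (∅ : Finset (Fin r)))) ρ
      (p * ∏ i ∈ Uᶜ, (X i + 1)) =
      ∑ G ∈ Uᶜ.powerset, (-1 : ℂ) ^ G.card * MF (bv a) cv (Fam n (U ∪ G)) ρ p := by
  have hpos := pos_global a Uᶜ
  have h1 : p * ∏ i ∈ Uᶜ, (X i + 1) = ∑ G ∈ Uᶜ.powerset, C ((-1 : ℂ) ^ G.card) *
      ((∏ k ∈ (∅ : Finset (Fin n)).disjSum (G.disjSum (∅ : Finset (Fin r))),
        formP (bv a k) (cv k)) * p) := by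
    have h2 : ∏ i ∈ Uᶜ, (X i + 1 : MvPolynomial (Fin r) ℂ) =
        ∏ i ∈ Uᶜ, (-(-(X i)) + 1) := by
      refine Finset.prod_congr rfl fun i _ => ?_
      ring
    rw [h2, Finset.prod_add_one, Finset.mul_sum]
    refine Finset.sum_congr rfl fun G _ => ?_
    rw [Finset.prod_disjSum, Finset.prod_disjSum]
    simp only [Finset.prod_empty, one_mul, mul_one]
    have h3 : ∀ i, formP (bv a (Sum.inr (Sum.inl i))) (cv (Sum.inr (Sum.inl i) :
        Fin n ⊕ (Fin r ⊕ Fin r))) = -(X i : MvPolynomial (Fin r) ℂ) := by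
      intro i
      simp only [cv]
      exact formP_bv_inr_inl a i
    simp only [h3]
    rw [Finset.prod_neg, map_pow, map_neg, map_one]
    ring
  rw [h1, MF_sum hρ hpos]
  refine Finset.sum_congr rfl fun G hG => ?_
  rw [Finset.mem_powerset] at hG
  rw [MF_C_mul, MF_remove_many hρ hpos]
  · congr 2
    unfold Fam
    ext k
    rw [Finset.mem_sdiff]
    rcases k with j | l | l
    · simp
    · simp
    · simp
  · apply Finset.disjSum_mono (Finset.empty_subset _)
    exact Finset.disjSum_mono hG subset_rfl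

/-- The smoothed identity, summed over all faces. -/
theorem face_sum (a : Fin r → (Fin n →₀ ℕ))
    (b' : Polynomial ℂ) (K : ℕ) (hK : 1 ≤ K) {A : Type*} (T : Finset A) (m : A → Fin r → ℤ)
    (g : A → MvPolynomial (Fin r) ℂ)
    (hm1 : ∀ α ∈ T, ∑ i, m α i = -1)
    (hid : (Polynomial.aeval (∑ i, (X i : MvPolynomial (Fin r) ℂ)) b') * ∏ i, DDp K 0 i =
        ∑ α ∈ T, g α * (∏ j, zf a j (-(∑ i, m α i * (a i j : ℤ)))) *
          ∏ i, DDp K (m α i) i)
    (δ : ℝ) (hδ : ∀ α ∈ T, δ * ∑ i, |(m α i : ℝ)| < 1)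
    (ρ : Fin r → ℝ → ℂ) (hρ : Conic δ ρ) (θ : Finset (Fin r) → ℂ) (hθ : ApexInv a θ) :
    ∑ σ : Finset (Fin r), (-1 : ℂ) ^ σ.card * θ σ *
      MF (bv a) cv (Fam n σ) ρ (Polynomial.aeval (∑ i, (X i : MvPolynomial (Fin r) ℂ)) b')
      = 0 := by
  classical
  obtain ⟨N, hN, hb⟩ := id hρ
  obtain ⟨c, hc⟩ := exists_zeta_inverse θ
  set p := Polynomial.aeval (∑ i, (X i : MvPolynomial (Fin r) ℂ)) b' with hp
  have h1 : ∀ U : Finset (Fin r), c U * ∑ G ∈ Uᶜ.powerset, (-1 : ℂ) ^ G.card *
      MF (bv a) cv (Fam n (U ∪ G)) ρ p = 0 := by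
    intro U
    by_cases hstar : StarC a Uᶜ
    · rw [← global_expand a U hb p]
      rw [global_theorem a Uᶜ hstar b' K hK T m g hm1 hid δ hδ ρ hρ, mul_zero]
    · unfold StarC at hstar
      push Not at hstar
      obtain ⟨i, hi, j, hij, hl⟩ := hstar
      rw [coeff_eq_zero_of_apex a θ hθ c hc i j hij U (by simpa using hi)
        (fun l hlU hli => hl l (by simpa using hlU) hli), zero_mul]
  have h2 : ∑ U : Finset (Fin r), (-1 : ℂ) ^ U.card * (c U * ∑ G ∈ Uᶜ.powerset,
      (-1 : ℂ) ^ G.card * MF (bv a) cv (Fam n (U ∪ G)) ρ p) = 0 := by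
    apply Finset.sum_eq_zero
    intro U _
    rw [h1 U, mul_zero]
  rw [← h2]
  -- reorganise
  have h3 : ∀ U : Finset (Fin r), (-1 : ℂ) ^ U.card * (c U * ∑ G ∈ Uᶜ.powerset,
      (-1 : ℂ) ^ G.card * MF (bv a) cv (Fam n (U ∪ G)) ρ p) =
      ∑ σ : Finset (Fin r), if U ⊆ σ then (-1 : ℂ) ^ σ.card * c U *
        MF (bv a) cv (Fam n σ) ρ p else 0 := by
    intro U
    rw [← Finset.sum_filter, Finset.mul_sum, Finset.mul_sum]
    refine Finset.sum_bij' (fun G _ => U ∪ G) (fun σ _ => σ \ U) ?_ ?_ ?_ ?_ ?_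
    · intro G _
      rw [Finset.mem_filter]
      exact ⟨Finset.mem_univ _, Finset.subset_union_left⟩
    · intro σ _
      rw [Finset.mem_powerset]
      intro x hx
      rw [Finset.mem_sdiff] at hx
      rw [Finset.mem_compl]
      exact hx.2
    · intro G hG
      rw [Finset.mem_powerset] at hG
      ext x
      rw [Finset.mem_sdiff, Finset.mem_union]
      constructor
      · rintro ⟨h | h, h'⟩
        · exact absurd h h'
        · exact h
      · intro h
        exact ⟨Or.inr h, by simpa using hG h⟩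
    · intro σ hσ
      rw [Finset.mem_filter] at hσ
      exact Finset.union_sdiff_of_subset hσ.2
    · intro G hG
      rw [Finset.mem_powerset] at hG
      have hd : Disjoint U G := by
        rw [Finset.disjoint_left]
        intro x hx hx'
        have := hG hx'
        rw [Finset.mem_compl] at this
        exact this hx
      rw [Finset.card_union_of_disjoint hd, pow_add]
      ring
  simp only [h3]
  rw [Finset.sum_comm]
  refine Finset.sum_congr rfl fun σ _ => ?_
  rw [← hc σ, ← Finset.sum_filter]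
  have h4 : (univ.filter fun U => U ⊆ σ) = σ.powerset := by
    ext U; simp
  rw [h4, Finset.mul_sum, Finset.sum_mul]

end Pool.Agent.H22

/-! Translated bumps and integration by parts in the translation parameter. -/

namespace Pool.Agent.H22

open MvPolynomial Finset MeasureTheory

variable {r : ℕ} {ι : Type*} [Fintype ι] [DecidableEq ι]

/-- the translated bump `x ↦ ρ_i(x+N)` -/
def trB (ρ : Fin r → ℝ → ℂ) (N : ℝ) : Fin r → ℝ → ℂ := fun i x => ρ i (x + N)

lemma trB_bump {ρ : Fin r → ℝ → ℂ} {lo hi : ℝ} (hρ : IsBump ρ lo hi) (N : ℝ) :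
    IsBump (trB ρ N) (lo - N) (hi - N) := by
  constructor
  · intro i
    exact (hρ.smooth i).comp (by fun_prop)
  · intro i x hx
    apply hρ.supp
    intro h
    apply hx
    rw [Set.mem_Icc] at h ⊢
    constructor <;> linarith [h.1, h.2]

lemma Psi_trB (ρ : Fin r → ℝ → ℂ) (N : ℝ) (h : MvPolynomial (Fin r) ℂ) (x : Fin r → ℝ) :
    Psi (trB ρ N) h x = Psi ρ h (fun i => x i + N) := by
  induction h using MvPolynomial.induction_on' with
  | monomial m a =>
    rw [Psi_monomial, Psi_monomial]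
    congr 1
    refine Finset.prod_congr rfl fun i _ => ?_
    unfold trB
    rw [iteratedDeriv_comp_add_const]
  | add p q hp hq => rw [Psi_add, Psi_add, hp, hq]

lemma Psi_trB_hasDerivAt {ρ : Fin r → ℝ → ℂ} {lo hi : ℝ} (hρ : IsBump ρ lo hi)
    (h : MvPolynomial (Fin r) ℂ) (x : Fin r → ℝ) (N : ℝ) :
    HasDerivAt (fun N => Psi (trB ρ N) h x)
      (Psi (trB ρ N) ((∑ i, X i) * h) x) N := by
  have h1 := Psi_hasDerivAt hρ h (fun _ => (-1 : ℝ)) x N
  have h2 : formP (fun _ : Fin r => (-1 : ℝ)) 0 =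
      -(∑ i, (X i : MvPolynomial (Fin r) ℂ)) := by
    unfold formP
    simp
  rw [h2] at h1
  have h3 : (fun N : ℝ => Psi ρ h (fun i => x i - N * (-1 : ℝ))) =
      (fun N : ℝ => Psi (trB ρ N) h x) := by
    funext u
    rw [Psi_trB]
    refine congrArg (Psi ρ h) (funext fun i => ?_)
    ring
  rw [h3] at h1
  refine h1.congr_deriv ?_
  rw [neg_mul, map_neg, Psi_trB]
  simp

/-- uniform bound for translated functionals -/
lemma Mint_trB_bound {b : ι → Fin r → ℝ} {c : ι → ℝ} {F : Finset ι} {ρ : Fin r → ℝ → ℂ}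
    {lo hi : ℝ} (hρ : IsBump ρ lo hi) (h : MvPolynomial (Fin r) ℂ) (ts : Fin r → ℝ) :
    ∃ Cb : ℝ, 0 ≤ Cb ∧ ∀ N τ, ‖Mint b c F (trB ρ N) h τ‖ ≤
      Cb * Real.exp ((∑ i, ts i) * N) *
        ∏ k, wt (fun k => ∑ i, b k i * ts i + c k) F k (τ k) := by
  obtain ⟨Cb, hCb0, hCb⟩ := Psi_bound hρ h ts
  refine ⟨Cb, hCb0, fun N τ => ?_⟩
  unfold Mint
  rw [norm_mul, Complex.norm_real, Real.norm_eq_abs,
    abs_of_nonneg (Finset.prod_nonneg fun k _ => wt_nonneg c F k (τ k)), Psi_trB]
  have h1 : Real.exp (∑ i, ts i * (pt b F τ i + N)) = Real.exp ((∑ i, ts i) * N) *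
      ∏ k, (if k ∈ F then Real.exp (-(∑ i, b k i * ts i) * τ k) else 1) := by
    rw [Finset.prod_ite_mem, Finset.univ_inter, ← Real.exp_sum, ← Real.exp_add]
    congr 1
    simp only [mul_add, Finset.sum_add_distrib, Finset.sum_mul]
    rw [add_comm]
    congr 1
    unfold pt
    simp only [mul_neg, Finset.sum_neg_distrib, neg_mul, neg_inj]
    simp only [Finset.mul_sum, Finset.sum_mul]
    rw [Finset.sum_comm]
    refine Finset.sum_congr rfl fun k _ => Finset.sum_congr rfl fun i _ => ?_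
    ring
  have h2 : (∏ k, wt c F k (τ k)) * Real.exp (∑ i, ts i * (pt b F τ i + N)) =
      Real.exp ((∑ i, ts i) * N) *
        ∏ k, wt (fun k => ∑ i, b k i * ts i + c k) F k (τ k) := by
    rw [h1, mul_left_comm, ← Finset.prod_mul_distrib]
    congr 1
    refine Finset.prod_congr rfl fun k _ => ?_
    unfold wt
    by_cases hk : k ∈ F
    · simp only [hk, if_true]
      split_ifs
      · rw [← Real.exp_add]; congr 1; ring
      · simp
    · simp only [hk, if_false, mul_one]
  calc (∏ k, wt c F k (τ k)) * ‖Psi ρ h (fun i => pt b F τ i + N)‖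
      ≤ (∏ k, wt c F k (τ k)) * (Cb * Real.exp (∑ i, ts i * (pt b F τ i + N))) :=
        mul_le_mul_of_nonneg_left (hCb _) (Finset.prod_nonneg fun k _ => wt_nonneg c F k (τ k))
    _ = Cb * ((∏ k, wt c F k (τ k)) * Real.exp (∑ i, ts i * (pt b F τ i + N))) := by ring
    _ = _ := by rw [h2]; ring

lemma integrable_wtprod {b : ι → Fin r → ℝ} {c : ι → ℝ} {F : Finset ι} (ts : Fin r → ℝ)
    (hts : ∀ k ∈ F, 0 < ∑ i, b k i * ts i + c k) :
    Integrable (fun τ : ι → ℝ =>
      ∏ k, wt (fun k => ∑ i, b k i * ts i + c k) F k (τ k)) := by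
  apply Integrable.fintype_prod
  intro k
  unfold wt
  by_cases hk : k ∈ F
  · simp only [hk, if_true]
    exact integrable_exp_Ici (hts k hk)
  · simp only [hk, if_false]
    exact integrable_box

/-- derivative in the translation parameter -/
theorem MF_trB_hasDerivAt {b : ι → Fin r → ℝ} {c : ι → ℝ} {F : Finset ι} {ρ : Fin r → ℝ → ℂ}
    {lo hi : ℝ} (hρ : IsBump ρ lo hi) (h : MvPolynomial (Fin r) ℂ) (hF : PosF b c F) (N : ℝ) :
    HasDerivAt (fun N => MF b c F (trB ρ N) h)
      (MF b c F (trB ρ N) ((∑ i, X i) * h)) N := by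
  obtain ⟨ts, hts⟩ := id hF
  obtain ⟨Cb, hCb0, hCb⟩ := Mint_trB_bound (b := b) (c := c) (F := F) hρ ((∑ i, X i) * h) ts
  unfold MF
  set B : ℝ := Real.exp (|∑ i, ts i| * (|N| + 1)) with hB
  have hexp : ∀ x ∈ Metric.ball N 1, Real.exp ((∑ i, ts i) * x) ≤ B := by
    intro x hx
    rw [hB]
    apply Real.exp_le_exp.mpr
    have hx1 : |x| ≤ |N| + 1 := by
      rw [Metric.mem_ball, Real.dist_eq] at hx
      have : |x| ≤ |x - N| + |N| := by
        calc |x| = |(x - N) + N| := by ring_nf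
          _ ≤ |x - N| + |N| := abs_add_le _ _
      linarith
    calc (∑ i, ts i) * x ≤ |(∑ i, ts i) * x| := le_abs_self _
      _ = |∑ i, ts i| * |x| := abs_mul _ _
      _ ≤ _ := mul_le_mul_of_nonneg_left hx1 (abs_nonneg _)
  have key := hasDerivAt_integral_of_dominated_loc_of_deriv_le
    (μ := (volume : Measure (ι → ℝ)))
    (F := fun N τ => Mint b c F (trB ρ N) h τ)
    (F' := fun N τ => Mint b c F (trB ρ N) ((∑ i, X i) * h) τ)
    (x₀ := N) (s := Metric.ball N 1)
    (bound := fun τ => Cb * B * ∏ k, wt (fun k => ∑ i, b k i * ts i + c k) F k (τ k))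
    (Metric.ball_mem_nhds N one_pos)
    (Filter.Eventually.of_forall fun x => (measurable_Mint (trB_bump hρ x) h).aestronglyMeasurable)
    (integrable_Mint (trB_bump hρ N) h hF)
    ((measurable_Mint (trB_bump hρ N) _).aestronglyMeasurable)
    (Filter.Eventually.of_forall fun τ x hx => by
      refine (hCb x τ).trans ?_
      apply mul_le_mul_of_nonneg_right _ (Finset.prod_nonneg fun k _ => wt_nonneg _ F k (τ k))
      exact mul_le_mul_of_nonneg_left (hexp x hx) hCb0)
    ((integrable_wtprod ts hts).const_mul _)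
    (Filter.Eventually.of_forall fun τ x _ => by
      unfold Mint
      exact (Psi_trB_hasDerivAt hρ h (pt b F τ) x).const_mul _)
  exact key.2

/-- bound in the translation parameter -/
theorem MF_trB_bound {b : ι → Fin r → ℝ} {c : ι → ℝ} {F : Finset ι} {ρ : Fin r → ℝ → ℂ}
    {lo hi : ℝ} (hρ : IsBump ρ lo hi) (h : MvPolynomial (Fin r) ℂ)
    (ts : Fin r → ℝ) (hts : ∀ k ∈ F, 0 < ∑ i, b k i * ts i + c k) :
    ∃ Cb : ℝ, 0 ≤ Cb ∧ ∀ N, ‖MF b c F (trB ρ N) h‖ ≤ Cb * Real.exp ((∑ i, ts i) * N) := by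
  obtain ⟨Cb, hCb0, hCb⟩ := Mint_trB_bound (b := b) (c := c) (F := F) hρ h ts
  set I := ∫ τ : ι → ℝ, ∏ k, wt (fun k => ∑ i, b k i * ts i + c k) F k (τ k) with hI
  have hI0 : 0 ≤ I := integral_nonneg fun τ => Finset.prod_nonneg fun k _ => wt_nonneg _ F k (τ k)
  refine ⟨Cb * I, by positivity, fun N => ?_⟩
  unfold MF
  calc ‖∫ τ : ι → ℝ, Mint b c F (trB ρ N) h τ‖
      ≤ ∫ τ : ι → ℝ, Cb * Real.exp ((∑ i, ts i) * N) *
        ∏ k, wt (fun k => ∑ i, b k i * ts i + c k) F k (τ k) := by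
        apply norm_integral_le_of_norm_le ((integrable_wtprod ts hts).const_mul _)
        exact Filter.Eventually.of_forall fun τ => hCb N τ
    _ = _ := by rw [integral_const_mul]; ring

end Pool.Agent.H22

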