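import Mathlib

/-! Constant coefficient differential operators applied to product bump functions. -/

namespace Pool.Agent.H22

open MvPolynomial Finset

variable {r : ℕ}

/-- a family of smooth functions of one variable, vanishing outside `[lo,hi]` -/
structure IsBump (ρ : Fin r → ℝ → ℂ) (lo hi : ℝ) : Prop where
  smooth : ∀ i, ContDiff ℝ (⊤ : ℕ∞) (ρ i)
  supp : ∀ i x, x ∉ Set.Icc lo hi → ρ i x = 0

lemma iteratedDeriv_eq_zero_of_notMem {f : ℝ → ℂ} {lo hi : ℝ}
    (hf : ∀ x, x ∉ Set.Icc lo hi → f x = 0) (m : ℕ) :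
    ∀ x, x ∉ Set.Icc lo hi → iteratedDeriv m f x = 0 := by
  induction m with
  | zero => intro x hx; rw [iteratedDeriv_zero]; exact hf x hx
  | succ m ih =>
    intro x hx
    rw [iteratedDeriv_succ]
    have h1 : iteratedDeriv m f =ᶠ[nhds x] fun _ => 0 := by
      have hopen : IsOpen (Set.Icc lo hi)ᶜ := isClosed_Icc.isOpen_compl
      filter_upwards [hopen.mem_nhds hx] with y hy using ih y hy
    rw [h1.deriv_eq]
    simp

/-- `h(∂) (∏_i ρ_i(x_i))` -/
noncomputable def Psi (ρ : Fin r → ℝ → ℂ) :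
    MvPolynomial (Fin r) ℂ →ₗ[ℂ] ((Fin r → ℝ) → ℂ) :=
  (MvPolynomial.basisMonomials (Fin r) ℂ).constr ℂ
    (fun m x => ∏ i, iteratedDeriv (m i) (ρ i) (x i))

lemma Psi_monomial (ρ : Fin r → ℝ → ℂ) (m : Fin r →₀ ℕ) (c : ℂ) (x : Fin r → ℝ) :
    Psi ρ (monomial m c) x = c * ∏ i, iteratedDeriv (m i) (ρ i) (x i) := by
  have h1 : (monomial m c : MvPolynomial (Fin r) ℂ) =
      c • (MvPolynomial.basisMonomials (Fin r) ℂ) m := by
    rw [coe_basisMonomials, smul_monomial]; simp
  rw [h1, map_smul]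
  unfold Psi
  rw [Module.Basis.constr_basis]
  simp

lemma Psi_add (ρ : Fin r → ℝ → ℂ) (p q : MvPolynomial (Fin r) ℂ) (x : Fin r → ℝ) :
    Psi ρ (p + q) x = Psi ρ p x + Psi ρ q x := by
  rw [map_add]; rfl

lemma Psi_continuous {ρ : Fin r → ℝ → ℂ} {lo hi : ℝ} (hρ : IsBump ρ lo hi)
    (h : MvPolynomial (Fin r) ℂ) : Continuous (Psi ρ h) := by
  induction h using MvPolynomial.induction_on' with
  | monomial m c =>
    have : Psi ρ (monomial m c) = fun x => c * ∏ i, iteratedDeriv (m i) (ρ i) (x i) := by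
      funext x; exact Psi_monomial ρ m c x
    rw [this]
    apply Continuous.mul continuous_const
    apply continuous_finsetProd
    intro i _
    exact ((hρ.smooth i).continuous_iteratedDeriv (m i) (by exact_mod_cast le_top)).comp
      (continuous_apply i)
  | add p q hp hq =>
    rw [map_add]; exact hp.add hq

lemma Psi_eq_zero {ρ : Fin r → ℝ → ℂ} {lo hi : ℝ} (hρ : IsBump ρ lo hi)
    (h : MvPolynomial (Fin r) ℂ) (x : Fin r → ℝ) (hx : ∃ i, x i ∉ Set.Icc lo hi) :
    Psi ρ h x = 0 := by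
  induction h using MvPolynomial.induction_on' with
  | monomial m c =>
    obtain ⟨i, hi'⟩ := hx
    rw [Psi_monomial]
    rw [Finset.prod_eq_zero (Finset.mem_univ i)
      (iteratedDeriv_eq_zero_of_notMem (hρ.supp i) (m i) (x i) hi')]
    simp
  | add p q hp hq =>
    rw [Psi_add, hp, hq, add_zero]

lemma Psi_bound {ρ : Fin r → ℝ → ℂ} {lo hi : ℝ} (hρ : IsBump ρ lo hi)
    (h : MvPolynomial (Fin r) ℂ) (ts : Fin r → ℝ) :
    ∃ Cb : ℝ, 0 ≤ Cb ∧ ∀ x, ‖Psi ρ h x‖ ≤ Cb * Real.exp (∑ i, ts i * x i) := by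
  set box : Set (Fin r → ℝ) := Set.Icc (fun _ => lo) (fun _ => hi) with hbox
  have hcomp : IsCompact box := isCompact_Icc
  have hcont : Continuous (fun x => Psi ρ h x * (Real.exp (-(∑ i, ts i * x i)) : ℂ)) := by
    apply (Psi_continuous hρ h).mul
    apply Complex.continuous_ofReal.comp
    apply Real.continuous_exp.comp
    fun_prop
  obtain ⟨Cb, hCb⟩ := hcomp.exists_bound_of_continuousOn hcont.continuousOn
  refine ⟨max Cb 0, le_max_right _ _, fun x => ?_⟩
  by_cases hx : x ∈ box
  · have h1 := hCb x hx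
    rw [norm_mul, Complex.norm_real, Real.norm_eq_abs, abs_of_pos (Real.exp_pos _),
      Real.exp_neg] at h1
    have h2 : ‖Psi ρ h x‖ ≤ Cb * Real.exp (∑ i, ts i * x i) := by
      rw [← div_eq_mul_inv, div_le_iff₀ (Real.exp_pos _)] at h1
      exact h1
    exact h2.trans (mul_le_mul_of_nonneg_right (le_max_left _ _) (Real.exp_pos _).le)
  · have h1 : ∃ i, x i ∉ Set.Icc lo hi := by
      by_contra hcon
      push Not at hcon
      apply hx
      rw [hbox, Set.mem_Icc]
      exact ⟨fun i => (hcon i).1, fun i => (hcon i).2⟩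
    rw [Psi_eq_zero hρ h x h1, norm_zero]
    positivity

/-- the polynomial `Σ_i b_i X_i + c` -/
noncomputable def formP (b : Fin r → ℝ) (c : ℝ) : MvPolynomial (Fin r) ℂ :=
  ∑ i, C (b i : ℂ) * X i + C (c : ℂ)

lemma Psi_X_mul (ρ : Fin r → ℝ → ℂ) (i : Fin r) (m : Fin r →₀ ℕ) (c : ℂ) (x : Fin r → ℝ) :
    Psi ρ (X i * monomial m c) x = c * ((∏ j ∈ univ.erase i, iteratedDeriv (m j) (ρ j) (x j)) *
      iteratedDeriv (m i + 1) (ρ i) (x i)) := by
  rw [X, monomial_mul, Psi_monomial, one_mul, ← Finset.prod_erase_mul _ _ (Finset.mem_univ i)]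
  congr 2
  · refine Finset.prod_congr rfl fun j hj => ?_
    have hj' : j ≠ i := (Finset.mem_erase.mp hj).1
    simp [hj'.symm]
  · simp [add_comm]

lemma Psi_hasDerivAt {ρ : Fin r → ℝ → ℂ} {lo hi : ℝ} (hρ : IsBump ρ lo hi)
    (h : MvPolynomial (Fin r) ℂ) (b y : Fin r → ℝ) (u : ℝ) :
    HasDerivAt (fun u : ℝ => Psi ρ h (fun i => y i - u * b i))
      (-(Psi ρ (formP b 0 * h) (fun i => y i - u * b i))) u := by
  induction h using MvPolynomial.induction_on' with
  | monomial m c =>
    have h1 : (fun u : ℝ => Psi ρ (monomial m c) (fun i => y i - u * b i)) =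
        fun u => c * ∏ i, iteratedDeriv (m i) (ρ i) (y i - u * b i) := by
      funext u; rw [Psi_monomial]
    rw [h1]
    have hd : ∀ i ∈ (univ : Finset (Fin r)), HasDerivAt
        (fun u : ℝ => iteratedDeriv (m i) (ρ i) (y i - u * b i))
        (-(b i : ℂ) * iteratedDeriv (m i + 1) (ρ i) (y i - u * b i)) u := by
      intro i _
      have hdiff : Differentiable ℝ (iteratedDeriv (m i) (ρ i)) :=
        (hρ.smooth i).differentiable_iteratedDeriv (m i) (by exact_mod_cast ENat.natCast_lt_top _)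
      have h2 : HasDerivAt (iteratedDeriv (m i) (ρ i))
          (iteratedDeriv (m i + 1) (ρ i) (y i - u * b i)) (y i - u * b i) := by
        rw [iteratedDeriv_succ]
        exact (hdiff _).hasDerivAt
      have h3 : HasDerivAt (fun u : ℝ => y i - u * b i) (-(b i)) u := by
        have := ((hasDerivAt_id u).mul_const (b i)).const_sub (y i)
        simpa using this
      have h4 := HasDerivAt.scomp u h2 h3
      refine h4.congr_deriv ?_
      simp
    have h5 := (HasDerivAt.fun_finsetProd hd).const_mul c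
    refine h5.congr_deriv ?_
    unfold formP
    simp only [Complex.ofReal_zero, map_zero, add_zero]
    rw [Finset.sum_mul, map_sum]
    simp only [Finset.sum_apply, smul_eq_mul]
    rw [← Finset.sum_neg_distrib, Finset.mul_sum]
    refine Finset.sum_congr rfl fun i _ => ?_
    rw [mul_assoc (C (b i : ℂ)), ← smul_eq_C_mul, map_smul, Pi.smul_apply, Psi_X_mul, smul_eq_mul]
    ring
  | add p q hp hq =>
    have h1 : (fun u : ℝ => Psi ρ (p + q) (fun i => y i - u * b i)) =
        fun u => Psi ρ p (fun i => y i - u * b i) + Psi ρ q (fun i => y i - u * b i) := by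
      funext u; rw [Psi_add]
    rw [h1]
    refine (hp.add hq).congr_deriv ?_
    rw [mul_add, Psi_add]; ring

end Pool.Agent.H22

namespace Pool.Agent.H22

open MvPolynomial Finset MeasureTheory

variable {r : ℕ}

lemma integral_congr_coord_fin {N : ℕ} (p : Fin (N + 1)) (G G' : (Fin (N + 1) → ℝ) → ℂ)
    (hG : Integrable G) (hG' : Integrable G')
    (h : ∀ τ, ∫ u, G (Function.update τ p u) = ∫ u, G' (Function.update τ p u)) :
    ∫ τ, G τ = ∫ τ, G' τ := by
  have mp := (volume_preserving_piFinSuccAbove (fun _ : Fin (N + 1) => ℝ) p).symm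
  have key : ∀ (H : (Fin (N + 1) → ℝ) → ℂ), Integrable H →
      ∫ τ, H τ = ∫ τ' : Fin N → ℝ, ∫ u, H (Function.update (p.insertNth 0 τ') p u) := by
    intro H hH
    rw [← mp.integral_comp', Measure.volume_eq_prod]
    rw [integral_prod_symm]
    · refine integral_congr_ae (Filter.Eventually.of_forall fun τ' => ?_)
      refine integral_congr_ae (Filter.Eventually.of_forall fun u => ?_)
      simp only
      congr 1
      simp [MeasurableEquiv.piFinSuccAbove, Fin.insertNthEquiv]
    · rw [← Measure.volume_eq_prod]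
      exact (mp.integrable_comp_emb (MeasurableEquiv.measurableEmbedding _)).mpr hH
  rw [key G hG, key G' hG']
  refine integral_congr_ae (Filter.Eventually.of_forall fun τ' => ?_)
  exact h _

lemma integral_congr_coord {ι : Type*} [Fintype ι] [DecidableEq ι] (p : ι)
    (G G' : (ι → ℝ) → ℂ) (hG : Integrable G) (hG' : Integrable G')
    (h : ∀ τ, ∫ u, G (Function.update τ p u) = ∫ u, G' (Function.update τ p u)) :
    ∫ τ, G τ = ∫ τ, G' τ := by
  obtain ⟨N, hN⟩ : ∃ N, Fintype.card ι = N + 1 := by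
    have : 0 < Fintype.card ι := Fintype.card_pos_iff.mpr ⟨p⟩
    exact ⟨Fintype.card ι - 1, by omega⟩
  let σ : ι ≃ Fin (N + 1) := Fintype.equivFinOfCardEq hN
  have mp := volume_measurePreserving_piCongrLeft (fun _ : Fin (N + 1) => ℝ) σ
  have happ : ∀ (τ : ι → ℝ) (k : Fin (N + 1)),
      (MeasurableEquiv.piCongrLeft (fun _ : Fin (N + 1) => ℝ) σ) τ k = τ (σ.symm k) := by
    intro τ k
    obtain ⟨i, rfl⟩ := σ.surjective k
    rw [MeasurableEquiv.coe_piCongrLeft]
    rw [Equiv.piCongrLeft_apply_apply]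
    simp
  have key : ∀ (H : (ι → ℝ) → ℂ), ∫ τ, H τ =
      ∫ τ : Fin (N + 1) → ℝ, H (fun i => τ (σ i)) := by
    intro H
    rw [← mp.integral_comp']
    refine integral_congr_ae (Filter.Eventually.of_forall fun τ => ?_)
    simp only
    congr 1
    funext i
    rw [happ]; simp
  have keyi : ∀ (H : (ι → ℝ) → ℂ), Integrable H →
      Integrable (fun τ : Fin (N + 1) → ℝ => H (fun i => τ (σ i))) := by
    intro H hH
    rw [← mp.integrable_comp_emb (MeasurableEquiv.measurableEmbedding _)]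
    have h1 : ((fun τ : Fin (N + 1) → ℝ => H (fun i => τ (σ i))) ∘
        (MeasurableEquiv.piCongrLeft (fun _ : Fin (N + 1) => ℝ) σ)) = H := by
      funext τ
      simp only [Function.comp]
      congr 1
      funext i
      rw [happ]; simp
    rw [h1]
    exact hH
  rw [key G, key G']
  apply integral_congr_coord_fin (σ p) _ _ (keyi G hG) (keyi G' hG')
  intro τ
  have hupd : ∀ u : ℝ, (fun i => Function.update τ (σ p) u (σ i)) =
      Function.update (fun i => τ (σ i)) p u := by
    intro u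
    funext i
    by_cases hi : i = p
    · subst hi; simp
    · rw [Function.update_of_ne (fun h => hi (σ.injective h)), Function.update_of_ne hi]
  simp only [hupd]
  exact h _

variable {ι : Type*} [Fintype ι] [DecidableEq ι]

/-- the weight of the variable `τ_k`: exponential on `[0,∞)` if `k ∈ F`, uniform on `[0,1]`
otherwise -/
noncomputable def wt (c : ι → ℝ) (F : Finset ι) (k : ι) (u : ℝ) : ℝ :=
  if k ∈ F then (if 0 ≤ u then Real.exp (-(c k) * u) else 0)
  else (if 0 ≤ u ∧ u ≤ 1 then 1 else 0)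

noncomputable def pt (b : ι → Fin r → ℝ) (F : Finset ι) (τ : ι → ℝ) : Fin r → ℝ :=
  fun i => - ∑ k ∈ F, τ k * b k i

noncomputable def Mint (b : ι → Fin r → ℝ) (c : ι → ℝ) (F : Finset ι) (ρ : Fin r → ℝ → ℂ)
    (h : MvPolynomial (Fin r) ℂ) (τ : ι → ℝ) : ℂ :=
  ((∏ k, wt c F k (τ k) : ℝ) : ℂ) * Psi ρ h (pt b F τ)

/-- the functional `∫_{τ ≥ 0} e^{-Σ τ_k c_k} (h(∂)ρ)(- Σ τ_k b_k) dτ` -/
noncomputable def MF (b : ι → Fin r → ℝ) (c : ι → ℝ) (F : Finset ι) (ρ : Fin r → ℝ → ℂ)
    (h : MvPolynomial (Fin r) ℂ) : ℂ :=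
  ∫ τ : ι → ℝ, Mint b c F ρ h τ

/-- there is a point at which all the affine forms of `F` are positive -/
def PosF (b : ι → Fin r → ℝ) (c : ι → ℝ) (F : Finset ι) : Prop :=
  ∃ ts : Fin r → ℝ, ∀ k ∈ F, 0 < ∑ i, b k i * ts i + c k

omit [Fintype ι] [DecidableEq ι] in
lemma PosF.mono {b : ι → Fin r → ℝ} {c : ι → ℝ} {F F' : Finset ι} (h : PosF b c F)
    (hF : F' ⊆ F) : PosF b c F' := by
  obtain ⟨ts, hts⟩ := h
  exact ⟨ts, fun k hk => hts k (hF hk)⟩

omit [Fintype ι] in
lemma wt_nonneg (c : ι → ℝ) (F : Finset ι) (k : ι) (u : ℝ) : 0 ≤ wt c F k u := by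
  unfold wt
  split_ifs <;> positivity

lemma integrable_exp_Ici {β : ℝ} (hβ : 0 < β) :
    Integrable (fun u : ℝ => if 0 ≤ u then Real.exp (-β * u) else 0) := by
  have h1 : (fun u : ℝ => if 0 ≤ u then Real.exp (-β * u) else 0) =
      (Set.Ici (0 : ℝ)).indicator (fun u => Real.exp (-β * u)) := by
    funext u
    by_cases hu : 0 ≤ u
    · rw [if_pos hu, Set.indicator_of_mem (Set.mem_Ici.mpr hu)]
    · rw [if_neg hu, Set.indicator_of_notMem (by simpa using hu)]
  rw [h1, integrable_indicator_iff measurableSet_Ici, integrableOn_Ici_iff_integrableOn_Ioi]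
  exact exp_neg_integrableOn_Ioi 0 hβ

lemma integrable_box : Integrable (fun u : ℝ => if 0 ≤ u ∧ u ≤ 1 then (1 : ℝ) else 0) := by
  have h1 : (fun u : ℝ => if 0 ≤ u ∧ u ≤ 1 then (1 : ℝ) else 0) =
      (Set.Icc (0 : ℝ) 1).indicator (fun _ => (1 : ℝ)) := by
    funext u
    by_cases hu : 0 ≤ u ∧ u ≤ 1
    · rw [if_pos hu, Set.indicator_of_mem (Set.mem_Icc.mpr hu)]
    · rw [if_neg hu, Set.indicator_of_notMem (by simpa [Set.mem_Icc] using hu)]
  rw [h1, integrable_indicator_iff measurableSet_Icc]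
  exact integrableOn_const (by simp)

omit [Fintype ι] in
lemma measurable_wt (c : ι → ℝ) (F : Finset ι) (k : ι) : Measurable (wt c F k) := by
  unfold wt
  by_cases hk : k ∈ F
  · simp only [hk, if_true]
    exact Measurable.ite measurableSet_Ici (by fun_prop) measurable_const
  · simp only [hk, if_false]
    exact Measurable.ite measurableSet_Icc measurable_const measurable_const

omit [Fintype ι] [DecidableEq ι] in
lemma continuous_pt (b : ι → Fin r → ℝ) (F : Finset ι) : Continuous (pt b F) := by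
  unfold pt
  fun_prop

lemma Mint_bound {b : ι → Fin r → ℝ} {c : ι → ℝ} {F : Finset ι} {ρ : Fin r → ℝ → ℂ} {lo hi : ℝ}
    (hρ : IsBump ρ lo hi) (h : MvPolynomial (Fin r) ℂ) (ts : Fin r → ℝ) :
    ∃ Cb : ℝ, 0 ≤ Cb ∧ ∀ τ, ‖Mint b c F ρ h τ‖ ≤
      Cb * ∏ k, wt (fun k => ∑ i, b k i * ts i + c k) F k (τ k) := by
  obtain ⟨Cb, hCb0, hCb⟩ := Psi_bound hρ h ts
  refine ⟨Cb, hCb0, fun τ => ?_⟩
  unfold Mint
  rw [norm_mul, Complex.norm_real, Real.norm_eq_abs,
    abs_of_nonneg (Finset.prod_nonneg fun k _ => wt_nonneg c F k (τ k))]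
  have h1 : Real.exp (∑ i, ts i * pt b F τ i) =
      ∏ k, (if k ∈ F then Real.exp (-(∑ i, b k i * ts i) * τ k) else 1) := by
    rw [Finset.prod_ite_mem, Finset.univ_inter, ← Real.exp_sum]
    congr 1
    unfold pt
    simp only [mul_neg, Finset.sum_neg_distrib, neg_mul, neg_inj]
    simp only [Finset.mul_sum, Finset.sum_mul]
    rw [Finset.sum_comm]
    refine Finset.sum_congr rfl fun k _ => Finset.sum_congr rfl fun i _ => ?_
    ring
  have h2 : (∏ k, wt c F k (τ k)) * Real.exp (∑ i, ts i * pt b F τ i) =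
      ∏ k, wt (fun k => ∑ i, b k i * ts i + c k) F k (τ k) := by
    rw [h1, ← Finset.prod_mul_distrib]
    refine Finset.prod_congr rfl fun k _ => ?_
    unfold wt
    by_cases hk : k ∈ F
    · simp only [hk, if_true]
      split_ifs
      · rw [← Real.exp_add]; congr 1; ring
      · simp
    · simp only [hk, if_false, mul_one]
  calc (∏ k, wt c F k (τ k)) * ‖Psi ρ h (pt b F τ)‖
      ≤ (∏ k, wt c F k (τ k)) * (Cb * Real.exp (∑ i, ts i * pt b F τ i)) :=
        mul_le_mul_of_nonneg_left (hCb _) (Finset.prod_nonneg fun k _ => wt_nonneg c F k (τ k))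
    _ = Cb * ((∏ k, wt c F k (τ k)) * Real.exp (∑ i, ts i * pt b F τ i)) := by ring
    _ = _ := by rw [h2]

lemma measurable_Mint {b : ι → Fin r → ℝ} {c : ι → ℝ} {F : Finset ι} {ρ : Fin r → ℝ → ℂ}
    {lo hi : ℝ} (hρ : IsBump ρ lo hi) (h : MvPolynomial (Fin r) ℂ) :
    Measurable (Mint b c F ρ h) := by
  unfold Mint
  apply Measurable.mul
  · apply Complex.measurable_ofReal.comp
    apply Finset.measurable_fun_prod
    intro k _
    exact (measurable_wt c F k).comp (measurable_pi_apply k)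
  · exact ((Psi_continuous hρ h).comp (continuous_pt b F)).measurable

lemma integrable_Mint {b : ι → Fin r → ℝ} {c : ι → ℝ} {F : Finset ι} {ρ : Fin r → ℝ → ℂ}
    {lo hi : ℝ} (hρ : IsBump ρ lo hi) (h : MvPolynomial (Fin r) ℂ) (hF : PosF b c F) :
    Integrable (Mint b c F ρ h) := by
  obtain ⟨ts, hts⟩ := hF
  obtain ⟨Cb, hCb0, hCb⟩ := Mint_bound (b := b) (c := c) (F := F) hρ h ts
  have hI : Integrable (fun τ : ι → ℝ =>
      ∏ k, wt (fun k => ∑ i, b k i * ts i + c k) F k (τ k)) := by
    apply Integrable.fintype_prod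
    intro k
    unfold wt
    by_cases hk : k ∈ F
    · simp only [hk, if_true]
      exact integrable_exp_Ici (hts k hk)
    · simp only [hk, if_false]
      exact integrable_box
  exact (hI.const_mul Cb).mono' (measurable_Mint hρ h).aestronglyMeasurable
    (Filter.Eventually.of_forall hCb)

omit [Fintype ι] [DecidableEq ι] in
lemma formP_eq (b : Fin r → ℝ) (c : ℝ) : formP b c = formP b 0 + C (c : ℂ) := by
  unfold formP; simp

/-- one-dimensional fundamental theorem of calculus for the functional -/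
lemma ftc_one {ρ : Fin r → ℝ → ℂ} {lo hi : ℝ} (hρ : IsBump ρ lo hi)
    (h : MvPolynomial (Fin r) ℂ) (b ts : Fin r → ℝ) (c : ℝ)
    (hpos : 0 < ∑ i, b i * ts i + c) (y : Fin r → ℝ) :
    ∫ u : ℝ, ((if 0 ≤ u then Real.exp (-c * u) else 0 : ℝ) : ℂ) *
      Psi ρ (formP b c * h) (fun i => y i - u * b i) = Psi ρ h y := by
  set β := ∑ i, b i * ts i + c with hβ
  -- bound
  have hbd : ∀ g : MvPolynomial (Fin r) ℂ, ∃ C0 : ℝ, 0 ≤ C0 ∧ ∀ u : ℝ,
      ‖(Real.exp (-c * u) : ℂ) * Psi ρ g (fun i => y i - u * b i)‖ ≤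
        C0 * Real.exp (-β * u) := by
    intro g
    obtain ⟨Cb, hCb0, hCb⟩ := Psi_bound hρ g ts
    refine ⟨Cb * Real.exp (∑ i, ts i * y i), by positivity, fun u => ?_⟩
    rw [norm_mul, Complex.norm_real, Real.norm_eq_abs, abs_of_pos (Real.exp_pos _)]
    have h1 := hCb (fun i => y i - u * b i)
    have h2 : Real.exp (-c * u) * Real.exp (∑ i, ts i * (y i - u * b i)) =
        Real.exp (∑ i, ts i * y i) * Real.exp (-β * u) := by
      rw [← Real.exp_add, ← Real.exp_add]
      congr 1
      have : ∑ i, ts i * (y i - u * b i) = ∑ i, ts i * y i - u * ∑ i, b i * ts i := by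
        rw [Finset.mul_sum, ← Finset.sum_sub_distrib]
        refine Finset.sum_congr rfl fun i _ => ?_
        ring
      rw [this, hβ]; ring
    calc Real.exp (-c * u) * ‖Psi ρ g (fun i => y i - u * b i)‖
        ≤ Real.exp (-c * u) * (Cb * Real.exp (∑ i, ts i * (y i - u * b i))) :=
          mul_le_mul_of_nonneg_left h1 (Real.exp_pos _).le
      _ = Cb * (Real.exp (-c * u) * Real.exp (∑ i, ts i * (y i - u * b i))) := by ring
      _ = _ := by rw [h2]; ring
  have hcont : ∀ g : MvPolynomial (Fin r) ℂ, Continuous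
      (fun u : ℝ => (Real.exp (-c * u) : ℂ) * Psi ρ g (fun i => y i - u * b i)) := by
    intro g
    apply Continuous.mul
    · exact Complex.continuous_ofReal.comp (by fun_prop)
    · exact (Psi_continuous hρ g).comp (by fun_prop)
  have h1 : (fun u : ℝ => ((if 0 ≤ u then Real.exp (-c * u) else 0 : ℝ) : ℂ) *
      Psi ρ (formP b c * h) (fun i => y i - u * b i)) = (Set.Ici (0 : ℝ)).indicator
      (fun u => (Real.exp (-c * u) : ℂ) * Psi ρ (formP b c * h) (fun i => y i - u * b i)) := by
    funext u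
    by_cases hu : 0 ≤ u
    · rw [if_pos hu, Set.indicator_of_mem (Set.mem_Ici.mpr hu)]
    · rw [if_neg hu, Set.indicator_of_notMem (by simpa using hu)]; simp
  rw [h1, integral_indicator measurableSet_Ici, integral_Ici_eq_integral_Ioi]
  have hd : ∀ u ∈ Set.Ici (0 : ℝ), HasDerivAt
      (fun u : ℝ => -((Real.exp (-c * u) : ℂ) * Psi ρ h (fun i => y i - u * b i)))
      ((Real.exp (-c * u) : ℂ) * Psi ρ (formP b c * h) (fun i => y i - u * b i)) u := by
    intro u _
    have e1 : HasDerivAt (fun u : ℝ => (Real.exp (-c * u) : ℂ))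
        (((-c * Real.exp (-c * u) : ℝ)) : ℂ) u := by
      have : HasDerivAt (fun u : ℝ => Real.exp (-c * u)) (-c * Real.exp (-c * u)) u := by
        have h0 : HasDerivAt (fun u : ℝ => -c * u) (-c) u := by
          simpa using (hasDerivAt_id u).const_mul (-c)
        have := h0.exp
        rw [mul_comm] at this
        exact this
      exact this.ofReal_comp
    have e2 := Psi_hasDerivAt hρ h b y u
    refine ((e1.mul e2).neg).congr_deriv ?_
    rw [formP_eq b c, add_mul, Psi_add, ← smul_eq_C_mul, map_smul, Pi.smul_apply, smul_eq_mul]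
    push_cast
    ring
  have hint : IntegrableOn (fun u : ℝ => (Real.exp (-c * u) : ℂ) *
      Psi ρ (formP b c * h) (fun i => y i - u * b i)) (Set.Ioi 0) := by
    obtain ⟨C0, hC0, hb0⟩ := hbd (formP b c * h)
    exact ((exp_neg_integrableOn_Ioi 0 hpos).const_mul C0).mono'
      (hcont _).aestronglyMeasurable (Filter.Eventually.of_forall hb0)
  have hlim : Filter.Tendsto
      (fun u : ℝ => -((Real.exp (-c * u) : ℂ) * Psi ρ h (fun i => y i - u * b i)))
      Filter.atTop (nhds 0) := by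
    obtain ⟨C0, hC0, hb0⟩ := hbd h
    apply squeeze_zero_norm (a := fun u => C0 * Real.exp (-β * u))
    · intro u; rw [norm_neg]; exact hb0 u
    · have : Filter.Tendsto (fun u : ℝ => Real.exp (-β * u)) Filter.atTop (nhds 0) := by
        apply Real.tendsto_exp_atBot.comp
        exact (Filter.tendsto_id.const_mul_atTop_of_neg (by linarith : -β < 0))
      simpa using this.const_mul C0
  rw [integral_Ioi_of_hasDerivAt_of_tendsto' hd hint hlim]
  simp

omit [Fintype ι] in
lemma wt_erase_ne (c : ι → ℝ) (F : Finset ι) {k p : ι} (hk : k ≠ p) (u : ℝ) :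
    wt c (F.erase p) k u = wt c F k u := by
  unfold wt
  simp [Finset.mem_erase, hk]

/-- removal of a form from the family -/
theorem MF_remove {b : ι → Fin r → ℝ} {c : ι → ℝ} {F : Finset ι} {ρ : Fin r → ℝ → ℂ}
    {lo hi : ℝ} (hρ : IsBump ρ lo hi) (h : MvPolynomial (Fin r) ℂ) (hF : PosF b c F)
    {p : ι} (hp : p ∈ F) :
    MF b c F ρ (formP (b p) (c p) * h) = MF b c (F.erase p) ρ h := by
  unfold MF
  apply integral_congr_coord p _ _ (integrable_Mint hρ _ hF)
    (integrable_Mint hρ _ (hF.mono (Finset.erase_subset _ _)))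
  intro τ
  obtain ⟨ts, hts⟩ := hF
  set W : ℝ := ∏ k ∈ univ.erase p, wt c F k (τ k) with hW
  set y : Fin r → ℝ := pt b (F.erase p) τ with hy
  have hW1 : ∀ u, ∏ k, wt c F k (Function.update τ p u k) = wt c F p u * W := by
    intro u
    rw [← Finset.mul_prod_erase _ _ (Finset.mem_univ p), Function.update_self]
    congr 1
    refine Finset.prod_congr rfl fun k hk => ?_
    rw [Function.update_of_ne (Finset.ne_of_mem_erase hk)]
  have hW2 : ∀ u, ∏ k, wt c (F.erase p) k (Function.update τ p u k) =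
      wt c (F.erase p) p u * W := by
    intro u
    rw [← Finset.mul_prod_erase _ _ (Finset.mem_univ p), Function.update_self]
    congr 1
    refine Finset.prod_congr rfl fun k hk => ?_
    rw [Function.update_of_ne (Finset.ne_of_mem_erase hk),
      wt_erase_ne _ _ (Finset.ne_of_mem_erase hk)]
  have hp1 : ∀ u, pt b F (Function.update τ p u) = fun i => y i - u * b p i := by
    intro u
    funext i
    simp only [hy, pt]
    rw [← Finset.add_sum_erase _ _ hp, Function.update_self]
    have : ∑ k ∈ F.erase p, Function.update τ p u k * b k i = ∑ k ∈ F.erase p, τ k * b k i := by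
      refine Finset.sum_congr rfl fun k hk => ?_
      rw [Function.update_of_ne (Finset.ne_of_mem_erase hk)]
    rw [this]; ring
  have hp2 : ∀ u, pt b (F.erase p) (Function.update τ p u) = y := by
    intro u
    funext i
    simp only [hy, pt]
    congr 1
    refine Finset.sum_congr rfl fun k hk => ?_
    rw [Function.update_of_ne (Finset.ne_of_mem_erase hk)]
  unfold Mint
  simp only [hW1, hW2, hp1, hp2]
  have e1 : ∀ u : ℝ, (((wt c F p u * W : ℝ)) : ℂ) *
      Psi ρ (formP (b p) (c p) * h) (fun i => y i - u * b p i) =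
      (W : ℂ) * (((if 0 ≤ u then Real.exp (-(c p) * u) else 0 : ℝ) : ℂ) *
        Psi ρ (formP (b p) (c p) * h) (fun i => y i - u * b p i)) := by
    intro u
    unfold wt
    rw [if_pos hp]
    push_cast
    ring
  have e2 : ∀ u : ℝ, (((wt c (F.erase p) p u * W : ℝ)) : ℂ) * Psi ρ h y =
      ((W : ℂ) * Psi ρ h y) * ((if 0 ≤ u ∧ u ≤ 1 then (1 : ℝ) else 0 : ℝ) : ℂ) := by
    intro u
    unfold wt
    rw [if_neg (Finset.notMem_erase p F)]
    push_cast
    ring
  simp only [e1, e2]
  rw [integral_const_mul, integral_const_mul, ftc_one hρ h (b p) ts (c p) (hts p hp) y]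
  rw [integral_complex_ofReal]
  have e3 : ∫ u : ℝ, (if 0 ≤ u ∧ u ≤ 1 then (1 : ℝ) else 0) = 1 := by
    have h1 : (fun u : ℝ => if 0 ≤ u ∧ u ≤ 1 then (1 : ℝ) else 0) =
        (Set.Icc (0 : ℝ) 1).indicator (fun _ => (1 : ℝ)) := by
      funext u
      by_cases hu : 0 ≤ u ∧ u ≤ 1
      · rw [if_pos hu, Set.indicator_of_mem (Set.mem_Icc.mpr hu)]
      · rw [if_neg hu, Set.indicator_of_notMem (by simpa [Set.mem_Icc] using hu)]
    rw [h1, integral_indicator measurableSet_Icc]
    simp
  rw [e3]; simp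

end Pool.Agent.H22

namespace Pool.Agent.H22

open MvPolynomial Finset MeasureTheory

variable {r : ℕ} {ι : Type*} [Fintype ι] [DecidableEq ι]

section linear

variable {b : ι → Fin r → ℝ} {c : ι → ℝ} {F : Finset ι} {ρ : Fin r → ℝ → ℂ} {lo hi : ℝ}

lemma MF_add (hρ : IsBump ρ lo hi) (hF : PosF b c F) (p q : MvPolynomial (Fin r) ℂ) :
    MF b c F ρ (p + q) = MF b c F ρ p + MF b c F ρ q := by
  unfold MF
  rw [← integral_add (integrable_Mint hρ p hF) (integrable_Mint hρ q hF)]
  refine integral_congr_ae (Filter.Eventually.of_forall fun τ => ?_)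
  simp only [Mint, Psi_add]
  ring

lemma MF_C_mul (a : ℂ) (p : MvPolynomial (Fin r) ℂ) :
    MF b c F ρ (C a * p) = a * MF b c F ρ p := by
  unfold MF
  rw [← integral_const_mul]
  refine integral_congr_ae (Filter.Eventually.of_forall fun τ => ?_)
  simp only [Mint]
  rw [← smul_eq_C_mul, map_smul, Pi.smul_apply, smul_eq_mul]
  ring

lemma MF_zero : MF b c F ρ 0 = 0 := by
  have := MF_C_mul (b := b) (c := c) (F := F) (ρ := ρ) 0 0
  simpa using this

lemma MF_sum (hρ : IsBump ρ lo hi) (hF : PosF b c F) {κ : Type*} (s : Finset κ)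
    (p : κ → MvPolynomial (Fin r) ℂ) :
    MF b c F ρ (∑ x ∈ s, p x) = ∑ x ∈ s, MF b c F ρ (p x) := by
  classical
  induction s using Finset.induction_on with
  | empty => simp [MF_zero]
  | insert x s hx ih => rw [Finset.sum_insert hx, Finset.sum_insert hx, MF_add hρ hF, ih]

lemma MF_remove_many (hρ : IsBump ρ lo hi) (hF : PosF b c F) (h : MvPolynomial (Fin r) ℂ)
    (G : Finset ι) (hG : G ⊆ F) :
    MF b c F ρ ((∏ k ∈ G, formP (b k) (c k)) * h) = MF b c (F \ G) ρ h := by
  induction G using Finset.induction_on generalizing h with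
  | empty => simp
  | insert p G hp ih =>
    rw [Finset.prod_insert hp]
    have h1 : formP (b p) (c p) * (∏ k ∈ G, formP (b k) (c k)) * h =
        (∏ k ∈ G, formP (b k) (c k)) * (formP (b p) (c p) * h) := by ring
    rw [h1, ih _ (fun x hx => hG (Finset.mem_insert_of_mem hx))]
    have hpm : p ∈ F \ G := by
      rw [Finset.mem_sdiff]
      exact ⟨hG (Finset.mem_insert_self _ _), hp⟩
    rw [MF_remove hρ h (hF.mono Finset.sdiff_subset) hpm]
    congr 1
    ext x
    simp only [Finset.mem_erase, Finset.mem_sdiff, Finset.mem_insert]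
    tauto

lemma MF_vanish (hρ : IsBump ρ lo hi) (h : MvPolynomial (Fin r) ℂ) (mv : Fin r → ℝ)
    (hk : ∀ k ∈ F, 0 ≤ ∑ i, mv i * b k i)
    (hx : ∀ x : Fin r → ℝ, (∀ i, x i ∈ Set.Icc lo hi) → 0 < ∑ i, mv i * x i) :
    MF b c F ρ h = 0 := by
  unfold MF
  have : ∀ τ, Mint b c F ρ h τ = 0 := by
    intro τ
    unfold Mint
    by_cases hτ : ∀ k ∈ F, 0 ≤ τ k
    · rw [Psi_eq_zero hρ h (pt b F τ) (by
        by_contra hcon
        push Not at hcon
        have h1 := hx _ hcon
        have h2 : ∑ i, mv i * pt b F τ i = -∑ k ∈ F, τ k * ∑ i, mv i * b k i := by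
          unfold pt
          simp only [mul_neg, Finset.sum_neg_distrib, neg_inj, Finset.mul_sum]
          rw [Finset.sum_comm]
          refine Finset.sum_congr rfl fun k _ => Finset.sum_congr rfl fun i _ => ?_
          ring
        rw [h2] at h1
        have h3 : 0 ≤ ∑ k ∈ F, τ k * ∑ i, mv i * b k i :=
          Finset.sum_nonneg fun k hk' => mul_nonneg (hτ k hk') (hk k hk')
        linarith)]
      simp
    · push Not at hτ
      obtain ⟨k, hkF, hk0⟩ := hτ
      rw [Finset.prod_eq_zero (Finset.mem_univ k)]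
      · simp
      · unfold wt
        rw [if_pos hkF, if_neg (by linarith)]
  simp only [this]
  simp

end linear

/-! ### twist by an exponential -/

lemma exp_twist_bump {ρ : Fin r → ℝ → ℂ} {lo hi : ℝ} (hρ : IsBump ρ lo hi) (t0 : Fin r → ℝ) :
    IsBump (fun i x => (Real.exp (-(t0 i) * x) : ℂ) * ρ i x) lo hi := by
  constructor
  · intro i
    apply ContDiff.mul _ (hρ.smooth i)
    apply Complex.ofRealCLM.contDiff.comp
    apply Real.contDiff_exp.comp
    fun_prop
  · intro i x hx
    rw [hρ.supp i x hx, mul_zero]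

lemma Psi_hasDerivAt_X {ρ : Fin r → ℝ → ℂ} {lo hi : ℝ} (hρ : IsBump ρ lo hi)
    (h : MvPolynomial (Fin r) ℂ) (j : Fin r) (y : Fin r → ℝ) :
    HasDerivAt (fun u : ℝ => Psi ρ h (fun i => y i + u * (if i = j then 1 else 0)))
      (Psi ρ (X j * h) y) 0 := by
  have h1 := Psi_hasDerivAt hρ h (fun i => if i = j then -1 else 0) y 0
  have h2 : formP (fun i => if i = j then (-1 : ℝ) else 0) 0 =
      -(X j : MvPolynomial (Fin r) ℂ) := by
    unfold formP
    rw [Finset.sum_eq_single j]
    · simp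
    · intro i _ hi; simp [hi]
    · intro h; exact absurd (Finset.mem_univ _) h
  rw [h2] at h1
  have h3 : (fun u : ℝ => Psi ρ h (fun i => y i - u * (if i = j then (-1 : ℝ) else 0))) =
      (fun u : ℝ => Psi ρ h (fun i => y i + u * (if i = j then 1 else 0))) := by
    funext u
    refine congrArg (Psi ρ h) (funext fun i => ?_)
    split_ifs <;> ring
  rw [h3] at h1
  refine h1.congr_deriv ?_
  rw [neg_mul, map_neg]
  simp

/-- translation of polynomials -/
noncomputable def shiftP (t0 : Fin r → ℝ) :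
    MvPolynomial (Fin r) ℂ →ₐ[ℂ] MvPolynomial (Fin r) ℂ :=
  MvPolynomial.aeval (fun i => X i + C (t0 i : ℂ))

lemma Psi_twist {ρ : Fin r → ℝ → ℂ} {lo hi : ℝ} (hρ : IsBump ρ lo hi) (t0 : Fin r → ℝ)
    (h : MvPolynomial (Fin r) ℂ) (x : Fin r → ℝ) :
    (Real.exp (-(∑ i, t0 i * x i)) : ℂ) * Psi ρ h x =
      Psi (fun i x => (Real.exp (-(t0 i) * x) : ℂ) * ρ i x) (shiftP t0 h) x := by
  have hρ' := exp_twist_bump hρ t0
  induction h using MvPolynomial.induction_on generalizing x with
  | C a =>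
    have h1 : ∀ ρ' : Fin r → ℝ → ℂ, Psi ρ' (C a) x = a * ∏ i, ρ' i (x i) := by
      intro ρ'
      have := Psi_monomial ρ' 0 a x
      simpa using this
    rw [shiftP, MvPolynomial.algHom_C, MvPolynomial.algebraMap_eq, h1, h1,
      Finset.prod_mul_distrib]
    have h2 : ∏ i, ((Real.exp (-(t0 i) * x i) : ℝ) : ℂ) =
        (Real.exp (-(∑ i, t0 i * x i)) : ℂ) := by
      rw [← Complex.ofReal_prod, ← Real.exp_sum]
      congr 2
      rw [← Finset.sum_neg_distrib]
      refine Finset.sum_congr rfl fun i _ => ?_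
      ring
    rw [h2]; ring
  | add p q hp hq =>
    rw [Psi_add, mul_add, hp, hq, map_add, Psi_add]
  | mul_X p j hp =>
    -- differentiate the induction hypothesis in direction j
    have e1 : HasDerivAt (fun u : ℝ =>
        (Real.exp (-(∑ i, t0 i * (x i + u * (if i = j then 1 else 0)))) : ℂ) *
          Psi ρ p (fun i => x i + u * (if i = j then 1 else 0)))
        ((((-(t0 j)) * Real.exp (-(∑ i, t0 i * x i)) : ℝ) : ℂ) * Psi ρ p x +
          (Real.exp (-(∑ i, t0 i * x i)) : ℂ) * Psi ρ (X j * p) x) 0 := by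
      have d1 : HasDerivAt (fun u : ℝ =>
          Real.exp (-(∑ i, t0 i * (x i + u * (if i = j then 1 else 0)))))
          ((-(t0 j)) * Real.exp (-(∑ i, t0 i * x i))) 0 := by
        have d0 : HasDerivAt (fun u : ℝ =>
            (-(∑ i, t0 i * (x i + u * (if i = j then 1 else 0))))) (-(t0 j)) 0 := by
          have : (fun u : ℝ => (-(∑ i, t0 i * (x i + u * (if i = j then 1 else 0))))) =
              fun u => -(∑ i, t0 i * x i) + u * (-(t0 j)) := by
            funext u
            have : ∑ i, t0 i * (x i + u * (if i = j then 1 else 0)) =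
                ∑ i, t0 i * x i + u * t0 j := by
              simp only [mul_add, Finset.sum_add_distrib]
              congr 1
              rw [Finset.sum_eq_single j]
              · simp; ring
              · intro i _ hi; simp [hi]
              · intro h; exact absurd (Finset.mem_univ _) h
            rw [this]; ring
          rw [this]
          have := ((hasDerivAt_id (0 : ℝ)).mul_const (-(t0 j))).const_add (-(∑ i, t0 i * x i))
          simpa using this
        have := d0.exp
        simp only [zero_mul, add_zero] at this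
        rw [mul_comm] at this
        exact this
      have d2 := d1.ofReal_comp
      have d3 := d2.mul (Psi_hasDerivAt_X hρ p j x)
      refine d3.congr_deriv ?_
      simp
    have e2 := Psi_hasDerivAt_X hρ' (shiftP t0 p) j x
    have e3 : (fun u : ℝ =>
        (Real.exp (-(∑ i, t0 i * (x i + u * (if i = j then 1 else 0)))) : ℂ) *
          Psi ρ p (fun i => x i + u * (if i = j then 1 else 0))) =
        fun u => Psi (fun i x => (Real.exp (-(t0 i) * x) : ℂ) * ρ i x) (shiftP t0 p)
          (fun i => x i + u * (if i = j then 1 else 0)) := by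
      funext u
      exact hp _
    rw [e3] at e1
    have e4 := e1.unique e2
    have e5 : shiftP t0 (p * X j) = X j * shiftP t0 p + C (t0 j : ℂ) * shiftP t0 p := by
      rw [map_mul]
      simp only [shiftP, aeval_X]
      ring
    rw [e5, Psi_add, ← e4, ← smul_eq_C_mul, map_smul, Pi.smul_apply, ← hp x, mul_comm p (X j),
      smul_eq_mul]
    push_cast
    ring

/-- relation between the functional with `c_k = -⟨b_k,t0⟩` and the one with `c = 0` -/
theorem MF_twist {b : ι → Fin r → ℝ} {c : ι → ℝ} {F : Finset ι} {ρ : Fin r → ℝ → ℂ} {lo hi : ℝ}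
    (hρ : IsBump ρ lo hi) (t0 : Fin r → ℝ) (hc : ∀ k ∈ F, ∑ i, b k i * t0 i + c k = 0)
    (h : MvPolynomial (Fin r) ℂ) :
    MF b c F ρ h =
      MF b 0 F (fun i x => (Real.exp (-(t0 i) * x) : ℂ) * ρ i x) (shiftP t0 h) := by
  unfold MF
  refine integral_congr_ae (Filter.Eventually.of_forall fun τ => ?_)
  simp only [Mint]
  rw [← Psi_twist hρ t0 h (pt b F τ), ← mul_assoc]
  congr 1
  rw [← Complex.ofReal_mul]
  congr 1
  have h1 : Real.exp (-(∑ i, t0 i * pt b F τ i)) =
      ∏ k, (if k ∈ F then Real.exp (-(c k) * τ k) else 1) := by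
    rw [Finset.prod_ite_mem, Finset.univ_inter, ← Real.exp_sum]
    congr 1
    unfold pt
    simp only [mul_neg, Finset.sum_neg_distrib, neg_neg, Finset.mul_sum]
    rw [Finset.sum_comm]
    refine Finset.sum_congr rfl fun k hk => ?_
    have h2 : ∑ i, t0 i * (τ k * b k i) = τ k * ∑ i, b k i * t0 i := by
      rw [Finset.mul_sum]
      refine Finset.sum_congr rfl fun i _ => ?_
      ring
    rw [h2]
    have := hc k hk
    have h3 : ∑ i, b k i * t0 i = -(c k) := by linarith
    rw [h3]; ring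
  rw [h1, ← Finset.prod_mul_distrib]
  refine Finset.prod_congr rfl fun k _ => ?_
  unfold wt
  by_cases hk : k ∈ F
  · simp only [hk, if_true]
    split_ifs <;> simp
  · simp only [hk, if_false]; simp

/-! ### scaling -/

/-- `h(μ X)` -/
noncomputable def scaleP (r : ℕ) (μ : ℂ) : MvPolynomial (Fin r) ℂ →ₐ[ℂ] MvPolynomial (Fin r) ℂ :=
  MvPolynomial.aeval (fun i => C μ * X i)

lemma scaleP_monomial (μ : ℂ) (m : Fin r →₀ ℕ) (a : ℂ) :
    scaleP r μ (monomial m a) = monomial m (a * ∏ i, μ ^ (m i)) := by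
  unfold scaleP
  rw [aeval_monomial, MvPolynomial.algebraMap_eq]
  rw [Finsupp.prod_fintype _ _ (by intro i; simp)]
  simp only [mul_pow, Finset.prod_mul_distrib]
  rw [monomial_eq, Finsupp.prod_fintype _ _ (by intro i; simp)]
  simp only [map_mul, map_prod, map_pow]
  ring

lemma bump_scale {ρ : Fin r → ℝ → ℂ} {lo hi μ : ℝ} (hμ : 0 < μ) (hρ : IsBump ρ lo hi) :
    IsBump (fun i x => ρ i (μ * x)) (lo / μ) (hi / μ) := by
  constructor
  · intro i
    exact (hρ.smooth i).comp (by fun_prop)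
  · intro i x hx
    apply hρ.supp
    intro h
    apply hx
    rw [Set.mem_Icc] at h ⊢
    rw [div_le_iff₀ hμ, le_div_iff₀ hμ]
    constructor <;> nlinarith [h.1, h.2]

lemma Psi_scale {ρ : Fin r → ℝ → ℂ} {lo hi μ : ℝ} (hρ : IsBump ρ lo hi)
    (h : MvPolynomial (Fin r) ℂ) (x : Fin r → ℝ) :
    Psi (fun i x => ρ i (μ * x)) h x = Psi ρ (scaleP r μ h) (fun i => μ * x i) := by
  induction h using MvPolynomial.induction_on' with
  | monomial m a =>
    rw [Psi_monomial, scaleP_monomial, Psi_monomial, mul_assoc, ← Finset.prod_mul_distrib]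
    congr 1
    refine Finset.prod_congr rfl fun i _ => ?_
    have h1 := iteratedDeriv_comp_const_smul (n := m i) (f := ρ i)
      ((hρ.smooth i).of_le (by exact_mod_cast le_top)) μ
    rw [h1]
    simp
  | add p q hp hq =>
    rw [Psi_add, map_add, Psi_add, hp, hq]

omit [Fintype ι] in
lemma pt_scale (b : ι → Fin r → ℝ) (F : Finset ι) (μ : ℝ) (τ : ι → ℝ) :
    pt b F (fun k => (if k ∈ F then μ else 1) * τ k) = fun i => μ * pt b F τ i := by
  funext i
  unfold pt
  rw [mul_neg, neg_inj, Finset.mul_sum]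
  refine Finset.sum_congr rfl fun k hk => ?_
  simp only [if_pos hk]; ring

theorem MF_scale {b : ι → Fin r → ℝ} {F : Finset ι} {ρ : Fin r → ℝ → ℂ} {lo hi μ : ℝ}
    (hμ : 0 < μ) (hρ : IsBump ρ lo hi) (h : MvPolynomial (Fin r) ℂ) :
    ∃ κ : ℂ, κ ≠ 0 ∧ MF b 0 F ρ (scaleP r μ h) =
      κ * MF b 0 F (fun i x => ρ i (μ * x)) h := by
  set d : ι → ℝ := fun k => if k ∈ F then μ else 1 with hd
  have hd0 : ∀ k, 0 < d k := by
    intro k; simp only [hd]; split_ifs <;> linarith
  have hdet : Matrix.det (Matrix.diagonal d) ≠ 0 := by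
    rw [Matrix.det_diagonal]
    exact (Finset.prod_pos fun k _ => hd0 k).ne'
  refine ⟨((|Matrix.det (Matrix.diagonal d)| : ℝ) : ℂ), by
    rw [Complex.ofReal_ne_zero]; exact abs_ne_zero.mpr hdet, ?_⟩
  have hvol := Real.smul_map_diagonal_volume_pi hdet
  unfold MF
  conv_lhs => rw [← hvol]
  rw [integral_smul_measure]
  rw [ENNReal.toReal_ofReal (abs_nonneg _)]
  have hmeas : Measurable (Matrix.toLin' (Matrix.diagonal d)) :=
    (LinearMap.continuous_on_pi _).measurable
  rw [integral_map hmeas.aemeasurable (measurable_Mint hρ _).aestronglyMeasurable]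
  rw [Complex.real_smul]
  congr 1
  refine integral_congr_ae (Filter.Eventually.of_forall fun τ => ?_)
  have h1 : Matrix.toLin' (Matrix.diagonal d) τ = fun k => (if k ∈ F then μ else 1) * τ k := by
    funext k
    rw [Matrix.toLin'_apply, Matrix.mulVec_diagonal]
  simp only [Mint]
  rw [h1, pt_scale, ← Psi_scale hρ h]
  congr 2
  refine Finset.prod_congr rfl fun k _ => ?_
  unfold wt
  by_cases hk : k ∈ F
  · simp only [hk, if_true]
    have : (0 ≤ μ * τ k) ↔ (0 ≤ τ k) := by
      constructor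
      · intro h; exact nonneg_of_mul_nonneg_right h hμ
      · intro h; positivity
    by_cases h0 : 0 ≤ τ k
    · rw [if_pos (this.mpr h0), if_pos h0]; simp
    · rw [if_neg (fun h => h0 (this.mp h)), if_neg h0]
  · simp only [hk, if_false]; simp

/-! ### the ideal of polynomials annihilated near a ray -/

/-- product bumps supported in a narrow cone around the ray `-(1,…,1)` -/
def Conic (δ : ℝ) (ρ : Fin r → ℝ → ℂ) : Prop :=
  ∃ N : ℝ, 0 < N ∧ IsBump ρ (-(N * (1 + δ))) (-(N * (1 - δ)))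

lemma Conic.scale {δ : ℝ} {ρ : Fin r → ℝ → ℂ} (h : Conic δ ρ) {μ : ℝ} (hμ : 0 < μ) :
    Conic δ (fun i x => ρ i (μ * x)) := by
  obtain ⟨N, hN, hb⟩ := h
  refine ⟨N / μ, by positivity, ?_⟩
  have := bump_scale hμ hb
  have e1 : -(N * (1 + δ)) / μ = -(N / μ * (1 + δ)) := by field_simp
  have e2 : -(N * (1 - δ)) / μ = -(N / μ * (1 - δ)) := by field_simp
  rw [e1, e2] at this
  exact this

lemma bump_deriv {ρ : Fin r → ℝ → ℂ} {lo hi : ℝ} (hρ : IsBump ρ lo hi) (m : Fin r →₀ ℕ) :
    IsBump (fun i => iteratedDeriv (m i) (ρ i)) lo hi := by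
  constructor
  · intro i
    rw [iteratedDeriv_eq_iterate]
    exact ContDiff.iterate_deriv _ (hρ.smooth i)
  · intro i x hx
    exact iteratedDeriv_eq_zero_of_notMem (hρ.supp i) (m i) x hx

lemma Conic.deriv {δ : ℝ} {ρ : Fin r → ℝ → ℂ} (h : Conic δ ρ) (m : Fin r →₀ ℕ) :
    Conic δ (fun i => iteratedDeriv (m i) (ρ i)) := by
  obtain ⟨N, hN, hb⟩ := h
  exact ⟨N, hN, bump_deriv hb m⟩

lemma Conic.twist {δ : ℝ} {ρ : Fin r → ℝ → ℂ} (h : Conic δ ρ) (t0 : Fin r → ℝ) :
    Conic δ (fun i x => (Real.exp (-(t0 i) * x) : ℂ) * ρ i x) := by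
  obtain ⟨N, hN, hb⟩ := h
  exact ⟨N, hN, exp_twist_bump hb t0⟩

lemma Psi_monomial_mul (ρ : Fin r → ℝ → ℂ) (m : Fin r →₀ ℕ) (a : ℂ)
    (h : MvPolynomial (Fin r) ℂ) (x : Fin r → ℝ) :
    Psi ρ (monomial m a * h) x = a * Psi (fun i => iteratedDeriv (m i) (ρ i)) h x := by
  induction h using MvPolynomial.induction_on' with
  | monomial m' a' =>
    rw [monomial_mul, Psi_monomial, Psi_monomial, mul_assoc]
    congr 2
    refine Finset.prod_congr rfl fun i _ => ?_
    rw [Finsupp.add_apply, iteratedDeriv_eq_iterate, iteratedDeriv_eq_iterate,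
      iteratedDeriv_eq_iterate, add_comm, Function.iterate_add_apply]
  | add p q hp hq =>
    rw [mul_add, Psi_add, hp, hq, Psi_add]; ring

lemma MF_monomial_mul (b : ι → Fin r → ℝ) (c : ι → ℝ) (F : Finset ι) (ρ : Fin r → ℝ → ℂ)
    (m : Fin r →₀ ℕ) (a : ℂ) (h : MvPolynomial (Fin r) ℂ) :
    MF b c F ρ (monomial m a * h) =
      a * MF b c F (fun i => iteratedDeriv (m i) (ρ i)) h := by
  unfold MF
  rw [← integral_const_mul]
  refine integral_congr_ae (Filter.Eventually.of_forall fun τ => ?_)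
  simp only [Mint]
  rw [Psi_monomial_mul]
  ring

/-- The ideal of polynomials `h` such that `h(∂)` kills the homogeneous functional near the ray. -/
noncomputable def annIdeal (b : ι → Fin r → ℝ) (F : Finset ι) (hF : PosF b 0 F) (δ : ℝ) :
    Ideal (MvPolynomial (Fin r) ℂ) where
  carrier := {h | ∀ ρ, Conic δ ρ → MF b 0 F ρ h = 0}
  add_mem' := by
    intro p q hp hq ρ hρ
    obtain ⟨N, hN, hb⟩ := id hρ
    rw [MF_add hb hF, hp ρ hρ, hq ρ hρ, add_zero]
  zero_mem' := by
    intro ρ _
    exact MF_zero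
  smul_mem' := by
    intro p h hh
    simp only [smul_eq_mul, Set.mem_ofPred_eq]
    induction p using MvPolynomial.induction_on' with
    | monomial m a =>
      intro ρ hρ
      rw [MF_monomial_mul, hh _ (hρ.deriv m), mul_zero]
    | add p q hp hq =>
      intro ρ hρ
      obtain ⟨N, hN, hb⟩ := id hρ
      rw [add_mul, MF_add hb hF, hp ρ hρ, hq ρ hρ, add_zero]

lemma mem_annIdeal {b : ι → Fin r → ℝ} {F : Finset ι} {hF : PosF b 0 F} {δ : ℝ}
    {h : MvPolynomial (Fin r) ℂ} :
    h ∈ annIdeal b F hF δ ↔ ∀ ρ, Conic δ ρ → MF b 0 F ρ h = 0 := Iff.rfl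

lemma scale_mem_annIdeal {b : ι → Fin r → ℝ} {F : Finset ι} {hF : PosF b 0 F} {δ : ℝ}
    {h : MvPolynomial (Fin r) ℂ} (hh : h ∈ annIdeal b F hF δ) {μ : ℝ} (hμ : 0 < μ) :
    scaleP r μ h ∈ annIdeal b F hF δ := by
  rw [mem_annIdeal] at *
  intro ρ hρ
  obtain ⟨N, hN, hb⟩ := id hρ
  obtain ⟨κ, _, hk⟩ := MF_scale (b := b) (F := F) hμ hb h
  rw [hk, hh _ (hρ.scale hμ), mul_zero]

end Pool.Agent.H22

namespace Pool.Agent.H22

open MvPolynomial Finset MeasureTheory

variable {r : ℕ} {ι : Type*} [Fintype ι] [DecidableEq ι]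

lemma poly_unit_cancel {A : Type*} [CommRing A] (p q : Polynomial A) (hp : IsUnit (p.coeff 0))
    (hpq : p * q = 0) : q = 0 := by
  have h1 : IsUnit (p : PowerSeries A) := by
    rw [PowerSeries.isUnit_iff_constantCoeff]
    have : PowerSeries.constantCoeff (p : PowerSeries A) = p.coeff 0 := by simp
    rw [this]; exact hp
  have h2 : (p : PowerSeries A) * (q : PowerSeries A) = 0 := by
    rw [← Polynomial.coe_mul, hpq]; simp
  have h3 : (q : PowerSeries A) = 0 := by
    obtain ⟨v, hv⟩ := h1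
    have := congrArg (fun z => ((v⁻¹ : Units (PowerSeries A)) : PowerSeries A) * z) h2
    simp only [mul_zero, ← mul_assoc] at this
    rw [← hv] at this
    simpa using this
  exact Polynomial.coe_injective A (by rw [h3]; simp)

/-- `h(μ X)` as a polynomial in `μ` -/
noncomputable def Theta (r : ℕ) : MvPolynomial (Fin r) ℂ →ₐ[ℂ]
    Polynomial (MvPolynomial (Fin r) ℂ) :=
  MvPolynomial.aeval (fun i => Polynomial.C (X i) * Polynomial.X)

lemma Theta_eval (μ : ℂ) (h : MvPolynomial (Fin r) ℂ) :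
    (Theta r h).eval (C μ) = scaleP r μ h := by
  induction h using MvPolynomial.induction_on with
  | C a =>
    unfold Theta scaleP
    rw [MvPolynomial.algHom_C, MvPolynomial.algHom_C]
    have : (algebraMap ℂ (Polynomial (MvPolynomial (Fin r) ℂ))) a = Polynomial.C (C a) := rfl
    rw [this, Polynomial.eval_C]
    rfl
  | add p q hp hq => rw [map_add, Polynomial.eval_add, hp, hq, map_add]
  | mul_X p i hp =>
    rw [map_mul, Polynomial.eval_mul, hp, map_mul]
    refine congrArg (scaleP r μ p * ·) ?_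
    unfold Theta scaleP
    rw [aeval_X, aeval_X]
    simp; ring

lemma scaleP_one (h : MvPolynomial (Fin r) ℂ) : scaleP r 1 h = h := by
  unfold scaleP
  simp

lemma scaleP_zero (h : MvPolynomial (Fin r) ℂ) :
    scaleP r 0 h = C (constantCoeff h) := by
  induction h using MvPolynomial.induction_on with
  | C a => unfold scaleP; rw [MvPolynomial.algHom_C]; simp
  | add p q hp hq => rw [map_add, hp, hq, map_add, map_add]
  | mul_X p i hp => rw [map_mul, map_mul]; unfold scaleP; rw [aeval_X]; simp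

lemma Theta_coeff_mem {b : ι → Fin r → ℝ} {F : Finset ι} {hF : PosF b 0 F} {δ : ℝ}
    {h : MvPolynomial (Fin r) ℂ} (hh : h ∈ annIdeal b F hF δ) (e : ℕ) :
    (Theta r h).coeff e ∈ annIdeal b F hF δ := by
  rw [mem_annIdeal]
  intro ρ hρ
  obtain ⟨N, hN, hb⟩ := id hρ
  set D := (Theta r h).natDegree + 1 with hD
  set q : Polynomial ℂ := ∑ e ∈ Finset.range D,
    Polynomial.monomial e (MF b 0 F ρ ((Theta r h).coeff e)) with hq
  have hev : ∀ μ : ℝ, 0 < μ → q.eval (μ : ℂ) = 0 := by
    intro μ hμ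
    have h1 := (mem_annIdeal.mp (scale_mem_annIdeal hh hμ)) ρ hρ
    rw [← Theta_eval, Polynomial.eval_eq_sum_range, ← hD, MF_sum hb hF] at h1
    rw [hq, Polynomial.eval_finsetSum, ← h1]
    refine Finset.sum_congr rfl fun e _ => ?_
    rw [Polynomial.eval_monomial, ← map_pow, mul_comm ((Theta r h).coeff e), MF_C_mul, mul_comm]
  have hq0 : q = 0 := by
    apply Polynomial.eq_zero_of_infinite_isRoot
    apply Set.Infinite.mono (s := Set.range (fun k : ℕ => ((k : ℂ) + 1)))
    · rintro _ ⟨k, rfl⟩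
      have := hev ((k : ℝ) + 1) (by positivity)
      simpa [Polynomial.IsRoot] using this
    · apply Set.infinite_range_of_injective
      intro x y hxy
      simp only [add_left_inj, Nat.cast_inj] at hxy
      exact hxy
  by_cases he : e < D
  · have h2 : q.coeff e = MF b 0 F ρ ((Theta r h).coeff e) := by
      rw [hq, Polynomial.finsetSum_coeff, Finset.sum_eq_single e]
      · rw [Polynomial.coeff_monomial, if_pos rfl]
      · intro e' _ hne; rw [Polynomial.coeff_monomial, if_neg hne]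
      · intro h'; exact absurd (Finset.mem_range.mpr he) h'
    rw [← h2, hq0]; simp
  · rw [Polynomial.coeff_eq_zero_of_natDegree_lt (by omega)]
    exact MF_zero

theorem unit_removal {b : ι → Fin r → ℝ} {F : Finset ι} {hF : PosF b 0 F} {δ : ℝ}
    {u G : MvPolynomial (Fin r) ℂ} (hu : constantCoeff u ≠ 0)
    (hh : u * G ∈ annIdeal b F hF δ) : G ∈ annIdeal b F hF δ := by
  set I := annIdeal b F hF δ with hI
  have h1 : ((Theta r u).map (Ideal.Quotient.mk I)) * ((Theta r G).map (Ideal.Quotient.mk I)) =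
      0 := by
    rw [← Polynomial.map_mul, ← map_mul]
    ext e
    rw [Polynomial.coeff_map, Polynomial.coeff_zero, Ideal.Quotient.eq_zero_iff_mem]
    exact Theta_coeff_mem hh e
  have h2 : IsUnit (((Theta r u).map (Ideal.Quotient.mk I)).coeff 0) := by
    rw [Polynomial.coeff_map]
    have h3 : (Theta r u).coeff 0 = C (constantCoeff u) := by
      rw [← scaleP_zero, ← Theta_eval, map_zero, Polynomial.coeff_zero_eq_eval_zero]
    rw [h3]
    have h4 : IsUnit (C (constantCoeff u) : MvPolynomial (Fin r) ℂ) :=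
      (IsUnit.mk0 _ hu).map (C : ℂ →+* MvPolynomial (Fin r) ℂ)
    exact h4.map (Ideal.Quotient.mk I)
  have h3 := poly_unit_cancel _ _ h2 h1
  have h4 : ∀ e, (Theta r G).coeff e ∈ I := by
    intro e
    have := congrArg (fun z => Polynomial.coeff z e) h3
    simp only [Polynomial.coeff_map, Polynomial.coeff_zero] at this
    exact Ideal.Quotient.eq_zero_iff_mem.mp this
  have h5 : G = (Theta r G).eval (C 1) := by rw [Theta_eval, scaleP_one]
  rw [h5, Polynomial.eval_eq_sum_range]
  apply Ideal.sum_mem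
  intro e _
  exact I.mul_mem_right _ (h4 e)

end Pool.Agent.H22

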