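import Pool.Agent.H22.Defs

/-! Action of differential operators on monomials. -/

namespace Pool.Agent.H22

open MvPolynomial Finset

/-- `(x)_m = x (x-1) ⋯ (x-m+1)` for a complex number `x`. -/
noncomputable def ff (x : ℂ) (m : ℕ) : ℂ := ∏ l ∈ Finset.range m, (x - l)

lemma ff_natCast (a m : ℕ) : ff (a : ℂ) m = (a.descFactorial m : ℂ) := by
  unfold ff
  induction m with
  | zero => simp
  | succ m ih =>
    rw [Finset.prod_range_succ, ih, Nat.descFactorial_succ]
    by_cases h : m ≤ a
    · rw [Nat.cast_mul, Nat.cast_sub h]; ring
    · push Not at h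
      rw [Nat.descFactorial_eq_zero_iff_lt.mpr h]; simp

lemma pderiv_pow_monomial {n : ℕ} (j : Fin n) (m : ℕ) (v : Fin n →₀ ℕ) (c : ℂ) :
    (((pderiv j : Derivation ℂ (MvPolynomial (Fin n) ℂ) (MvPolynomial (Fin n) ℂ)).toLinearMap)
      ^ m) (monomial v c) = monomial (v - Finsupp.single j m) (c * ff (v j) m) := by
  induction m with
  | zero => simp [ff]
  | succ m ih =>
    rw [pow_succ', Module.End.mul_apply, ih]
    simp only [Derivation.coeFn_coe]
    rw [pderiv_monomial]
    have h1 : v - Finsupp.single j m - Finsupp.single j 1 = v - Finsupp.single j (m + 1) := by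
      ext i
      by_cases hi : i = j
      · subst hi; simp; omega
      · simp [Finsupp.single_apply, Ne.symm hi]
    rw [h1]
    congr 1
    unfold ff
    rw [Finset.prod_range_succ, mul_assoc]
    congr 1
    by_cases hm : m ≤ v j
    · simp only [Finsupp.coe_tsub, Pi.sub_apply, Finsupp.single_eq_same]
      rw [Nat.cast_sub hm]
    · push Not at hm
      have : ∏ l ∈ Finset.range m, ((v j : ℂ) - l) = 0 := by
        apply Finset.prod_eq_zero (Finset.mem_range.mpr hm); simp
      rw [this]; simp

/-- action of `∂^β` on a monomial -/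
lemma diffPow_monomial {n : ℕ} (β v : Fin n →₀ ℕ) (c : ℂ) :
    diffPow β (monomial v c) = monomial (v - β) (c * ∏ j, ff (v j) (β j)) := by
  have key : ∀ (l : List (Fin n)), l.Nodup →
      ((l.map fun j =>
        ((pderiv j : Derivation ℂ (MvPolynomial (Fin n) ℂ)
          (MvPolynomial (Fin n) ℂ)).toLinearMap) ^ (β j)).prod) (monomial v c) =
      monomial (v - ∑ j ∈ l.toFinset, Finsupp.single j (β j))
        (c * ∏ j ∈ l.toFinset, ff (v j) (β j)) := by
    intro l
    induction l with
    | nil => intro _; simp
    | cons j l ih =>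
      intro hnd
      rw [List.nodup_cons] at hnd
      rw [List.map_cons, List.prod_cons, Module.End.mul_apply, ih hnd.2, pderiv_pow_monomial]
      have hj : j ∉ l.toFinset := by simpa using hnd.1
      rw [List.toFinset_cons, Finset.sum_insert hj, Finset.prod_insert hj]
      have h1 : (v - ∑ j ∈ l.toFinset, Finsupp.single j (β j)) j = v j := by
        simp only [Finsupp.coe_tsub, Pi.sub_apply, Finsupp.coe_finset_sum, Finset.sum_apply]
        have : ∑ x ∈ l.toFinset, (Finsupp.single x (β x)) j = 0 := by
          apply Finset.sum_eq_zero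
          intro x hx
          rw [Finsupp.single_apply, if_neg]
          rintro rfl
          exact hj hx
        rw [this]; simp
      rw [h1]
      congr 1
      · rw [tsub_tsub, add_comm]
      · ring
  have h := key (List.finRange n) (List.nodup_finRange n)
  unfold diffPow
  rw [h]
  have h2 : (List.finRange n).toFinset = Finset.univ := by
    ext x; simp
  rw [h2]
  congr 2
  ext i
  simp [Finsupp.single_apply]

end Pool.Agent.H22
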